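import Pool.Agent.Lib.MP_bae66e_nt.P2.EB

/-!
# Constants
-/

set_option autoImplicit false

namespace Pool.Agent.Lib.MP_bae66e_nt.P2

open Finset AP3 Filter Topology

/-- bound for the sum of the absolute values of the weights -/
noncomputable def B1f (cK : ℝ) (k : ℕ) : ℝ := 338 * (((1110 * k : ℕ) : ℝ) / cK)

/-- bound for the weight function -/
noncomputable def CFf (cK : ℝ) (k : ℕ) : ℝ := 1 + 338 * 2 ^ (2000 * k) + B1f cK k

lemma gen_choice (L0 C A ε : ℝ) (hL0 : 1 ≤ L0) (hC : 0 < C) (hA : 0 < A) (hε : 0 < ε) :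
    ∃ b0 : ℕ, ∀ b : ℕ, b0 ≤ b → flEta L0 b * (C * A ^ (b + 4)) ≤ ε ∧ flEta L0 b ≤ 1 := by
  have h1 := FloorSemiring.tendsto_pow_div_factorial_atTop (L0 * A)
  have h2 := h1.eventually (gt_mem_nhds (show (0 : ℝ) < ε / (C * A ^ 4) by positivity))
  have h3 := FloorSemiring.tendsto_pow_div_factorial_atTop L0
  have h4 := h3.eventually (gt_mem_nhds (show (0 : ℝ) < 1 by norm_num))
  obtain ⟨b0, hb0⟩ := eventually_atTop.mp (h2.and h4)
  refine ⟨b0, fun b hb => ?_⟩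
  obtain ⟨h5, h6⟩ := hb0 b hb
  refine ⟨?_, h6.le⟩
  have e : flEta L0 b * (C * A ^ (b + 4)) = (L0 * A) ^ b / b.factorial * (C * A ^ 4) := by
    unfold flEta
    rw [mul_pow, pow_add]
    ring
  rw [e]
  rw [lt_div_iff₀ (by positivity)] at h5
  exact h5.le

lemma exists_b_choice2 (L0 cK ε : ℝ) (hL0 : 1 ≤ L0) (hcK : 0 < cK) (hε : 0 < ε) :
    ∃ b0 : ℕ, ∀ b : ℕ, b0 ≤ b → ∀ k : ℕ, k = 2000 * (b + 4) →
      flEta L0 b * (3 * CFf cK k) ^ 2 ≤ ε * (1 / (2 * 10 ^ 5 * (k : ℝ))) ^ 2 ∧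
        flEta L0 b ≤ 1 := by
  obtain ⟨c, hc⟩ : ∃ c : ℝ, c = 339 + 338 * (1110 / cK) := ⟨_, rfl⟩
  have hc0 : 0 < c := by rw [hc]; positivity
  obtain ⟨e, he⟩ : ∃ e : ℕ, e = 2000 * 4004 := ⟨_, rfl⟩
  obtain ⟨b0, hb0⟩ := gen_choice L0 ((3 * c) ^ 2 * (2 * 10 ^ 5) ^ 2) (2 ^ e) ε hL0
    (by positivity) (by positivity) hε
  refine ⟨b0, fun b hb k hk => ?_⟩
  obtain ⟨h1, h2⟩ := hb0 b hb
  refine ⟨?_, h2⟩
  have hk1 : 1 ≤ k := by omega
  have hk0 : (0 : ℝ) < k := by exact_mod_cast hk1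
  have hk1' : (1 : ℝ) ≤ k := by exact_mod_cast hk1
  have hη : 0 ≤ flEta L0 b := by unfold flEta; positivity
  have h2k : (1 : ℝ) ≤ 2 ^ (2000 * k) := one_le_pow₀ (by norm_num)
  have hCF : CFf cK k ≤ c * (k * 2 ^ (2000 * k)) := by
    unfold CFf B1f
    have h3 : (1 : ℝ) ≤ k * 2 ^ (2000 * k) := by nlinarith
    have h4 : (2 : ℝ) ^ (2000 * k) ≤ k * 2 ^ (2000 * k) := by nlinarith
    have h5 : (k : ℝ) ≤ k * 2 ^ (2000 * k) := by nlinarith
    have h6 : 338 * (((1110 * k : ℕ) : ℝ) / cK) = 338 * (1110 / cK) * k := by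
      push_cast; field_simp
    rw [h6, hc]
    have h7 : 338 * (1110 / cK) * k ≤ 338 * (1110 / cK) * (k * 2 ^ (2000 * k)) := by gcongr
    linarith
  have hCF0 : 0 ≤ CFf cK k := by unfold CFf B1f; positivity
  have hkk : (k : ℝ) ≤ 2 ^ k := by exact_mod_cast Nat.lt_two_pow_self.le
  have hbig : ((k : ℝ) * 2 ^ (2000 * k)) ^ 2 * k ^ 2 ≤ (2 ^ e) ^ (b + 4) := by
    calc ((k : ℝ) * 2 ^ (2000 * k)) ^ 2 * k ^ 2 = k ^ 4 * (2 ^ (2000 * k)) ^ 2 := by ring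
      _ ≤ (2 ^ k) ^ 4 * (2 ^ (2000 * k)) ^ 2 := by gcongr
      _ = 2 ^ (k * 4 + 2000 * k * 2) := by rw [← pow_mul, ← pow_mul, ← pow_add]
      _ = (2 ^ e) ^ (b + 4) := by
          rw [← pow_mul]
          congr 1
          rw [he, hk]
          ring
  have h3 : flEta L0 b * (3 * CFf cK k) ^ 2 * (2 * 10 ^ 5 * (k : ℝ)) ^ 2 ≤ ε := by
    calc flEta L0 b * (3 * CFf cK k) ^ 2 * (2 * 10 ^ 5 * (k : ℝ)) ^ 2
        ≤ flEta L0 b * (3 * (c * (k * 2 ^ (2000 * k)))) ^ 2 * (2 * 10 ^ 5 * (k : ℝ)) ^ 2 := by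
          gcongr
      _ = flEta L0 b * ((3 * c) ^ 2 * (2 * 10 ^ 5) ^ 2 * (((k : ℝ) * 2 ^ (2000 * k)) ^ 2 * k ^ 2)) := by
          ring
      _ ≤ flEta L0 b * ((3 * c) ^ 2 * (2 * 10 ^ 5) ^ 2 * (2 ^ e) ^ (b + 4)) := by
          apply mul_le_mul_of_nonneg_left _ hη
          apply mul_le_mul_of_nonneg_left hbig (by positivity)
      _ ≤ ε := h1
  have h4 : ε * (1 / (2 * 10 ^ 5 * (k : ℝ))) ^ 2 = ε / (2 * 10 ^ 5 * (k : ℝ)) ^ 2 := by
    rw [div_pow, one_pow, mul_one_div]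
  rw [h4, le_div_iff₀ (by positivity)]
  exact h3

section
variable {T k : ℕ}

lemma B1_le (cK : ℝ) (hcK : 0 < cK) (hK : ∀ T : ℕ, 2 ≤ T → cK / Real.log T ≤ KT T)
    (hT : 2 ≤ T) (hk : 1 ≤ k) :
    ∑ D ∈ DD' T k, |WW T k D| * (1 / (D : ℝ)) ≤ B1f cK k :=
  bound_B1 cK hcK hK hT (by omega) (fun D _ => abs_WW_le hT hk D) (by norm_num)

lemma MGw_le (cK : ℝ) (hcK : 0 < cK) (hK : ∀ T : ℕ, 2 ≤ T → cK / Real.log T ≤ KT T)
    (hT : 2 ≤ T) (hk : 1 ≤ k) : MGw T k ≤ 1 + B1f cK k := by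
  unfold MGw
  rw [MF_eq hT hk]
  have h1 := B1_le cK hcK hK hT hk
  have h2 : ∑ D ∈ DD' T k, WW T k D * (1 / (D : ℝ)) ≤ ∑ D ∈ DD' T k, |WW T k D| * (1 / (D : ℝ)) := by
    apply sum_le_sum
    intro D _
    exact mul_le_mul_of_nonneg_right (le_abs_self _) (by positivity)
  linarith

lemma M2w_le (cK : ℝ) (hcK : 0 < cK) (hK : ∀ T : ℕ, 2 ≤ T → cK / Real.log T ≤ KT T)
    (hT : 2 ≤ T) (hk : 1 ≤ k) :
    M2w T k ≤ MGw T k ^ 2 + B1f cK k ^ 2 / T ∧ M2w T k ≤ (1 + B1f cK k) ^ 2 := by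
  have hBg := bound_Bg (T := T) (L := 1110 * k) cK hcK hK hT (by omega)
    (fun D _ => abs_WW_le hT hk D) (by norm_num)
  have hB1 := B1_le cK hcK hK hT hk
  set w : ℕ → ℝ := fun D => WW T k D * (1 / (D : ℝ)) with hw
  have habs : ∀ D, |w D| = |WW T k D| * (1 / (D : ℝ)) := by
    intro D
    simp only [hw]
    rw [abs_mul, abs_of_nonneg (by positivity : (0 : ℝ) ≤ 1 / (D : ℝ))]
  have hM1 : MGw T k = 1 / 2 + ∑ D ∈ DD' T k, w D := by
    unfold MGw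
    rw [MF_eq hT hk]
  have hMc : Mc (IW T k) (clW T k) = ∑ D ∈ DD' T k, ∑ D' ∈ DD' T k,
      (if Nat.Coprime D D' then w D * w D' else 0) := by
    rw [Mc_clW hT hk]
    apply sum_congr rfl
    intro D _
    rw [mul_sum]
    apply sum_congr rfl
    intro D' _
    simp only [hw]
    split_ifs <;> ring
  have hM2 : M2w T k = 1 / 4 + ∑ D ∈ DD' T k, w D + Mc (IW T k) (clW T k) := rfl
  generalize Mc (IW T k) (clW T k) = mc at hMc hM2
  generalize M2w T k = m2 at hM2 ⊢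
  generalize MGw T k = mg1 at hM1 ⊢
  have h1 : mc ≤ (∑ D ∈ DD' T k, w D) ^ 2 + B1f cK k ^ 2 / T := by
    rw [hMc, pow_two, sum_mul_sum]
    have h2 : ∑ D ∈ DD' T k, ∑ D' ∈ DD' T k, (if Nat.Coprime D D' then w D * w D' else 0)
        ≤ ∑ D ∈ DD' T k, ∑ D' ∈ DD' T k, (w D * w D' + (if Nat.Coprime D D' then 0 else
          (|WW T k D| * (1 / (D : ℝ))) * (|WW T k D'| * (1 / (D' : ℝ))))) := by
      apply sum_le_sum
      intro D _
      apply sum_le_sum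
      intro D' _
      split_ifs
      · linarith
      · rw [← habs, ← habs, ← abs_mul]
        have := neg_abs_le (w D * w D')
        linarith
    refine h2.trans ?_
    simp_rw [sum_add_distrib]
    exact add_le_add le_rfl hBg
  have h3 : mc ≤ B1f cK k ^ 2 := by
    rw [hMc]
    calc ∑ D ∈ DD' T k, ∑ D' ∈ DD' T k, (if Nat.Coprime D D' then w D * w D' else 0)
        ≤ ∑ D ∈ DD' T k, ∑ D' ∈ DD' T k, |w D| * |w D'| := by
          apply sum_le_sum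
          intro D _
          apply sum_le_sum
          intro D' _
          split_ifs
          · rw [← abs_mul]; exact le_abs_self _
          · positivity
      _ = (∑ D ∈ DD' T k, |w D|) ^ 2 := by rw [pow_two, sum_mul_sum]
      _ ≤ B1f cK k ^ 2 := by
          have h4 : ∑ D ∈ DD' T k, |w D| ≤ B1f cK k := by
            rw [sum_congr rfl fun D _ => habs D]; exact hB1
          have h5 : 0 ≤ ∑ D ∈ DD' T k, |w D| := sum_nonneg fun _ _ => abs_nonneg _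
          gcongr
  have h4 : ∑ D ∈ DD' T k, w D ≤ B1f cK k := by
    refine le_trans (sum_le_sum fun D _ => le_abs_self (w D)) ?_
    rw [sum_congr rfl fun D _ => habs D]; exact hB1
  have hB1f : 0 ≤ B1f cK k := by unfold B1f; positivity
  constructor
  · rw [hM2, hM1]
    nlinarith
  · rw [hM2]
    nlinarith

lemma M2w_ge (cK : ℝ) (hcK : 0 < cK) (hK : ∀ T : ℕ, 2 ≤ T → cK / Real.log T ≤ KT T)
    (hT : 2 ≤ T) (hk : 1 ≤ k) : -(1 + B1f cK k) ^ 2 ≤ M2w T k := by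
  have hB1 := B1_le cK hcK hK hT hk
  set w : ℕ → ℝ := fun D => WW T k D * (1 / (D : ℝ)) with hw
  have habs : ∀ D, |w D| = |WW T k D| * (1 / (D : ℝ)) := by
    intro D
    simp only [hw]
    rw [abs_mul, abs_of_nonneg (by positivity : (0 : ℝ) ≤ 1 / (D : ℝ))]
  have hMc : Mc (IW T k) (clW T k) = ∑ D ∈ DD' T k, ∑ D' ∈ DD' T k,
      (if Nat.Coprime D D' then w D * w D' else 0) := by
    rw [Mc_clW hT hk]
    apply sum_congr rfl
    intro D _
    rw [mul_sum]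
    apply sum_congr rfl
    intro D' _
    simp only [hw]
    split_ifs <;> ring
  have hM2 : M2w T k = 1 / 4 + ∑ D ∈ DD' T k, w D + Mc (IW T k) (clW T k) := rfl
  generalize Mc (IW T k) (clW T k) = mc at hMc hM2
  generalize M2w T k = m2 at hM2 ⊢
  have h4 : ∑ D ∈ DD' T k, |w D| ≤ B1f cK k := by
    rw [sum_congr rfl fun D _ => habs D]; exact hB1
  have h5 : 0 ≤ ∑ D ∈ DD' T k, |w D| := sum_nonneg fun _ _ => abs_nonneg _
  have h3 : |mc| ≤ B1f cK k ^ 2 := by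
    rw [hMc]
    calc |∑ D ∈ DD' T k, ∑ D' ∈ DD' T k, (if Nat.Coprime D D' then w D * w D' else 0)|
        ≤ ∑ D ∈ DD' T k, |∑ D' ∈ DD' T k, (if Nat.Coprime D D' then w D * w D' else 0)| :=
          abs_sum_le_sum_abs _ _
      _ ≤ ∑ D ∈ DD' T k, ∑ D' ∈ DD' T k, |w D| * |w D'| := by
          apply sum_le_sum
          intro D _
          refine (abs_sum_le_sum_abs _ _).trans (sum_le_sum fun D' _ => ?_)
          split_ifs
          · rw [← abs_mul]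
          · rw [abs_zero]; positivity
      _ = (∑ D ∈ DD' T k, |w D|) ^ 2 := by rw [pow_two, sum_mul_sum]
      _ ≤ B1f cK k ^ 2 := by gcongr
  have h6 : |∑ D ∈ DD' T k, w D| ≤ B1f cK k := (abs_sum_le_sum_abs _ _).trans h4
  have hB1f : 0 ≤ B1f cK k := by unfold B1f; positivity
  have h7 := (abs_le.mp h3).1
  have h8 := (abs_le.mp h6).1
  rw [hM2]
  nlinarith

end

end Pool.Agent.Lib.MP_bae66e_nt.P2
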