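import Pool.Agent.Lib.MP_bae66e_nt.P2.Lin

/-!
# The cells of primes of the weighted sieve
-/

set_option autoImplicit false

namespace Pool.Agent.Lib.MP_bae66e_nt.P2

open Finset AP3 Filter Topology

/-- end points of the cells (in units of `k log T`) -/
def ca (i : ℕ) : ℕ := 286 + 2 * i

/-- the level of the upper sieve in the cell -/
def ce (i : ℕ) : ℕ := min (1110 - ca (i + 1)) (1999 - 2 * ca (i + 1))

lemma ca_le {i : ℕ} (hi : i < 337) : ca i ≤ 958 ∧ 286 ≤ ca i ∧ ca (i + 1) = ca i + 2 := by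
  unfold ca; omega

lemma ce_pos {i : ℕ} (hi : i < 337) : 79 ≤ ce i ∧ ce i ≤ 822 := by
  unfold ce ca
  omega

/-- the cell of primes -/
def cell (T k i : ℕ) : Finset ℕ := prI (T ^ (ca i * k)) (T ^ (ca (i + 1) * k))

lemma mem_cell {T k i q : ℕ} (hT : 2 ≤ T) : q ∈ cell T k i ↔ q.Prime ∧
    (ca i : ℝ) * k * Real.log T < Real.log q ∧
    Real.log q ≤ (ca (i + 1) : ℝ) * k * Real.log T := by
  unfold cell
  rw [mem_prI]
  have hT0 : (0 : ℝ) < T := by positivity
  have key : ∀ a : ℕ, (a : ℝ) * k * Real.log T = Real.log ((T ^ (a * k) : ℕ) : ℝ) := by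
    intro a
    push_cast
    rw [Real.log_pow]
    push_cast
    ring
  rw [key, key]
  constructor
  · rintro ⟨⟨h1, h2⟩, h3⟩
    have hp : (0 : ℝ) < q := by exact_mod_cast h3.pos
    refine ⟨h3, ?_, ?_⟩
    · exact Real.log_lt_log (by positivity) (by exact_mod_cast h1)
    · exact Real.log_le_log hp (by exact_mod_cast h2)
  · rintro ⟨h3, h1, h2⟩
    have hp : (0 : ℝ) < q := by exact_mod_cast h3.pos
    refine ⟨⟨?_, ?_⟩, h3⟩
    · by_contra hcon
      push Not at hcon
      have : Real.log q ≤ Real.log ((T ^ (ca i * k) : ℕ) : ℝ) :=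
        Real.log_le_log hp (by exact_mod_cast hcon)
      linarith
    · by_contra hcon
      push Not at hcon
      have : Real.log ((T ^ (ca (i + 1) * k) : ℕ) : ℝ) < Real.log q :=
        Real.log_lt_log (by positivity) (by exact_mod_cast hcon)
      linarith

lemma cell_eq_PL {T k i : ℕ} (hT : 2 ≤ T) : cell T k i =
    PL ((ca i : ℝ) * k * Real.log T) ((ca (i + 1) : ℝ) * k * Real.log T) := by
  ext q
  rw [mem_cell hT, mem_PL]

/-- the mean value of the weighted sieve -/
noncomputable def MF (T k : ℕ) : ℝ :=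
  LS inv T (T ^ (286 * k)) false (1110 * k * Real.log T)
    - 12 / 11 * ∑ i ∈ range 337, ∑ q ∈ cell T k i,
      1 / (q : ℝ) * (1 - Real.log q / (960 * k * Real.log T))
        * LS inv T (T ^ (286 * k)) true ((ce i : ℝ) * k * Real.log T)

end Pool.Agent.Lib.MP_bae66e_nt.P2
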