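import Pool.Agent.Lib.MP_bae66e_nt.P2.Cert
import Pool.Agent.Lib.MP_bae66e_nt.P2.NumD

/-!
# The mean value of the weighted sieve
-/

set_option autoImplicit false

namespace Pool.Agent.Lib.MP_bae66e_nt.P2

open Finset AP3 Filter Topology

/-- the term of a cell, scaled by `10 ^ 15` -/
def tmI (i : ℕ) : ℕ :=
  (960 - ca i) * 3580694730 * (ca (i + 1) ^ 2 - ca i ^ 2) * 10 ^ 15
    / (960 * 1000000000 * ce i * (2 * ca i * ca (i + 1))) + 1

/-- the partial sums -/
def tsI : ℕ → ℕ
  | 0 => 0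
  | n + 1 => tmI n + tsI n

lemma tsI_eq (n : ℕ) : tsI n = ∑ i ∈ range n, tmI i := by
  induction n with
  | zero => rfl
  | succ n ih => rw [tsI, sum_range_succ, ih, add_comm]

lemma tsI_le : tsI 337 ≤ 3073573785826 := by decide +kernel

lemma dfl_288 : dfl dat2 288 = 30281582 := by decide +kernel

lemma log_le_half_sub_inv {r : ℝ} (hr : 1 ≤ r) : Real.log r ≤ (r - r⁻¹) / 2 := by
  have hr0 : 0 < r := by linarith
  have hmono : AntitoneOn (fun x : ℝ => Real.log x - (x - x⁻¹) / 2) (Set.Ici 1) := by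
    have hder : ∀ x ∈ Set.Ioi (1 : ℝ),
        HasDerivAt (fun x : ℝ => Real.log x - (x - x⁻¹) / 2) (x⁻¹ - (1 - -(x ^ 2)⁻¹) / 2) x := by
      intro x hx
      have hx0 : x ≠ 0 := by
        have : (1 : ℝ) < x := hx
        positivity
      exact (Real.hasDerivAt_log hx0).sub (((hasDerivAt_id x).sub (hasDerivAt_inv hx0)).div_const 2)
    apply antitoneOn_of_deriv_nonpos (convex_Ici 1)
    · intro x hx
      have hx1 : (1 : ℝ) ≤ x := hx
      have hx0 : x ≠ 0 := by positivity
      have h1 : ContinuousAt (fun x : ℝ => Real.log x - (x - x⁻¹) / 2) x := by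
        apply ContinuousAt.sub (Real.continuousAt_log hx0)
        apply ContinuousAt.div_const
        exact continuousAt_id.sub (continuousAt_inv₀ hx0)
      exact h1.continuousWithinAt
    · intro x hx
      rw [interior_Ici] at hx
      exact (hder x hx).differentiableAt.differentiableWithinAt
    · intro x hx
      rw [interior_Ici] at hx
      rw [(hder x hx).deriv]
      have hx0 : (0 : ℝ) < x := by
        have : (1 : ℝ) < x := hx
        positivity
      have e : x⁻¹ - (1 - -(x ^ 2)⁻¹) / 2 = -((1 - x⁻¹) ^ 2 / 2) := by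
        field_simp; ring
      rw [e]
      have : 0 ≤ (1 - x⁻¹) ^ 2 / 2 := by positivity
      linarith
  have h := hmono (Set.mem_Ici.mpr le_rfl) (Set.mem_Ici.mpr hr) hr
  simp only [Real.log_one, inv_one, sub_self, zero_div, sub_zero] at h
  linarith

/-- real form of the term of a cell -/
lemma tm_real {i : ℕ} (hi : i < 337) :
    (1 - (ca i : ℝ) / 960) * (cC / ce i)
      * ((((ca (i + 1) : ℝ)) ^ 2 - (ca i : ℝ) ^ 2) / (2 * ca i * ca (i + 1)))
      ≤ (tmI i : ℝ) / 10 ^ 15 := by
  obtain ⟨h1, h2, h3⟩ := ca_le hi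
  obtain ⟨h4, h5⟩ := ce_pos hi
  have hca0 : (0 : ℝ) < ca i := by exact_mod_cast (by omega : 0 < ca i)
  have hca1 : (0 : ℝ) < ca (i + 1) := by exact_mod_cast (by omega : 0 < ca (i + 1))
  have hce : (0 : ℝ) < ce i := by exact_mod_cast (by omega : 0 < ce i)
  set num : ℕ := (960 - ca i) * 3580694730 * (ca (i + 1) ^ 2 - ca i ^ 2) * 10 ^ 15 with hnum
  set den : ℕ := 960 * 1000000000 * ce i * (2 * ca i * ca (i + 1)) with hden
  have hden0 : 0 < den := by
    rw [hden]
    have : 0 < ca i := by omega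
    have : 0 < ca (i + 1) := by omega
    have : 0 < ce i := by omega
    positivity
  have hden0' : (0 : ℝ) < den := by exact_mod_cast hden0
  have hdiv : (num : ℝ) / den ≤ tmI i := by
    have h6 : num < den * (num / den + 1) := Nat.lt_mul_div_succ num hden0
    have h7 : tmI i = num / den + 1 := rfl
    rw [div_le_iff₀ hden0', h7]
    have h8 : (num : ℝ) ≤ ((den * (num / den + 1) : ℕ) : ℝ) := by exact_mod_cast h6.le
    refine h8.trans (le_of_eq ?_)
    rw [Nat.cast_mul, mul_comm]
  have hsq : ca i ^ 2 ≤ ca (i + 1) ^ 2 := Nat.pow_le_pow_left (by omega) 2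
  have hnumr : (num : ℝ) = (960 - (ca i : ℝ)) * 3580694730
      * ((ca (i + 1) : ℝ) ^ 2 - (ca i : ℝ) ^ 2) * 10 ^ 15 := by
    rw [hnum]
    push_cast [Nat.cast_sub hsq, Nat.cast_sub (show ca i ≤ 960 by omega)]
    ring
  have hdenr : (den : ℝ) = 960 * 1000000000 * ce i * (2 * ca i * ca (i + 1)) := by
    rw [hden]; push_cast; ring
  have e : (1 - (ca i : ℝ) / 960) * (cC / ce i)
      * ((((ca (i + 1) : ℝ)) ^ 2 - (ca i : ℝ) ^ 2) / (2 * ca i * ca (i + 1)))
      = (num : ℝ) / den / 10 ^ 15 := by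
    rw [hnumr, hdenr]
    unfold cC
    push_cast
    field_simp
  rw [e]
  apply div_le_div_of_nonneg_right hdiv (by positivity)

/-- the numerical margin -/
lemma margin : (37 : ℝ) / 10 ^ 6 ≤ (1 - eM 288) / 286
    - 12 / 11 * ∑ i ∈ range 337, (1 - (ca i : ℝ) / 960) * (cC / ce i)
      * ((((ca (i + 1) : ℝ)) ^ 2 - (ca i : ℝ) ^ 2) / (2 * ca i * ca (i + 1))) := by
  have h1 : ∑ i ∈ range 337, (1 - (ca i : ℝ) / 960) * (cC / ce i)
      * ((((ca (i + 1) : ℝ)) ^ 2 - (ca i : ℝ) ^ 2) / (2 * ca i * ca (i + 1)))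
      ≤ 3073573785826 / 10 ^ 15 := by
    calc _ ≤ ∑ i ∈ range 337, (tmI i : ℝ) / 10 ^ 15 :=
          sum_le_sum fun i hi => tm_real (mem_range.mp hi)
      _ = (tsI 337 : ℝ) / 10 ^ 15 := by rw [tsI_eq, ← sum_div]; push_cast; rfl
      _ ≤ 3073573785826 / 10 ^ 15 := by
          apply div_le_div_of_nonneg_right _ (by positivity)
          exact_mod_cast tsI_le
  have h2 : eM 288 = 30281582 / 1000000000 := by
    unfold eM eN
    rw [if_pos (by norm_num), dfl_288]
    push_cast
    norm_num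
  rw [h2]
  have h3 : (12 : ℝ) / 11 * ∑ i ∈ range 337, (1 - (ca i : ℝ) / 960) * (cC / ce i)
      * ((((ca (i + 1) : ℝ)) ^ 2 - (ca i : ℝ) ^ 2) / (2 * ca i * ca (i + 1)))
      ≤ 12 / 11 * (3073573785826 / 10 ^ 15) := by
    apply mul_le_mul_of_nonneg_left h1 (by norm_num)
  have h4 : (37 : ℝ) / 10 ^ 6 ≤ (1 - 30281582 / 1000000000) / 286
      - 12 / 11 * (3073573785826 / 10 ^ 15) := by norm_num
  linarith

theorem MF_ge (k : ℕ) (hk : 1 ≤ k) : ∀ᶠ T : ℕ in atTop, 1 / (10 ^ 5 * (k : ℝ)) ≤ MF T k := by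
  obtain ⟨K, t0, hK0, ht01, hmain⟩ := mean_main cert100
  obtain ⟨C, hC0, _, _, hC⟩ := exists_sum_G_PL
  set D : ℝ := 4 * C + 286 * K * k * (1 + C) with hD
  have hk0 : (0 : ℝ) < k := by exact_mod_cast hk
  have hk1 : (1 : ℝ) ≤ k := by exact_mod_cast hk
  have hD0 : 0 ≤ D := by positivity
  set Z : ℝ := 10 ^ 5 * k * (286 * K * k + 400 * D) with hZ
  have hlog : Tendsto (fun T : ℕ => Real.log T) atTop atTop :=
    Real.tendsto_log_atTop.comp tendsto_natCast_atTop_atTop
  filter_upwards [hlog.eventually (eventually_ge_atTop (max t0 Z)), eventually_ge_atTop 2]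
    with T hT hT2
  have htt0 : t0 ≤ Real.log T := (le_max_left _ _).trans hT
  have htZ : Z ≤ Real.log T := (le_max_right _ _).trans hT
  set t := Real.log T with ht
  have ht1 : 1 ≤ t := ht01.trans htt0
  have ht0 : 0 < t := by linarith
  have hkt : 0 < (k : ℝ) * t := mul_pos hk0 ht0
  have hTz : T < T ^ (286 * k) := by
    calc T = T ^ 1 := (pow_one T).symm
      _ < T ^ (286 * k) := Nat.pow_lt_pow_right (by omega) (by omega)
  have hlz : Real.log ((T ^ (286 * k) : ℕ) : ℝ) = 286 * k * t := by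
    push_cast; rw [Real.log_pow]; push_cast; ring
  have hc4 : cC ≤ 4 := by unfold cC; push_cast; norm_num
  have hc0 : 0 ≤ cC := by unfold cC; positivity
  -- the lower sieve
  have hlow : 1 / k * ((1 - eM 288) / 286) - 286 * K * k / t
      ≤ LS inv T (T ^ (286 * k)) false (1110 * k * t) := by
    have h1 := (hmain T htt0 (T ^ (286 * k)) hTz (1110 * k * t) (by positivity)).2.2
      (by rw [hlz]; clear_value t; clear * - hkt; linarith)
    rw [hlz, ← ht] at h1
    have e1 : (1110 * k * t) / (286 * k * t) = (1110 : ℝ) / 286 := by field_simp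
    have e2 : idx 100 ((1110 : ℝ) / 286) = 288 := by
      unfold idx
      rw [Nat.floor_eq_iff (by norm_num)]
      norm_num
    rw [e1, e2] at h1
    refine le_trans (le_of_eq ?_) h1
    field_simp
  -- the upper sieve
  have hup : ∀ i < 337, LS inv T (T ^ (286 * k)) true ((ce i : ℝ) * k * t)
      ≤ 1 / k * (cC / ce i) + 286 * K * k / t := by
    intro i hi
    obtain ⟨h4, h5⟩ := ce_pos hi
    have hce : (0 : ℝ) < ce i := by exact_mod_cast (by omega : 0 < ce i)
    have hce2 : (ce i : ℝ) ≤ 822 := by exact_mod_cast h5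
    have h1 := (hmain T htt0 (T ^ (286 * k)) hTz ((ce i : ℝ) * k * t) (by positivity)).1
      (by
        rw [hlz]
        have h6 := mul_le_mul_of_nonneg_right hce2 hkt.le
        clear_value t
        clear * - hkt h6
        linarith)
    rw [hlz, ← ht] at h1
    refine h1.trans (le_of_eq ?_)
    field_simp
  -- the sum over a cell
  have hcell : ∀ i < 337, ∑ q ∈ cell T k i, 1 / (q : ℝ) * (1 - Real.log q / (960 * k * t))
        * LS inv T (T ^ (286 * k)) true ((ce i : ℝ) * k * t)
      ≤ 1 / k * ((1 - (ca i : ℝ) / 960) * (cC / ce i)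
        * ((((ca (i + 1) : ℝ)) ^ 2 - (ca i : ℝ) ^ 2) / (2 * ca i * ca (i + 1)))) + D / t := by
    intro i hi
    obtain ⟨h1, h2, h3⟩ := ca_le hi
    obtain ⟨h4, h5⟩ := ce_pos hi
    have hca0 : (286 : ℝ) ≤ ca i := by exact_mod_cast h2
    have hca9 : (ca i : ℝ) ≤ 958 := by exact_mod_cast h1
    have hca1 : (ca (i + 1) : ℝ) = ca i + 2 := by exact_mod_cast h3
    have hce : (79 : ℝ) ≤ ce i := by exact_mod_cast h4
    set a : ℝ := (ca i : ℝ) with ha
    set b : ℝ := (ca (i + 1) : ℝ) with hb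
    set g : ℝ := 1 / k * (cC / ce i) + 286 * K * k / t with hg
    have hg0 : 0 ≤ g := by positivity
    set ℓ : ℝ := (b ^ 2 - a ^ 2) / (2 * a * b) with hℓ
    have ha0 : 0 < a := by linarith
    have hb0 : 0 < b := by linarith
    have hsum : ∑ q ∈ cell T k i, 1 / (q : ℝ) ≤ ℓ + C / t := by
      rw [cell_eq_PL hT2, ← ht, ← ha, ← hb]
      have h6 := (abs_le.mp (hC (a * k * t) (b * k * t) (by positivity)
        (by
          rw [hca1]
          clear_value a t
          clear * - hkt
          linarith))).2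
      have e1 : b * k * t / (a * k * t) = b / a := by field_simp
      rw [e1] at h6
      have h7 : Real.log (b / a) ≤ ℓ := by
        refine (log_le_half_sub_inv (by rw [le_div_iff₀ ha0]; linarith)).trans (le_of_eq ?_)
        rw [hℓ]; field_simp
      have h8 : C / (a * k * t) ≤ C / t := by
        apply div_le_div_of_nonneg_left hC0 ht0
        have : 1 ≤ a * k := one_le_mul_of_one_le_of_one_le (by linarith) hk1
        exact le_mul_of_one_le_left ht0.le this
      linarith
    have hterm : ∀ q ∈ cell T k i, 1 / (q : ℝ) * (1 - Real.log q / (960 * k * t))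
        * LS inv T (T ^ (286 * k)) true ((ce i : ℝ) * k * t)
        ≤ (1 - a / 960) * g * (1 / (q : ℝ)) := by
      intro q hq
      obtain ⟨hqp, hq1, hq2⟩ := (mem_cell hT2).mp hq
      rw [← ht, ← ha] at hq1
      rw [← ht, ← hb] at hq2
      have hq0 : (0 : ℝ) < q := by exact_mod_cast hqp.pos
      have h6 : 0 ≤ 1 - Real.log q / (960 * k * t) := by
        rw [sub_nonneg, div_le_one (by positivity)]
        refine hq2.trans ?_
        have h9 := mul_le_mul_of_nonneg_right (show b ≤ 960 by linarith) hkt.le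
        clear * - h9
        linarith
      have h7 : 1 - Real.log q / (960 * k * t) ≤ 1 - a / 960 := by
        have : a / 960 ≤ Real.log q / (960 * k * t) := by
          rw [div_le_div_iff₀ (by norm_num) (by positivity)]
          clear * - hq1
          linarith
        linarith
      have h8 : 0 ≤ 1 - a / 960 := h6.trans h7
      calc 1 / (q : ℝ) * (1 - Real.log q / (960 * k * t))
            * LS inv T (T ^ (286 * k)) true ((ce i : ℝ) * k * t)
          ≤ 1 / (q : ℝ) * (1 - Real.log q / (960 * k * t)) * g :=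
            mul_le_mul_of_nonneg_left (hup i hi) (by positivity)
        _ ≤ 1 / (q : ℝ) * (1 - a / 960) * g := by gcongr
        _ = (1 - a / 960) * g * (1 / (q : ℝ)) := by ring
    refine (sum_le_sum hterm).trans ?_
    rw [← mul_sum]
    have h8 : 0 ≤ 1 - a / 960 := by linarith
    have h9 : 1 - a / 960 ≤ 1 := by linarith
    have hℓ0 : 0 ≤ ℓ := by
      rw [hℓ, hca1]
      apply div_nonneg
      · clear * - ha0
        have h10 : (a + 2) ^ 2 - a ^ 2 = 4 * a + 4 := by ring
        rw [h10]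
        linarith
      · positivity
    have hℓ1 : ℓ ≤ 1 := by
      rw [hℓ, div_le_one (by positivity), hca1]
      have h10 := mul_le_mul hca0 hca0 (by norm_num) ha0.le
      clear * - h10
      have h11 : (a + 2) ^ 2 - a ^ 2 = 4 * a + 4 := by ring
      have h12 : 2 * a * (a + 2) = 2 * (a * a) + 4 * a := by ring
      rw [h11, h12]
      linarith
    have hce0 : 0 < (ce i : ℝ) := by linarith
    have hgc : 1 / k * (cC / ce i) ≤ 4 := by
      have h10 : cC / ce i ≤ 4 := by
        rw [div_le_iff₀ hce0]; linarith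
      have h11 : 1 / (k : ℝ) ≤ 1 := by rw [div_le_one hk0]; exact hk1
      have h12 : 0 ≤ cC / ce i := by positivity
      calc 1 / (k : ℝ) * (cC / ce i) ≤ 1 * 4 := mul_le_mul h11 h10 h12 zero_le_one
        _ = 4 := by norm_num
    calc (1 - a / 960) * g * ∑ q ∈ cell T k i, 1 / (q : ℝ)
        ≤ (1 - a / 960) * g * (ℓ + C / t) := by gcongr
      _ = (1 - a / 960) * (1 / k * (cC / ce i)) * ℓ
          + (1 - a / 960) * (1 / k * (cC / ce i)) * (C / t)
          + (1 - a / 960) * (286 * K * k / t) * (ℓ + C / t) := by rw [hg]; ring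
      _ ≤ (1 - a / 960) * (1 / k * (cC / ce i)) * ℓ + 1 * 4 * (C / t)
          + 1 * (286 * K * k / t) * (1 + C) := by
          have h13 : C / t ≤ C := div_le_self hC0 ht1
          gcongr
      _ = _ := by rw [hD]; ring
  unfold MF
  rw [← ht]
  have hsumcell := sum_le_sum fun i (hi : i ∈ range 337) => hcell i (mem_range.mp hi)
  rw [sum_add_distrib, ← mul_sum, sum_const, card_range, nsmul_eq_mul] at hsumcell
  have hmargin := margin
  set Sg : ℝ := ∑ i ∈ range 337, (1 - (ca i : ℝ) / 960) * (cC / ce i)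
      * ((((ca (i + 1) : ℝ)) ^ 2 - (ca i : ℝ) ^ 2) / (2 * ca i * ca (i + 1))) with hSg
  have h20 : 12 / 11 * ∑ i ∈ range 337, ∑ q ∈ cell T k i,
      1 / (q : ℝ) * (1 - Real.log q / (960 * k * t))
        * LS inv T (T ^ (286 * k)) true ((ce i : ℝ) * k * t)
      ≤ 12 / 11 * (1 / k * Sg + (337 : ℕ) * (D / t)) :=
    mul_le_mul_of_nonneg_left hsumcell (by norm_num)
  have h21 : 1 / (k : ℝ) * (37 / 10 ^ 6) ≤ 1 / k * ((1 - eM 288) / 286 - 12 / 11 * Sg) :=
    mul_le_mul_of_nonneg_left hmargin (by positivity)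
  have h22 : (286 * K * k + 400 * D) / t ≤ 1 / (10 ^ 5 * k) := by
    rw [div_le_div_iff₀ ht0 (by positivity), one_mul]
    refine le_trans (le_of_eq ?_) htZ
    rw [hZ]; ring
  have h23 : 12 / 11 * ((337 : ℕ) * (D / t)) ≤ 400 * D / t := by
    have h29 : 0 ≤ D / t := by positivity
    rw [mul_div_assoc]
    push_cast
    clear_value t D
    clear * - h29
    linarith
  have h24 : 1 / (k : ℝ) * (37 / 10 ^ 6) = 37 / 10 * (1 / (10 ^ 5 * k)) := by
    field_simp
  have h25 : 0 < 1 / (10 ^ 5 * (k : ℝ)) := by positivity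
  have h26 : (286 * K * k + 400 * D) / t = 286 * K * k / t + 400 * D / t := by ring
  have h27 : 1 / (k : ℝ) * ((1 - eM 288) / 286 - 12 / 11 * Sg)
      = 1 / k * ((1 - eM 288) / 286) - 12 / 11 * (1 / k * Sg) := by ring
  have h28 : 12 / 11 * (1 / (k : ℝ) * Sg + (337 : ℕ) * (D / t))
      = 12 / 11 * (1 / k * Sg) + 12 / 11 * ((337 : ℕ) * (D / t)) := by ring
  linarith

end Pool.Agent.Lib.MP_bae66e_nt.P2
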