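import Pool.Agent.Lib.MP_bae66e_nt.P2.CB1
import Pool.Agent.Lib.MP_bae66e_nt.P2.Num
import Pool.Agent.Lib.MP_bae66e_nt.AP3.ClassBad

/-!
# Exceptions in a residue class
-/

set_option autoImplicit false

namespace Pool.Agent.Lib.MP_bae66e_nt.P2

open Finset AP3 Filter Topology

/-- starting point of the dyadic blocks -/
noncomputable def y0g (C1 k T : ℕ) : ℕ :=
  ⌈(C1 : ℝ) * (2000 * (k : ℝ) * Real.log T) * Real.log (2000 * (k : ℝ) * Real.log T)⌉₊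

lemma tendsto_nk (k : ℕ) (hk : 1 ≤ k) :
    Tendsto (fun T : ℕ => 2000 * (k : ℝ) * Real.log T) atTop atTop := by
  apply Tendsto.const_mul_atTop
  · have : (1 : ℝ) ≤ k := by exact_mod_cast hk
    positivity
  · exact Real.tendsto_log_atTop.comp tendsto_natCast_atTop_atTop

lemma ev_sq_lt2 (k : ℕ) : ∀ᶠ T : ℕ in atTop, (2000 * (k : ℝ) * Real.log T) ^ 2 < T := by
  have hδ : (0 : ℝ) < 1 / (2 * ((2000 * (k : ℝ)) ^ 2 + 1)) := by positivity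
  have h := (Real.isLittleO_pow_log_id_atTop (n := 2)).bound hδ
  have h2 := tendsto_natCast_atTop_atTop.eventually h
  filter_upwards [h2, eventually_ge_atTop 1] with T hT hT1
  have hT0 : (0 : ℝ) < T := by exact_mod_cast hT1
  simp only [id] at hT
  rw [Real.norm_of_nonneg (sq_nonneg _), Real.norm_of_nonneg hT0.le] at hT
  have h3 : (2000 * (k : ℝ)) ^ 2 * (1 / (2 * ((2000 * (k : ℝ)) ^ 2 + 1))) ≤ 1 / 2 := by
    rw [mul_one_div, div_le_div_iff₀ (by positivity) (by norm_num)]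
    linarith
  calc (2000 * (k : ℝ) * Real.log T) ^ 2 = (2000 * (k : ℝ)) ^ 2 * Real.log T ^ 2 := by ring
    _ ≤ (2000 * (k : ℝ)) ^ 2 * (1 / (2 * ((2000 * (k : ℝ)) ^ 2 + 1)) * T) := by gcongr
    _ = ((2000 * (k : ℝ)) ^ 2 * (1 / (2 * ((2000 * (k : ℝ)) ^ 2 + 1)))) * T := by ring
    _ ≤ 1 / 2 * T := by gcongr
    _ < T := by linarith

/-- real inequality for the diagonal -/
lemma h4_real2 (CF ε P V M n kk lT c' cK C1 m0 : ℝ) (hε : 0 < ε) (hkk : 0 < kk) (hlT : 0 < lT)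
    (hc' : 0 < c') (hcK : 0 < cK) (hC1 : 0 < C1) (hm0 : 0 < m0) (hn : n = 2000 * kk * lT)
    (hC1le : 32 * CF ^ 2 ≤ C1 * (ε * (1000 * kk * c' * cK)) * m0 ^ 2)
    (hP : c' * (C1 * n / 2) ≤ P) (hV : cK / lT ≤ V) (hM : m0 ≤ M) :
    2 * CF ^ 2 ≤ ε / 16 * (P * V * M ^ 2) := by
  have hn0 : 0 < n := by rw [hn]; positivity
  have hP0 : 0 ≤ P := le_trans (by positivity) hP
  have e1 : c' * (C1 * n / 2) * (cK / lT) = C1 * (1000 * kk * c' * cK) := by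
    rw [hn]; field_simp; ring
  have e2 : C1 * (1000 * kk * c' * cK) ≤ P * V := by
    rw [← e1]; gcongr
  have hPV : 0 ≤ P * V := le_trans (by positivity) e2
  have e3 : C1 * (1000 * kk * c' * cK) * m0 ^ 2 ≤ P * V * M ^ 2 := by gcongr
  have e6 := mul_le_mul_of_nonneg_left e3 hε.le
  linarith

/-- real inequality for the remainder -/
lemma h5_real2 (Tr CF P VM Lr W ε c2 : ℝ) (b : ℕ) (hT : 1 ≤ Tr) (hCF : 0 ≤ CF) (hP : 1 ≤ P)
    (hVM0 : 0 ≤ VM) (hVM : VM ≤ CF) (hW : 0 < W) (hε : 0 < ε) (hc2 : 0 < c2)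
    (hTC : 40 * W * (1 + CF) ^ 2 / (ε * c2) ≤ Tr) (hVMsq : c2 / Tr ^ 2 ≤ VM ^ 2) :
    Lr ^ 2 / Tr ^ (40 * (b + 4)) * Tr ^ (2 * b + 5)
      * (CF ^ 2 / P + (1 + CF) ^ 2 + 2 * (1 + CF) * VM + VM ^ 2)
      ≤ ε / 8 * (Lr ^ 2 / W) * VM ^ 2 := by
  have hT0 : 0 < Tr := by linarith
  have hP0 : 0 < P := by linarith
  have h1 : CF ^ 2 / P + (1 + CF) ^ 2 + 2 * (1 + CF) * VM + VM ^ 2 ≤ 5 * (1 + CF) ^ 2 := by
    have a1 : CF ^ 2 / P ≤ CF ^ 2 := div_le_self (sq_nonneg _) hP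
    have a2 : VM ^ 2 ≤ CF ^ 2 := by gcongr
    have a3 : 2 * (1 + CF) * VM ≤ 2 * (1 + CF) * CF := by gcongr
    nlinarith
  have h2 : Lr ^ 2 / Tr ^ (40 * (b + 4)) * Tr ^ (2 * b + 5) ≤ Lr ^ 2 / Tr ^ 3 := by
    rw [div_mul_eq_mul_div, div_le_div_iff₀ (by positivity) (by positivity), mul_assoc, ← pow_add]
    apply mul_le_mul_of_nonneg_left _ (sq_nonneg _)
    exact pow_le_pow_right₀ hT (by omega)
  rw [div_le_iff₀ (by positivity)] at hTC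
  calc Lr ^ 2 / Tr ^ (40 * (b + 4)) * Tr ^ (2 * b + 5)
        * (CF ^ 2 / P + (1 + CF) ^ 2 + 2 * (1 + CF) * VM + VM ^ 2)
      ≤ Lr ^ 2 / Tr ^ 3 * (5 * (1 + CF) ^ 2) := by gcongr
    _ ≤ ε / 8 * (Lr ^ 2 / W) * (c2 / Tr ^ 2) := by
        rw [div_mul_eq_mul_div, div_le_iff₀ (by positivity)]
        have e : ε / 8 * (Lr ^ 2 / W) * (c2 / Tr ^ 2) * Tr ^ 3
            = Lr ^ 2 * ((Tr * (ε * c2)) / (8 * W)) := by
          field_simp
        rw [e]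
        apply mul_le_mul_of_nonneg_left _ (sq_nonneg _)
        rw [le_div_iff₀ (by positivity)]
        linarith
    _ ≤ ε / 8 * (Lr ^ 2 / W) * VM ^ 2 := by gcongr

/-- the exceptions in the middle -/
lemma middle_card {A0 L W β T : ℕ} {G : ℕ → ℝ} {P : Finset ℕ} {ε : ℝ} (hL1 : 1 ≤ L)
    (hLA : L ≤ A0)
    (h : ∑ m ∈ ((Mw A0 L).filter (fun m => m ≡ β [MOD W])).filter (fun m => SG T G P m ≤ 0),
      fw A0 L m ≤ ε * ((L : ℝ) ^ 2 / W)) :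
    (#((Icc (A0 - L / 2) (A0 + L / 2)).filter
      (fun m => m ≡ β [MOD W] ∧ SG T G P m ≤ 0)) : ℝ) ≤ 2 * ε * (L / W) := by
  classical
  have hL0 : (0 : ℝ) < L := by exact_mod_cast hL1
  set S := (Icc (A0 - L / 2) (A0 + L / 2)).filter (fun m => m ≡ β [MOD W] ∧ SG T G P m ≤ 0)
    with hS
  have hge : ∀ m ∈ S, (L : ℝ) / 2 ≤ fw A0 L m := by
    intro m hm
    have h1 := mem_Icc.mp (mem_filter.mp hm).1
    exact fw_ge (by omega) (by omega) hLA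
  have hsub : S ⊆ ((Mw A0 L).filter (fun m => m ≡ β [MOD W])).filter
      (fun m => SG T G P m ≤ 0) := by
    intro m hm
    have h1 := (mem_filter.mp hm).2
    rw [mem_filter, mem_filter]
    refine ⟨⟨?_, h1.1⟩, h1.2⟩
    have h2 := hge m hm
    by_contra hcon
    have h3 : fw A0 L m = 0 := by
      unfold fw
      rw [Nat.cast_eq_zero, card_eq_zero, filter_eq_empty_iff]
      intro x hx hxm
      exact hcon (mem_image.mpr ⟨x, hx, hxm⟩)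
    linarith
  have h1 : (#S : ℝ) * (L / 2) ≤ ε * ((L : ℝ) ^ 2 / W) := by
    calc (#S : ℝ) * (L / 2) = ∑ m ∈ S, (L : ℝ) / 2 := by rw [sum_const, nsmul_eq_mul]
      _ ≤ ∑ m ∈ S, fw A0 L m := sum_le_sum hge
      _ ≤ _ := sum_le_sum_of_subset_of_nonneg hsub fun m _ _ => fw_nonneg A0 L m
      _ ≤ _ := h
  have h2 : ε * ((L : ℝ) ^ 2 / W) = (2 * ε * (L / W)) * (L / 2) := by ring
  rw [h2] at h1
  exact le_of_mul_le_mul_right h1 (by positivity)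

/-- the hypotheses of the second moment bound -/
lemma mk_SetW {b k u W T A0 L β : ℕ} {η cK : ℝ} (hcK : 0 < cK)
    (hKT : ∀ T : ℕ, 2 ≤ T → cK / Real.log T ≤ KT T) (hk : 1 ≤ k)
    (hu3 : 3 ≤ u) (hu : u ≤ T) (hW : W = prm u) (hη0 : 0 ≤ η) (hη1 : η ≤ 1)
    (hfl : ∀ (ν : ℕ → ℝ) (Mm : Finset ℕ) (Y E Q : ℝ), (∀ m ∈ Mm, 0 ≤ ν m) → 0 ≤ Y →
      0 ≤ E → 0 ≤ Q → Reg ν Mm T Y E (Q * (T : ℝ) ^ (2 * b + 4)) →
      ∀ Om : ℕ → Finset ℕ, (∀ ℓ, xb Om ℓ ≤ 1 / 2) → (∀ ℓ, #(Om ℓ) ≤ 2) →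
      ∀ R : Finset ℕ, (∀ ℓ ∈ R, ℓ.Prime ∧ ℓ ≤ T) → (∀ ℓ ∈ R, ∀ c ∈ Om ℓ, c < ℓ) →
      FLW ν Mm Om T Y R η (E * (T : ℝ) ^ (2 * b + 5)) Q)
    (hTlog : 11 ≤ Real.log T) (hLA : L + T ≤ A0) (hA0T : A0 + L ≤ T ^ (2000 * k))
    (hTL : T ^ (2000 * k) ≤ 8 * L) (hL1 : 1 ≤ L) {E : ℝ} (hE0 : (L : ℝ) ≤ E)
    (hE1 : L * ∑ D ∈ DD' T k, |WW T k D| + (1 / 2 + CFf cK k) * L ≤ E)
    (hE2 : (1 / 4 + CFf cK k ^ 2) * L + L * ∑ D ∈ DD' T k, |WW T k D|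
        + (#(IW T k) : ℝ) ^ 2 * (L : ℝ) ^ (2 - (0.0001 : ℝ) / 6) ≤ E)
    (hWT : (W : ℝ) * (T : ℝ) ^ (2 * b + 4) ≤ (L : ℝ) ^ ((0.0001 : ℝ) / 100))
    (hA0 : (A0 : ℝ) ≤ (L : ℝ) ^ (1 + (0.0001 : ℝ) / 100)) (hK : KProp L)
    (P : Finset ℕ) (hPT : ∀ p ∈ P, p < T)
    (hgood : ∀ p ∈ P, ∀ ℓ ∈ prI 0 u, ¬ β ≡ p [MOD ℓ]) (hMG : 0 < MGw T k) :
    SetW T u W β P (Mw A0 L) (fw A0 L) (Gw T k) ((L : ℝ) ^ 2) (CFf cK k) (MGw T k) (M2w T k) η
      (E * (T : ℝ) ^ (2 * b + 5)) := by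
  have hT := two_le_of_log hTlog
  have hT0 : (0 : ℝ) < T := by positivity
  have hT1 : (1 : ℝ) ≤ T := by exact_mod_cast (by omega : 1 ≤ T)
  have hL0 : (0 : ℝ) < L := by exact_mod_cast hL1
  have hEnn : 0 ≤ E := by linarith
  have hLT : (T : ℝ) ^ (2000 * k) ≤ 8 * L := by exact_mod_cast hTL
  have hB1f : 0 ≤ B1f cK k := by unfold B1f; positivity
  have hCF1 : 1 + 338 * 2 ^ (2000 * k) ≤ CFf cK k := by unfold CFf; linarith
  have hCF2 : 1 + B1f cK k ≤ CFf cK k := by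
    unfold CFf
    have : (0 : ℝ) ≤ 338 * 2 ^ (2000 * k) := by positivity
    linarith
  have hCF0 : 1 ≤ CFf cK k := by linarith
  have hLA' : L ≤ A0 := by omega
  have hE' : E ≤ E * (T : ℝ) ^ (2 * b + 5) := by
    have : (1 : ℝ) ≤ (T : ℝ) ^ (2 * b + 5) := one_le_pow₀ hT1
    nlinarith
  have hWnn : (0 : ℝ) ≤ W := Nat.cast_nonneg _
  have hpM : ∀ p ∈ P, ∀ m ∈ Mw A0 L, p ≤ m := by
    intro p hp m hm
    have h1 := mem_Mw hLA' hm
    have h2 := hPT p hp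
    omega
  have hGb : ∀ p ∈ P, ∀ m ∈ Mw A0 L, |Gw T k (m - p)| ≤ CFf cK k := by
    intro p hp m hm
    have h1 := mem_Mw hLA' hm
    have h2 := hPT p hp
    exact (abs_Gw_le hT hk (by omega) (by omega)).trans hCF1
  refine ⟨by positivity, hW ▸ prm_pos u, hη0, hη1, by positivity, hCF0, fw_nonneg A0 L, hGb, hMG,
    ?_, ?_, ?_, ?_, ?_⟩
  · exact (M2w_le cK hcK hKT hT hk).2.trans (pow_le_pow_left₀ (by linarith) hCF2 2)
  · have h1 := (abs_le.mp (mass_class A0 L W β hLA' (hW ▸ prm_pos u))).2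
    linarith
  · intro p hp p' hp'
    exact rmass_est hu3 hu hW le_rfl (hpM p hp) (hpM p' hp') (hgood p hp) (hgood p' hp')
      (hfl (fw A0 L) (Mw A0 L) _ E W (fun m _ => fw_nonneg A0 L m) (by positivity) hEnn hWnn
        (reg0 hLA' T E _ hE0))
  · intro p hp
    have h2 := hPT p hp
    refine rmass_est hu3 hu hW le_rfl (hpM p hp) (hpM p hp) (hgood p hp) (hgood p hp)
      (hfl (fun m => fw A0 L m * (Gw T k (m - p) + CFf cK k)) (Mw A0 L) _ E W ?_ (by positivity)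
        hEnn hWnn (reg1 hT hk hLA' (by omega) (CFf cK k) E _ (by linarith) hE1))
    intro m hm
    have h3 := (abs_le.mp (hGb p hp m hm)).1
    exact mul_nonneg (fw_nonneg A0 L m) (by linarith)
  · intro p hp p' hp' hne
    have h2 := hPT p hp
    have h2' := hPT p' hp'
    refine rmass_est hu3 hu hW le_rfl (hpM p hp) (hpM p' hp') (hgood p hp) (hgood p' hp')
      (hfl (fun m => fw A0 L m * (Gw T k (m - p) * Gw T k (m - p') + CFf cK k ^ 2)) (Mw A0 L)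
        _ E W ?_ ?_ hEnn hWnn
        (reg2 hk hTlog hL1 hLT hLA hA0 hK h2.le h2'.le hne (CFf cK k) E _ hWT hE2))
    · intro m hm
      have h3 := hGb p hp m hm
      have h4 := hGb p' hp' m hm
      have h5 : |Gw T k (m - p) * Gw T k (m - p')| ≤ CFf cK k ^ 2 := by
        rw [abs_mul, pow_two]
        exact mul_le_mul h3 h4 (abs_nonneg _) (by linarith)
      have h6 := (abs_le.mp h5).1
      exact mul_nonneg (fw_nonneg A0 L m) (by linarith)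
    · apply mul_nonneg (by positivity)
      have h7 := M2w_ge cK hcK hKT hT hk
      have h8 : (1 + B1f cK k) ^ 2 ≤ CFf cK k ^ 2 := pow_le_pow_left₀ (by linarith) hCF2 2
      linarith

/-- the density of exceptions in a class -/
theorem exists_class_bad2 (ε : ℝ) (hε : 0 < ε) :
    ∃ u k J C1 : ℕ, 3 ≤ u ∧ 1 ≤ k ∧ ∀ᶠ T : ℕ in atTop,
      u ≤ T ∧ 2 ≤ T ∧ 2 ^ J * y0g C1 k T < T ∧
      ∀ A0 L : ℕ, L + T ≤ A0 → A0 + L ≤ T ^ (2000 * k) → T ^ (2000 * k) ≤ 8 * L → ∀ β : ℕ, 2 ∣ β →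
      ∃ P : Finset ℕ, (∀ p ∈ P, p.Prime ∧ p ≤ 2 ^ J * y0g C1 k T) ∧
      (#((Icc (A0 - L / 2) (A0 + L / 2)).filter
        (fun m => m ≡ β [MOD (prm u)] ∧ SG T (Gw T k) P m ≤ 0)) : ℝ) ≤ ε * (L / prm u) := by
  obtain ⟨L0, hL01, bfl, hfl⟩ := exists_flw
  obtain ⟨cK, hcK, hK⟩ := exists_KT_ge
  obtain ⟨LK, hLK⟩ := exists_KProp
  obtain ⟨ε', hε'⟩ : ∃ ε' : ℝ, ε' = ε / 2 := ⟨_, rfl⟩
  have hε'0 : 0 < ε' := by rw [hε']; positivity
  -- choice of `u`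
  obtain ⟨ρ, hρ⟩ : ∃ ρ : ℝ, ρ = min (ε' / 8) 1 := ⟨_, rfl⟩
  have hρ0 : 0 < ρ := by rw [hρ]; positivity
  have hρ1 : ρ ≤ 1 := by rw [hρ]; exact min_le_right _ _
  have hρε : ρ ≤ ε' / 8 := by rw [hρ]; exact min_le_left _ _
  obtain ⟨u, hu⟩ : ∃ u : ℕ, u = ⌈(3072 / ρ) ^ 2⌉₊ + 3 := ⟨_, rfl⟩
  have hu3 : 3 ≤ u := by omega
  have huρ : (3072 / ρ) ^ 2 ≤ u := by
    rw [hu]; push_cast
    have := Nat.le_ceil ((3072 / ρ) ^ 2)
    linarith
  have hu0 : (3 : ℝ) ≤ u := by exact_mod_cast hu3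
  have hsu : 3072 / ρ ≤ Real.sqrt u := by
    rw [← Real.sqrt_sq (by positivity : 0 ≤ 3072 / ρ)]
    exact Real.sqrt_le_sqrt huρ
  have hsu0 : 0 < Real.sqrt u := Real.sqrt_pos.mpr (by linarith)
  obtain ⟨c', hc'⟩ : ∃ c' : ℝ, c' = 1 / (12 * Real.sqrt u) := ⟨_, rfl⟩
  have hc'0 : 0 < c' := by rw [hc']; positivity
  have hρu : 64 / ((u : ℝ) - 1) ≤ ρ / 2 * c' := by
    rw [hc', mul_one_div, div_le_div_iff₀ (by linarith) (by positivity)]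
    rw [div_le_iff₀ hρ0] at hsu
    have h1 : Real.sqrt u * Real.sqrt u = u := Real.mul_self_sqrt (by linarith)
    calc 64 * (12 * Real.sqrt u) = 3072 * (Real.sqrt u / 4) := by ring
      _ ≤ (Real.sqrt u * ρ) * (Real.sqrt u / 4) := by gcongr
      _ = ρ / 4 * (Real.sqrt u * Real.sqrt u) := by ring
      _ = ρ / 4 * u := by rw [h1]
      _ ≤ ρ / 4 * (2 * ((u : ℝ) - 1)) := by gcongr; linarith
      _ = ρ / 2 * ((u : ℝ) - 1) := by ring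
  obtain ⟨J, hJ⟩ := exists_block u (by omega)
  -- choice of `b` and `k`
  obtain ⟨bc, hbc⟩ := exists_b_choice2 L0 cK (ε' / 32) hL01 hcK (by positivity)
  obtain ⟨b, hb⟩ : ∃ b : ℕ, b = bfl + bc + 1 := ⟨_, rfl⟩
  obtain ⟨k, hk⟩ : ∃ k : ℕ, k = 2000 * (b + 4) := ⟨_, rfl⟩
  have hk1 : 1 ≤ k := by omega
  have hk0 : (0 : ℝ) < k := by exact_mod_cast hk1
  obtain ⟨Tf, hTf2, hTf⟩ := hfl b (by omega)
  obtain ⟨hη, hη1⟩ := hbc b (by omega) k hk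
  obtain ⟨η, hηdef⟩ : ∃ η : ℝ, η = flEta L0 b := ⟨_, rfl⟩
  rw [← hηdef] at hη hη1 hTf
  have hη0 : 0 ≤ η := by rw [hηdef]; unfold flEta; positivity
  obtain ⟨CF, hCF⟩ : ∃ CF : ℝ, CF = CFf cK k := ⟨_, rfl⟩
  have hB1f : 0 ≤ B1f cK k := by unfold B1f; positivity
  have hCF2 : 1 + B1f cK k ≤ CF := by
    rw [hCF]; unfold CFf
    have : (0 : ℝ) ≤ 338 * 2 ^ (2000 * k) := by positivity
    linarith
  have hCF0 : 1 ≤ CF := by linarith
  obtain ⟨m0, hm0⟩ : ∃ m0 : ℝ, m0 = 1 / (2 * 10 ^ 5 * (k : ℝ)) := ⟨_, rfl⟩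
  have hm00 : 0 < m0 := by rw [hm0]; positivity
  rw [← hm0, ← hCF] at hη
  -- choice of `C1`
  obtain ⟨C1, hC1⟩ : ∃ C1 : ℕ,
    C1 = ⌈32 * CF ^ 2 / ((ε' * (1000 * (k : ℝ) * c' * cK)) * m0 ^ 2)⌉₊ + 1 := ⟨_, rfl⟩
  have hC1le : 32 * CF ^ 2 ≤ C1 * (ε' * (1000 * (k : ℝ) * c' * cK)) * m0 ^ 2 := by
    rw [mul_assoc, ← div_le_iff₀ (by positivity), hC1]
    push_cast
    have := Nat.le_ceil (32 * CF ^ 2 / ((ε' * (1000 * (k : ℝ) * c' * cK)) * m0 ^ 2))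
    linarith
  have hC11 : (1 : ℝ) ≤ C1 := by
    rw [hC1]; push_cast
    have : (0 : ℝ) ≤ (⌈32 * CF ^ 2 / ((ε' * (1000 * (k : ℝ) * c' * cK)) * m0 ^ 2)⌉₊ : ℝ) := by
      positivity
    linarith
  obtain ⟨W, hW⟩ : ∃ W : ℕ, W = prm u := ⟨_, rfl⟩
  have hW0 : 0 < W := hW ▸ prm_pos u
  have hW0' : (0 : ℝ) < W := by exact_mod_cast hW0
  refine ⟨u, k, J, C1, hu3, hk1, ?_⟩
  rw [← hW]
  obtain ⟨c2, hc2⟩ : ∃ c2 : ℝ, c2 = (cK * m0) ^ 2 := ⟨_, rfl⟩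
  have hc20 : 0 < c2 := by rw [hc2]; positivity
  have evY := ev_log_sq_le (ρ * c' * cK / 4) (by positivity)
  obtain ⟨Yb, hYb⟩ := eventually_atTop.mp evY
  have evn := tendsto_nk k hk1
  filter_upwards [eventually_ge_atTop Tf, ev_sq_lt2 k, E_bounds b k W hk CF hCF0, MF_ge k hk1,
    evn.eventually (ev_block J C1), evn.eventually (eventually_ge_atTop (max (Real.exp 1) (max Yb u))),
    eventually_ge_atTop u, eventually_ge_atTop (8 * LK),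
    eventually_ge_atTop ⌈32 * B1f cK k ^ 2 / (ε' * m0 ^ 2)⌉₊,
    eventually_ge_atTop ⌈40 * W * (1 + CF) ^ 2 / (ε' * c2)⌉₊]
    with T hTf' hnT hEb hMF hblk hnbig huT hTLK hTBg hTC
  obtain ⟨hTlog, hEb⟩ := hEb
  have hT2 : 2 ≤ T := two_le_of_log hTlog
  have hT0' : (0 : ℝ) < T := by positivity
  have hlT : 0 < Real.log T := Real.log_pos (by exact_mod_cast hT2)
  obtain ⟨n, hn⟩ : ∃ n : ℝ, n = 2000 * (k : ℝ) * Real.log T := ⟨_, rfl⟩
  rw [← hn] at hnT hblk hnbig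
  have hne : Real.exp 1 ≤ n := (le_max_left _ _).trans hnbig
  have hnY : Yb ≤ n := (le_max_left _ _).trans ((le_max_right _ _).trans hnbig)
  have hnu : (u : ℝ) ≤ n := (le_max_right _ _).trans ((le_max_right _ _).trans hnbig)
  have hn0 : 0 < n := lt_of_lt_of_le (Real.exp_pos 1) hne
  have hlogn : 1 ≤ Real.log n := by
    rw [Real.le_log_iff_exp_le hn0]; exact hne
  obtain ⟨y0, hy0⟩ : ∃ y0 : ℕ, y0 = y0g C1 k T := ⟨_, rfl⟩
  have hy0lo : (C1 : ℝ) * n * Real.log n ≤ y0 := by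
    rw [hy0, hn]; exact Nat.le_ceil _
  have hy0hi : (y0 : ℝ) ≤ (C1 : ℝ) * n * Real.log n + 1 := by
    rw [hy0, hn]
    apply (Nat.ceil_lt_add_one _).le
    rw [← hn]
    positivity
  have hy0n : n ≤ y0 := by
    calc n = 1 * n * 1 := by ring
      _ ≤ C1 * n * Real.log n := by gcongr
      _ ≤ y0 := hy0lo
  have hblk2 : (2 : ℝ) ^ J * y0 ≤ n ^ 2 := by
    refine le_trans ?_ hblk
    gcongr
  have hy0T : 2 ^ J * y0 < T := by
    have : (2 : ℝ) ^ J * y0 < T := hblk2.trans_lt hnT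
    exact_mod_cast this
  refine ⟨huT, hT2, by rw [← hy0]; exact hy0T, ?_⟩
  rw [← hy0]
  intro A0 L hLA hA0T hTL β hβ
  obtain ⟨hL1, hE0, hE1, hE2, hWT, hA0L⟩ := hEb A0 L hLA hA0T hTL
  -- the block
  have hy02 : 2 ≤ y0 := by
    have h1 : (3 : ℝ) ≤ y0 := hu0.trans (hnu.trans hy0n)
    have : 3 ≤ y0 := by exact_mod_cast h1
    omega
  obtain ⟨i, hiJ, hcard⟩ := hJ β hβ y0 hy02
  obtain ⟨y, hy⟩ : ∃ y : ℕ, y = 2 ^ i * y0 := ⟨_, rfl⟩
  rw [← hy, ← hc'] at hcard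
  have hyy0 : y0 ≤ y := by rw [hy]; exact Nat.le_mul_of_pos_left _ (by positivity)
  have h2y : 2 * y ≤ 2 ^ J * y0 := by
    rw [hy, ← mul_assoc, ← pow_succ']
    exact Nat.mul_le_mul_right _ (Nat.pow_le_pow_right (by norm_num) hiJ)
  have hyr : (y0 : ℝ) ≤ y := by exact_mod_cast hyy0
  have hny : n ≤ y := hy0n.trans hyr
  have hy0p : (0 : ℝ) < y := hn0.trans_le hny
  have huy : u ≤ y := by
    have : (u : ℝ) ≤ y := hnu.trans hny
    exact_mod_cast this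
  have hy2 : 2 ≤ y := hy02.trans hyy0
  have hly : 0 < Real.log y := Real.log_pos (by exact_mod_cast hy2)
  have hlogy : Real.log y ≤ 2 * Real.log n := by
    have h1 : (y : ℝ) ≤ n ^ 2 := by
      have h2 : ((2 * y : ℕ) : ℝ) ≤ ((2 ^ J * y0 : ℕ) : ℝ) := by exact_mod_cast h2y
      push_cast at h2
      linarith
    calc Real.log y ≤ Real.log (n ^ 2) := Real.log_le_log hy0p h1
      _ = 2 * Real.log n := by rw [Real.log_pow]; push_cast; ring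
  obtain ⟨P, hP⟩ : ∃ P : Finset ℕ, P = Pgood u β y (2 * y) := ⟨_, rfl⟩
  rw [← hP] at hcard
  have hPsub : P ⊆ prI y (2 * y) := by rw [hP]; exact filter_subset _ _
  have hPmem : ∀ p ∈ P, p.Prime ∧ p ≤ 2 ^ J * y0 := by
    intro p hp
    have := mem_prI.mp (hPsub hp)
    exact ⟨this.2, this.1.2.trans h2y⟩
  refine ⟨P, hPmem, ?_⟩
  have hPT : ∀ p ∈ P, p < T := fun p hp => (hPmem p hp).2.trans_lt hy0T
  -- size of `P`
  have hyl : C1 * n / 2 ≤ (y : ℝ) / Real.log y := by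
    rw [div_le_div_iff₀ (by norm_num) hly]
    calc C1 * n * Real.log y ≤ C1 * n * (2 * Real.log n) := by gcongr
      _ = (C1 * n * Real.log n) * 2 := by ring
      _ ≤ y * 2 := by
          apply mul_le_mul_of_nonneg_right (hy0lo.trans hyr) (by norm_num)
  have hPsize : c' * (C1 * n / 2) ≤ #P := by
    refine le_trans ?_ hcard
    gcongr
  have hPpos : (0 : ℝ) < #P := lt_of_lt_of_le (by positivity) hPsize
  have hPpos' : 0 < #P := by exact_mod_cast hPpos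
  -- densities
  have hKT := KT_pos T
  have hKTV := KT_le_VV u T
  have hV : 0 < VV u T := hKT.trans_le hKTV
  have hV1 := VV_le_one u T
  have hcV : cK / Real.log T ≤ VV u T := (hK T hT2).trans hKTV
  -- the mean
  have hMG : m0 ≤ MGw T k := by
    unfold MGw
    rw [hm0]
    have e1 : 1 / (2 * 10 ^ 5 * (k : ℝ)) = 1 / 2 * (1 / (10 ^ 5 * (k : ℝ))) := by field_simp
    rw [e1]
    exact mul_le_mul_of_nonneg_left hMF (by norm_num)
  have hMG0 : 0 < MGw T k := hm00.trans_le hMG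
  have hMGle : MGw T k ≤ CF := (MGw_le cK hcK hK hT2 hk1).trans hCF2
  have hLLK : LK ≤ L := by
    have h1 : T ≤ T ^ (2000 * k) := Nat.le_self_pow (by omega) T
    omega
  have S : SetW T u W β P (Mw A0 L) (fw A0 L) (Gw T k) ((L : ℝ) ^ 2) (CFf cK k) (MGw T k)
      (M2w T k) η ((L : ℝ) ^ 2 / (T : ℝ) ^ (40 * (b + 4)) * (T : ℝ) ^ (2 * b + 5)) := by
    refine mk_SetW hcK hK hk1 hu3 huT hW hη0 hη1 (hTf T hTf') hTlog hLA hA0T hTL hL1 hE0 ?_ ?_ hWT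
      hA0L (hLK L hLLK) P hPT ?_ hMG0
    · rw [← hCF]; exact hE1
    · rw [← hCF]; exact hE2
    · intro p hp
      rw [hP] at hp
      exact (mem_filter.mp hp).2
  rw [← hCF] at S
  -- pair sums
  have hpair : ∑ p ∈ P, ∑ p' ∈ P.erase p, V2 u T p p' ≤ VV u T ^ 2 * (#P : ℝ) ^ 2 * (1 + ρ) := by
    have h1 := pair_sum_le (T := T) hu3 huy P hPsub
    have h4 : KT u / KT y ≤ Real.log y / cK := by
      have h5 := hK y hy2
      have h6 : KT u ≤ 1 := by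
        have := KT_le_VV 0 u
        exact this.trans (VV_le_one 0 u)
      calc KT u / KT y ≤ 1 / (cK / Real.log y) := by
            gcongr
        _ = Real.log y / cK := by field_simp
    exact pair_real _ _ _ _ _ _ ρ c' cK _ hρ0 hcK hc'0 hy0p hly hPpos.le h1 hρu hcard h4
      (hYb y (hnY.trans hny))
  -- the remaining conditions
  have h4 : 2 * CF ^ 2 ≤ ε' / 16 * (#P * VV u T * MGw T k ^ 2) :=
    h4_real2 CF ε' #P (VV u T) (MGw T k) n k (Real.log T) c' cK C1 m0 hε'0 hk0 hlT hc'0 hcK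
      (by linarith) hm00 hn hC1le hPsize hcV hMG
  have hVMle : VV u T * MGw T k ≤ CF := by
    calc VV u T * MGw T k ≤ 1 * MGw T k := by gcongr
      _ = MGw T k := one_mul _
      _ ≤ CF := hMGle
  have hVMge : cK * m0 / T ≤ VV u T * MGw T k := by
    have h6 : Real.log T ≤ T := (Real.log_le_sub_one_of_pos hT0').trans (by linarith)
    calc cK * m0 / T = (cK / T) * m0 := by ring
      _ ≤ (cK / Real.log T) * m0 := by gcongr
      _ ≤ VV u T * MGw T k := by gcongr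
  have hVMsq : c2 / (T : ℝ) ^ 2 ≤ (VV u T * MGw T k) ^ 2 := by
    rw [hc2, ← div_pow]
    gcongr
  have hP1 : (1 : ℝ) ≤ #P := by exact_mod_cast hPpos'
  have hT1r : (1 : ℝ) ≤ T := by exact_mod_cast (by omega : 1 ≤ T)
  have h5 := h5_real2 T CF #P (VV u T * MGw T k) L W ε' c2 b hT1r (by linarith) hP1
    (by positivity) hVMle hW0' hε'0 hc20 ((Nat.le_ceil _).trans (by exact_mod_cast hTC)) hVMsq
  have hBg : B1f cK k ^ 2 / T ≤ ε' / 32 * MGw T k ^ 2 := by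
    have g1 : 32 * B1f cK k ^ 2 / (ε' * m0 ^ 2) ≤ T :=
      (Nat.le_ceil _).trans (by exact_mod_cast hTBg)
    rw [div_le_iff₀ (by positivity)] at g1
    have g2 : m0 ^ 2 ≤ MGw T k ^ 2 := by gcongr
    calc B1f cK k ^ 2 / T ≤ ε' / 32 * m0 ^ 2 := by
          rw [div_le_iff₀ hT0']
          linarith
      _ ≤ _ := by gcongr
  have h3 : η * (MGw T k + 2 * CF) ^ 2 ≤ ε' / 32 * MGw T k ^ 2 := by
    have g2 : m0 ^ 2 ≤ MGw T k ^ 2 := by gcongr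
    calc η * (MGw T k + 2 * CF) ^ 2 ≤ η * (3 * CF) ^ 2 := by
          apply mul_le_mul_of_nonneg_left _ hη0
          apply pow_le_pow_left₀ (by positivity)
          linarith
      _ ≤ ε' / 32 * m0 ^ 2 := hη
      _ ≤ _ := by gcongr
  have hfin := mass_bad_le S hu3 (B1f cK k ^ 2 / T) ρ ε' (M2w_le cK hcK hK hT2 hk1).1 hPpos' hV
    hρ0.le hρ1 hε'0 hpair hρε hBg (by positivity) h3 h4 h5
  have hfin2 := middle_card hL1 (by omega) hfin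
  refine hfin2.trans (le_of_eq ?_)
  rw [hε']; ring

end Pool.Agent.Lib.MP_bae66e_nt.P2
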