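import Pool.Agent.Lib.MP_bae66e_nt.P2.RegW

/-!
# The error terms
-/

set_option autoImplicit false

namespace Pool.Agent.Lib.MP_bae66e_nt.P2

open Finset AP3 Filter Topology

/-- size of `L` in logarithms -/
lemma log_L_ge {T k L : ℕ} (hk : 1 ≤ k) (hTlog : 11 ≤ Real.log T) (hL : 1 ≤ L)
    (hLT : (T : ℝ) ^ (2000 * k) ≤ 8 * L) : 1999 * k * Real.log T ≤ Real.log L := by
  have hT := two_le_of_log hTlog
  have hT0 : (0 : ℝ) < T := by positivity
  have hL0 : (0 : ℝ) < L := by exact_mod_cast hL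
  have hk1 : (1 : ℝ) ≤ k := by exact_mod_cast hk
  have h1 := Real.log_le_log (by positivity) hLT
  rw [Real.log_pow, Real.log_mul (by norm_num) hL0.ne'] at h1
  push_cast at h1
  have h2 : Real.log 8 ≤ 2.08 := by
    have h3 : Real.log 8 = 3 * Real.log 2 := by
      rw [show (8 : ℝ) = 2 ^ 3 by norm_num, Real.log_pow]; norm_num
    rw [h3]
    have := Real.log_two_lt_d9
    linarith
  have hkt : 11 ≤ (k : ℝ) * Real.log T := by nlinarith
  linarith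

lemma card_IW_le (k : ℕ) : ∀ᶠ T : ℕ in atTop, (#(IW T k) : ℝ) ≤ T := by
  have h : ∀ᶠ y : ℝ in atTop, 338 * (2000 * k * (2 * Real.log y + 1) + 1) ≤ y := by
    have h1 := (Real.isLittleO_log_id_atTop).bound
      (show (0 : ℝ) < 1 / (4 * (338 * 2000 * (k + 1))) by positivity)
    filter_upwards [h1, eventually_ge_atTop (1 : ℝ),
      eventually_ge_atTop (2 * (338 * (2000 * (k : ℝ) + 1)))] with y hy hy1 hy2
    rw [Real.norm_of_nonneg (Real.log_nonneg hy1)] at hy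
    simp only [id] at hy
    rw [Real.norm_of_nonneg (by linarith)] at hy
    have hk0 : (0 : ℝ) ≤ k := Nat.cast_nonneg _
    have h2 : 338 * 2000 * (k + 1) * 2 * Real.log y ≤ y / 2 := by
      calc 338 * 2000 * (k + 1) * 2 * Real.log y
          ≤ 338 * 2000 * (k + 1) * 2 * (1 / (4 * (338 * 2000 * (k + 1))) * y) := by
            apply mul_le_mul_of_nonneg_left hy (by positivity)
        _ = y / 2 := by field_simp; ring
    have h3 : 338 * 2000 * k * 2 * Real.log y ≤ 338 * 2000 * (k + 1) * 2 * Real.log y := by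
      have := Real.log_nonneg hy1
      nlinarith
    linarith
  have h2 := tendsto_natCast_atTop_atTop.eventually h
  filter_upwards [h2, eventually_ge_atTop 2] with T hT hT2
  refine le_trans ?_ hT
  unfold IW JJ
  rw [card_product, card_range, card_range]
  have hT0 : (0 : ℝ) < T := by positivity
  have h3 : (Nat.log 2 (T ^ (2000 * k)) : ℝ) * Real.log 2 ≤ 2000 * k * Real.log T := by
    have h4 : 2 ^ Nat.log 2 (T ^ (2000 * k)) ≤ T ^ (2000 * k) :=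
      Nat.pow_log_le_self 2 (by positivity)
    have h5 : (2 : ℝ) ^ Nat.log 2 (T ^ (2000 * k)) ≤ (T : ℝ) ^ (2000 * k) := by exact_mod_cast h4
    have h6 := Real.log_le_log (by positivity) h5
    rw [Real.log_pow, Real.log_pow] at h6
    push_cast at h6
    exact h6
  have hl2 := Real.log_two_gt_d9
  have h7 : (Nat.log 2 (T ^ (2000 * k)) : ℝ) ≤ 2000 * k * (2 * Real.log T) := by
    have h8 : (0 : ℝ) ≤ Nat.log 2 (T ^ (2000 * k)) := Nat.cast_nonneg _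
    nlinarith
  push_cast
  have hk0 : (0 : ℝ) ≤ k := Nat.cast_nonneg _
  nlinarith

lemma B0_le {T k : ℕ} (hT : 2 ≤ T) (hk : 1 ≤ k) :
    ∑ D ∈ DD' T k, |WW T k D| ≤ 338 * (T : ℝ) ^ (1110 * k) :=
  bound_B0 (fun D _ => abs_WW_le hT hk D) (by norm_num)

theorem E_bounds (b k W : ℕ) (hk : k = 2000 * (b + 4)) (CF : ℝ) (hCF : 1 ≤ CF) :
    ∀ᶠ T : ℕ in atTop, 11 ≤ Real.log T ∧ ∀ A0 L : ℕ, L + T ≤ A0 → A0 + L ≤ T ^ (2000 * k) →
      T ^ (2000 * k) ≤ 8 * L →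
      1 ≤ L ∧ (L : ℝ) ≤ (L : ℝ) ^ 2 / (T : ℝ) ^ (40 * (b + 4)) ∧
      L * ∑ D ∈ DD' T k, |WW T k D| + (1 / 2 + CF) * L ≤ (L : ℝ) ^ 2 / (T : ℝ) ^ (40 * (b + 4)) ∧
      (1 / 4 + CF ^ 2) * L + L * ∑ D ∈ DD' T k, |WW T k D|
        + (#(IW T k) : ℝ) ^ 2 * (L : ℝ) ^ (2 - (0.0001 : ℝ) / 6)
        ≤ (L : ℝ) ^ 2 / (T : ℝ) ^ (40 * (b + 4)) ∧
      (W : ℝ) * (T : ℝ) ^ (2 * b + 4) ≤ (L : ℝ) ^ ((0.0001 : ℝ) / 100) ∧
      (A0 : ℝ) ≤ (L : ℝ) ^ (1 + (0.0001 : ℝ) / 100) := by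
  have hlog : Tendsto (fun T : ℕ => Real.log T) atTop atTop :=
    Real.tendsto_log_atTop.comp tendsto_natCast_atTop_atTop
  filter_upwards [hlog.eventually (eventually_ge_atTop 11), card_IW_le k,
    eventually_ge_atTop (⌈2 * (1 + CF ^ 2)⌉₊), eventually_ge_atTop W, eventually_ge_atTop 338]
    with T hTlog hcard hTCF hTW hT338
  have hcard0 : (0 : ℝ) ≤ (#(IW T k) : ℝ) := Nat.cast_nonneg _
  generalize (#(IW T k) : ℝ) = nI at hcard hcard0 ⊢
  refine ⟨hTlog, ?_⟩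
  intro A0 L hLA hA0T hTL
  have hT := two_le_of_log hTlog
  have hk1 : 1 ≤ k := by omega
  have hT0 : (0 : ℝ) < T := by positivity
  have hT1 : (1 : ℝ) ≤ T := by exact_mod_cast (by omega : 1 ≤ T)
  have hT338' : (338 : ℝ) ≤ T := by exact_mod_cast hT338
  have hTCF' : 2 * (1 + CF ^ 2) ≤ T := (Nat.le_ceil _).trans (by exact_mod_cast hTCF)
  have hTW' : (W : ℝ) ≤ T := by exact_mod_cast hTW
  have hLT : (T : ℝ) ^ (2000 * k) ≤ 8 * L := by exact_mod_cast hTL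
  have hpos : 0 < T ^ (2000 * k) := by positivity
  have hL1 : 1 ≤ L := by omega
  have hL0 : (0 : ℝ) < L := by exact_mod_cast hL1
  have hlogL := log_L_ge hk1 hTlog hL1 hLT
  have ht0 : 0 < Real.log T := by linarith
  have hkr : (k : ℝ) = 2000 * (b + 4) := by rw [hk]; push_cast; ring
  have hb0 : (0 : ℝ) ≤ b := Nat.cast_nonneg _
  obtain ⟨g, hg⟩ : ∃ g : ℕ, g = b + 4 := ⟨_, rfl⟩
  have hgr : (g : ℝ) = b + 4 := by rw [hg]; push_cast; ring
  rw [← hgr] at hkr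
  rw [← hg]
  have hg4 : (4 : ℝ) ≤ g := by rw [hgr]; linarith
  have hg4' : 4 ≤ g := by omega
  rw [← hg] at hk
  -- powers
  have hpow1 : (T : ℝ) ^ (3 * g) ≤ (L : ℝ) ^ ((0.0001 : ℝ) / 100) := by
    apply pow_le_rpow _ _ hT hL1
    push_cast
    rw [hkr] at hlogL
    have : 0 < (g : ℝ) * Real.log T := by positivity
    nlinarith
  have hpow2 : (T : ℝ) ^ (66 * g) ≤ (L : ℝ) ^ ((0.0001 : ℝ) / 6) := by
    apply pow_le_rpow _ _ hT hL1
    push_cast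
    rw [hkr] at hlogL
    have : 0 < (g : ℝ) * Real.log T := by positivity
    nlinarith
  have hpow3 : (T : ℝ) ^ (1111 * k) * 2 ≤ L := by
    have h1 : (T : ℝ) ^ (1111 * k) * 16 ≤ (T : ℝ) ^ (2000 * k) := by
      calc (T : ℝ) ^ (1111 * k) * 16 ≤ (T : ℝ) ^ (1111 * k) * T := by gcongr; linarith
        _ = (T : ℝ) ^ (1111 * k + 1) := by rw [pow_succ]
        _ ≤ (T : ℝ) ^ (2000 * k) := pow_le_pow_right₀ hT1 (by omega)
    linarith
  have hB0 := B0_le (T := T) hT hk1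
  have hB00 : 0 ≤ ∑ D ∈ DD' T k, |WW T k D| := sum_nonneg fun _ _ => abs_nonneg _
  have hTg0 : (0 : ℝ) < (T : ℝ) ^ (40 * g) := by positivity
  -- the main bound
  have hmain : (1 + CF ^ 2 + ∑ D ∈ DD' T k, |WW T k D|) * (T : ℝ) ^ (40 * g) ≤ L / 2 := by
    have h1 : 1 + CF ^ 2 + ∑ D ∈ DD' T k, |WW T k D| ≤ (T : ℝ) ^ (1110 * k + 2) := by
      have h2 : (1 : ℝ) ≤ (T : ℝ) ^ (1110 * k) := one_le_pow₀ hT1
      calc 1 + CF ^ 2 + ∑ D ∈ DD' T k, |WW T k D| ≤ T + 338 * (T : ℝ) ^ (1110 * k) := by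
            have : 0 ≤ 1 + CF ^ 2 := by positivity
            linarith
        _ ≤ T * (T : ℝ) ^ (1110 * k) + T * (T : ℝ) ^ (1110 * k) := by
            apply add_le_add
            · nlinarith
            · gcongr
        _ = 2 * (T * (T : ℝ) ^ (1110 * k)) := by ring
        _ ≤ T * (T * (T : ℝ) ^ (1110 * k)) := by
            apply mul_le_mul_of_nonneg_right _ (by positivity)
            linarith
        _ = (T : ℝ) ^ (1110 * k + 2) := by ring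
    calc (1 + CF ^ 2 + ∑ D ∈ DD' T k, |WW T k D|) * (T : ℝ) ^ (40 * g)
        ≤ (T : ℝ) ^ (1110 * k + 2) * (T : ℝ) ^ (40 * g) :=
          mul_le_mul_of_nonneg_right h1 (by positivity)
      _ = (T : ℝ) ^ (1110 * k + 2 + 40 * g) := by rw [← pow_add]
      _ ≤ (T : ℝ) ^ (1111 * k) := pow_le_pow_right₀ hT1 (by omega)
      _ ≤ L / 2 := by linarith
  have hE1 : (1 + CF ^ 2 + ∑ D ∈ DD' T k, |WW T k D|) * L
      ≤ (L : ℝ) ^ 2 / (T : ℝ) ^ (40 * g) / 2 := by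
    rw [div_div, le_div_iff₀ (by positivity)]
    nlinarith
  have hEnn : 0 ≤ (L : ℝ) ^ 2 / (T : ℝ) ^ (40 * g) := by positivity
  refine ⟨hL1, ?_, ?_, ?_, ?_, ?_⟩
  · have : (1 : ℝ) * L ≤ (1 + CF ^ 2 + ∑ D ∈ DD' T k, |WW T k D|) * L := by
      apply mul_le_mul_of_nonneg_right _ hL0.le
      nlinarith [sq_nonneg CF]
    linarith
  · have h1 : 1 / 2 + CF ≤ 1 + CF ^ 2 := by nlinarith
    have h2 : (1 / 2 + CF) * L ≤ (1 + CF ^ 2) * L := mul_le_mul_of_nonneg_right h1 hL0.le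
    linarith
  · have h1 : (1 / 4 + CF ^ 2) * (L : ℝ) ≤ (1 + CF ^ 2) * L :=
      mul_le_mul_of_nonneg_right (by linarith) hL0.le
    have h2 : nI ^ 2 * (L : ℝ) ^ (2 - (0.0001 : ℝ) / 6)
        ≤ (L : ℝ) ^ 2 / (T : ℝ) ^ (40 * g) / 2 := by
      rw [Real.rpow_sub hL0, div_div, le_div_iff₀ (by positivity)]
      have h3 : (L : ℝ) ^ (2 : ℝ) = (L : ℝ) ^ 2 := by
        rw [← Real.rpow_natCast]; norm_num
      rw [h3]
      have h4 : 0 < (L : ℝ) ^ ((0.0001 : ℝ) / 6) := Real.rpow_pos_of_pos hL0 _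
      have h5 : nI ^ 2 * ((T : ℝ) ^ (40 * g) * 2) ≤ (L : ℝ) ^ ((0.0001 : ℝ) / 6) := by
        refine le_trans ?_ hpow2
        calc nI ^ 2 * ((T : ℝ) ^ (40 * g) * 2)
            ≤ (T : ℝ) ^ 2 * ((T : ℝ) ^ (40 * g) * T) := by
              gcongr
              linarith
          _ = (T : ℝ) ^ (40 * g + 3) := by ring
          _ ≤ (T : ℝ) ^ (66 * g) := pow_le_pow_right₀ hT1 (by omega)
      calc nI ^ 2 * ((L : ℝ) ^ 2 / (L : ℝ) ^ ((0.0001 : ℝ) / 6))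
            * ((T : ℝ) ^ (40 * g) * 2)
          = (L : ℝ) ^ 2 * ((nI ^ 2 * ((T : ℝ) ^ (40 * g) * 2))
            / (L : ℝ) ^ ((0.0001 : ℝ) / 6)) := by ring
        _ ≤ (L : ℝ) ^ 2 * 1 := by
            apply mul_le_mul_of_nonneg_left _ (by positivity)
            rw [div_le_one h4]; exact h5
        _ = (L : ℝ) ^ 2 := mul_one _
    linarith
  · refine le_trans ?_ hpow1
    calc (W : ℝ) * (T : ℝ) ^ (2 * b + 4) ≤ T * (T : ℝ) ^ (2 * b + 4) := by gcongr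
      _ = (T : ℝ) ^ (2 * b + 5) := by ring
      _ ≤ (T : ℝ) ^ (3 * g) := pow_le_pow_right₀ hT1 (by omega)
  · rw [Real.rpow_add hL0, Real.rpow_one]
    have h1 : (A0 : ℝ) ≤ 8 * L := by
      have : A0 ≤ 8 * L := by omega
      exact_mod_cast this
    have h2 : (8 : ℝ) ≤ (L : ℝ) ^ ((0.0001 : ℝ) / 100) := by
      refine le_trans ?_ hpow1
      calc (8 : ℝ) ≤ T := by linarith
        _ = (T : ℝ) ^ 1 := (pow_one _).symm
        _ ≤ (T : ℝ) ^ (3 * g) := pow_le_pow_right₀ hT1 (by omega)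
    nlinarith

end Pool.Agent.Lib.MP_bae66e_nt.P2
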