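import Pool.Agent.Lib.MP_bae66e_nt.AP3.FLFinal

/-!
# The fundamental lemma for a weight function
-/

set_option autoImplicit false

namespace Pool.Agent.Lib.MP_bae66e_nt.P2

open Finset AP3

/-- integers of `Mm` in the class `a` modulo `q`, lying in the forbidden classes for all primes
of `S` and in none of the forbidden classes for the primes of `R` -/
def mset (Mm : Finset ℕ) (Om : ℕ → Finset ℕ) (q a : ℕ) (S R : Finset ℕ) : Finset ℕ :=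
  {m ∈ Mm | m ≡ a [MOD q] ∧ (∀ ℓ ∈ S, m % ℓ ∈ Om ℓ) ∧ ∀ ℓ ∈ R, m % ℓ ∉ Om ℓ}

/-- the mass of `mset` -/
noncomputable def msum (ν : ℕ → ℝ) (Mm : Finset ℕ) (Om : ℕ → Finset ℕ) (q a : ℕ)
    (S R : Finset ℕ) : ℝ := ∑ m ∈ mset Mm Om q a S R, ν m

/-- regular distribution in all classes to smooth moduli at most `Q` -/
def Reg (ν : ℕ → ℝ) (Mm : Finset ℕ) (T : ℕ) (Y E Q : ℝ) : Prop :=
  ∀ q a : ℕ, Squarefree q → (q : ℝ) ≤ Q → (∀ ℓ : ℕ, ℓ.Prime → ℓ ∣ q → ℓ ≤ T) →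
    |∑ m ∈ Mm.filter (fun m => m ≡ a [MOD q]), ν m - Y / q| ≤ E

/-- the property that the fundamental lemma holds for `R` -/
def FLW (ν : ℕ → ℝ) (Mm : Finset ℕ) (Om : ℕ → Finset ℕ) (T : ℕ) (Y : ℝ) (R : Finset ℕ)
    (η E Q : ℝ) : Prop :=
  ∀ q a : ℕ, Squarefree q → (q : ℝ) ≤ Q → (∀ ℓ : ℕ, ℓ.Prime → ℓ ∣ q → ℓ ≤ T) →
    (∀ ℓ ∈ R, Nat.Coprime ℓ q) →
    |msum ν Mm Om q a ∅ R - Y / q * ∏ ℓ ∈ R, (1 - xb Om ℓ)|
      ≤ η * (Y / q * ∏ ℓ ∈ R, (1 - xb Om ℓ)) + E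

lemma flw_empty {ν : ℕ → ℝ} {Mm : Finset ℕ} {T : ℕ} {Y E Q : ℝ} (hY : 0 ≤ Y)
    (h : Reg ν Mm T Y E Q) (Om : ℕ → Finset ℕ) (η : ℝ) (hη : 0 ≤ η) :
    FLW ν Mm Om T Y ∅ η E Q := by
  intro q a hq hqQ hqT _
  have h1 := h q a hq hqQ hqT
  have h2 : msum ν Mm Om q a ∅ ∅ = ∑ m ∈ Mm.filter (fun m => m ≡ a [MOD q]), ν m := by
    unfold msum mset; simp
  rw [h2, prod_empty, mul_one]
  have : 0 ≤ η * (Y / q) := by positivity
  linarith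

/-- passing to the subset where the primes of `S` are bad -/
lemma flw_S {ν : ℕ → ℝ} {Mm : Finset ℕ} {T : ℕ} {Y : ℝ} {Om : ℕ → Finset ℕ} {R : Finset ℕ}
    {η E Q : ℝ} (hR : FLW ν Mm Om T Y R η E Q)
    (S : Finset ℕ) (hSp : ∀ ℓ ∈ S, ℓ.Prime ∧ ℓ ≤ T) (hOm : ∀ ℓ ∈ S, ∀ c ∈ Om ℓ, c < ℓ)
    (hRS : ∀ ℓ ∈ R, ∀ p ∈ S, Nat.Coprime ℓ p) :
    ∀ q a : ℕ, Squarefree q → (q : ℝ) * ∏ ℓ ∈ S, (ℓ : ℝ) ≤ Q → (∀ ℓ : ℕ, ℓ.Prime → ℓ ∣ q → ℓ ≤ T) →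
    (∀ ℓ ∈ R, Nat.Coprime ℓ q) → (∀ ℓ ∈ S, Nat.Coprime ℓ q) →
    |msum ν Mm Om q a S R - Y / q * (∏ ℓ ∈ S, xb Om ℓ) * ∏ ℓ ∈ R, (1 - xb Om ℓ)|
      ≤ η * (Y / q * (∏ ℓ ∈ S, xb Om ℓ) * ∏ ℓ ∈ R, (1 - xb Om ℓ))
        + (∏ ℓ ∈ S, (#(Om ℓ) : ℝ)) * E := by
  induction S using Finset.induction_on with
  | empty =>
    intro q a hq hqQ hqT hqR _
    have := hR q a hq (by simpa using hqQ) hqT hqR
    simpa using this
  | insert p S hpS ih =>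
    intro q a hq hqQ hqT hqR hqS
    have hp : p.Prime := (hSp p (mem_insert_self _ _)).1
    have hpT : p ≤ T := (hSp p (mem_insert_self _ _)).2
    have hpq : Nat.Coprime p q := hqS p (mem_insert_self _ _)
    have hqp : Nat.Coprime q p := hpq.symm
    -- split according to the class modulo `p`
    have hsplit : mset Mm Om q a (insert p S) R
        = (Om p).biUnion fun c => mset Mm Om (q * p) (Nat.chineseRemainder hqp a c) S R := by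
      ext m
      simp only [mset, mem_filter, mem_biUnion, mem_insert, forall_eq_or_imp]
      constructor
      · rintro ⟨h1, h2, ⟨h3, h4⟩, h5⟩
        refine ⟨m % p, h3, h1, ?_, h4, h5⟩
        apply (Nat.modEq_and_modEq_iff_modEq_mul hqp).mp
        refine ⟨h2.trans (Nat.chineseRemainder hqp a (m % p)).2.1.symm, ?_⟩
        exact (Nat.mod_modEq m p).symm.trans (Nat.chineseRemainder hqp a (m % p)).2.2.symm
      · rintro ⟨c, hc, h1, h2, h4, h5⟩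
        have h6 := (Nat.modEq_and_modEq_iff_modEq_mul hqp).mpr h2
        have h7 := h6.1.trans (Nat.chineseRemainder hqp a c).2.1
        have h8 := h6.2.trans (Nat.chineseRemainder hqp a c).2.2
        have hcp : c < p := hOm p (mem_insert_self _ _) c hc
        have h9 : m % p = c := by
          have : m % p = c % p := h8
          rwa [Nat.mod_eq_of_lt hcp] at this
        exact ⟨h1, h7, ⟨by rw [h9]; exact hc, h4⟩, h5⟩
    have hdisj : ∀ c ∈ Om p, ∀ c' ∈ Om p, c ≠ c' →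
        Disjoint (mset Mm Om (q * p) (Nat.chineseRemainder hqp a c) S R)
          (mset Mm Om (q * p) (Nat.chineseRemainder hqp a c') S R) := by
      intro c hc c' hc' hne
      rw [disjoint_left]
      intro m hm hm'
      simp only [mset, mem_filter] at hm hm'
      have h6 := ((Nat.modEq_and_modEq_iff_modEq_mul hqp).mpr hm.2.1).2.trans
        (Nat.chineseRemainder hqp a c).2.2
      have h6' := ((Nat.modEq_and_modEq_iff_modEq_mul hqp).mpr hm'.2.1).2.trans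
        (Nat.chineseRemainder hqp a c').2.2
      have h7 : c ≡ c' [MOD p] := h6.symm.trans h6'
      have h8 : c % p = c' % p := h7
      rw [Nat.mod_eq_of_lt (hOm p (mem_insert_self _ _) c hc),
        Nat.mod_eq_of_lt (hOm p (mem_insert_self _ _) c' hc')] at h8
      exact hne h8
    have hmsum : msum ν Mm Om q a (insert p S) R
        = ∑ c ∈ Om p, msum ν Mm Om (q * p) (Nat.chineseRemainder hqp a c) S R := by
      unfold msum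
      rw [hsplit, sum_biUnion hdisj]
    rw [hmsum, prod_insert hpS, prod_insert hpS]
    set M : ℝ := Y / q * (∏ ℓ ∈ S, xb Om ℓ) * ∏ ℓ ∈ R, (1 - xb Om ℓ) with hM
    have hp0 : (0 : ℝ) < p := by exact_mod_cast hp.pos
    have hq0 : (0 : ℝ) < q := by exact_mod_cast hq.ne_zero.bot_lt
    have ih' : ∀ c ∈ Om p,
        |msum ν Mm Om (q * p) (Nat.chineseRemainder hqp a c) S R - M / p|
        ≤ η * (M / p) + (∏ ℓ ∈ S, (#(Om ℓ) : ℝ)) * E := by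
      intro c _
      have h1 := ih (fun ℓ hℓ => hSp ℓ (mem_insert_of_mem hℓ))
        (fun ℓ hℓ => hOm ℓ (mem_insert_of_mem hℓ))
        (fun ℓ hℓ p' hp' => hRS ℓ hℓ p' (mem_insert_of_mem hp'))
        (q * p) (Nat.chineseRemainder hqp a c) ((Nat.squarefree_mul hqp).mpr ⟨hq, hp.squarefree⟩)
        (by
          rw [prod_insert hpS] at hqQ
          refine le_trans (le_of_eq ?_) hqQ
          push_cast; ring)
        (fun ℓ hℓ hd => by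
          rcases (Nat.Prime.dvd_mul hℓ).mp hd with h | h
          · exact hqT ℓ hℓ h
          · rw [(Nat.prime_dvd_prime_iff_eq hℓ hp).mp h]; exact hpT)
        (fun ℓ hℓ => (hqR ℓ hℓ).mul_right (hRS ℓ hℓ p (mem_insert_self _ _)))
        (fun ℓ hℓ => (hqS ℓ (mem_insert_of_mem hℓ)).mul_right
          ((Nat.coprime_primes (hSp ℓ (mem_insert_of_mem hℓ)).1 hp).mpr
            (by rintro rfl; exact hpS hℓ)))
      have h2 : Y / ((q * p : ℕ) : ℝ) * (∏ ℓ ∈ S, xb Om ℓ) * ∏ ℓ ∈ R, (1 - xb Om ℓ)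
          = M / p := by
        rw [hM]; push_cast; field_simp
      rwa [h2] at h1
    have e1 : Y / q * (xb Om p * ∏ ℓ ∈ S, xb Om ℓ) * ∏ ℓ ∈ R, (1 - xb Om ℓ)
        = ∑ c ∈ Om p, M / p := by
      rw [sum_const, nsmul_eq_mul, hM, xb]
      field_simp
    rw [e1, ← sum_sub_distrib]
    calc |∑ c ∈ Om p, (msum ν Mm Om (q * p) (Nat.chineseRemainder hqp a c) S R - M / p)|
        ≤ ∑ c ∈ Om p, |msum ν Mm Om (q * p) (Nat.chineseRemainder hqp a c) S R - M / p| :=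
          abs_sum_le_sum_abs _ _
      _ ≤ ∑ c ∈ Om p, (η * (M / p) + (∏ ℓ ∈ S, (#(Om ℓ) : ℝ)) * E) := sum_le_sum ih'
      _ = η * ∑ c ∈ Om p, M / p + #(Om p) * (∏ ℓ ∈ S, (#(Om ℓ) : ℝ)) * E := by
          rw [sum_add_distrib, ← mul_sum, sum_const _, nsmul_eq_mul]
          simp only [sum_const, nsmul_eq_mul]
          ring

lemma msum_es_xi (ν : ℕ → ℝ) (Mm : Finset ℕ) (Om : ℕ → Finset ℕ) (q a : ℕ) (R Bk : Finset ℕ)
    (j : ℕ) :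
    ∑ m ∈ mset Mm Om q a ∅ R, ν m * es (xi Om m) j Bk
      = ∑ T ∈ powersetCard j Bk, msum ν Mm Om q a T R := by
  unfold es
  simp_rw [mul_sum]
  rw [sum_comm]
  apply sum_congr rfl
  intro T _
  have h1 : ∀ m, ∏ i ∈ T, xi Om m i = if (∀ ℓ ∈ T, m % ℓ ∈ Om ℓ) then (1 : ℝ) else 0 := by
    intro m
    split_ifs with h
    · apply prod_eq_one
      intro i hi
      rw [xi, if_pos (h i hi)]
    · push Not at h
      obtain ⟨ℓ, hℓ, h2⟩ := h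
      apply prod_eq_zero hℓ
      rw [xi, if_neg h2]
  simp_rw [h1, mul_ite, mul_one, mul_zero]
  rw [← sum_filter]
  unfold msum
  apply sum_congr _ fun _ _ => rfl
  ext m
  simp only [mset, mem_filter, notMem_empty, IsEmpty.forall_iff, implies_true, true_and]
  tauto

lemma msum_union (ν : ℕ → ℝ) (Mm : Finset ℕ) (Om : ℕ → Finset ℕ) (q a : ℕ) (R Bk : Finset ℕ) :
    msum ν Mm Om q a ∅ (Bk ∪ R)
      = ∑ m ∈ mset Mm Om q a ∅ R, ν m * ∏ ℓ ∈ Bk, (1 - xi Om m ℓ) := by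
  have h1 : ∀ m, ∏ ℓ ∈ Bk, (1 - xi Om m ℓ)
      = if (∀ ℓ ∈ Bk, m % ℓ ∉ Om ℓ) then (1 : ℝ) else 0 := by
    intro m
    split_ifs with h
    · apply prod_eq_one
      intro i hi
      rw [xi, if_neg (h i hi)]; ring
    · push Not at h
      obtain ⟨ℓ, hℓ, h2⟩ := h
      apply prod_eq_zero hℓ
      rw [xi, if_pos h2]; ring
  simp_rw [h1, mul_ite, mul_one, mul_zero]
  rw [← sum_filter]
  unfold msum
  apply sum_congr _ fun _ _ => rfl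
  ext m
  simp only [mset, mem_filter, notMem_empty, IsEmpty.forall_iff, implies_true, true_and,
    mem_union]
  constructor
  · rintro ⟨h1, h2, h3⟩
    exact ⟨⟨h1, h2, fun ℓ hℓ => h3 ℓ (Or.inr hℓ)⟩, fun ℓ hℓ => h3 ℓ (Or.inl hℓ)⟩
  · rintro ⟨⟨h1, h2, h3⟩, h4⟩
    refine ⟨h1, h2, fun ℓ hℓ => ?_⟩
    rcases hℓ with hℓ | hℓ
    · exact h4 ℓ hℓ
    · exact h3 ℓ hℓ

theorem flw_step {ν : ℕ → ℝ} {Mm : Finset ℕ} {T : ℕ} {Y : ℝ} {Om : ℕ → Finset ℕ}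
    (hν : ∀ m ∈ Mm, 0 ≤ ν m) (hY : 0 ≤ Y) (R Bk : Finset ℕ) {η E L Q : ℝ}
    (hη : 0 ≤ η) (hE : 0 ≤ E) (z : ℕ) (hz1 : 1 ≤ z) (hzT : z ≤ T) (r : ℕ)
    (hR : FLW ν Mm Om T Y R η E (Q * (z : ℝ) ^ r)) (hdisj : Disjoint Bk R)
    (hRp : ∀ ℓ ∈ R, ℓ.Prime) (hBp : ∀ ℓ ∈ Bk, ℓ.Prime ∧ ℓ ≤ z)
    (hOm : ∀ ℓ ∈ Bk, ∀ c ∈ Om ℓ, c < ℓ)
    (hx : ∀ ℓ, xb Om ℓ ≤ 1 / 2) (hL : ∑ ℓ ∈ Bk, xb Om ℓ ≤ L) :
    FLW ν Mm Om T Y (Bk ∪ R)
      (Real.exp (3 * L) * η + 2 * Real.exp (2 * L) * (L ^ r / r.factorial))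
      (E * (1 + ∑ ℓ ∈ Bk, (#(Om ℓ) : ℝ)) ^ r) Q := by
  intro q a hq hqQ hqT hcop
  have hqR : ∀ ℓ ∈ R, Nat.Coprime ℓ q := fun ℓ hℓ => hcop ℓ (mem_union_right _ hℓ)
  have hqB : ∀ ℓ ∈ Bk, Nat.Coprime ℓ q := fun ℓ hℓ => hcop ℓ (mem_union_left _ hℓ)
  have hxx : ∀ m i, 0 ≤ xi Om m i ∧ xi Om m i ≤ 1 := by
    intro m i; unfold xi; split_ifs <;> norm_num
  have hz1' : (1 : ℝ) ≤ z := by exact_mod_cast hz1
  set M : ℝ := Y / q with hM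
  have hM0 : 0 ≤ M := by rw [hM]; positivity
  set PR : ℝ := ∏ ℓ ∈ R, (1 - xb Om ℓ) with hPR
  have hPR0 : 0 ≤ PR := prod_nonneg fun i _ => by have := hx i; linarith
  set PB : ℝ := ∏ ℓ ∈ Bk, (1 - xb Om ℓ) with hPB
  have hL0 : 0 ≤ L := le_trans (sum_nonneg fun i _ => xb_nonneg Om i) hL
  have hPBge : Real.exp (-(2 * L)) ≤ PB := by
    refine le_trans ?_ (prod_one_sub_ge (xb Om) Bk (xb_nonneg Om) hx)
    apply Real.exp_le_exp.mpr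
    linarith
  have hPB0 : 0 < PB := lt_of_lt_of_le (Real.exp_pos _) hPBge
  have hprod : ∏ ℓ ∈ Bk ∪ R, (1 - xb Om ℓ) = PB * PR := prod_union hdisj
  rw [hprod]
  set D : ℝ := M * PR with hD
  have hD0 : 0 ≤ D := mul_nonneg hM0 hPR0
  -- masses with bad sets
  let N : Finset ℕ → ℝ := fun S => msum ν Mm Om q a S R
  have hN : ∀ S ⊆ Bk, #S ≤ r → |N S - D * ∏ ℓ ∈ S, xb Om ℓ|
      ≤ η * (D * ∏ ℓ ∈ S, xb Om ℓ) + (∏ ℓ ∈ S, (#(Om ℓ) : ℝ)) * E := by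
    intro S hS hSr
    have hprodS : ∏ ℓ ∈ S, (ℓ : ℝ) ≤ (z : ℝ) ^ r := by
      calc ∏ ℓ ∈ S, (ℓ : ℝ) ≤ ∏ ℓ ∈ S, (z : ℝ) := by
            apply prod_le_prod (fun _ _ => Nat.cast_nonneg _)
            intro ℓ hℓ
            exact_mod_cast (hBp ℓ (hS hℓ)).2
        _ = (z : ℝ) ^ #S := by rw [prod_const]
        _ ≤ (z : ℝ) ^ r := pow_le_pow_right₀ hz1' hSr
    have h1 := flw_S hR S (fun ℓ hℓ => ⟨(hBp ℓ (hS hℓ)).1, (hBp ℓ (hS hℓ)).2.trans hzT⟩)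
      (fun ℓ hℓ => hOm ℓ (hS hℓ))
      (fun ℓ hℓ p hp => (Nat.coprime_primes (hRp ℓ hℓ) (hBp p (hS hp)).1).mpr (by
        rintro rfl
        exact (disjoint_left.mp hdisj (hS hp)) hℓ)) q a hq
      (by
        have hq0 : (0 : ℝ) ≤ q := Nat.cast_nonneg _
        calc (q : ℝ) * ∏ ℓ ∈ S, (ℓ : ℝ) ≤ q * (z : ℝ) ^ r :=
              mul_le_mul_of_nonneg_left hprodS hq0
          _ ≤ Q * (z : ℝ) ^ r := mul_le_mul_of_nonneg_right hqQ (by positivity))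
      hqT hqR (fun ℓ hℓ => hqB ℓ (hS hℓ))
    have e : Y / q * (∏ ℓ ∈ S, xb Om ℓ) * ∏ ℓ ∈ R, (1 - xb Om ℓ)
        = D * ∏ ℓ ∈ S, xb Om ℓ := by rw [hD, hM, hPR]; ring
    rwa [e] at h1
  have hErr : ∀ j, j ≤ r → |∑ S ∈ powersetCard j Bk, N S - D * es (xb Om) j Bk|
      ≤ η * (D * es (xb Om) j Bk) + E * es (fun ℓ => (#(Om ℓ) : ℝ)) j Bk := by
    intro j hj
    have e1 : ∑ S ∈ powersetCard j Bk, N S - D * es (xb Om) j Bk
        = ∑ S ∈ powersetCard j Bk, (N S - D * ∏ ℓ ∈ S, xb Om ℓ) := by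
      rw [sum_sub_distrib, ← mul_sum]; rfl
    rw [e1]
    calc |∑ S ∈ powersetCard j Bk, (N S - D * ∏ ℓ ∈ S, xb Om ℓ)|
        ≤ ∑ S ∈ powersetCard j Bk, |N S - D * ∏ ℓ ∈ S, xb Om ℓ| := abs_sum_le_sum_abs _ _
      _ ≤ ∑ S ∈ powersetCard j Bk, (η * (D * ∏ ℓ ∈ S, xb Om ℓ) + (∏ ℓ ∈ S, (#(Om ℓ) : ℝ)) * E) :=
          sum_le_sum fun S hS => hN S (mem_powersetCard.mp hS).1
            ((mem_powersetCard.mp hS).2.le.trans hj)
      _ = _ := by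
          rw [sum_add_distrib, ← mul_sum, ← mul_sum, ← sum_mul]
          unfold es
          ring
  -- the sum
  set C : ℝ := msum ν Mm Om q a ∅ (Bk ∪ R) with hC
  have hνm : ∀ m ∈ mset Mm Om q a ∅ R, 0 ≤ ν m := fun m hm => hν m (mem_filter.mp hm).1
  have h1 : |C - ∑ j ∈ range r, (-1) ^ j * ∑ S ∈ powersetCard j Bk, N S|
      ≤ ∑ S ∈ powersetCard r Bk, N S := by
    have e1 : ∑ j ∈ range r, (-1) ^ j * ∑ S ∈ powersetCard j Bk, N S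
        = ∑ m ∈ mset Mm Om q a ∅ R, ν m * alt (xi Om m) r Bk := by
      unfold alt
      simp_rw [mul_sum]
      rw [sum_comm]
      apply sum_congr rfl
      intro j _
      rw [← mul_sum, ← msum_es_xi, mul_sum]
      apply sum_congr rfl
      intro m _
      ring
    rw [e1, hC, msum_union, ← sum_sub_distrib, ← msum_es_xi]
    calc |∑ m ∈ mset Mm Om q a ∅ R, (ν m * ∏ ℓ ∈ Bk, (1 - xi Om m ℓ) - ν m * alt (xi Om m) r Bk)|
        ≤ ∑ m ∈ mset Mm Om q a ∅ R,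
          |ν m * ∏ ℓ ∈ Bk, (1 - xi Om m ℓ) - ν m * alt (xi Om m) r Bk| :=
          abs_sum_le_sum_abs _ _
      _ ≤ _ := by
          apply sum_le_sum
          intro m hm
          rw [← mul_sub, abs_mul, abs_of_nonneg (hνm m hm)]
          exact mul_le_mul_of_nonneg_left (abs_prod_sub_alt_le _ (fun i => (hxx m i).1)
            (fun i => (hxx m i).2) Bk r) (hνm m hm)
  have h2 : |∑ j ∈ range r, (-1) ^ j * ∑ S ∈ powersetCard j Bk, N S - D * alt (xb Om) r Bk|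
      ≤ ∑ j ∈ range r, (η * (D * es (xb Om) j Bk) + E * es (fun ℓ => (#(Om ℓ) : ℝ)) j Bk) := by
    unfold alt
    rw [mul_sum, ← sum_sub_distrib]
    refine (abs_sum_le_sum_abs _ _).trans (sum_le_sum fun j hj => ?_)
    have : (-1 : ℝ) ^ j * ∑ S ∈ powersetCard j Bk, N S - D * ((-1) ^ j * es (xb Om) j Bk)
        = (-1) ^ j * (∑ S ∈ powersetCard j Bk, N S - D * es (xb Om) j Bk) := by ring
    rw [this, abs_mul, abs_pow, abs_neg, abs_one, one_pow, one_mul]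
    exact hErr j (mem_range.mp hj).le
  have h3 : |alt (xb Om) r Bk - PB| ≤ es (xb Om) r Bk := by
    rw [abs_sub_comm]
    exact abs_prod_sub_alt_le _ (xb_nonneg Om) (fun i => (hx i).trans (by norm_num)) Bk r
  have h4 : ∑ S ∈ powersetCard r Bk, N S ≤ D * es (xb Om) r Bk
      + (η * (D * es (xb Om) r Bk) + E * es (fun ℓ => (#(Om ℓ) : ℝ)) r Bk) := by
    have := (abs_le.mp (hErr r le_rfl)).2
    linarith
  have h5 : |C - M * (PB * PR)| ≤ 2 * (D * es (xb Om) r Bk)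
      + ∑ j ∈ range (r + 1), (η * (D * es (xb Om) j Bk) + E * es (fun ℓ => (#(Om ℓ) : ℝ)) j Bk) := by
    have e : C - M * (PB * PR)
        = (C - ∑ j ∈ range r, (-1) ^ j * ∑ S ∈ powersetCard j Bk, N S)
          + (∑ j ∈ range r, (-1) ^ j * ∑ S ∈ powersetCard j Bk, N S - D * alt (xb Om) r Bk)
          + D * (alt (xb Om) r Bk - PB) := by rw [hD]; ring
    rw [e, sum_range_succ]
    have h6 : |D * (alt (xb Om) r Bk - PB)| ≤ D * es (xb Om) r Bk := by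
      rw [abs_mul, abs_of_nonneg hD0]
      exact mul_le_mul_of_nonneg_left h3 hD0
    calc _ ≤ |C - ∑ j ∈ range r, (-1) ^ j * ∑ S ∈ powersetCard j Bk, N S|
          + |∑ j ∈ range r, (-1) ^ j * ∑ S ∈ powersetCard j Bk, N S - D * alt (xb Om) r Bk|
          + |D * (alt (xb Om) r Bk - PB)| := abs_add_three _ _ _
      _ ≤ _ := by linarith
  have h7 : ∑ j ∈ range (r + 1), es (xb Om) j Bk ≤ Real.exp L := by
    refine (sum_es_le_prod (xb Om) (xb_nonneg Om) Bk (r + 1)).trans ?_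
    calc ∏ i ∈ Bk, (1 + xb Om i) ≤ ∏ i ∈ Bk, Real.exp (xb Om i) := by
          apply prod_le_prod
          · intro i _; have := xb_nonneg Om i; linarith
          · intro i _; have := Real.add_one_le_exp (xb Om i); linarith
      _ = Real.exp (∑ i ∈ Bk, xb Om i) := (Real.exp_sum _ _).symm
      _ ≤ Real.exp L := Real.exp_le_exp.mpr hL
  have h8 : es (xb Om) r Bk ≤ L ^ r / r.factorial := by
    refine (es_le_pow (xb Om) (xb_nonneg Om) Bk r).trans ?_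
    apply div_le_div_of_nonneg_right _ (by positivity)
    exact pow_le_pow_left₀ (sum_nonneg fun i _ => xb_nonneg Om i) hL r
  have h9 : ∑ j ∈ range (r + 1), es (fun ℓ => (#(Om ℓ) : ℝ)) j Bk
      ≤ (1 + ∑ ℓ ∈ Bk, (#(Om ℓ) : ℝ)) ^ r :=
    sum_es_le_pow _ (fun i => by positivity) Bk r
  have h10 : D ≤ Real.exp (2 * L) * (M * (PB * PR)) := by
    have : 1 ≤ Real.exp (2 * L) * PB := by
      have h := mul_le_mul_of_nonneg_left hPBge (Real.exp_pos (2 * L)).le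
      rw [← Real.exp_add] at h
      simpa using h
    calc D = D * 1 := by ring
      _ ≤ D * (Real.exp (2 * L) * PB) := mul_le_mul_of_nonneg_left this hD0
      _ = _ := by rw [hD]; ring
  refine h5.trans ?_
  rw [sum_add_distrib, ← mul_sum, ← mul_sum, ← mul_sum]
  have h11 : 0 ≤ L ^ r / r.factorial := by positivity
  have h12 : 2 * (D * es (xb Om) r Bk)
      ≤ 2 * (Real.exp (2 * L) * (M * (PB * PR)) * (L ^ r / r.factorial)) := by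
    have := mul_le_mul h10 h8 (es_nonneg _ (xb_nonneg Om) r Bk)
      (mul_nonneg (Real.exp_pos _).le (mul_nonneg hM0 (mul_nonneg hPB0.le hPR0)))
    linarith
  have h13 : η * (D * ∑ j ∈ range (r + 1), es (xb Om) j Bk)
      ≤ η * (Real.exp (2 * L) * (M * (PB * PR)) * Real.exp L) := by
    apply mul_le_mul_of_nonneg_left _ hη
    exact mul_le_mul h10 h7 (sum_nonneg fun j _ => es_nonneg _ (xb_nonneg Om) j Bk)
      (mul_nonneg (Real.exp_pos _).le (mul_nonneg hM0 (mul_nonneg hPB0.le hPR0)))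
  have h14 : E * ∑ j ∈ range (r + 1), es (fun ℓ => (#(Om ℓ) : ℝ)) j Bk
      ≤ E * (1 + ∑ ℓ ∈ Bk, (#(Om ℓ) : ℝ)) ^ r := mul_le_mul_of_nonneg_left h9 hE
  have h15 : Real.exp (3 * L) = Real.exp (2 * L) * Real.exp L := by
    rw [← Real.exp_add]; ring_nf
  rw [h15]
  calc _ ≤ 2 * (Real.exp (2 * L) * (M * (PB * PR)) * (L ^ r / r.factorial))
        + (η * (Real.exp (2 * L) * (M * (PB * PR)) * Real.exp L)
          + E * (1 + ∑ ℓ ∈ Bk, (#(Om ℓ) : ℝ)) ^ r) := by linarith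
    _ = _ := by ring

lemma FLW.mono {ν : ℕ → ℝ} {Mm : Finset ℕ} {T : ℕ} {Y : ℝ} {Om : ℕ → Finset ℕ} {R : Finset ℕ}
    {η E η' E' Q : ℝ} (hY : 0 ≤ Y) (hx : ∀ ℓ, xb Om ℓ ≤ 1 / 2) (h : FLW ν Mm Om T Y R η E Q)
    (hη : η ≤ η') (hE : E ≤ E') : FLW ν Mm Om T Y R η' E' Q := by
  intro q a hq hqQ hqT hc
  refine (h q a hq hqQ hqT hc).trans ?_
  have h0 : 0 ≤ Y / q * ∏ ℓ ∈ R, (1 - xb Om ℓ) := by
    apply mul_nonneg (by positivity)
    exact prod_nonneg fun i _ => by have := hx i; linarith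
  have := mul_le_mul_of_nonneg_right hη h0
  linarith

lemma Reg.mono {ν : ℕ → ℝ} {Mm : Finset ℕ} {T : ℕ} {Y E Q Q' : ℝ} (h : Reg ν Mm T Y E Q)
    (hQ : Q' ≤ Q) : Reg ν Mm T Y E Q' := fun q a hq hqQ hqT => h q a hq (hqQ.trans hQ) hqT

theorem flw_main (L0 : ℝ) (hL01 : 1 ≤ L0)
    (hL0 : ∀ z : ℕ, ∑ p ∈ (Ioc (Nat.sqrt z) z).filter Nat.Prime, 2 / (p : ℝ) ≤ L0)
    (b0 : ℕ) (hb0 : (Real.exp (3 * L0) + 2 * Real.exp (2 * L0)) * L0 ≤ b0 + 1)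
    {ν : ℕ → ℝ} {Mm : Finset ℕ} {T : ℕ} {Y E : ℝ} {Om : ℕ → Finset ℕ}
    (hν : ∀ m ∈ Mm, 0 ≤ ν m) (hY : 0 ≤ Y) (hE : 0 ≤ E)
    (hx : ∀ ℓ, xb Om ℓ ≤ 1 / 2) (hcard : ∀ ℓ, #(Om ℓ) ≤ 2) :
    ∀ J b z : ℕ, b0 ≤ b → 1 ≤ z → z < 2 ^ (2 ^ J) → z ≤ T → ∀ Q : ℝ, 0 ≤ Q →
    Reg ν Mm T Y E (Q * (z : ℝ) ^ (2 * b + 4)) →
    ∀ R : Finset ℕ, (∀ ℓ ∈ R, ℓ.Prime ∧ ℓ ≤ z) → (∀ ℓ ∈ R, ∀ c ∈ Om ℓ, c < ℓ) →
    FLW ν Mm Om T Y R (flEta L0 b) (E * (3 ^ ((J + 1) * (b + J + 1)) * (z : ℝ) ^ (2 * b + 4))) Q := by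
  intro J
  induction J with
  | zero =>
    intro b z _ hz1 hz _ Q hQ hreg R hR _
    have hRe : R = ∅ := by
      rw [eq_empty_iff_forall_notMem]
      intro ℓ hℓ
      have h1 := (hR ℓ hℓ).1.two_le
      have h2 := (hR ℓ hℓ).2
      simp at hz
      omega
    rw [hRe]
    have hη : 0 ≤ flEta L0 b := by unfold flEta; positivity
    have h1 : (1 : ℝ) ≤ (z : ℝ) ^ (2 * b + 4) := one_le_pow₀ (by exact_mod_cast hz1)
    have h2 : (1 : ℝ) ≤ 3 ^ ((0 + 1) * (b + 0 + 1)) := one_le_pow₀ (by norm_num)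
    have hQ' : Q ≤ Q * (z : ℝ) ^ (2 * b + 4) := by nlinarith
    refine (flw_empty hY (hreg.mono hQ') Om _ hη).mono hY hx le_rfl ?_
    have h3 : (1 : ℝ) ≤ 3 ^ ((0 + 1) * (b + 0 + 1)) * (z : ℝ) ^ (2 * b + 4) := by nlinarith
    nlinarith
  | succ J ih =>
    intro b z hb hz1 hz hzT Q hQ hreg R hR hOm
    set w := Nat.sqrt z with hw
    have hw1 : 1 ≤ w := Nat.sqrt_pos.mpr hz1
    have hwz : w * w ≤ z := Nat.sqrt_le z
    have hwz' : w ≤ z := le_trans (Nat.le_mul_of_pos_left w hw1) hwz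
    have hw2 : w < 2 ^ (2 ^ J) := by
      rw [hw, Nat.sqrt_lt]
      calc z < 2 ^ (2 ^ (J + 1)) := hz
        _ = 2 ^ (2 ^ J) * 2 ^ (2 ^ J) := by rw [← pow_add]; ring_nf
    set Bk := R.filter (fun ℓ => w < ℓ) with hBk
    set R' := R.filter (fun ℓ => ¬ w < ℓ) with hR'
    have hunion : Bk ∪ R' = R := by
      rw [hBk, hR', filter_union_filter_not_eq]
    have hdisj : Disjoint Bk R' := disjoint_filter_filter_not R R _
    have hQz : (0 : ℝ) ≤ Q * (z : ℝ) ^ (b + 1) := by positivity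
    have hlev : Q * (z : ℝ) ^ (b + 1) * (w : ℝ) ^ (2 * (b + 1) + 4)
        ≤ Q * (z : ℝ) ^ (2 * b + 4) := by
      have h6 : (w : ℝ) ^ (2 * (b + 1) + 4) ≤ (z : ℝ) ^ (b + 3) := by
        have : ((w * w : ℕ) : ℝ) ≤ z := by exact_mod_cast hwz
        calc (w : ℝ) ^ (2 * (b + 1) + 4) = (((w * w : ℕ) : ℝ)) ^ (b + 3) := by
              push_cast; rw [← pow_two, ← pow_mul]; ring_nf
          _ ≤ (z : ℝ) ^ (b + 3) := pow_le_pow_left₀ (by positivity) this _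
      calc Q * (z : ℝ) ^ (b + 1) * (w : ℝ) ^ (2 * (b + 1) + 4)
          ≤ Q * (z : ℝ) ^ (b + 1) * (z : ℝ) ^ (b + 3) := mul_le_mul_of_nonneg_left h6 hQz
        _ = Q * (z : ℝ) ^ (2 * b + 4) := by ring
    have h1 := ih (b + 1) w (by omega) hw1 hw2 (hwz'.trans hzT) (Q * (z : ℝ) ^ (b + 1)) hQz
      (hreg.mono hlev) R'
      (fun ℓ hℓ => by
        have := mem_filter.mp hℓ
        exact ⟨(hR ℓ this.1).1, not_lt.mp this.2⟩)
      (fun ℓ hℓ => hOm ℓ (mem_filter.mp hℓ).1)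
    have hη1 : 0 ≤ flEta L0 (b + 1) := by unfold flEta; positivity
    have hsum : ∑ ℓ ∈ Bk, xb Om ℓ ≤ L0 := by
      refine le_trans ?_ (hL0 z)
      calc ∑ ℓ ∈ Bk, xb Om ℓ ≤ ∑ ℓ ∈ Bk, 2 / (ℓ : ℝ) := by
            apply sum_le_sum
            intro ℓ _
            unfold xb
            apply div_le_div_of_nonneg_right _ (by positivity)
            exact_mod_cast hcard ℓ
        _ ≤ _ := by
            apply sum_le_sum_of_subset_of_nonneg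
            · intro ℓ hℓ
              have h2 := mem_filter.mp hℓ
              rw [mem_filter, mem_Ioc]
              exact ⟨⟨h2.2, (hR ℓ h2.1).2⟩, (hR ℓ h2.1).1⟩
            · intro ℓ _ _; positivity
    have h2 := flw_step hν hY R' Bk hη1 (by positivity) z hz1 hzT (b + 1) h1 hdisj
      (fun ℓ hℓ => (hR ℓ (mem_filter.mp hℓ).1).1) (fun ℓ hℓ => hR ℓ (mem_filter.mp hℓ).1)
      (fun ℓ hℓ => hOm ℓ (mem_filter.mp hℓ).1) hx hsum
    rw [hunion] at h2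
    refine h2.mono hY hx (fl_eta_step L0 hL01 b0 b hb0 hb) ?_
    have h4 : ∑ ℓ ∈ Bk, (#(Om ℓ) : ℝ) ≤ 2 * z := by
      calc ∑ ℓ ∈ Bk, (#(Om ℓ) : ℝ) ≤ ∑ ℓ ∈ Bk, (2 : ℝ) :=
            sum_le_sum fun ℓ _ => by exact_mod_cast hcard ℓ
        _ = #Bk * 2 := by rw [sum_const, nsmul_eq_mul]
        _ ≤ z * 2 := by
            apply mul_le_mul_of_nonneg_right _ (by norm_num)
            exact_mod_cast card_le_of_primes Bk z (fun ℓ hℓ => hR ℓ (mem_filter.mp hℓ).1)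
        _ = 2 * z := by ring
    have hs0 : (0 : ℝ) ≤ ∑ ℓ ∈ Bk, (#(Om ℓ) : ℝ) := sum_nonneg fun ℓ _ => Nat.cast_nonneg _
    have h5 := fl_err J b z w hwz hz1 _ hs0 h4
    calc E * (3 ^ ((J + 1) * (b + 1 + J + 1)) * (w : ℝ) ^ (2 * (b + 1) + 4))
          * (1 + ∑ ℓ ∈ Bk, (#(Om ℓ) : ℝ)) ^ (b + 1)
        = E * (3 ^ ((J + 1) * (b + 1 + J + 1)) * (w : ℝ) ^ (2 * (b + 1) + 4)
          * (1 + ∑ ℓ ∈ Bk, (#(Om ℓ) : ℝ)) ^ (b + 1)) := by ring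
      _ ≤ _ := mul_le_mul_of_nonneg_left h5 hE

/-- the fundamental lemma for a weight function, final form -/
theorem exists_flw : ∃ L0 : ℝ, 1 ≤ L0 ∧ ∃ b0 : ℕ, ∀ b : ℕ, b0 ≤ b → ∃ T0 : ℕ, 2 ≤ T0 ∧
    ∀ T : ℕ, T0 ≤ T → ∀ (ν : ℕ → ℝ) (Mm : Finset ℕ) (Y E Q : ℝ), (∀ m ∈ Mm, 0 ≤ ν m) → 0 ≤ Y →
    0 ≤ E → 0 ≤ Q → Reg ν Mm T Y E (Q * (T : ℝ) ^ (2 * b + 4)) →
    ∀ Om : ℕ → Finset ℕ, (∀ ℓ, xb Om ℓ ≤ 1 / 2) → (∀ ℓ, #(Om ℓ) ≤ 2) →
    ∀ R : Finset ℕ, (∀ ℓ ∈ R, ℓ.Prime ∧ ℓ ≤ T) → (∀ ℓ ∈ R, ∀ c ∈ Om ℓ, c < ℓ) →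
    FLW ν Mm Om T Y R (flEta L0 b) (E * (T : ℝ) ^ (2 * b + 5)) Q := by
  obtain ⟨L0, hL01, hL0⟩ := exists_L0
  refine ⟨L0, hL01, ⌈(Real.exp (3 * L0) + 2 * Real.exp (2 * L0)) * L0⌉₊, ?_⟩
  intro b hb
  obtain ⟨T0, hT02, hT0⟩ := exists_J b
  refine ⟨T0, hT02, ?_⟩
  intro T hT ν Mm Y E Q hν hY hE hQ hreg Om hx hcard R hR hOm
  obtain ⟨J, hJ1, hJ2⟩ := hT0 T hT
  have h := flw_main L0 hL01 hL0 _ (by
    have := Nat.le_ceil ((Real.exp (3 * L0) + 2 * Real.exp (2 * L0)) * L0)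
    linarith) hν hY hE hx hcard J b T hb (by omega) hJ1 le_rfl Q hQ hreg R hR hOm
  refine h.mono hY hx le_rfl ?_
  have h2 : ((3 : ℝ)) ^ ((J + 1) * (b + J + 1)) ≤ T := by exact_mod_cast hJ2
  apply mul_le_mul_of_nonneg_left _ hE
  calc (3 : ℝ) ^ ((J + 1) * (b + J + 1)) * (T : ℝ) ^ (2 * b + 4)
      ≤ T * (T : ℝ) ^ (2 * b + 4) := mul_le_mul_of_nonneg_right h2 (by positivity)
    _ = (T : ℝ) ^ (2 * b + 5) := by ring

end Pool.Agent.Lib.MP_bae66e_nt.P2
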