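import Pool.Agent.Lib.MP_bae66e_nt.P2.CB2
import Pool.Agent.Lib.MP_bae66e_nt.AP3.FinalUpper

/-!
# Almost all even integers: the upper bound with at most two prime factors
-/

set_option autoImplicit false

namespace Pool.Agent.Lib.MP_bae66e_nt.P2

open Finset AP3 Filter Topology ArithmeticFunction

/-- the property to be proved for almost all even integers -/
def GoodP2 (C : ℝ) (m : ℕ) : Prop :=
  ∃ p q : ℕ, p.Prime ∧ m = p + q ∧ (p : ℝ) ≤ C * Real.log m * Real.log (Real.log m) ∧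
    1 < q ∧ cardFactors q ≤ 2 ∧ ∀ r : ℕ, r.Prime → r ∣ q → m < r ^ 7

/-- one dyadic block -/
theorem block_part (ε : ℝ) (hε : 0 < ε) : ∃ C : ℝ, 0 < C ∧ ∃ X₀ : ℕ, ∀ X : ℕ, X₀ ≤ X →
    ∀ Bad : Finset ℕ, (∀ m ∈ Bad, X / 2 < m ∧ m ≤ X ∧ 2 ∣ m ∧ ¬ GoodP2 C m) →
    (#Bad : ℝ) ≤ ε * X := by
  classical
  obtain ⟨u, k, J, C1, hu3, hk1, hev⟩ := exists_class_bad2 (ε / 2) (by positivity)
  obtain ⟨M, hM⟩ : ∃ M : ℕ, M = 2000 * k := ⟨_, rfl⟩
  have hM1 : 1 ≤ M := by omega
  have evn := tendsto_nk k hk1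
  have hev2 := hev.and ((eventually_ge_atTop (2 * M + 40)).and ((eventually_ge_atTop
    ⌈4 / ε⌉₊).and (evn.eventually (eventually_ge_atTop (max 1 (Real.exp 2))))))
  obtain ⟨T1, hT1⟩ := eventually_atTop.mp hev2
  refine ⟨4 * 2 ^ J * (C1 + 1), by positivity, (max T1 (2 * M)) ^ M + 100, ?_⟩
  intro X hX Bad hBad
  obtain ⟨T, hTT1, hXT, hTX⟩ := exists_base M hM1 (max T1 (2 * M)) (le_max_right _ _) (2 * X)
    (by omega)
  obtain ⟨⟨huT, hT2, hJT, hclass⟩, hT2M, hTε, hnbig⟩ := hT1 T ((le_max_left _ _).trans hTT1.le)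
  have hT0 : (0 : ℝ) < T := by positivity
  have hTε' : 4 / ε ≤ T := (Nat.le_ceil _).trans (by exact_mod_cast hTε)
  rw [div_le_iff₀ hε] at hTε'
  have hX100 : 100 ≤ X := by omega
  have hX0 : (0 : ℝ) < X := by exact_mod_cast (by omega : 0 < X)
  have hTT : T * T ≤ T ^ M := by
    calc T * T = T ^ 2 := (pow_two T).symm
      _ ≤ T ^ M := Nat.pow_le_pow_right (by omega) (by omega)
  have h40T : 40 * T ≤ T * T := Nat.mul_le_mul_right T (by omega)
  have hTX10 : 10 * T ≤ X := by omega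
  -- the interval
  obtain ⟨L, hL⟩ : ∃ L : ℕ, L = X / 2 + 4 := ⟨_, rfl⟩
  obtain ⟨A0, hA0⟩ : ∃ A0 : ℕ, A0 = X - X / 4 := ⟨_, rfl⟩
  have hLA : L + T ≤ A0 := by omega
  have hA0T : A0 + L ≤ T ^ (2000 * k) := by rw [← hM]; omega
  have hTL : T ^ (2000 * k) ≤ 8 * L := by rw [← hM]; omega
  have hcl := hclass A0 L hLA hA0T hTL
  choose! Pβ hPβ hbad using hcl
  obtain ⟨W, hW⟩ : ∃ W : ℕ, W = prm u := ⟨_, rfl⟩
  have hW0 : 0 < W := hW ▸ prm_pos u
  have hW0' : (0 : ℝ) < W := by exact_mod_cast hW0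
  rw [← hW] at hbad
  obtain ⟨Z, hZ⟩ : ∃ Z : ℕ, Z = T ^ (286 * k) := ⟨_, rfl⟩
  have hTZ : T * T ≤ Z := by
    rw [hZ, ← pow_two]
    exact Nat.pow_le_pow_right (by omega) (by omega)
  have hZ1 : 1 ≤ Z := by
    have : 1 ≤ T * T := Nat.mul_pos (by omega) (by omega)
    omega
  -- covering of the bad set
  set badβ : ℕ → Finset ℕ := fun β => (Icc (A0 - L / 2) (A0 + L / 2)).filter
    (fun m => m ≡ β [MOD W] ∧ SG T (Gw T k) (Pβ β) m ≤ 0) with hbadβ
  set Q := (Ioc (X / 2) X).filter (fun m => ∃ p ∈ Ioc 0 T, ∃ q ∈ prI Z X, q * q ∣ m - p) with hQ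
  have hcover : Bad ⊆ ((range W).filter (fun β => 2 ∣ β)).biUnion badβ ∪ Q := by
    intro m hm
    obtain ⟨hm1, hmX, h2m, hno⟩ := hBad m hm
    by_contra hnot
    rw [mem_union, not_or] at hnot
    obtain ⟨hnb, hnQ⟩ := hnot
    have h2W : 2 ∣ W := by
      rw [hW]; exact dvd_prm (mem_prI.mpr ⟨⟨by norm_num, by omega⟩, Nat.prime_two⟩)
    obtain ⟨β, hβ⟩ : ∃ β : ℕ, β = m % W := ⟨_, rfl⟩
    have hβW : β < W := hβ ▸ Nat.mod_lt _ hW0
    have h2β : 2 ∣ β := by
      rw [hβ]; exact (Nat.dvd_mod_iff h2W).mpr h2m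
    have hmβ : m ≡ β [MOD W] := by rw [hβ]; exact (Nat.mod_modEq m W).symm
    have hmI : m ∈ Icc (A0 - L / 2) (A0 + L / 2) := mem_Icc.mpr ⟨by omega, by omega⟩
    have hpos : 0 < SG T (Gw T k) (Pβ β) m := by
      by_contra hle
      exact hnb (mem_biUnion.mpr ⟨β, mem_filter.mpr ⟨mem_range.mpr hβW, h2β⟩,
        mem_filter.mpr ⟨hmI, hmβ, not_lt.mp hle⟩⟩)
    unfold SG at hpos
    obtain ⟨p, hp, hfp⟩ := exists_lt_of_sum_lt (s := Pβ β) (f := fun _ => (0 : ℝ))
      (g := fun p => fG T (Gw T k) p m) (by rw [sum_const_zero]; exact hpos)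
    obtain ⟨hpp, hpy⟩ := hPβ β h2β p hp
    have hpT : p < T := hpy.trans_lt hJT
    have hmeq : m = p + (m - p) := by omega
    have h1q : 1 < m - p := by omega
    have hrough : Rough T (m - p) := by
      by_contra hnr
      simp only [fG, if_neg hnr, lt_irrefl] at hfp
    simp only [fG, if_pos hrough, Gw] at hfp
    have hmp0 : 0 < m - p := by omega
    have hmpN : m - p ≤ T ^ (2000 * k) := by rw [← hM]; omega
    obtain ⟨hrZ, hΩ⟩ := FG_pos_imp hT2 hk1 hmp0 hmpN hrough (by linarith)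
    have hΩ2 : cardFactors (m - p) ≤ 2 := by
      rcases hΩ with h | ⟨q, hqp, hqZ, hqq⟩
      · exact h
      · exfalso
        apply hnQ
        refine mem_filter.mpr ⟨mem_Ioc.mpr ⟨hm1, hmX⟩, p, mem_Ioc.mpr ⟨hpp.pos, hpT.le⟩, q, ?_, hqq⟩
        rw [← hZ] at hqZ
        refine mem_prI.mpr ⟨⟨hqZ, ?_⟩, hqp⟩
        have h1 := Nat.le_of_dvd hmp0 hqq
        have h2 : q ≤ q * q := Nat.le_mul_of_pos_left q hqp.pos
        omega
    apply hno
    clear hΩ
    refine ⟨p, m - p, hpp, hmeq, ?_, h1q, hΩ2, ?_⟩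
    · -- size of `p`
      obtain ⟨n, hn⟩ : ∃ n : ℝ, n = 2000 * (k : ℝ) * Real.log T := ⟨_, rfl⟩
      rw [← hn] at hnbig
      have hn2 : Real.exp 2 ≤ n := (le_max_right _ _).trans hnbig
      have hn7 : (7 : ℝ) ≤ n := by
        have h1 := Real.add_one_le_exp (1 : ℝ)
        have h2 : Real.exp 2 = Real.exp 1 * Real.exp 1 := by rw [← Real.exp_add]; norm_num
        have h3 := Real.exp_one_gt_d9
        nlinarith
      have hn0 : 0 < n := by linarith
      have hlogn : 2 ≤ Real.log n := by rwa [Real.le_log_iff_exp_le hn0]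
      have hm0 : (0 : ℝ) < m := by exact_mod_cast (by omega : 0 < m)
      have hlm : n / 2 ≤ Real.log m := by
        have h1 : T ^ M ≤ 8 * m := by omega
        have h2 : (T : ℝ) ^ M ≤ 8 * m := by exact_mod_cast h1
        have h3 := Real.log_le_log (by positivity) h2
        rw [Real.log_mul (by norm_num) hm0.ne', Real.log_pow] at h3
        have h4 : (M : ℝ) * Real.log T = n := by rw [hM, hn]; push_cast; ring
        rw [h4] at h3
        have h5 : Real.log 8 ≤ 2.08 := by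
          have h6 : Real.log 8 = 3 * Real.log 2 := by
            rw [show (8 : ℝ) = 2 ^ 3 by norm_num, Real.log_pow]; norm_num
          rw [h6]
          have := Real.log_two_lt_d9
          linarith
        linarith
      have hllm : Real.log n / 2 ≤ Real.log (Real.log m) := by
        have h1 := Real.log_le_log (by positivity : 0 < n / 2) hlm
        rw [Real.log_div hn0.ne' (by norm_num)] at h1
        have h2 := Real.log_two_lt_d9
        linarith
      have h1 : (p : ℝ) ≤ 2 ^ J * (y0g C1 k T : ℝ) := by exact_mod_cast hpy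
      have h2 : (y0g C1 k T : ℝ) ≤ C1 * n * Real.log n + 1 := by
        unfold y0g
        rw [← hn]
        exact (Nat.ceil_lt_add_one (by positivity)).le
      have h3 : (1 : ℝ) ≤ n * Real.log n := by nlinarith
      have hlm0 : 0 < Real.log m := lt_of_lt_of_le (by positivity) hlm
      calc (p : ℝ) ≤ 2 ^ J * (y0g C1 k T : ℝ) := h1
        _ ≤ 2 ^ J * (C1 * n * Real.log n + 1) := by gcongr
        _ ≤ 2 ^ J * (C1 * n * Real.log n + n * Real.log n) := by gcongr
        _ = 4 * 2 ^ J * (C1 + 1) * (n / 2) * (Real.log n / 2) := by ring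
        _ ≤ 4 * 2 ^ J * (C1 + 1) * Real.log m * Real.log (Real.log m) := by gcongr
    · intro r hr hrd
      have h1 := hrZ r hr hrd
      have h2 : T ^ (286 * k * 7) ≤ r ^ 7 := by
        rw [pow_mul]
        exact Nat.pow_le_pow_left h1 7
      have h3 : T ^ (2000 * k) < T ^ (286 * k * 7) :=
        Nat.pow_lt_pow_right (by omega) (by omega)
      rw [← hM] at h3
      omega
  -- counting
  have hc2 : (#(((range W).filter (fun β => 2 ∣ β)).biUnion badβ) : ℝ) ≤ ε / 2 * L := by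
    calc (#(((range W).filter (fun β => 2 ∣ β)).biUnion badβ) : ℝ)
        ≤ ∑ β ∈ (range W).filter (fun β => 2 ∣ β), (#(badβ β) : ℝ) := by
          exact_mod_cast card_biUnion_le
      _ ≤ ∑ β ∈ (range W).filter (fun β => 2 ∣ β), ε / 2 * ((L : ℝ) / W) := by
          apply sum_le_sum
          intro β hβ
          exact hbad β (mem_filter.mp hβ).2
      _ = #((range W).filter (fun β => 2 ∣ β)) * (ε / 2 * ((L : ℝ) / W)) := by
          rw [sum_const, nsmul_eq_mul]
      _ ≤ W * (ε / 2 * ((L : ℝ) / W)) := by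
          have h1 : (#((range W).filter (fun β => 2 ∣ β)) : ℝ) ≤ W := by
            have : #((range W).filter (fun β => 2 ∣ β)) ≤ W := by
              calc _ ≤ #(range W) := card_filter_le _ _
                _ = W := card_range W
            exact_mod_cast this
          gcongr
      _ = ε / 2 * L := by field_simp
  have hLX : (L : ℝ) ≤ X := by
    have : L ≤ X := by omega
    exact_mod_cast this
  have hc3 : (#Q : ℝ) ≤ ε / 4 * X := by
    have h1 := card_Q_le (X / 2) X T Z (by omega) hZ1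
    refine h1.trans ?_
    have hZr : (T : ℝ) * T ≤ Z := by exact_mod_cast hTZ
    have hZ0 : (0 : ℝ) < Z := by exact_mod_cast hZ1
    calc (T : ℝ) * (X / Z) ≤ T * (X / (T * T)) := by gcongr
      _ = X / T := by field_simp
      _ ≤ ε / 4 * X := by
          rw [div_le_iff₀ hT0]
          nlinarith
  have hfin : #Bad ≤ #(((range W).filter (fun β => 2 ∣ β)).biUnion badβ) + #Q :=
    (card_le_card hcover).trans (card_union_le _ _)
  have hfin' : (#Bad : ℝ) ≤ #(((range W).filter (fun β => 2 ∣ β)).biUnion badβ) + #Q := by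
    exact_mod_cast hfin
  have h9 : ε / 2 * (L : ℝ) ≤ ε / 2 * X := by gcongr
  have : 0 < ε * X := by positivity
  linarith

/-- the upper bound for almost all even integers -/
theorem upper_part2 (ε : ℝ) (hε : 0 < ε) : ∃ C : ℝ, 0 < C ∧ ∃ X₀ : ℕ, ∀ X : ℕ, X₀ ≤ X →
    ∀ Bad : Finset ℕ, (∀ m ∈ Bad, 1 ≤ m ∧ m ≤ X ∧ 2 ∣ m ∧ ¬ GoodP2 C m) →
    (#Bad : ℝ) ≤ ε * X := by
  classical
  obtain ⟨C, hC, X1, h1⟩ := block_part (ε / 4) (by positivity)
  have key : ∀ X : ℕ, ∀ Bad : Finset ℕ, (∀ m ∈ Bad, 1 ≤ m ∧ m ≤ X ∧ 2 ∣ m ∧ ¬ GoodP2 C m) →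
      (#Bad : ℝ) ≤ ε / 2 * X + X1 := by
    intro X
    induction X using Nat.strong_induction_on with
    | _ X ih =>
      intro Bad hBad
      rcases lt_or_ge X X1 with hlt | hge
      · have h2 : #Bad ≤ X := by
          calc #Bad ≤ #(Icc 1 X) := by
                apply card_le_card
                intro m hm
                exact mem_Icc.mpr ⟨(hBad m hm).1, (hBad m hm).2.1⟩
            _ = X := by rw [Nat.card_Icc]; omega
        have h3 : (#Bad : ℝ) ≤ X1 := by exact_mod_cast h2.trans hlt.le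
        have : 0 ≤ ε / 2 * X := by positivity
        linarith
      · rcases Nat.eq_zero_or_pos X with h0 | hpos
        · have h2 : Bad = ∅ := by
            rw [eq_empty_iff_forall_notMem]
            intro m hm
            have := hBad m hm
            omega
          rw [h2, card_empty, h0]
          simp
        · have h2 := ih (X / 2) (by omega) (Bad.filter (fun m => m ≤ X / 2)) (by
            intro m hm
            obtain ⟨h3, h4⟩ := mem_filter.mp hm
            obtain ⟨h5, _, h6, h7⟩ := hBad m h3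
            exact ⟨h5, h4, h6, h7⟩)
          have h3 := h1 X hge (Bad.filter (fun m => ¬ m ≤ X / 2)) (by
            intro m hm
            obtain ⟨h3, h4⟩ := mem_filter.mp hm
            obtain ⟨_, h5, h6, h7⟩ := hBad m h3
            exact ⟨not_le.mp h4, h5, h6, h7⟩)
          have h4 : #(Bad.filter (fun m => m ≤ X / 2)) + #(Bad.filter (fun m => ¬ m ≤ X / 2))
              = #Bad := card_filter_add_card_filter_not _
          have h5 : (#(Bad.filter (fun m => m ≤ X / 2)) : ℝ)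
              + #(Bad.filter (fun m => ¬ m ≤ X / 2)) = #Bad := by exact_mod_cast h4
          have h6 : ((X / 2 : ℕ) : ℝ) ≤ X / 2 := by
            have := Nat.cast_div_le (α := ℝ) (m := X) (n := 2)
            simpa using this
          have h7 : ε / 2 * ((X / 2 : ℕ) : ℝ) ≤ ε / 2 * (X / 2) := by gcongr
          linarith
  refine ⟨C, hC, ⌈2 * (X1 : ℝ) / ε⌉₊, ?_⟩
  intro X hX Bad hBad
  have h2 := key X Bad hBad
  have h3 : 2 * (X1 : ℝ) / ε ≤ X := (Nat.le_ceil _).trans (by exact_mod_cast hX)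
  rw [div_le_iff₀ hε] at h3
  linarith

end Pool.Agent.Lib.MP_bae66e_nt.P2
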