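import Mathlib

/-!
Definitions for the level of distribution of products of two sieve weights.
-/

set_option autoImplicit false

namespace Pool.Agent.Lib.MP_bae66e_nt.P2

open Finset

/-- `l` is well factorable of level `Lam`: for every `N` in `[1, Lam]` it is a product `m n` with
`n ≤ N` and `m ≤ Lam / N`. -/
def WF (Lam : ℝ) (l : ℕ) : Prop :=
  ∀ N : ℝ, 1 ≤ N → N ≤ Lam → ∃ m n : ℕ, l = m * n ∧ (n : ℝ) ≤ N ∧ (m : ℝ) * N ≤ Lam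

/-- A class of moduli `D ∈ (Q, 2 Q]`, `D = p l` with `p ≤ P` and `l` well factorable of level `Lam`,
with coefficients `w`. -/
structure Cls where
  D : Finset ℕ
  w : ℕ → ℝ
  Q : ℕ
  P : ℝ
  Lam : ℝ

/-- The conditions on a class: `k` is the small modulus, `T` a bound below all prime factors, `L` the
length, `τ` the level, `δ` a small number. -/
structure Good (k T L : ℕ) (τ δ : ℝ) (c : Cls) : Prop where
  hQ : 1 ≤ c.Q
  lo : ∀ D ∈ c.D, c.Q < D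
  hi : ∀ D ∈ c.D, D ≤ 2 * c.Q
  sq : ∀ D ∈ c.D, Squarefree D
  cop : ∀ D ∈ c.D, Nat.Coprime k D
  rough : ∀ D ∈ c.D, ∀ ℓ : ℕ, ℓ.Prime → ℓ ∣ D → T < ℓ
  w1 : ∀ D, |c.w D| ≤ 1
  hP : 1 ≤ c.P
  hLam : 1 ≤ c.Lam
  level : c.P * c.Lam ≤ (L : ℝ) ^ τ
  large : c.P ≤ (L : ℝ) ^ (1 - τ - 4 * δ) ∨ c.P ^ 2 * c.Lam ≤ (L : ℝ) ^ (1 - 4 * δ)
  fac : ∀ D ∈ c.D, ∃ p l : ℕ, D = p * l ∧ (p : ℝ) ≤ c.P ∧ WF c.Lam l

/-- The divisor sum of a family of classes. -/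
noncomputable def Fc {ι : Type} (I : Finset ι) (cl : ι → Cls) (n : ℕ) : ℝ :=
  ∑ i ∈ I, ∑ D ∈ (cl i).D, (cl i).w D * (if D ∣ n then 1 else 0)

/-- The main term. -/
noncomputable def Mc {ι : Type} (I : Finset ι) (cl : ι → Cls) : ℝ :=
  ∑ i ∈ I, ∑ i' ∈ I, ∑ D ∈ (cl i).D, ∑ D' ∈ (cl i').D.filter (fun D' => Nat.Coprime D D'),
    (cl i).w D * (cl i').w D' / (D * D' : ℝ)

end Pool.Agent.Lib.MP_bae66e_nt.P2
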