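import Mathlib
import Pool.Agent.OPG.Mg_MP_fce80c_co.G001

set_option autoImplicit false

/-!
Definitions for the Weil bound for Kloosterman sums.
-/


namespace Pool.Agent.Lib.MP_bae66e_nt.P2

open Finset Polynomial

/-- The Kloosterman sum `∑ e((t x⁻¹ + s x) / r)` over the units `x` modulo `r`. -/
noncomputable def kl (r : ℕ) [NeZero r] (t s : ZMod r) : ℂ :=
  ∑ x : (ZMod r)ˣ, ZMod.stdAddChar (t * ((x⁻¹ : (ZMod r)ˣ) : ZMod r) + s * (x : ZMod r))

/-- For `h = c ∏ (X - α)` with `h(0) ≠ 0` this is `a ∑ α + b ∑ α⁻¹`. -/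
noncomputable def klv (p : ℕ) [Fact p.Prime] (a b : ZMod p) (h : (ZMod p)[X]) : ZMod p :=
  -(a * (h.nextCoeff / h.leadingCoeff)) - b * (h.coeff 1 / h.coeff 0)

open Classical in
/-- `e_p (a ∑ α + b ∑ α⁻¹)`, and `0` if `h(0) = 0`. -/
noncomputable def klf (p : ℕ) [Fact p.Prime] (a b : ZMod p) (h : (ZMod p)[X]) : ℂ :=
  if h.coeff 0 = 0 then 0 else ZMod.stdAddChar (klv p a b h)

end Pool.Agent.Lib.MP_bae66e_nt.P2

namespace Pool.Agent.Lib.MP_bae66e_nt.P2

open Finset Polynomial

/-- `klf` at `1`. -/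
theorem klf_one (p : ℕ) [Fact p.Prime] (a b : ZMod p) : klf p a b 1 = 1 := by
  have h0 : (1 : (ZMod p)[X]).coeff 0 = 1 := Polynomial.coeff_one_zero
  have h1 : (1 : (ZMod p)[X]).coeff 1 = 0 := by
    rw [Polynomial.coeff_one, if_neg (by norm_num)]
  have hn : (1 : (ZMod p)[X]).nextCoeff = 0 := by
    rw [Polynomial.nextCoeff, if_pos Polynomial.natDegree_one]
  have hv : klv p a b 1 = 0 := by
    rw [klv, hn, h1, zero_div, zero_div, mul_zero, mul_zero, neg_zero, sub_zero]
  rw [klf, if_neg (by rw [h0]; exact one_ne_zero), hv, AddChar.map_zero_eq_one]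

end Pool.Agent.Lib.MP_bae66e_nt.P2

namespace Pool.Agent.Lib.MP_bae66e_nt.P2

open Finset Polynomial

private lemma E01b_next {K : Type*} [Field K] {g h : K[X]} (hg : g ≠ 0) (hh : h ≠ 0) :
    (g * h).nextCoeff / (g * h).leadingCoeff =
      g.nextCoeff / g.leadingCoeff + h.nextCoeff / h.leadingCoeff := by
  have hg0 : g.leadingCoeff ≠ 0 := leadingCoeff_ne_zero.2 hg
  have hh0 : h.leadingCoeff ≠ 0 := leadingCoeff_ne_zero.2 hh
  have hgm : Monic (C g.leadingCoeff⁻¹ * g) :=
    monic_C_mul_of_mul_leadingCoeff_eq_one (inv_mul_cancel₀ hg0)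
  have hhm : Monic (C h.leadingCoeff⁻¹ * h) :=
    monic_C_mul_of_mul_leadingCoeff_eq_one (inv_mul_cancel₀ hh0)
  have h1 := hgm.nextCoeff_mul hhm
  have h2 : (C g.leadingCoeff⁻¹ * g) * (C h.leadingCoeff⁻¹ * h) =
      C (g.leadingCoeff⁻¹ * h.leadingCoeff⁻¹) * (g * h) := by
    rw [C_mul]; ring
  rw [h2, nextCoeff_C_mul, nextCoeff_C_mul, nextCoeff_C_mul] at h1
  rw [leadingCoeff_mul, div_eq_mul_inv, div_eq_mul_inv, div_eq_mul_inv, mul_inv]
  linear_combination h1

/-- `klf` is completely multiplicative.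
PROOF. If `g.coeff 0 = 0` or `h.coeff 0 = 0` both sides vanish (`mul_coeff_zero`). Otherwise
`g, h ≠ 0` and it is enough that `klv (g h) = klv g + klv h` (then `AddChar.map_add_eq_mul`).
(1) `(g h).coeff 1 = g.coeff 0 * h.coeff 1 + g.coeff 1 * h.coeff 0` (`mul_coeff_one`), divide by
`(g h).coeff 0 = g.coeff 0 * h.coeff 0`. (2) `(g h).nextCoeff = g.nextCoeff * h.leadingCoeff +
g.leadingCoeff * h.nextCoeff`: there may be a Mathlib lemma for monic polynomials
(`Monic.nextCoeff_mul`): apply it to `C g.leadingCoeff⁻¹ * g` and `C h.leadingCoeff⁻¹ * h`, or prove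
it from `coeff_mul` directly (cases `natDegree = 0`: `nextCoeff` of a constant is `0`). -/
theorem klf_mul (p : ℕ) [Fact p.Prime] (a b : ZMod p) (g h : (ZMod p)[X]) :
    klf p a b (g * h) = klf p a b g * klf p a b h := by
  unfold klf
  by_cases hg : g.coeff 0 = 0
  · rw [if_pos hg, zero_mul, if_pos (by rw [mul_coeff_zero, hg, zero_mul])]
  by_cases hh : h.coeff 0 = 0
  · rw [if_pos hh, mul_zero, if_pos (by rw [mul_coeff_zero, hh, mul_zero])]
  have hgh : (g * h).coeff 0 ≠ 0 := by
    rw [mul_coeff_zero]; exact mul_ne_zero hg hh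
  rw [if_neg hg, if_neg hh, if_neg hgh, ← AddChar.map_add_eq_mul]
  congr 1
  have hg' : g ≠ 0 := by rintro rfl; exact hg (coeff_zero 0)
  have hh' : h ≠ 0 := by rintro rfl; exact hh (coeff_zero 0)
  unfold klv
  rw [E01b_next hg' hh']
  have h3 : (g * h).coeff 1 / (g * h).coeff 0 = g.coeff 1 / g.coeff 0 + h.coeff 1 / h.coeff 0 := by
    rw [mul_coeff_zero, mul_coeff_one]
    field_simp
    ring
  rw [h3]
  ring

end Pool.Agent.Lib.MP_bae66e_nt.P2

namespace Pool.Agent.Lib.MP_bae66e_nt.P2

open Finset Polynomial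

/-- the multiplicative function on polynomials -/
noncomputable def klam (p : ℕ) [Fact p.Prime] (a b : ZMod p) : (ZMod p)[X] →* ℂ where
  toFun := klf p a b
  map_one' := klf_one p a b
  map_mul' := klf_mul p a b

end Pool.Agent.Lib.MP_bae66e_nt.P2

namespace Pool.Agent.Lib.MP_bae66e_nt.P2

open Finset Polynomial Pool.Agent.OPG.Katz

private theorem E03_deg (p : ℕ) [Fact p.Prime] (k : ℕ) (hk : 3 ≤ k) (y : ZMod p) :
    (C y * X ^ (k - 1) : (ZMod p)[X]).degree < (k : WithBot ℕ) := by
  refine lt_of_le_of_lt (degree_C_mul_X_pow_le (k - 1) y) ?_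
  exact_mod_cast (by omega : k - 1 < k)

private theorem E03_mem (p : ℕ) [Fact p.Prime] (k : ℕ) (hk : 3 ≤ k) (y : ZMod p)
    (h : (ZMod p)[X]) (hh : h ∈ monics (ZMod p) k) :
    h + C y * X ^ (k - 1) ∈ monics (ZMod p) k := by
  rw [mem_monics] at hh ⊢
  have hdh : h.degree = k := by
    rw [degree_eq_natDegree hh.1.ne_zero, hh.2]
  have hlt : (C y * X ^ (k - 1) : (ZMod p)[X]).degree < h.degree := by
    rw [hdh]
    exact E03_deg p k hk y
  exact ⟨hh.1.add_of_left hlt, by rw [natDegree_add_eq_left_of_degree_lt hlt, hh.2]⟩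

private theorem E03_klf (p : ℕ) [Fact p.Prime] (a b : ZMod p) (k : ℕ) (hk : 3 ≤ k) (y : ZMod p)
    (h : (ZMod p)[X]) (hh : h ∈ monics (ZMod p) k) :
    klf p a b (h + C y * X ^ (k - 1)) = ZMod.stdAddChar (-(a * y)) * klf p a b h := by
  have hm := E03_mem p k hk y h hh
  rw [mem_monics] at hh hm
  have h0 : (h + C y * X ^ (k - 1)).coeff 0 = h.coeff 0 := by
    rw [coeff_add, coeff_C_mul_X_pow, if_neg (by omega), add_zero]
  have h1 : (h + C y * X ^ (k - 1)).coeff 1 = h.coeff 1 := by
    rw [coeff_add, coeff_C_mul_X_pow, if_neg (by omega), add_zero]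
  have h2 : (h + C y * X ^ (k - 1)).nextCoeff = h.nextCoeff + y := by
    rw [nextCoeff_of_natDegree_pos (by rw [hm.2]; omega),
      nextCoeff_of_natDegree_pos (by rw [hh.2]; omega), hm.2, hh.2, coeff_add,
      coeff_C_mul_X_pow, if_pos rfl]
  unfold klf
  rw [h0]
  split_ifs with h3
  · rw [mul_zero]
  · rw [← AddChar.map_add_eq_mul]
    congr 1
    unfold klv
    rw [h0, h1, h2, hm.1.leadingCoeff, hh.1.leadingCoeff]
    ring

/-- The coefficients of degree at least three of the L-function vanish.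
PROOF (compare `Katz.L_vanish` in `Pool/Agent/OPG/Katz/D1.lean`, same structure). Let `Σ` be the sum.
For `y : ZMod p` the map `h ↦ h + C y * X ^ (k - 1)` is a bijection of `monics (ZMod p) k` onto itself
(`mem_monics`: monic of `natDegree` `k`). As `k - 1 ≥ 2` it does not change `coeff 0` and `coeff 1`,
and it changes `nextCoeff` (= `coeff (k - 1)`, as `natDegree = k ≠ 0`) to `nextCoeff + y`; the
leading coefficient is `1`. So `klf (h + C y X^(k-1)) = stdAddChar (-(a * y)) * klf h` and
`Σ = stdAddChar (-(a * y)) * Σ` for every `y`. With `y = -a⁻¹` we get the factor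
`stdAddChar (1 : ZMod p) ≠ 1` (`ZMod.isPrimitive_stdAddChar`, or `ZMod.stdAddChar_coe` and
`Complex.exp_eq_one_iff`), so `Σ = 0`. -/
theorem klam_L_vanish (p : ℕ) [Fact p.Prime] (a b : ZMod p) (ha : a ≠ 0) (k : ℕ) (hk : 3 ≤ k) :
    ∑ h ∈ monics (ZMod p) k, klam p a b h = 0 := by
  classical
  have key : ∑ h ∈ monics (ZMod p) k, klam p a b h
      = ZMod.stdAddChar (1 : ZMod p) * ∑ h ∈ monics (ZMod p) k, klam p a b h := by
    rw [Finset.mul_sum]
    symm
    refine Finset.sum_bij (fun h _ => h + C (-a⁻¹) * X ^ (k - 1)) ?_ ?_ ?_ ?_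
    · intro h hh
      exact E03_mem p k hk _ h hh
    · intro h _ h' _ e
      exact add_right_cancel e
    · intro h hh
      refine ⟨h + C (a⁻¹) * X ^ (k - 1), E03_mem p k hk _ h hh, ?_⟩
      rw [C_neg]
      ring
    · intro h hh
      change ZMod.stdAddChar (1 : ZMod p) * klf p a b h = klf p a b (h + C (-a⁻¹) * X ^ (k - 1))
      rw [E03_klf p a b k hk _ h hh]
      congr 2
      rw [mul_neg, neg_neg, mul_inv_cancel₀ ha]
  have hne : ZMod.stdAddChar (1 : ZMod p) ≠ 1 := by
    intro h
    have h1 := ZMod.injective_stdAddChar (N := p) (a₁ := (1 : ZMod p)) (a₂ := 0)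
      (by rw [h, AddChar.map_zero_eq_one])
    exact one_ne_zero h1
  have h3 : (ZMod.stdAddChar (1 : ZMod p) - 1) * ∑ h ∈ monics (ZMod p) k, klam p a b h = 0 := by
    linear_combination -key
  rcases mul_eq_zero.1 h3 with h4 | h4
  · exact absurd (sub_eq_zero.1 h4) hne
  · exact h4

end Pool.Agent.Lib.MP_bae66e_nt.P2

namespace Pool.Agent.Lib.MP_bae66e_nt.P2

open Finset Polynomial

/-- Traces in terms of the minimal polynomial.
PROOF. Mathlib: `trace_eq_finrank_mul_minpoly_nextCoeff` (or `Algebra.trace_eq_...`), with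
`finrank F⟮v⟯ E = r / (minpoly F v).natDegree` by the tower law and
`IntermediateField.adjoin.finrank`. -/
theorem trace_minpoly {F E : Type} [Field F] [Field E] [Algebra F E] [FiniteDimensional F E]
    (v : E) : Algebra.trace F E v
      = ((Module.finrank F E / (minpoly F v).natDegree : ℕ) : F) * (-(minpoly F v).nextCoeff) := by
  have hv : IsIntegral F v := IsIntegral.of_finite F v
  have h1 : Module.finrank F (IntermediateField.adjoin F {v})
      * Module.finrank (IntermediateField.adjoin F {v}) E = Module.finrank F E :=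
    Module.finrank_mul_finrank F (IntermediateField.adjoin F {v}) E
  rw [IntermediateField.adjoin.finrank hv] at h1
  rw [trace_eq_finrank_mul_minpoly_nextCoeff, ← h1,
    Nat.mul_div_cancel_left _ (minpoly.natDegree_pos hv)]

end Pool.Agent.Lib.MP_bae66e_nt.P2

namespace Pool.Agent.Lib.MP_bae66e_nt.P2

open Finset Polynomial

private theorem E04b_q {F E : Type} [Field F] [Field E] [Algebra F E] [FiniteDimensional F E]
    (v : E) (hv : v ≠ 0) : (C ((minpoly F v).coeff 0)⁻¹ * (minpoly F v).reverse).Monic ∧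
      (C ((minpoly F v).coeff 0)⁻¹ * (minpoly F v).reverse).natDegree = (minpoly F v).natDegree ∧
      aeval v⁻¹ (C ((minpoly F v).coeff 0)⁻¹ * (minpoly F v).reverse) = 0 ∧
      (minpoly F v⁻¹).natDegree ≤ (minpoly F v).natDegree := by
  have hi : IsIntegral F v := IsIntegral.of_finite F v
  have h0 : (minpoly F v).coeff 0 ≠ 0 := minpoly.coeff_zero_ne_zero hi hv
  have htr : (minpoly F v).natTrailingDegree = 0 :=
    natTrailingDegree_eq_zero.mpr (Or.inr h0)
  have hlc : (minpoly F v).reverse.leadingCoeff = (minpoly F v).coeff 0 := by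
    rw [reverse_leadingCoeff, trailingCoeff, htr]
  have hnd : (minpoly F v).reverse.natDegree = (minpoly F v).natDegree := by
    rw [reverse_natDegree, htr, Nat.sub_zero]
  have hq1 : (C ((minpoly F v).coeff 0)⁻¹ * (minpoly F v).reverse).Monic := by
    rw [Monic, leadingCoeff_mul, leadingCoeff_C, hlc, inv_mul_cancel₀ h0]
  have hq2 : (C ((minpoly F v).coeff 0)⁻¹ * (minpoly F v).reverse).natDegree
      = (minpoly F v).natDegree := by
    rw [natDegree_C_mul (inv_ne_zero h0), hnd]
  have hq3 : aeval v⁻¹ (C ((minpoly F v).coeff 0)⁻¹ * (minpoly F v).reverse) = 0 := by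
    have hinv : Invertible v := invertibleOfNonzero hv
    have h1 : eval₂ (algebraMap F E) (⅟v) (minpoly F v).reverse = 0 := by
      rw [eval₂_reverse_eq_zero_iff, ← aeval_def, minpoly.aeval]
    rw [invOf_eq_inv, ← aeval_def] at h1
    rw [map_mul, h1, mul_zero]
  refine ⟨hq1, hq2, hq3, ?_⟩
  rw [← hq2]
  exact natDegree_le_of_dvd (minpoly.dvd F v⁻¹ hq3) hq1.ne_zero

/-- The trace of the inverse.
PROOF. Apply `trace_minpoly` to `v⁻¹`: its minimal polynomial has the same degree `d` as the one of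
`v` (`F⟮v⁻¹⟯ = F⟮v⟯`), and it is `C (m.coeff 0)⁻¹ * m.reverse` where `m = minpoly F v` (this is monic,
it kills `v⁻¹` by `Polynomial.eval₂_reverse_eq_zero_iff`, and it is irreducible because it has the
degree of the minimal polynomial; Mathlib may contain `minpoly.inv`-like lemmas). Its coefficient of
`X^(d-1)` is `m.coeff 1 / m.coeff 0` (`d ≥ 1`; for `d = 1` this is the coefficient of `X^0`, and
`m.coeff 1 = 1`). ALTERNATIVE: `m.coeff 0 ≠ 0`, and the companion matrix / `charpoly` of `v⁻¹`. -/
theorem trace_inv_minpoly {F E : Type} [Field F] [Field E] [Algebra F E] [FiniteDimensional F E]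
    (v : E) (hv : v ≠ 0) : Algebra.trace F E v⁻¹
      = ((Module.finrank F E / (minpoly F v).natDegree : ℕ) : F)
        * (-((minpoly F v).coeff 1 / (minpoly F v).coeff 0)) := by
  have hi : IsIntegral F v := IsIntegral.of_finite F v
  have hd : 0 < (minpoly F v).natDegree := minpoly.natDegree_pos hi
  obtain ⟨hq1, hq2, hq3, hle⟩ := E04b_q (F := F) v hv
  obtain ⟨-, -, -, hle'⟩ := E04b_q (F := F) v⁻¹ (inv_ne_zero hv)
  rw [inv_inv] at hle'
  have hdeg : (minpoly F v⁻¹).natDegree = (minpoly F v).natDegree := le_antisymm hle hle'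
  have heq : C ((minpoly F v).coeff 0)⁻¹ * (minpoly F v).reverse = minpoly F v⁻¹ := by
    refine eq_of_monic_of_dvd_of_natDegree_le
      (minpoly.monic (IsIntegral.of_finite F v⁻¹)) hq1 (minpoly.dvd F v⁻¹ hq3) ?_
    rw [hq2, hdeg]
  have hnc : (minpoly F v⁻¹).nextCoeff = (minpoly F v).coeff 1 / (minpoly F v).coeff 0 := by
    rw [nextCoeff_of_natDegree_pos (by omega), hdeg, ← heq, coeff_C_mul, coeff_reverse,
      revAt_le (Nat.sub_le _ _), Nat.sub_sub_self hd, div_eq_mul_inv, mul_comm]
  rw [trace_minpoly, hdeg, hnc]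

end Pool.Agent.Lib.MP_bae66e_nt.P2

namespace Pool.Agent.Lib.MP_bae66e_nt.P2

open Finset Polynomial Pool.Agent.OPG.Katz

/-- The power sums are Kloosterman sums over the extension fields.
PROOF. `Katz.sum_minpoly` (file `B1`) with `G P = klam p a b P ^ (r / P.natDegree)`: for
`P ∈ irrs F d` we have `P.natDegree = d` (`mem_irrs`), so the right hand side is
`Ssum (klam p a b) r`. On the left: for `v = 0` the minimal polynomial is `X`, `klam X = 0`, and
`r / 1 = r ≥ 1`, so the term vanishes. For `v ≠ 0`, `(minpoly v).coeff 0 ≠ 0`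
(`minpoly.coeff_zero_ne_zero`), the leading coefficient is `1`, and
`klam (minpoly v) ^ e = stdAddChar (e • klv (minpoly v)) = stdAddChar (trace (a v + b v⁻¹))` by
`trace_minpoly` and `trace_inv_minpoly` (`e = r / d`, `AddChar.map_nsmul_eq_pow`). Finally the
sum over `v ≠ 0` is the sum over the units of `E`. -/
theorem Ssum_klam (p : ℕ) [Fact p.Prime] (a b : ZMod p) (E : Type) [Field E] [Fintype E]
    [DecidableEq E]
    [Algebra (ZMod p) E] (r : ℕ) (hr : Module.finrank (ZMod p) E = r) :
    Ssum (klam p a b) r = ∑ x : Eˣ, ZMod.stdAddChar (Algebra.trace (ZMod p) E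
      (algebraMap (ZMod p) E a * (x : E) + algebraMap (ZMod p) E b * ((x⁻¹ : Eˣ) : E))) := by
  have hr0 : 0 < r := by
    rw [← hr]
    exact Module.finrank_pos
  have h1 := sum_minpoly (F := ZMod p) (E := E) r hr
    (fun P => klam p a b P ^ (r / P.natDegree))
  have h2 : ∑ d ∈ r.divisors, ∑ P ∈ irrs (ZMod p) d, (d : ℂ) * (klam p a b P ^ (r / P.natDegree))
      = Ssum (klam p a b) r := by
    unfold Ssum
    refine Finset.sum_congr rfl (fun d _ => Finset.sum_congr rfl (fun P hP => ?_))
    rw [mem_irrs] at hP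
    rw [hP.2.1]
  rw [← h2, ← h1, ← Finset.add_sum_erase _ _ (Finset.mem_univ (0 : E))]
  have h3 : klam p a b (minpoly (ZMod p) (0 : E)) ^ (r / (minpoly (ZMod p) (0 : E)).natDegree)
      = 0 := by
    rw [minpoly.zero, natDegree_X, Nat.div_one]
    have h4 : klam p a b X = 0 := by
      change klf p a b X = 0
      unfold klf
      rw [if_pos coeff_X_zero]
    rw [h4, zero_pow hr0.ne']
  rw [h3, zero_add]
  symm
  refine Finset.sum_bij (fun x _ => (x : E)) ?_ ?_ ?_ ?_
  · intro x _
    rw [Finset.mem_erase]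
    exact ⟨x.ne_zero, Finset.mem_univ _⟩
  · intro x _ y _ hxy
    exact Units.ext hxy
  · intro v hv
    rw [Finset.mem_erase] at hv
    exact ⟨Units.mk0 v hv.1, Finset.mem_univ _, rfl⟩
  · intro x _
    have hx : (x : E) ≠ 0 := x.ne_zero
    set m := minpoly (ZMod p) (x : E) with hm
    have hint : IsIntegral (ZMod p) (x : E) := Algebra.IsIntegral.isIntegral _
    have hc0 : m.coeff 0 ≠ 0 := minpoly.coeff_zero_ne_zero hint hx
    have hlam : klam p a b m = ZMod.stdAddChar (klv p a b m) := by
      change klf p a b m = _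
      unfold klf
      rw [if_neg hc0]
    have hlead : m.leadingCoeff = 1 := (minpoly.monic hint)
    have ht1 := trace_minpoly (F := ZMod p) (E := E) (x : E)
    have ht2 := trace_inv_minpoly (F := ZMod p) (E := E) (x : E) hx
    rw [← hm, hr] at ht1 ht2
    rw [hlam, ← AddChar.map_nsmul_eq_pow]
    congr 1
    rw [map_add, ← Algebra.smul_def, ← Algebra.smul_def, map_smul, map_smul, Units.val_inv_eq_inv_val,
      ht1, ht2, smul_eq_mul, smul_eq_mul, nsmul_eq_mul]
    unfold klv
    rw [hlead]
    ring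

end Pool.Agent.Lib.MP_bae66e_nt.P2

namespace Pool.Agent.Lib.MP_bae66e_nt.P2

open Finset Polynomial

private theorem E06_charP (p : ℕ) [Fact p.Prime] (E : Type) [Field E]
    [Algebra (ZMod p) E] : CharP E p :=
  charP_of_injective_algebraMap (algebraMap (ZMod p) E).injective p

private theorem E06_ker (p : ℕ) [Fact p.Prime] (E : Type) [Field E] [Fintype E] [DecidableEq E]
    [Algebra (ZMod p) E] : #{y : E | y ^ p = y} = p := by
  have hp : 1 < p := (Fact.out : p.Prime).one_lt
  apply le_antisymm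
  · have h1 : (X ^ p - X : E[X]) ≠ 0 := FiniteField.X_pow_card_sub_X_ne_zero E hp
    calc #{y : E | y ^ p = y} ≤ #(X ^ p - X : E[X]).roots.toFinset := by
          apply Finset.card_le_card
          intro y hy
          rw [Finset.mem_filter] at hy
          rw [Multiset.mem_toFinset, mem_roots h1, IsRoot.def, eval_sub, eval_pow, eval_X, hy.2,
            sub_self]
      _ ≤ (X ^ p - X : E[X]).roots.card := Multiset.toFinset_card_le _
      _ ≤ (X ^ p - X : E[X]).natDegree := card_roots' _
      _ = p := FiniteField.X_pow_card_sub_X_natDegree_eq E hp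
  · calc p = #(univ : Finset (ZMod p)) := by rw [Finset.card_univ, ZMod.card]
      _ = #((univ : Finset (ZMod p)).image (algebraMap (ZMod p) E)) :=
          (Finset.card_image_of_injective _ (algebraMap (ZMod p) E).injective).symm
      _ ≤ #{y : E | y ^ p = y} := by
          apply Finset.card_le_card
          intro y hy
          rw [Finset.mem_image] at hy
          obtain ⟨c, -, rfl⟩ := hy
          rw [Finset.mem_filter]
          exact ⟨Finset.mem_univ _, by rw [← map_pow, ZMod.pow_card]⟩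

/-- The map `y ↦ y ^ p - y`. -/
private noncomputable def E06_phi (p : ℕ) [Fact p.Prime] (E : Type) [Field E]
    [Algebra (ZMod p) E] : E →ₗ[ZMod p] E where
  toFun y := y ^ p - y
  map_add' y z := by
    have := E06_charP p E
    rw [add_pow_char]
    ring
  map_smul' c y := by
    rw [Algebra.smul_def, Algebra.smul_def, mul_pow, ← map_pow, ZMod.pow_card, RingHom.id_apply,
      mul_sub]

/-- The number of solutions of `y ^ p - y = z` in a finite field of characteristic `p`.
PROOF. `φ y = y ^ p - y` is additive (`frobenius`), and even `ZMod p`-linear. Its kernel is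
`{y : y ^ p = y}`, the image of `ZMod p`: at most `p` roots of `X ^ p - X`, and the `p` elements
`algebraMap (ZMod p) E c` are roots (`ZMod.pow_card`); so it has `p` elements. Each fibre over a
point of the range has `p` elements, so the range has `|E| / p` elements. The trace of `y ^ p` is the
trace of `y` (Frobenius is an automorphism over `ZMod p`: `Algebra.trace_eq_of_algEquiv`, or
`FiniteField.algebraMap_trace_eq_sum_pow`), so the range is contained in the kernel of the trace,
which has `|E| / p` elements because the trace is surjective onto `ZMod p`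
(`Algebra.trace_surjective`, and the fibres of a surjective linear map have the same size). Hence the
range is the kernel of the trace. -/
theorem card_artinSchreier (p : ℕ) [Fact p.Prime] (E : Type) [Field E] [Fintype E] [DecidableEq E]
    [Algebra (ZMod p) E] (z : E) :
    #{y : E | y ^ p - y = z} = if Algebra.trace (ZMod p) E z = 0 then p else 0 := by
  have := E06_charP p E
  have hp : 1 < p := (Fact.out : p.Prime).one_lt
  have hfin : Module.Finite (ZMod p) E := Module.Finite.of_finite
  have hk1 : Module.finrank (ZMod p) (LinearMap.ker (E06_phi p E)) = 1 := by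
    have h1 : Nat.card (LinearMap.ker (E06_phi p E)) = #{y : E | y ^ p = y} := by
      refine Nat.subtype_card _ (fun y => ?_)
      rw [Finset.mem_filter, LinearMap.mem_ker]
      exact ⟨fun h => sub_eq_zero.mpr h.2, fun h => ⟨Finset.mem_univ _, sub_eq_zero.mp h⟩⟩
    have h2 : Nat.card (LinearMap.ker (E06_phi p E))
        = Nat.card (ZMod p) ^ Module.finrank (ZMod p) (LinearMap.ker (E06_phi p E)) :=
      Module.natCard_eq_pow_finrank
    have h3 := h2.symm.trans (h1.trans (E06_ker p E))
    rw [Nat.card_zmod] at h3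
    have h4 : p ^ Module.finrank (ZMod p) (LinearMap.ker (E06_phi p E)) = p ^ 1 := by
      rw [pow_one]
      exact h3
    exact Nat.pow_right_injective hp h4
  have htr : ∀ y : E, Algebra.trace (ZMod p) E (y ^ p) = Algebra.trace (ZMod p) E y := by
    intro y
    have h1 := Algebra.trace_eq_of_algEquiv
      (FiniteField.frobeniusAlgEquivOfAlgebraic (ZMod p) E) y
    rwa [FiniteField.coe_frobeniusAlgEquivOfAlgebraic, ZMod.card] at h1
  have hle : LinearMap.range (E06_phi p E) ≤ LinearMap.ker (Algebra.trace (ZMod p) E) := by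
    rintro _ ⟨y, rfl⟩
    rw [LinearMap.mem_ker]
    change Algebra.trace (ZMod p) E (y ^ p - y) = 0
    rw [map_sub, htr, sub_self]
  have heq : LinearMap.range (E06_phi p E) = LinearMap.ker (Algebra.trace (ZMod p) E) := by
    apply Submodule.eq_of_le_of_finrank_eq hle
    have h1 := LinearMap.finrank_range_add_finrank_ker (E06_phi p E)
    have h2 := LinearMap.finrank_range_add_finrank_ker (Algebra.trace (ZMod p) E)
    rw [LinearMap.range_eq_top.mpr (Algebra.trace_surjective (ZMod p) E), finrank_top,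
      Module.finrank_self] at h2
    omega
  split_ifs with hz
  · have h1 : z ∈ LinearMap.range (E06_phi p E) := by
      rw [heq]
      exact hz
    obtain ⟨y0, rfl⟩ := h1
    refine Eq.trans ?_ (E06_ker p E)
    refine Finset.card_bij' (fun y _ => y - y0) (fun y _ => y + y0) ?_ ?_ ?_ ?_
    · intro y hy
      rw [Finset.mem_filter] at hy ⊢
      refine ⟨Finset.mem_univ _, ?_⟩
      have h2 : E06_phi p E y = E06_phi p E y0 := hy.2
      have h3 : E06_phi p E (y - y0) = 0 := by rw [map_sub, h2, sub_self]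
      exact sub_eq_zero.mp h3
    · intro y hy
      rw [Finset.mem_filter] at hy ⊢
      refine ⟨Finset.mem_univ _, ?_⟩
      have h3 : E06_phi p E y = 0 := sub_eq_zero.mpr hy.2
      change E06_phi p E (y + y0) = _
      rw [map_add, h3, zero_add]
    · intro y _
      exact sub_add_cancel y y0
    · intro y _
      exact add_sub_cancel_right y y0
  · rw [Finset.card_eq_zero, Finset.filter_eq_empty_iff]
    intro y _ hy
    apply hz
    rw [← hy, map_sub, htr, sub_self]

end Pool.Agent.Lib.MP_bae66e_nt.P2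

namespace Pool.Agent.Lib.MP_bae66e_nt.P2

open Finset Polynomial Pool.Agent.OPG.Katz

/-- The number of points of the curve `y ^ p - y = a x + b x⁻¹`.
PROOF. By `Ssum_klam` the left side is
`∑ c, ∑ x : Eˣ, stdAddChar (trace (c a x + c b x⁻¹)) = ∑ x, ∑ c, stdAddChar (c * trace (a x + b x⁻¹))`
(the trace is linear over `ZMod p`), and `∑ c, stdAddChar (c * u) = if u = 0 then p else 0`
(`AddChar.sum_mulShift`, `ZMod.isPrimitive_stdAddChar`). By `card_artinSchreier` this is
`∑ x, #{y | y ^ p - y = a x + b x⁻¹}`. -/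
theorem sum_Ssum (p : ℕ) [Fact p.Prime] (a b : ZMod p) (E : Type) [Field E] [Fintype E]
    [DecidableEq E] [Algebra (ZMod p) E] (r : ℕ) (hr : Module.finrank (ZMod p) E = r) :
    ∑ c : ZMod p, Ssum (klam p (c * a) (c * b)) r
      = (#{z : Eˣ × E | z.2 ^ p - z.2 = algebraMap (ZMod p) E a * (z.1 : E)
          + algebraMap (ZMod p) E b * ((z.1⁻¹ : Eˣ) : E)} : ℂ) := by
  have h1 : ∀ c : ZMod p, Ssum (klam p (c * a) (c * b)) r = ∑ x : Eˣ, ZMod.stdAddChar
      (c * Algebra.trace (ZMod p) E (algebraMap (ZMod p) E a * (x : E)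
          + algebraMap (ZMod p) E b * ((x⁻¹ : Eˣ) : E))) := by
    intro c
    rw [Ssum_klam p (c * a) (c * b) E r hr]
    refine Finset.sum_congr rfl fun x _ => ?_
    congr 1
    have h2 : algebraMap (ZMod p) E (c * a) * (x : E)
        + algebraMap (ZMod p) E (c * b) * ((x⁻¹ : Eˣ) : E)
        = c • (algebraMap (ZMod p) E a * (x : E)
          + algebraMap (ZMod p) E b * ((x⁻¹ : Eˣ) : E)) := by
      rw [Algebra.smul_def, map_mul, map_mul]
      ring
    rw [h2, map_smul, smul_eq_mul]
  have h3 : ∀ u : ZMod p, ∑ c : ZMod p, (ZMod.stdAddChar (c * u) : ℂ)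
      = if u = 0 then (p : ℂ) else 0 := by
    intro u
    have h4 := AddChar.sum_mulShift (R := ZMod p) (R' := ℂ) u (ZMod.isPrimitive_stdAddChar p)
    rw [ZMod.card] at h4
    rw [h4]
    split_ifs <;> simp
  have h5 : (#{z : Eˣ × E | z.2 ^ p - z.2 = algebraMap (ZMod p) E a * (z.1 : E)
          + algebraMap (ZMod p) E b * ((z.1⁻¹ : Eˣ) : E)} : ℕ)
      = ∑ x : Eˣ, #{y : E | y ^ p - y = algebraMap (ZMod p) E a * (x : E)
          + algebraMap (ZMod p) E b * ((x⁻¹ : Eˣ) : E)} := by
    rw [Finset.card_filter, ← Finset.univ_product_univ, Finset.sum_product]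
    refine Finset.sum_congr rfl fun x _ => ?_
    rw [Finset.card_filter]
  rw [h5, Nat.cast_sum]
  simp only [h1]
  rw [Finset.sum_comm]
  refine Finset.sum_congr rfl fun x _ => ?_
  rw [h3, card_artinSchreier]
  split_ifs <;> simp

end Pool.Agent.Lib.MP_bae66e_nt.P2

namespace Pool.Agent.Lib.MP_bae66e_nt.P2

open Finset Polynomial Pool.Agent.OPG.Katz

/-- The trivial term. PROOF: `Ssum_klam` with `a = b = 0`; the number of units is `card E - 1`
(`Fintype.card_units`). -/
theorem Ssum_zero (p : ℕ) [Fact p.Prime] (E : Type) [Field E] [Fintype E]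
    [Algebra (ZMod p) E] (r : ℕ) (hr : Module.finrank (ZMod p) E = r) :
    Ssum (klam p 0 0) r = (Fintype.card E : ℂ) - 1 := by
  classical
  rw [Ssum_klam p 0 0 E r hr]
  have h1 : ∀ x : Eˣ, ZMod.stdAddChar (Algebra.trace (ZMod p) E
      (algebraMap (ZMod p) E 0 * (x : E) + algebraMap (ZMod p) E 0 * ((x⁻¹ : Eˣ) : E))) =
      (1 : ℂ) := by
    intro x
    rw [map_zero, zero_mul, zero_mul, add_zero, map_zero, AddChar.map_zero_eq_one]
  rw [Finset.sum_congr rfl fun x _ => h1 x, Finset.sum_const, Finset.card_univ, nsmul_eq_mul,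
    mul_one, Fintype.card_units, Nat.cast_sub Fintype.card_pos, Nat.cast_one]

end Pool.Agent.Lib.MP_bae66e_nt.P2

namespace Pool.Agent.Lib.MP_bae66e_nt.P2

open Finset Polynomial

/-- The points of the curve in terms of the quadratic character.
PROOF. Sum over `y` of the number of `x` with `y ^ p - y = a x + b x⁻¹`, that is (multiply by
`x ≠ 0`; a solution of the quadratic equation is automatically `≠ 0` because `b ≠ 0`)
`a x² - w x + b = 0` with `w = y ^ p - y`. The map `x ↦ 2 a x - w` is a bijection onto the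
`s` with `s² = w² - 4 a b` (characteristic `≠ 2`), whose number is
`quadraticChar E (w² - 4 a b) + 1` by `quadraticChar_card_sqrts`. -/
theorem card_curve (p : ℕ) (E : Type) [Field E] [Fintype E] [DecidableEq E]
    (hE : ringChar E ≠ 2) (a b : E) (ha : a ≠ 0) (hb : b ≠ 0) :
    (#{z : Eˣ × E | z.2 ^ p - z.2 = a * (z.1 : E) + b * ((z.1⁻¹ : Eˣ) : E)} : ℤ)
      = ∑ y : E, (quadraticChar E ((y ^ p - y) ^ 2 - 4 * a * b) + 1) := by
  have h2 : (2 : E) ≠ 0 := Ring.two_ne_zero hE
  have hcount : ∀ w : E, (#{x : Eˣ | w = a * (x : E) + b * ((x⁻¹ : Eˣ) : E)} : ℤ) =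
      quadraticChar E (w ^ 2 - 4 * a * b) + 1 := by
    intro w
    rw [← quadraticChar_card_sqrts hE]
    congr 1
    refine Finset.card_bij (fun x _ => 2 * a * (x : E) - w) ?_ ?_ ?_
    · intro x hx
      rw [Finset.mem_filter] at hx
      rw [Set.mem_toFinset, Set.mem_ofPred_eq]
      have hx0 : (x : E) ≠ 0 := x.ne_zero
      have h3 : w * (x : E) = a * (x : E) ^ 2 + b := by
        have h4 := congrArg (fun t => t * (x : E)) hx.2
        simp only [add_mul] at h4
        rw [h4, mul_assoc b, Units.inv_mul]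
        ring
      linear_combination (-(4 * a)) * h3
    · intro x _ x' _ h
      have h3 : 2 * a * (x : E) = 2 * a * (x' : E) := by linear_combination h
      exact Units.ext (mul_left_cancel₀ (mul_ne_zero h2 ha) h3)
    · intro t ht
      rw [Set.mem_toFinset, Set.mem_ofPred_eq] at ht
      have htw : t + w ≠ 0 := by
        intro h
        have h3 : t = -w := eq_neg_of_add_eq_zero_left h
        rw [h3] at ht
        have h4 : (2 * 2) * (a * b) = 0 := by linear_combination ht
        exact mul_ne_zero (mul_ne_zero h2 h2) (mul_ne_zero ha hb) h4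
      have hx0 : (t + w) / (2 * a) ≠ 0 := div_ne_zero htw (mul_ne_zero h2 ha)
      refine ⟨Units.mk0 _ hx0, ?_, ?_⟩
      · rw [Finset.mem_filter]
        refine ⟨Finset.mem_univ _, ?_⟩
        rw [Units.val_inv_eq_inv_val, Units.val_mk0]
        field_simp
        linear_combination (-1 : E) * ht
      · rw [Units.val_mk0]
        field_simp
        ring
  rw [Finset.card_filter, Nat.cast_sum, Fintype.sum_prod_type, Finset.sum_comm]
  refine Finset.sum_congr rfl fun y _ => ?_
  rw [← hcount (y ^ p - y), Finset.card_filter, Nat.cast_sum]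

end Pool.Agent.Lib.MP_bae66e_nt.P2

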