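import Pool.Agent.Lib.MP_bae66e_nt.P2.KE1
import Pool.Agent.OPG.Mg_MP_fce80c_co.G002
import Pool.Agent.OPG.Mg_MP_fce80c_co.G003
import Pool.Agent.OPG.Mg_MP_fce80c_co.G004

set_option autoImplicit false

namespace Pool.Agent.Lib.MP_bae66e_nt.P2

open Finset Polynomial Pool.Agent.OPG.Katz

private theorem E09_one_ne {E : Type} [Field E] (hE : ringChar E ≠ 2) : (1 : E) ≠ -1 := by
  intro h
  apply Ring.two_ne_zero hE
  linear_combination h

/-- The weak Weil bound for the quadratic character of `(y ^ p - y) ^ 2 - d`, `d ≠ 0`.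
PROOF. Put `Δ = (X ^ p - X) ^ 2 - C d` in `E[X]`, of degree `2 p`, and let `y0` be the given root.
Then `f = Δ.comp (X + C y0)` has `f.eval 0 = 0` and simple root `0`: the derivative of `Δ` is
`2 (X ^ p - X) (-1)` (characteristic `p`), at `y0` it is `-2 (y0 ^ p - y0) ≠ 0` because its square is
`d ≠ 0` and `p ≠ 2`. So `f = X * g` with `g.eval 0 ≠ 0` (`divX`), `f.natDegree ≤ D := 2 p`.
Apply `Katz.stepanov` with `N = 2`, `e = (|E| - 1) / 2`, `b = B`, `ζ = 1` and `ζ = -1`:
the numbers `c₊, c₋` of `y` with `f(y) ^ e = ± 1` are at most `B ^ 2 / 2 + C1 * B`,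
`C1 = 2 D + 4 B0 2 D + 2 B0 2 D * D`. The values of `quadraticChar E` are `f(y) ^ e`
(`quadraticChar_eq_pow_of_char_ne_two'`), so `c₊ + c₋ + c₀ = B ^ 2` with `c₀ ≤ 2 p` the number of
roots, and the sum is `c₊ - c₋`, which is `≤ 2 C1 B + 2 p` in absolute value. As `B ≥ 1` take
`C = 2 C1 + 2 p`. Translate `y ↦ y + y0` in the sum. -/
theorem quad_weak (p : ℕ) [Fact p.Prime] (hp : p ≠ 2) : ∃ C : ℝ, 0 ≤ C ∧
    ∀ (E : Type) (_ : Field E) (_ : Fintype E) (_ : DecidableEq E) (_ : Algebra (ZMod p) E)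
      (B : ℕ), B ^ 2 = Fintype.card E → ∀ d : E, d ≠ 0 → (∃ y0 : E, (y0 ^ p - y0) ^ 2 = d) →
      |((∑ y : E, quadraticChar E ((y ^ p - y) ^ 2 - d) : ℤ) : ℝ)| ≤ C * B := by
  have hpp : p.Prime := Fact.out
  have hp3 : 3 ≤ p := by
    have := hpp.two_le
    omega
  refine ⟨2 * (2 * ((2 * p : ℕ) : ℝ) + 4 * (B0 2 (2 * p) : ℕ) + 2 * (B0 2 (2 * p) : ℕ) * ((2 * p : ℕ) : ℝ))
    + 2 * p, by positivity, ?_⟩
  intro E _ _ _ _ B hB d hd ⟨y0, hy0⟩
  have : CharP E p := charP_of_injective_algebraMap (algebraMap (ZMod p) E).injective p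
  have hchar : ringChar E ≠ 2 := by
    rw [ringChar.eq E p]
    exact hp
  have hodd : Fintype.card E % 2 = 1 := FiniteField.odd_card_of_char_ne_two hchar
  set w : E := y0 ^ p - y0 with hw
  have hw0 : w ≠ 0 := by
    intro h
    rw [h] at hy0
    apply hd
    rw [← hy0]
    ring
  set g : E[X] := (X ^ (p - 1) - 1) * (X ^ p - X + C (2 * w)) with hg
  set f : E[X] := X * g with hf
  have hg0 : g.eval 0 ≠ 0 := by
    have h1 : (0 : E) ^ (p - 1) = 0 := zero_pow (by omega)
    have h2 : (0 : E) ^ p = 0 := zero_pow (by omega)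
    rw [hg]
    simp only [eval_mul, eval_sub, eval_add, eval_pow, eval_X, eval_one, eval_C, h1, h2]
    have h3 : (2 : E) ≠ 0 := Ring.two_ne_zero hchar
    simp only [zero_sub, sub_zero, zero_add, neg_mul, one_mul, ne_eq, neg_eq_zero, mul_eq_zero,
      not_or]
    exact ⟨h3, hw0⟩
  have hev : ∀ x : E, f.eval x = ((x + y0) ^ p - (x + y0)) ^ 2 - d := by
    intro x
    have h1 : (x + y0) ^ p = x ^ p + y0 ^ p := add_pow_char x y0 p
    have h2 : x * x ^ (p - 1) = x ^ p := by
      rw [← pow_succ']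
      congr 1
      omega
    rw [hf, hg]
    simp only [eval_mul, eval_sub, eval_add, eval_pow, eval_X, eval_one, eval_C]
    rw [h1, ← hy0]
    have h4 : x * ((x ^ (p - 1) - 1) * (x ^ p - x + 2 * w)) = (x ^ p - x) * (x ^ p - x + 2 * w) := by
      rw [← h2]
      ring
    rw [h4, hw]
    ring
  have hdeg : f.natDegree ≤ 2 * p := by
    have h1 : (X ^ (p - 1) - 1 : E[X]).natDegree ≤ p - 1 := by
      refine (natDegree_sub_le _ _).trans ?_
      simp
    have h2 : (X ^ p - X + C (2 * w) : E[X]).natDegree ≤ p := by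
      refine (natDegree_add_le _ _).trans ?_
      rw [natDegree_C, max_eq_left (Nat.zero_le _)]
      refine (natDegree_sub_le _ _).trans ?_
      simp only [natDegree_X_pow, natDegree_X]
      omega
    calc f.natDegree ≤ (X : E[X]).natDegree + g.natDegree := natDegree_mul_le
      _ ≤ 1 + ((p - 1) + p) := by
          refine Nat.add_le_add (by simp) ?_
          exact natDegree_mul_le.trans (Nat.add_le_add h1 h2)
      _ = 2 * p := by omega
  have hf0 : f ≠ 0 := by
    intro h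
    have h1 : X * g = 0 := h
    rcases mul_eq_zero.1 h1 with h2 | h2
    · exact X_ne_zero h2
    · rw [h2] at hg0
      simp at hg0
  set e : ℕ := Fintype.card E / 2 with he
  have hQ : 2 * e + 1 = Fintype.card E := by omega
  have hcard3 : 2 < Fintype.card E := by
    have h1 : 1 < Fintype.card E := Fintype.one_lt_card
    omega
  have he1 : 1 ≤ e := by omega
  have hB1 : 1 ≤ B := by
    rcases Nat.eq_zero_or_pos B with h | h
    · rw [h] at hB
      omega
    · exact h
  have hS1 := stepanov f g rfl hg0 (2 * p) (by omega) hdeg 2 e B (by omega) he1 hQ hB 1 one_ne_zero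
  have hS2 := stepanov f g rfl hg0 (2 * p) (by omega) hdeg 2 e B (by omega) he1 hQ hB (-1)
    (neg_ne_zero.2 one_ne_zero)
  have hne : (1 : E) ≠ -1 := E09_one_ne hchar
  set cp := ((univ : Finset E).filter (fun x => f.eval x ^ e = 1)).card with hcp
  set cm := ((univ : Finset E).filter (fun x => f.eval x ^ e = -1)).card with hcm
  set c0 := ((univ : Finset E).filter (fun x => f.eval x = 0)).card with hc0
  have hchi : ∀ x : E, ((quadraticChar E (f.eval x) : ℤ) : E) = f.eval x ^ e := fun x =>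
    quadraticChar_eq_pow_of_char_ne_two' hchar _
  have hterm : ∀ x : E, quadraticChar E (f.eval x) =
      (if f.eval x ^ e = 1 then (1 : ℤ) else 0) - (if f.eval x ^ e = -1 then (1 : ℤ) else 0) := by
    intro x
    by_cases hx : f.eval x = 0
    · rw [hx, zero_pow (by omega)]
      rw [if_neg zero_ne_one, if_neg (fun h => one_ne_zero (neg_eq_zero.1 h.symm))]
      simp
    · rcases quadraticChar_dichotomy hx with h | h
      · have h1 := hchi x
        rw [h] at h1
        rw [h, ← h1]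
        simp [hne]
      · have h1 := hchi x
        rw [h] at h1
        rw [h, ← h1]
        simp [Ne.symm hne]
  have hpart : ∀ x : E, (if f.eval x ^ e = 1 then (1 : ℤ) else 0)
      + (if f.eval x ^ e = -1 then (1 : ℤ) else 0) + (if f.eval x = 0 then (1 : ℤ) else 0) = 1 := by
    intro x
    by_cases hx : f.eval x = 0
    · rw [hx, zero_pow (by omega)]
      rw [if_neg zero_ne_one, if_neg (fun h => one_ne_zero (neg_eq_zero.1 h.symm))]
      simp
    · rcases quadraticChar_dichotomy hx with h | h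
      · have h1 := hchi x
        rw [h] at h1
        rw [← h1]
        simp [hne, hx]
      · have h1 := hchi x
        rw [h] at h1
        rw [← h1]
        simp [Ne.symm hne, hx]
  have hsum : (∑ y : E, quadraticChar E ((y ^ p - y) ^ 2 - d) : ℤ) = (cp : ℤ) - cm := by
    rw [← Equiv.sum_comp (Equiv.addRight y0)]
    have h1 : ∀ x : E, quadraticChar E (((Equiv.addRight y0) x ^ p - (Equiv.addRight y0) x) ^ 2 - d)
        = (if f.eval x ^ e = 1 then (1 : ℤ) else 0) - (if f.eval x ^ e = -1 then (1 : ℤ) else 0) := by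
      intro x
      rw [← hterm x, hev x]
      rfl
    rw [Finset.sum_congr rfl (fun x _ => h1 x), Finset.sum_sub_distrib, Finset.sum_boole,
      Finset.sum_boole]
  have htot : (cp : ℤ) + cm + c0 = Fintype.card E := by
    have h1 : ∑ x : E, ((if f.eval x ^ e = 1 then (1 : ℤ) else 0)
      + (if f.eval x ^ e = -1 then (1 : ℤ) else 0) + (if f.eval x = 0 then (1 : ℤ) else 0))
        = Fintype.card E := by
      rw [Finset.sum_congr rfl (fun x _ => hpart x)]
      simp
    rw [Finset.sum_add_distrib, Finset.sum_add_distrib, Finset.sum_boole, Finset.sum_boole,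
      Finset.sum_boole] at h1
    exact h1
  have hc0le : c0 ≤ 2 * p := by
    have h1 : (univ : Finset E).filter (fun x => f.eval x = 0) ⊆ f.roots.toFinset := by
      intro x hx
      rw [Finset.mem_filter] at hx
      rw [Multiset.mem_toFinset, mem_roots hf0]
      exact hx.2
    calc c0 ≤ f.roots.toFinset.card := Finset.card_le_card h1
      _ ≤ Multiset.card f.roots := Multiset.toFinset_card_le _
      _ ≤ f.natDegree := card_roots' f
      _ ≤ 2 * p := hdeg
  rw [hsum]
  have htot' : (cp : ℝ) + cm + c0 = (B : ℝ) ^ 2 := by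
    have h1 : ((cp : ℤ) + cm + c0 : ℤ) = (B : ℤ) ^ 2 := by
      rw [htot, ← hB]
      push_cast
      rfl
    exact_mod_cast h1
  have hc0' : (c0 : ℝ) ≤ 2 * p := by exact_mod_cast hc0le
  have hc00 : (0 : ℝ) ≤ c0 := Nat.cast_nonneg _
  have hB1' : (1 : ℝ) ≤ B := by exact_mod_cast hB1
  push_cast at hS1 hS2 ⊢
  set K : ℝ := 2 * (2 * p) + 4 * (B0 2 (2 * p) : ℝ) + 2 * (B0 2 (2 * p) : ℝ) * (2 * p) with hK
  have hpB : (2 * p : ℝ) ≤ 2 * p * B := by
    have : (0 : ℝ) ≤ 2 * p := by positivity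
    nlinarith
  rw [abs_le]
  constructor
  · nlinarith
  · nlinarith

end Pool.Agent.Lib.MP_bae66e_nt.P2

namespace Pool.Agent.Lib.MP_bae66e_nt.P2

open Finset Polynomial Pool.Agent.OPG.Katz

/-- The L-function of the Kloosterman sum.
PROOF. `Katz.newton_roots 3` with `L k = ∑ h ∈ monics (ZMod p) k, klam p a b h`
(`Katz.L_zero`, `klam_L_vanish`, `Katz.log_deriv`). -/
theorem exists_roots (p : ℕ) [Fact p.Prime] (a b : ZMod p) (ha : a ≠ 0) :
    ∃ ω : Fin 2 → ℂ, ∀ r : ℕ, 1 ≤ r → Ssum (klam p a b) r = - ∑ i, ω i ^ r :=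
  newton_roots 3 (by norm_num) (fun k => ∑ h ∈ monics (ZMod p) k, klam p a b h)
    (fun r => Ssum (klam p a b) r) (L_zero (klam p a b))
    (fun k hk => klam_L_vanish p a b ha k hk) (fun k _ => log_deriv (klam p a b) k)

end Pool.Agent.Lib.MP_bae66e_nt.P2

namespace Pool.Agent.Lib.MP_bae66e_nt.P2

open Finset Polynomial Pool.Agent.OPG.Katz

/-- A finite extension of the prime field in which `(y ^ p - y) ^ 2 = d` is solvable. -/
private theorem E10b_field (p : ℕ) [Fact p.Prime] (d : ZMod p) :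
    ∃ (K : Type) (_ : Field K) (_ : Algebra (ZMod p) K) (_ : FiniteDimensional (ZMod p) K),
      ∃ y : K, (y ^ p - y) ^ 2 = algebraMap (ZMod p) K d := by
  set f : (ZMod p)[X] := (X ^ p - X) ^ 2 - C d with hf
  have hp1 : 1 < p := (Fact.out : p.Prime).one_lt
  have hm : (X ^ p - X : (ZMod p)[X]).natDegree = p := FiniteField.X_pow_card_sub_X_natDegree_eq
    (ZMod p) hp1
  have hdeg : f.natDegree = 2 * p := by
    rw [hf, natDegree_sub_C, natDegree_pow, hm]
  have h0 : f.degree ≠ 0 := by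
    intro h
    have h1 : f.natDegree = 0 := natDegree_eq_of_degree_eq_some h
    rw [hdeg] at h1
    omega
  have hsp := SplittingField.splits f
  obtain ⟨y, hy⟩ := hsp.exists_eval_eq_zero (by rwa [degree_map])
  refine ⟨f.SplittingField, inferInstance, inferInstance, inferInstance, y, ?_⟩
  rw [eval_map_algebraMap] at hy
  have hy' : aeval y ((X ^ p - X) ^ 2 - C d : (ZMod p)[X]) = 0 := hy
  simp only [map_sub, map_pow, aeval_X, aeval_C] at hy'
  exact sub_eq_zero.1 hy'

/-- The power sums over all multiples are small.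
PROOF. Let `K` be a finite field, an algebra over `ZMod p`, in which `(X ^ p - X) ^ 2 - 4 a b` has a
root (its splitting field), `m = finrank (ZMod p) K ≥ 1`. For `j ≥ 1` let `E` be the extension of `K` of
degree `2 j` (`FiniteField.Extension K p (2 * j)`, as in `Pool/Agent/OPG/Katz/D3.lean`); then
`finrank (ZMod p) E = m * (2 * j)` and `card E = (p ^ (m * j)) ^ 2`. By `sum_Ssum`, `card_curve`,
`Ssum_zero` (the term `c = 0`) the sum over `c ≠ 0` is
`∑ y (χ(..) + 1) - (card E - 1) = 1 + ∑ y χ(...)`, and `quad_weak` gives the bound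
`1 + C B ≤ (C + 1) B`, `B = p ^ (m j)`. -/
theorem power_sums (p : ℕ) [Fact p.Prime] (hp : p ≠ 2) (a b : ZMod p) (ha : a ≠ 0) (hb : b ≠ 0) :
    ∃ (m : ℕ) (C : ℝ), 1 ≤ m ∧ ∀ j : ℕ, 1 ≤ j →
      ‖∑ c ∈ (univ : Finset (ZMod p)).erase 0, Ssum (klam p (c * a) (c * b)) (m * (2 * j))‖
        ≤ C * ((p : ℝ) ^ m) ^ j := by
  classical
  have hpp : p.Prime := Fact.out
  obtain ⟨K, iF, iA, iD, y0, hy0⟩ := E10b_field p (4 * a * b)
  haveI : Finite K := Module.finite_of_finite (ZMod p)
  haveI : CharP K p := charP_of_injective_algebraMap (algebraMap (ZMod p) K).injective p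
  obtain ⟨C, hC0, hC⟩ := quad_weak p hp
  refine ⟨Module.finrank (ZMod p) K, C + 1, Module.finrank_pos, ?_⟩
  intro j hj
  haveI : NeZero (2 * j) := ⟨by omega⟩
  set m : ℕ := Module.finrank (ZMod p) K with hm
  obtain ⟨E, fE, iEf, aE, iKE, hT, hr⟩ : ∃ (E : Type) (_ : Field E) (_ : Finite E)
      (_ : Algebra (ZMod p) E) (_ : Algebra K E), IsScalarTower (ZMod p) K E ∧
      Module.finrank (ZMod p) E = m * (2 * j) :=
    ⟨FiniteField.Extension K p (2 * j), inferInstance, inferInstance, inferInstance,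
      inferInstance, inferInstance, FiniteField.finrank_zmod_extension K p (2 * j)⟩
  letI : Fintype E := Fintype.ofFinite E
  haveI : CharP E p := charP_of_injective_algebraMap (algebraMap (ZMod p) E).injective p
  have hcard : Fintype.card E = p ^ (m * (2 * j)) := by
    have h1 := Module.card_eq_pow_finrank (K := ZMod p) (V := E)
    rw [h1, hr, ZMod.card]
  have hB : (p ^ (m * j)) ^ 2 = Fintype.card E := by
    rw [hcard, ← pow_mul]
    congr 1
    ring
  have hchar : ringChar E ≠ 2 := by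
    rw [ringChar.eq E p]
    exact hp
  have ha' : algebraMap (ZMod p) E a ≠ 0 := by
    rw [Ne, FaithfulSMul.algebraMap_eq_zero_iff]
    exact ha
  have hb' : algebraMap (ZMod p) E b ≠ 0 := by
    rw [Ne, FaithfulSMul.algebraMap_eq_zero_iff]
    exact hb
  have h20 : (2 : E) ≠ 0 := Ring.two_ne_zero hchar
  have hd : (4 * algebraMap (ZMod p) E a * algebraMap (ZMod p) E b) ≠ 0 := by
    refine mul_ne_zero (mul_ne_zero ?_ ha') hb'
    have : (4 : E) = 2 * 2 := by norm_num
    rw [this]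
    exact mul_ne_zero h20 h20
  have hroot : ∃ y : E, (y ^ p - y) ^ 2 =
      4 * algebraMap (ZMod p) E a * algebraMap (ZMod p) E b := by
    refine ⟨algebraMap K E y0, ?_⟩
    rw [← map_pow, ← map_sub, ← map_pow, hy0, ← IsScalarTower.algebraMap_apply]
    simp only [map_mul, map_ofNat]
  have hq := hC E inferInstance inferInstance inferInstance inferInstance (p ^ (m * j)) hB _ hd
    hroot
  have h1 := sum_Ssum p a b E (m * (2 * j)) hr
  have h2 := card_curve p E hchar (algebraMap (ZMod p) E a) (algebraMap (ZMod p) E b) ha' hb'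
  have h3 := Ssum_zero p E (m * (2 * j)) hr
  have h4 : ∑ c : ZMod p, Ssum (klam p (c * a) (c * b)) (m * (2 * j)) =
      (((∑ y : E, (quadraticChar E ((y ^ p - y) ^ 2 -
        4 * algebraMap (ZMod p) E a * algebraMap (ZMod p) E b) + 1) : ℤ)) : ℂ) := by
    rw [h1, ← h2]
    push_cast
    rfl
  have h5 : Ssum (klam p (0 * a) (0 * b)) (m * (2 * j)) +
      ∑ c ∈ (univ : Finset (ZMod p)).erase 0, Ssum (klam p (c * a) (c * b)) (m * (2 * j)) =
      ∑ c : ZMod p, Ssum (klam p (c * a) (c * b)) (m * (2 * j)) :=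
    Finset.add_sum_erase univ (fun c : ZMod p => Ssum (klam p (c * a) (c * b)) (m * (2 * j)))
      (mem_univ 0)
  rw [zero_mul, zero_mul, h3, h4] at h5
  have h6 : ∑ c ∈ (univ : Finset (ZMod p)).erase 0, Ssum (klam p (c * a) (c * b)) (m * (2 * j)) =
      1 + (((∑ y : E, quadraticChar E ((y ^ p - y) ^ 2 -
        4 * algebraMap (ZMod p) E a * algebraMap (ZMod p) E b) : ℤ)) : ℂ) := by
    rw [Finset.sum_add_distrib, Finset.sum_const, Finset.card_univ, nsmul_eq_mul, mul_one] at h5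
    push_cast at h5 ⊢
    linear_combination h5
  rw [h6]
  have hBr : ((p : ℝ) ^ m) ^ j = ((p ^ (m * j) : ℕ) : ℝ) := by
    push_cast
    rw [pow_mul]
  have hB1 : (1 : ℝ) ≤ ((p ^ (m * j) : ℕ) : ℝ) := by
    exact_mod_cast Nat.one_le_pow _ _ hpp.pos
  rw [hBr]
  refine (norm_add_le _ _).trans ?_
  rw [norm_one, Complex.norm_intCast]
  calc 1 + |((∑ y : E, quadraticChar E ((y ^ p - y) ^ 2 -
        4 * algebraMap (ZMod p) E a * algebraMap (ZMod p) E b) : ℤ) : ℝ)|
      ≤ ((p ^ (m * j) : ℕ) : ℝ) + C * ((p ^ (m * j) : ℕ) : ℝ) := add_le_add hB1 hq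
    _ = (C + 1) * ((p ^ (m * j) : ℕ) : ℝ) := by ring

end Pool.Agent.Lib.MP_bae66e_nt.P2

namespace Pool.Agent.Lib.MP_bae66e_nt.P2

open Finset Polynomial Pool.Agent.OPG.Katz

/-- The Weil bound for the roots.
PROOF. As in the last part of `Katz.katz` (`D3.lean`). For `c ≠ 0` choose `ω_c` by `exists_roots`
for `(c a, c b)`. Index the numbers `z = ω_{c,i} ^ (2 m) / p ^ m` by a `Fin` (the finite type
`{c // c ≠ 0} × Fin 2`, `Fintype.equivFin`); by `power_sums` all power sums of the `z` are bounded by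
`C`, so `‖z‖ ≤ 1` by `Katz.norm_le_one_of_bounded`. Take `c = 1`. -/
theorem exists_small_roots (p : ℕ) [Fact p.Prime] (hp : p ≠ 2) (a b : ZMod p) (ha : a ≠ 0)
    (hb : b ≠ 0) : ∃ ω : Fin 2 → ℂ, (∀ i, ‖ω i‖ ≤ Real.sqrt p) ∧
      Ssum (klam p a b) 1 = - ∑ i, ω i := by
  classical
  obtain ⟨m, C, hm, hC⟩ := power_sums p hp a b ha hb
  have hroots : ∀ c : {c : ZMod p // c ≠ 0}, ∃ ω : Fin 2 → ℂ, ∀ r : ℕ, 1 ≤ r →
      Ssum (klam p ((c : ZMod p) * a) ((c : ZMod p) * b)) r = - ∑ i, ω i ^ r := fun c =>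
    exists_roots p ((c : ZMod p) * a) ((c : ZMod p) * b) (mul_ne_zero c.2 ha)
  choose ω hω using hroots
  have hp0 : 0 < (p : ℝ) := by
    exact_mod_cast (Fact.out : p.Prime).pos
  let e := Fintype.equivFin ({c : ZMod p // c ≠ 0} × Fin 2)
  have hsum : ∀ j : ℕ, 1 ≤ j → ‖∑ k, (ω (e.symm k).1 (e.symm k).2 ^ (2 * m) / (p : ℂ) ^ m) ^ j‖
      ≤ C := by
    intro j hj
    have h1 : ∑ k, (ω (e.symm k).1 (e.symm k).2 ^ (2 * m) / (p : ℂ) ^ m) ^ j =
        ∑ x : {c : ZMod p // c ≠ 0} × Fin 2, (ω x.1 x.2 ^ (2 * m) / (p : ℂ) ^ m) ^ j :=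
      Equiv.sum_comp e.symm (fun x => (ω x.1 x.2 ^ (2 * m) / (p : ℂ) ^ m) ^ j)
    have h2 : ∑ x : {c : ZMod p // c ≠ 0} × Fin 2, (ω x.1 x.2 ^ (2 * m) / (p : ℂ) ^ m) ^ j =
        - (∑ c ∈ (univ : Finset (ZMod p)).erase 0,
          Ssum (klam p (c * a) (c * b)) (m * (2 * j))) / ((p : ℂ) ^ m) ^ j := by
      rw [Fintype.sum_prod_type]
      have h3 : ∀ c : {c : ZMod p // c ≠ 0}, ∑ i, (ω c i ^ (2 * m) / (p : ℂ) ^ m) ^ j =
          - Ssum (klam p ((c : ZMod p) * a) ((c : ZMod p) * b)) (m * (2 * j)) /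
            ((p : ℂ) ^ m) ^ j := by
        intro c
        rw [hω c (m * (2 * j)) (Nat.one_le_iff_ne_zero.2 (Nat.mul_ne_zero (by omega) (by omega))),
          neg_neg, Finset.sum_div]
        refine Finset.sum_congr rfl fun i _ => ?_
        rw [div_pow, ← pow_mul]
        congr 2
        ring
      rw [Finset.sum_congr rfl fun c _ => h3 c, ← Finset.sum_div, Finset.sum_neg_distrib]
      congr 2
      exact (Finset.sum_subtype ((univ : Finset (ZMod p)).erase 0)
        (p := fun c => c ≠ 0) (fun c => by simp)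
        (fun c => Ssum (klam p (c * a) (c * b)) (m * (2 * j)))).symm
    rw [h1, h2, norm_div, norm_neg, norm_pow, norm_pow, Complex.norm_natCast,
      div_le_iff₀ (by positivity)]
    exact hC j hj
  have hb1 : ∀ (c : {c : ZMod p // c ≠ 0}) (i : Fin 2), ‖ω c i‖ ≤ Real.sqrt p := by
    intro c i
    have h1 := norm_le_one_of_bounded
      (fun k => ω (e.symm k).1 (e.symm k).2 ^ (2 * m) / (p : ℂ) ^ m) C hsum (e (c, i))
    simp only [Equiv.symm_apply_apply] at h1
    rw [norm_div, norm_pow, norm_pow, Complex.norm_natCast, div_le_one (by positivity)] at h1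
    have h3 : ‖ω c i‖ ^ 2 ≤ (p : ℝ) := by
      rw [pow_mul] at h1
      exact le_of_pow_le_pow_left₀ (by omega) hp0.le h1
    exact Real.le_sqrt_of_sq_le h3
  refine ⟨ω ⟨1, one_ne_zero⟩, hb1 _, ?_⟩
  have h4 := hω ⟨1, one_ne_zero⟩ 1 le_rfl
  simp only [one_mul, pow_one] at h4
  exact h4

end Pool.Agent.Lib.MP_bae66e_nt.P2

namespace Pool.Agent.Lib.MP_bae66e_nt.P2

open Finset Polynomial Pool.Agent.OPG.Katz

/-- **Weil's bound for Kloosterman sums.**
PROOF. `kl p t s = ∑ x : (ZMod p)ˣ, stdAddChar (s x + t x⁻¹) = Ssum (klam p s t) 1` by `Ssum_klam`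
with `E = ZMod p` (`finrank = 1`, `Algebra.trace_self`). Use `exists_small_roots`. -/
theorem kl_prime (p : ℕ) [Fact p.Prime] (hp : p ≠ 2) (t s : ZMod p) (ht : t ≠ 0) (hs : s ≠ 0) :
    ‖kl p t s‖ ≤ 2 * Real.sqrt p := by
  have h1 : kl p t s = Ssum (klam p s t) 1 := by
    rw [Ssum_klam p s t (ZMod p) 1 (Module.finrank_self _), kl]
    apply Finset.sum_congr rfl
    intro x _
    rw [Algebra.algebraMap_self_apply, Algebra.algebraMap_self_apply, Algebra.trace_self_apply,
      add_comm]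
  obtain ⟨ω, hω, hS⟩ := exists_small_roots p hp s t hs ht
  rw [h1, hS, norm_neg, Fin.sum_univ_two]
  have h2 := norm_add_le (ω 0) (ω 1)
  have h3 := hω 0
  have h4 := hω 1
  linarith

end Pool.Agent.Lib.MP_bae66e_nt.P2

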