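import Pool.Agent.Lib.MP_bae66e_nt.P2.KE2

set_option autoImplicit false

namespace Pool.Agent.Lib.MP_bae66e_nt.P2

open Finset

/-- sum over the units -/
theorem E12a_sum_units (p : ℕ) [Fact p.Prime] (u : ZMod p) (hu : u ≠ 0) :
    ∑ x : (ZMod p)ˣ, (ZMod.stdAddChar (u * (x : ZMod p)) : ℂ) = -1 := by
  classical
  have h1 : ∑ x : (ZMod p)ˣ, (ZMod.stdAddChar (u * (x : ZMod p)) : ℂ)
      = ∑ x : {a : ZMod p // a ≠ 0}, (ZMod.stdAddChar (u * (x : ZMod p)) : ℂ) :=
    Fintype.sum_equiv (unitsEquivNeZero (G₀ := ZMod p)) _ _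
      (fun x => by rw [unitsEquivNeZero_apply_coe])
  have h2 := Fintype.sum_subtype_add_sum_subtype (fun a : ZMod p => a ≠ 0)
    (fun a => (ZMod.stdAddChar (u * a) : ℂ))
  have h3 : ∑ x : ZMod p, (ZMod.stdAddChar (u * x) : ℂ) = 0 := by
    have h := AddChar.sum_mulShift u (ZMod.isPrimitive_stdAddChar p)
    rw [if_neg hu] at h
    rw [← Nat.cast_zero, ← h]
    exact Finset.sum_congr rfl (fun x _ => by rw [mul_comm])
  have h4 : ∑ x : {a : ZMod p // ¬ a ≠ 0}, (ZMod.stdAddChar (u * (x : ZMod p)) : ℂ) = 1 := by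
    have : ∀ x : {a : ZMod p // ¬ a ≠ 0}, (x : ZMod p) = 0 := fun x => not_not.mp x.2
    have hU : Unique {a : ZMod p // ¬ a ≠ 0} :=
      ⟨⟨⟨0, by simp⟩⟩, fun x => Subtype.ext (this x)⟩
    rw [Fintype.sum_unique]
    rw [this]
    simp
  rw [h1]
  rw [h3, h4] at h2
  linear_combination h2

/-- trivial bound -/
theorem E12a_triv (p : ℕ) [Fact p.Prime] (t s : ZMod p) : ‖kl p t s‖ ≤ (p : ℝ) - 1 := by
  have hp : p.Prime := Fact.out
  unfold kl
  refine le_trans (norm_sum_le _ _) ?_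
  have : ∀ x : (ZMod p)ˣ,
      ‖(ZMod.stdAddChar (t * ((x⁻¹ : (ZMod p)ˣ) : ZMod p) + s * (x : ZMod p)) : ℂ)‖ = 1 := by
    intro x
    exact AddChar.norm_apply _ _
  rw [Finset.sum_congr rfl (fun x _ => this x), Finset.sum_const, nsmul_eq_mul, mul_one,
    Finset.card_univ, ZMod.card_units p, Nat.cast_sub hp.one_le, Nat.cast_one]

/-- `kl` is `-1` if exactly one parameter is zero -/
theorem E12a_one_left (p : ℕ) [Fact p.Prime] (t : ZMod p) (ht : t ≠ 0) : kl p t 0 = -1 := by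
  rw [← E12a_sum_units p t ht]
  unfold kl
  rw [← Equiv.sum_comp (Equiv.inv (ZMod p)ˣ)
    (fun x => (ZMod.stdAddChar (t * (x : ZMod p)) : ℂ))]
  refine Finset.sum_congr rfl (fun x _ => ?_)
  rw [zero_mul, add_zero, Equiv.inv_apply]

theorem E12a_one_right (p : ℕ) [Fact p.Prime] (s : ZMod p) (hs : s ≠ 0) : kl p 0 s = -1 := by
  rw [← E12a_sum_units p s hs]
  unfold kl
  refine Finset.sum_congr rfl (fun x _ => ?_)
  rw [zero_mul, zero_add]

/-- Prime moduli, all cases.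
PROOF. `p = 2`: there is one unit, `‖kl‖ ≤ 1`. `p` odd: if `p` divides neither `t` nor `s` this is
`kl_prime`. If `p` divides both, the sum is `p - 1 ≤ √p √p`. If `p` divides exactly one of them, the
sum over the units of `stdAddChar (u x)`, `u ≠ 0` (replace `x` by `x⁻¹` if necessary) is `-1`
(`AddChar.sum_eq_zero_of_ne_one`, or `AddChar.sum_mulShift`, minus the term `x = 0`). -/
theorem kl_prime_all (p : ℕ) [Fact p.Prime] (t s : ℤ) :
    ‖kl p (t : ZMod p) (s : ZMod p)‖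
      ≤ 2 * Real.sqrt p * Real.sqrt (Nat.gcd (Int.gcd t s) p : ℕ) := by
  have hp : p.Prime := Fact.out
  have hp1 : (1 : ℝ) ≤ Real.sqrt p := by
    rw [Real.one_le_sqrt]
    exact_mod_cast hp.one_le
  have hg1 : (1 : ℝ) ≤ Real.sqrt (Nat.gcd (Int.gcd t s) p : ℕ) := by
    rw [Real.one_le_sqrt]
    exact_mod_cast Nat.gcd_pos_of_pos_right _ hp.pos
  have hbase : (1 : ℝ) ≤ 2 * Real.sqrt p * Real.sqrt (Nat.gcd (Int.gcd t s) p : ℕ) := by
    nlinarith [mul_le_mul hp1 hg1 zero_le_one (by linarith)]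
  by_cases ht : (t : ZMod p) = 0
  · by_cases hs : (s : ZMod p) = 0
    · have hd : (p : ℤ) ∣ t := (ZMod.intCast_zmod_eq_zero_iff_dvd t p).mp ht
      have hd' : (p : ℤ) ∣ s := (ZMod.intCast_zmod_eq_zero_iff_dvd s p).mp hs
      have hg : Nat.gcd (Int.gcd t s) p = p := by
        apply Nat.gcd_eq_right
        exact Int.natCast_dvd_natCast.mp (Int.dvd_coe_gcd hd hd')
      rw [hg]
      refine le_trans (E12a_triv p _ _) ?_
      rw [mul_assoc, Real.mul_self_sqrt (by positivity)]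
      have : (0 : ℝ) ≤ p := by positivity
      linarith
    · rw [ht, E12a_one_right p _ hs, norm_neg, norm_one]
      exact hbase
  · by_cases hs : (s : ZMod p) = 0
    · rw [hs, E12a_one_left p _ ht, norm_neg, norm_one]
      exact hbase
    · by_cases h2 : p = 2
      · refine le_trans (E12a_triv p _ _) ?_
        have : (p : ℝ) = 2 := by exact_mod_cast h2
        linarith
      · refine le_trans (kl_prime p h2 _ _ ht hs) ?_
        nlinarith [hg1, hp1]

end Pool.Agent.Lib.MP_bae66e_nt.P2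

namespace Pool.Agent.Lib.MP_bae66e_nt.P2

open Finset

/-- sum over the units -/
theorem E12b_sum_units (p : ℕ) [Fact p.Prime] (u : ZMod p) (hu : u ≠ 0) :
    ∑ x : (ZMod p)ˣ, (ZMod.stdAddChar (u * (x : ZMod p)) : ℂ) = -1 := by
  classical
  have h1 : ∑ x : (ZMod p)ˣ, (ZMod.stdAddChar (u * (x : ZMod p)) : ℂ)
      = ∑ x : {a : ZMod p // a ≠ 0}, (ZMod.stdAddChar (u * (x : ZMod p)) : ℂ) :=
    Fintype.sum_equiv (unitsEquivNeZero (G₀ := ZMod p)) _ _
      (fun x => by rw [unitsEquivNeZero_apply_coe])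
  have h2 := Fintype.sum_subtype_add_sum_subtype (fun a : ZMod p => a ≠ 0)
    (fun a => (ZMod.stdAddChar (u * a) : ℂ))
  have h3 : ∑ x : ZMod p, (ZMod.stdAddChar (u * x) : ℂ) = 0 := by
    have h := AddChar.sum_mulShift u (ZMod.isPrimitive_stdAddChar p)
    rw [if_neg hu] at h
    rw [← Nat.cast_zero, ← h]
    exact Finset.sum_congr rfl (fun x _ => by rw [mul_comm])
  have h4 : ∑ x : {a : ZMod p // ¬ a ≠ 0}, (ZMod.stdAddChar (u * (x : ZMod p)) : ℂ) = 1 := by
    have : ∀ x : {a : ZMod p // ¬ a ≠ 0}, (x : ZMod p) = 0 := fun x => not_not.mp x.2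
    have hU : Unique {a : ZMod p // ¬ a ≠ 0} :=
      ⟨⟨⟨0, by simp⟩⟩, fun x => Subtype.ext (this x)⟩
    rw [Fintype.sum_unique]
    rw [this]
    simp
  rw [h1]
  rw [h3, h4] at h2
  linear_combination h2

/-- Ramanujan sums, prime moduli. PROOF: as above: `p - 1` if `p ∣ t` and `-1` otherwise. -/
theorem kl_prime_zero (p : ℕ) [Fact p.Prime] (t : ℤ) :
    ‖kl p (t : ZMod p) 0‖ ≤ (Int.gcd t p : ℕ) := by
  have hp : p.Prime := Fact.out
  have hk : kl p (t : ZMod p) 0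
      = ∑ x : (ZMod p)ˣ, (ZMod.stdAddChar ((t : ZMod p) * (x : ZMod p)) : ℂ) := by
    unfold kl
    rw [← Equiv.sum_comp (Equiv.inv (ZMod p)ˣ)
      (fun x => (ZMod.stdAddChar ((t : ZMod p) * (x : ZMod p)) : ℂ))]
    refine Finset.sum_congr rfl (fun x _ => ?_)
    rw [zero_mul, add_zero, Equiv.inv_apply]
  rw [hk]
  by_cases ht : (t : ZMod p) = 0
  · have hd : (p : ℤ) ∣ t := (ZMod.intCast_zmod_eq_zero_iff_dvd t p).mp ht
    have hg : Int.gcd t p = p := by
      rw [Int.gcd_eq_natAbs_gcd_natAbs, Int.natAbs_natCast]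
      exact Nat.gcd_eq_right (Int.natCast_dvd.mp hd)
    rw [hg, ht]
    refine le_trans (norm_sum_le _ _) ?_
    have : ∀ x : (ZMod p)ˣ, ‖(ZMod.stdAddChar ((0 : ZMod p) * (x : ZMod p)) : ℂ)‖ = 1 := by
      intro x
      simp
    rw [Finset.sum_congr rfl (fun x _ => this x)]
    rw [Finset.sum_const, nsmul_eq_mul, mul_one]
    have hc : Fintype.card (ZMod p)ˣ = p - 1 := ZMod.card_units p
    rw [Finset.card_univ, hc]
    exact_mod_cast Nat.sub_le p 1
  · rw [E12b_sum_units p _ ht]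
    have hpos : 0 < Int.gcd t p := Int.gcd_pos_of_ne_zero_right _ (by exact_mod_cast hp.ne_zero)
    rw [norm_neg, norm_one]
    exact_mod_cast hpos

end Pool.Agent.Lib.MP_bae66e_nt.P2

namespace Pool.Agent.Lib.MP_bae66e_nt.P2

open Finset

private lemma E12c_char (m n : ℕ) [NeZero m] [NeZero n] [NeZero (m * n)] (h : Nat.Coprime m n)
    (u v : ℤ) (hu : (n : ℤ) * u ≡ 1 [ZMOD m]) (hv : (m : ℤ) * v ≡ 1 [ZMOD n])
    (φ₁ : ZMod (m * n) →+* ZMod m) (φ₂ : ZMod (m * n) →+* ZMod n) (z : ZMod (m * n)) :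
    (ZMod.stdAddChar z : ℂ) =
      ZMod.stdAddChar ((u : ZMod m) * φ₁ z) * ZMod.stdAddChar ((v : ZMod n) * φ₂ z) := by
  obtain ⟨Z, rfl⟩ := ZMod.intCast_surjective z
  rw [map_intCast φ₁, map_intCast φ₂, ← Int.cast_mul, ← Int.cast_mul, ZMod.stdAddChar_coe,
    ZMod.stdAddChar_coe, ZMod.stdAddChar_coe, ← Complex.exp_add]
  have hdm : (m : ℤ) ∣ n * u + m * v - 1 := by
    have h1 : (m : ℤ) ∣ n * u - 1 := hu.symm.dvd
    have h2 : (n : ℤ) * u + m * v - 1 = (n * u - 1) + m * v := by ring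
    rw [h2]
    exact dvd_add h1 (dvd_mul_right _ _)
  have hdn : (n : ℤ) ∣ n * u + m * v - 1 := by
    have h1 : (n : ℤ) ∣ m * v - 1 := hv.symm.dvd
    have h2 : (n : ℤ) * u + m * v - 1 = (m * v - 1) + n * u := by ring
    rw [h2]
    exact dvd_add h1 (dvd_mul_right _ _)
  have hd : (m : ℤ) * n ∣ n * u + m * v - 1 :=
    IsCoprime.mul_dvd (Nat.isCoprime_iff_coprime.2 h) hdm hdn
  obtain ⟨k, hk⟩ := hd
  have hm0 : (m : ℂ) ≠ 0 := Nat.cast_ne_zero.2 (NeZero.ne m)
  have hn0 : (n : ℂ) ≠ 0 := Nat.cast_ne_zero.2 (NeZero.ne n)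
  have hk' : (n : ℂ) * u + m * v = 1 + m * n * k := by
    have h3 : (n : ℤ) * u + m * v = 1 + m * n * k := by linarith
    exact_mod_cast congrArg (fun z : ℤ => (z : ℂ)) h3
  have h4 : 2 * (Real.pi : ℂ) * Complex.I * ((u * Z : ℤ) : ℂ) / (m : ℂ) +
      2 * (Real.pi : ℂ) * Complex.I * ((v * Z : ℤ) : ℂ) / (n : ℂ) =
      2 * (Real.pi : ℂ) * Complex.I * (Z : ℂ) / ((m * n : ℕ) : ℂ) +
        ((k * Z : ℤ) : ℂ) * (2 * (Real.pi : ℂ) * Complex.I) := by
    push_cast
    field_simp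
    linear_combination (Z : ℂ) * hk'
  rw [h4, Complex.exp_add, Complex.exp_int_mul_two_pi_mul_I, mul_one]

/-- Twisted multiplicativity.
PROOF. `ZMod.chineseRemainder` gives a ring isomorphism `ZMod (m n) ≃ ZMod m × ZMod n`, hence a
bijection of the units (`Units.mapEquiv`, `MulEquiv.prodUnits`). For an integer `z`,
`stdAddChar (z : ZMod (m n)) = stdAddChar (z u : ZMod m) * stdAddChar (z v : ZMod n)`, because
`exp (2πi z / (m n)) = exp (2πi z u / m) exp (2πi z v / n)`: indeed `n u + m v ≡ 1` modulo `m n`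
(it is `≡ 1` modulo `m` and modulo `n`), so `z / (m n) - z u / m - z v / n` is an integer
(`ZMod.stdAddChar_coe`). Apply this to an integer representing `t x⁻¹ + s x`. -/
theorem kl_mul (m n : ℕ) [NeZero m] [NeZero n] [NeZero (m * n)] (h : Nat.Coprime m n) (t s : ℤ)
    (u v : ℤ) (hu : (n : ℤ) * u ≡ 1 [ZMOD m]) (hv : (m : ℤ) * v ≡ 1 [ZMOD n]) :
    kl (m * n) (t : ZMod (m * n)) (s : ZMod (m * n))
      = kl m ((t * u : ℤ) : ZMod m) ((s * u : ℤ) : ZMod m)
        * kl n ((t * v : ℤ) : ZMod n) ((s * v : ℤ) : ZMod n) := by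
  let e : (ZMod (m * n))ˣ ≃* (ZMod m)ˣ × (ZMod n)ˣ :=
    (Units.mapEquiv (ZMod.chineseRemainder h).toMulEquiv).trans MulEquiv.prodUnits
  let φ₁ : ZMod (m * n) →+* ZMod m :=
    (RingHom.fst _ _).comp ((ZMod.chineseRemainder h : ZMod (m * n) ≃+* ZMod m × ZMod n) :
      ZMod (m * n) →+* ZMod m × ZMod n)
  let φ₂ : ZMod (m * n) →+* ZMod n :=
    (RingHom.snd _ _).comp ((ZMod.chineseRemainder h : ZMod (m * n) ≃+* ZMod m × ZMod n) :
      ZMod (m * n) →+* ZMod m × ZMod n)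
  have he1 : ∀ x : (ZMod (m * n))ˣ, (((e x).1 : (ZMod m)ˣ) : ZMod m) = φ₁ x := fun x => rfl
  have he2 : ∀ x : (ZMod (m * n))ˣ, (((e x).2 : (ZMod n)ˣ) : ZMod n) = φ₂ x := fun x => rfl
  have he3 : ∀ x : (ZMod (m * n))ˣ, ((((e x).1)⁻¹ : (ZMod m)ˣ) : ZMod m) =
      φ₁ ((x⁻¹ : (ZMod (m * n))ˣ) : ZMod (m * n)) := by
    intro x
    rw [← he1, map_inv]
    rfl
  have he4 : ∀ x : (ZMod (m * n))ˣ, ((((e x).2)⁻¹ : (ZMod n)ˣ) : ZMod n) =
      φ₂ ((x⁻¹ : (ZMod (m * n))ˣ) : ZMod (m * n)) := by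
    intro x
    rw [← he2, map_inv]
    rfl
  unfold kl
  rw [Finset.sum_mul_sum, ← Fintype.sum_prod_type']
  refine Fintype.sum_equiv e.toEquiv _ _ fun x => ?_
  rw [E12c_char m n h u v hu hv φ₁ φ₂]
  change _ = (ZMod.stdAddChar (((t * u : ℤ) : ZMod m) * ((((e x).1)⁻¹ : (ZMod m)ˣ) : ZMod m) +
      ((s * u : ℤ) : ZMod m) * (((e x).1 : (ZMod m)ˣ) : ZMod m)) : ℂ) *
    ZMod.stdAddChar (((t * v : ℤ) : ZMod n) * ((((e x).2)⁻¹ : (ZMod n)ˣ) : ZMod n) +
      ((s * v : ℤ) : ZMod n) * (((e x).2 : (ZMod n)ˣ) : ZMod n))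
  rw [he1, he2, he3, he4]
  congr 2
  · rw [map_add, map_mul, map_mul, map_intCast, map_intCast]
    push_cast
    ring
  · rw [map_add, map_mul, map_mul, map_intCast, map_intCast]
    push_cast
    ring

end Pool.Agent.Lib.MP_bae66e_nt.P2

namespace Pool.Agent.Lib.MP_bae66e_nt.P2

open Finset

private theorem E13a_one (t s : ZMod 1) : ‖kl 1 t s‖ ≤ 1 := by
  unfold kl
  refine (norm_sum_le _ _).trans ?_
  refine (Finset.sum_le_sum fun x _ => (AddChar.norm_apply _ _).le).trans ?_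
  simp

private theorem E13a_aux (r : ℕ) : ∀ (_ : NeZero r), Squarefree r → ∀ t s : ℤ,
    ‖kl r (t : ZMod r) (s : ZMod r)‖
      ≤ 2 ^ #r.primeFactors * Real.sqrt r * Real.sqrt (Nat.gcd (Int.gcd t s) r : ℕ) := by
  induction r using Nat.strong_induction_on with
  | _ r ih =>
    intro hne hr t s
    by_cases h1 : r = 1
    · subst h1
      refine (E13a_one _ _).trans ?_
      simp
    · have hp : r.minFac.Prime := Nat.minFac_prime h1
      obtain ⟨r', hr'⟩ := Nat.minFac_dvd r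
      obtain ⟨p, hpd⟩ : ∃ p, p = r.minFac := ⟨_, rfl⟩
      rw [← hpd] at hp hr'
      clear hpd
      subst hr'
      have hcop : Nat.Coprime p r' := Nat.coprime_of_squarefree_mul hr
      have hr'0 : r' ≠ 0 := by
        rintro rfl
        exact hne.out (mul_zero p)
      haveI : NeZero r' := ⟨hr'0⟩
      haveI : Fact p.Prime := ⟨hp⟩
      haveI : NeZero p := ⟨hp.ne_zero⟩
      have hlt : r' < p * r' := by
        have := hp.two_le
        have := Nat.pos_of_ne_zero hr'0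
        nlinarith
      obtain ⟨v, u, huv⟩ := (Nat.isCoprime_iff_coprime.2 hcop : IsCoprime (p : ℤ) (r' : ℤ))
      have hu : (r' : ℤ) * u ≡ 1 [ZMOD p] := by
        rw [← huv]
        refine (Int.modEq_iff_dvd.2 ⟨v, by ring⟩)
      have hv : (p : ℤ) * v ≡ 1 [ZMOD r'] := by
        rw [← huv]
        refine (Int.modEq_iff_dvd.2 ⟨u, by ring⟩)
      rw [kl_mul p r' hcop t s u v hu hv, norm_mul]
      have k1 := kl_prime_all p (t * u) (s * u)
      have k2 := ih r' hlt inferInstance (hr.of_mul_right) (t * v) (s * v)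
      have cu : Nat.Coprime u.natAbs p := by
        have h2 : IsCoprime u (p : ℤ) := ⟨r', v, by linarith⟩
        have h3 := Int.isCoprime_iff_gcd_eq_one.1 h2
        simpa [Int.gcd] using h3
      have cv : Nat.Coprime v.natAbs r' := by
        have h2 : IsCoprime v (r' : ℤ) := ⟨p, u, by linarith⟩
        have h3 := Int.isCoprime_iff_gcd_eq_one.1 h2
        simpa [Int.gcd] using h3
      rw [Int.gcd_mul_right, Nat.Coprime.gcd_mul_right_cancel _ cu] at k1
      rw [Int.gcd_mul_right, Nat.Coprime.gcd_mul_right_cancel _ cv] at k2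
      have hpf : #(p * r').primeFactors = #r'.primeFactors + 1 := by
        rw [hcop.primeFactors_mul, Finset.card_union_of_disjoint hcop.disjoint_primeFactors,
          hp.primeFactors, Finset.card_singleton, add_comm]
      rw [hpf, hcop.gcd_mul, Nat.cast_mul, Nat.cast_mul, Real.sqrt_mul (Nat.cast_nonneg _),
        Real.sqrt_mul (Nat.cast_nonneg _)]
      calc _ ≤ (2 * Real.sqrt p * Real.sqrt (Nat.gcd (Int.gcd t s) p : ℕ)) *
            (2 ^ #r'.primeFactors * Real.sqrt r' * Real.sqrt (Nat.gcd (Int.gcd t s) r' : ℕ)) :=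
            mul_le_mul k1 k2 (norm_nonneg _) (by positivity)
        _ = _ := by ring

/-- **Weil's bound for squarefree moduli.**
PROOF. Induction on `r` (`Nat.recOnPosPrimePosCoprime`, or strong induction: take a prime `p ∣ r`,
`r = p r'` with `(p, r') = 1`). `r = 1`: the sum is `1`. Step: `kl_mul` with inverses `u, v` (units
modulo `p` and `r'`), `kl_prime_all` and the induction hypothesis;
`gcd (t u, s u, p) = gcd (t, s, p)` since `u` is prime to `p`, similarly for `r'`, and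
`gcd (g, p) * gcd (g, r') = gcd (g, p r')` for coprime `p, r'` (`Nat.Coprime.gcd_mul`). -/
theorem kl_squarefree (r : ℕ) [NeZero r] (hr : Squarefree r) (t s : ℤ) :
    ‖kl r (t : ZMod r) (s : ZMod r)‖
      ≤ 2 ^ #r.primeFactors * Real.sqrt r * Real.sqrt (Nat.gcd (Int.gcd t s) r : ℕ) :=
  E13a_aux r inferInstance hr t s

end Pool.Agent.Lib.MP_bae66e_nt.P2

namespace Pool.Agent.Lib.MP_bae66e_nt.P2

open Finset

theorem E13b_gcd (p r : ℕ) (t u : ℤ) (hu : (r : ℤ) * u ≡ 1 [ZMOD p]) :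
    Int.gcd (t * u) p = Int.gcd t p := by
  obtain ⟨k, hk⟩ := (Int.modEq_iff_dvd.mp hu)
  have hc : IsCoprime u (p : ℤ) := ⟨r, k, by linarith⟩
  have hg : Nat.Coprime u.natAbs p := by
    have := Int.isCoprime_iff_gcd_eq_one.mp hc
    rw [Int.gcd_eq_natAbs_gcd_natAbs, Int.natAbs_natCast] at this
    exact this
  rw [Int.gcd_eq_natAbs_gcd_natAbs, Int.gcd_eq_natAbs_gcd_natAbs, Int.natAbs_natCast,
    Int.natAbs_mul]
  exact Nat.Coprime.gcd_mul_right_cancel _ hg

theorem E13b_triv (r : ℕ) [NeZero r] (t s : ZMod r) :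
    ‖kl r t s‖ ≤ (Fintype.card (ZMod r)ˣ : ℝ) := by
  unfold kl
  refine le_trans (norm_sum_le _ _) ?_
  have : ∀ x : (ZMod r)ˣ,
      ‖(ZMod.stdAddChar (t * ((x⁻¹ : (ZMod r)ˣ) : ZMod r) + s * (x : ZMod r)) : ℂ)‖ = 1 := by
    intro x
    exact AddChar.norm_apply _ _
  rw [Finset.sum_congr rfl (fun x _ => this x), Finset.sum_const, nsmul_eq_mul, mul_one,
    Finset.card_univ]

theorem E13b_main (n : ℕ) : ∀ (r : ℕ) [NeZero r], r ≤ n → Squarefree r → ∀ t : ℤ,
    ‖kl r (t : ZMod r) 0‖ ≤ (Int.gcd t r : ℕ) := by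
  induction n with
  | zero =>
    intro r hr0 hrn
    exact absurd (Nat.le_zero.mp hrn) hr0.out
  | succ n ih =>
    intro r hr0 hrn hsq t
    by_cases h1 : r = 1
    · subst h1
      refine le_trans (E13b_triv 1 _ _) ?_
      have hc : Fintype.card (ZMod 1)ˣ = 1 := by
        rw [ZMod.card_units_eq_totient]; simp
      rw [hc]
      have : Int.gcd t ((1 : ℕ) : ℤ) = 1 := by simp
      rw [this]
    · obtain ⟨p, hp, r', rfl⟩ := Nat.exists_prime_and_dvd h1
      have : Fact p.Prime := ⟨hp⟩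
      have hr'0 : r' ≠ 0 := by
        rintro rfl
        exact hr0.out (by simp)
      have : NeZero r' := ⟨hr'0⟩
      have hcop : Nat.Coprime p r' := Nat.coprime_of_squarefree_mul hsq
      have hsq' : Squarefree r' := hsq.of_mul_right
      have hlt : r' ≤ n := by
        have h2 := hp.two_le
        have : 2 * r' ≤ p * r' := Nat.mul_le_mul_right _ h2
        have : 0 < r' := Nat.pos_of_ne_zero hr'0
        omega
      obtain ⟨u, hu⟩ := Int.mod_coprime hcop.symm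
      obtain ⟨v, hv⟩ := Int.mod_coprime hcop
      have hm := kl_mul p r' hcop t 0 u v hu hv
      rw [Int.cast_zero] at hm
      rw [hm, norm_mul, zero_mul, zero_mul, Int.cast_zero, Int.cast_zero]
      have e1 := kl_prime_zero p (t * u)
      have e2 := ih r' hlt hsq' (t * v)
      rw [E13b_gcd p r' t u hu] at e1
      rw [E13b_gcd r' p t v hv] at e2
      have e3 : Int.gcd t ((p * r' : ℕ) : ℤ) = Int.gcd t p * Int.gcd t r' := by
        rw [Int.gcd_eq_natAbs_gcd_natAbs, Int.gcd_eq_natAbs_gcd_natAbs,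
          Int.gcd_eq_natAbs_gcd_natAbs, Int.natAbs_natCast, Int.natAbs_natCast,
          Int.natAbs_natCast]
        exact Nat.Coprime.gcd_mul _ hcop
      rw [e3, Nat.cast_mul]
      exact mul_le_mul e1 e2 (norm_nonneg _) (Nat.cast_nonneg _)

/-- **Ramanujan sums.** PROOF: the same induction with `kl_prime_zero`. -/
theorem kl_zero (r : ℕ) [NeZero r] (hr : Squarefree r) (t : ℤ) :
    ‖kl r (t : ZMod r) 0‖ ≤ (Int.gcd t r : ℕ) :=
  E13b_main r r le_rfl hr t

end Pool.Agent.Lib.MP_bae66e_nt.P2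

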