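import Mathlib
import Pool.Agent.Lib.MP_bae66e_nt.P2.KE1
import Pool.Agent.Lib.MP_bae66e_nt.P2.KE3

set_option autoImplicit false

/-!
Definitions for the bilinear sums of Kloosterman fractions.
-/


namespace Pool.Agent.Lib.MP_bae66e_nt.P2

open Finset

/-- `e(x) = exp(2 π i x)` -/
noncomputable def ee (x : ℝ) : ℂ := Complex.exp (2 * Real.pi * x * Complex.I)

/-- `e(x D⁻¹ / N)`, the inverse of `D` modulo `N` being the integer `Nat.gcdA D N`. -/
noncomputable def kf (N : ℕ) (x : ℤ) (D : ℕ) : ℂ :=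
  ee (((x * Nat.gcdA D N : ℤ) : ℝ) / (N : ℝ))

/-- the geometric sum `∑_{i < L} e(i θ)` -/
noncomputable def GG (L : ℕ) (θ : ℝ) : ℂ := ∑ i ∈ range L, ee (i * θ)

/-- the coefficient of the frequency `h` for the modulus `M` -/
noncomputable def Phi (A : ℝ) (L h : ℕ) (M : ℝ) : ℂ :=
  ((1 / M : ℝ) : ℂ) * ee (h * A / M) * ((‖GG L (h / M)‖ ^ 2 : ℝ) : ℂ)

/-- the number of `i, j < L` with `A₀ + i - j ≡ ρ` modulo `N`, minus its expected value -/
noncomputable def Er (A0 L N : ℕ) (ρ : ℤ) : ℝ :=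
  (#((range L ×ˢ range L).filter (fun z => (N : ℤ) ∣ (A0 : ℤ) + z.1 - z.2 - ρ)) : ℝ)
    - (L : ℝ) ^ 2 / N

/-- the bound for `Phi` at frequencies of size `H1`, moduli of size `kP` -/
noncomputable def phi (L : ℕ) (H1 kP : ℝ) : ℝ := min ((L : ℝ) ^ 2) (4 * kP ^ 2 / H1 ^ 2) / kP

/-- `Phi` times the Kloosterman fraction -/
noncomputable def xx (A : ℝ) (L k : ℕ) (v : ℕ → ℤ) (h b D : ℕ) : ℂ :=
  Phi A L h ((k * D * b : ℕ) : ℝ) * kf (k * b) (-(h * v b)) D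

/-- The data of a block: the moduli `b ∈ ℬ`, `Q' < b ≤ 2 Q'`, have divisors `nn b ∈ (N0, 2 N0]`. -/
structure Blk (k Q Q' N0 : ℕ) (a : ℤ) (ℬ : Finset ℕ) (nn : ℕ → ℕ) (v : ℕ → ℤ) : Prop where
  hk : 1 ≤ k
  hksq : Squarefree k
  hQ : 1 ≤ Q
  hQ' : 1 ≤ Q'
  hN0 : 1 ≤ N0
  lo : ∀ b ∈ ℬ, Q' < b
  hi : ∀ b ∈ ℬ, b ≤ 2 * Q'
  sq : ∀ b ∈ ℬ, Squarefree b
  cop : ∀ b ∈ ℬ, Nat.Coprime k b
  dvd : ∀ b ∈ ℬ, nn b ∣ b
  nlo : ∀ b ∈ ℬ, N0 < nn b
  nhi : ∀ b ∈ ℬ, nn b ≤ 2 * N0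
  va : ∀ b ∈ ℬ, (b : ℤ) ∣ v b - a
  acop : ∀ b ∈ ℬ, IsCoprime a (b : ℤ)

/-- The bound for an off-diagonal pair. -/
noncomputable def Boff (A : ℝ) (L k Q Q' N0 H1 : ℕ) (τ : ℝ) : ℝ :=
  3 * phi L H1 (k * (Q * Q')) ^ 2 * (1 + 16 * Real.pi * (A + L) * H1 / (k * (Q * Q')))
    * (8 * Q * H1 * (N0 : ℝ) ^ 2 / Q'
      + τ ^ 2 * Real.sqrt (4 * k * Q' * N0) * (1 + Real.log (4 * k * Q' * N0)))

/-- The moduli with cofactor `κ`, with the frequencies. -/
def Zset (ℬ : Finset ℕ) (nn : ℕ → ℕ) (H1 κ : ℕ) : Finset (ℕ × ℕ) :=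
  (ℬ.filter (fun b => b / nn b = κ)) ×ˢ Ico H1 (2 * H1)

/-- The block sum. -/
noncomputable def Ssum' (A : ℝ) (L k : ℕ) (v : ℕ → ℤ) (𝒜 ℬ : Finset ℕ) (α β : ℕ → ℝ)
    (H1 : ℕ) : ℂ :=
  ∑ D ∈ 𝒜, ∑ b ∈ ℬ.filter (fun b => Nat.Coprime D b), ((α D * β b : ℝ) : ℂ)
    * ∑ h ∈ Ico H1 (2 * H1), xx A L k v h b D

end Pool.Agent.Lib.MP_bae66e_nt.P2

namespace Pool.Agent.Lib.MP_bae66e_nt.P2

open Finset

theorem ee_add (x y : ℝ) : ee (x + y) = ee x * ee y := by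
  unfold ee
  rw [← Complex.exp_add]
  congr 1
  push_cast
  ring

theorem ee_zero : ee 0 = 1 := by
  unfold ee
  simp

theorem norm_ee (x : ℝ) : ‖ee x‖ = 1 := by
  unfold ee
  rw [show (2 * Real.pi * x * Complex.I : ℂ) = ((2 * Real.pi * x : ℝ) : ℂ) * Complex.I by
    push_cast; ring]
  exact Complex.norm_exp_ofReal_mul_I _

theorem ee_neg (x : ℝ) : ee (-x) = (starRingEnd ℂ) (ee x) := by
  have h1 : ee (-x) * ee x = 1 := by rw [← ee_add, neg_add_cancel, ee_zero]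
  have h2 : (starRingEnd ℂ) (ee x) * ee x = 1 := by
    rw [mul_comm, Complex.mul_conj, Complex.normSq_eq_norm_sq, norm_ee]
    simp
  have h3 : ee x ≠ 0 := by
    rw [← norm_pos_iff, norm_ee]
    exact one_pos
  exact mul_right_cancel₀ h3 (h1.trans h2.symm)

theorem ee_int (n : ℤ) : ee n = 1 := by
  unfold ee
  rw [Complex.exp_eq_one_iff]
  exact ⟨n, by push_cast; ring⟩

theorem ee_add_int (x : ℝ) (n : ℤ) : ee (x + n) = ee x := by
  rw [ee_add, ee_int, mul_one]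

theorem ee_nat_mul (n : ℕ) (x : ℝ) : ee (n * x) = ee x ^ n := by
  unfold ee
  rw [← Complex.exp_nat_mul]
  congr 1
  push_cast
  ring

end Pool.Agent.Lib.MP_bae66e_nt.P2

namespace Pool.Agent.Lib.MP_bae66e_nt.P2

open Finset

private theorem F02a_gcdA (N : ℕ) (D : ℕ) (hD : Nat.Coprime D N) :
    (N : ℤ) ∣ 1 - (D : ℤ) * Nat.gcdA D N := by
  have h1 := Nat.gcd_eq_gcd_ab D N
  rw [Nat.Coprime.gcd_eq_one hD] at h1
  exact ⟨Nat.gcdB D N, by push_cast at h1; linarith⟩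

/-- `kf` can be computed with any inverse.
PROOF. `Nat.gcd_eq_gcd_ab`: `D * gcdA + N * gcdB = gcd D N = 1`, so `gcdA ≡ w` modulo `N` (multiply
`D w ≡ 1` by `gcdA`), and `x gcdA / N - x w / N` is an integer; `ee_add_int`. (`N = 0` is excluded by
`hN`.) -/
theorem kf_eq (N : ℕ) (hN : 0 < N) (x : ℤ) (D : ℕ) (hD : Nat.Coprime D N) (w : ℤ)
    (hw : (D : ℤ) * w ≡ 1 [ZMOD N]) : kf N x D = ee (((x * w : ℤ) : ℝ) / (N : ℝ)) := by
  obtain ⟨c, hc⟩ := F02a_gcdA N D hD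
  obtain ⟨d, hd⟩ := (Int.modEq_iff_dvd.mp hw)
  -- gcdA - w = N * k
  have h1 : Nat.gcdA D N = w + (N : ℤ) * (Nat.gcdA D N * d - w * c) := by
    have e1 : (N : ℤ) * c = 1 - (D : ℤ) * Nat.gcdA D N := hc.symm
    have e2 : (N : ℤ) * d = 1 - (D : ℤ) * w := hd.symm
    linear_combination (-Nat.gcdA D N) * e2 + w * e1
  have hN' : (N : ℝ) ≠ 0 := by exact_mod_cast hN.ne'
  unfold kf
  have h2 : (((x * Nat.gcdA D N : ℤ) : ℝ) / (N : ℝ)) =
      ((x * w : ℤ) : ℝ) / (N : ℝ) + ((x * (Nat.gcdA D N * d - w * c) : ℤ) : ℝ) := by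
    rw [div_add' _ _ _ hN', ← Int.cast_natCast (R := ℝ) N, ← Int.cast_mul, ← Int.cast_add]
    congr 2
    linear_combination x * h1
  rw [h2, ee_add_int]

/-- Existence of an inverse. -/
theorem exists_inv (N : ℕ) (D : ℕ) (hD : Nat.Coprime D N) :
    ∃ w : ℤ, (D : ℤ) * w ≡ 1 [ZMOD N] :=
  ⟨Nat.gcdA D N, Int.modEq_iff_dvd.mpr (F02a_gcdA N D hD)⟩

end Pool.Agent.Lib.MP_bae66e_nt.P2

namespace Pool.Agent.Lib.MP_bae66e_nt.P2

open Finset

/-- Change of the modulus.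
PROOF. An inverse `w` of `D` modulo `m N` is an inverse modulo `N`; `x w / N = m x w / (m N)`. -/
theorem kf_lift (N m : ℕ) (hN : 0 < N) (hm : 0 < m) (x : ℤ) (D : ℕ)
    (hD : Nat.Coprime D (m * N)) : kf N x D = kf (m * N) (m * x) D := by
  obtain ⟨w, hw⟩ := exists_inv (m * N) D hD
  have h1 : (D : ℤ) * w ≡ 1 [ZMOD N] := by
    rw [Nat.cast_mul] at hw
    exact Int.ModEq.of_mul_left (m : ℤ) hw
  rw [kf_eq N hN x D (Nat.Coprime.coprime_mul_left_right hD) w h1,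
    kf_eq (m * N) (Nat.mul_pos hm hN) (m * x) D hD w hw]
  congr 1
  have hN' : (N : ℝ) ≠ 0 := by exact_mod_cast hN.ne'
  have hm' : (m : ℝ) ≠ 0 := by exact_mod_cast hm.ne'
  push_cast
  field_simp

/-- Products. -/
theorem kf_mul_conj (N : ℕ) (x y : ℤ) (D : ℕ) :
    kf N x D * (starRingEnd ℂ) (kf N y D) = kf N (x - y) D := by
  unfold kf
  rw [← ee_neg, ← ee_add]
  congr 1
  push_cast
  ring

theorem norm_kf (N : ℕ) (x : ℤ) (D : ℕ) : ‖kf N x D‖ = 1 := norm_ee _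

end Pool.Agent.Lib.MP_bae66e_nt.P2

namespace Pool.Agent.Lib.MP_bae66e_nt.P2

open Finset

/-- **Reciprocity.** If `ρ ≡ p` modulo `D` and `ρ - p ≡ v` modulo `k b` then
`e(h (A - ρ) / (k D b)) = e(h (A - p) / (k D b)) e(- h v D⁻¹ / (k b))`.
PROOF. `ρ - p = D t`; so `e(-h (ρ - p) / (k D b)) = e(-h t / (k b))`, and `t ≡ v w` modulo `k b` for
an inverse `w` of `D` (`t ≡ t D w = (ρ - p) w ≡ v w`); use `kf_eq`. -/
theorem reciprocity (A : ℝ) (k D b h : ℕ) (hk : 0 < k) (hD : 0 < D) (hb : 0 < b)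
    (hcop : Nat.Coprime D (k * b)) (ρ p v : ℤ) (h1 : (D : ℤ) ∣ ρ - p)
    (h2 : ρ - p ≡ v [ZMOD ((k * b : ℕ) : ℤ)]) :
    ee (h * (A - ρ) / ((k * D * b : ℕ) : ℝ))
      = ee (h * (A - p) / ((k * D * b : ℕ) : ℝ)) * kf (k * b) (-(h * v)) D := by
  obtain ⟨w, hw⟩ := exists_inv (k * b) D hcop
  obtain ⟨s, hs⟩ := h1
  obtain ⟨c, hc⟩ := Int.modEq_iff_dvd.mp hw
  obtain ⟨d, hd⟩ := Int.modEq_iff_dvd.mp h2
  have hkb : 0 < k * b := Nat.mul_pos hk hb
  rw [kf_eq (k * b) hkb (-(h * v)) D hcop w hw, ← ee_add]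
  -- s = v w + (k b) * e
  have h3 : s = v * w + ((k * b : ℕ) : ℤ) * (s * c - w * d) := by
    linear_combination s * hc - w * hd - w * hs
  have hk' : (k : ℝ) ≠ 0 := by exact_mod_cast hk.ne'
  have hD' : (D : ℝ) ≠ 0 := by exact_mod_cast hD.ne'
  have hb' : (b : ℝ) ≠ 0 := by exact_mod_cast hb.ne'
  have hs' : (ρ : ℝ) - p = D * s := by exact_mod_cast hs
  have h3' : (s : ℝ) = v * w + (k * b) * (s * c - w * d) := by
    have h4 := congrArg (fun z : ℤ => (z : ℝ)) h3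
    push_cast at h4
    exact h4
  have h5 : (h * (A - ρ) / ((k * D * b : ℕ) : ℝ)) =
      (h * (A - p) / ((k * D * b : ℕ) : ℝ) + ((-(h * v) * w : ℤ) : ℝ) / ((k * b : ℕ) : ℝ)) +
        ((-(h * (s * c - w * d)) : ℤ) : ℝ) := by
    push_cast
    have h6 : (ρ : ℝ) = p + D * s := by linarith
    rw [h6]
    field_simp
    linear_combination (-(h : ℝ) * D) * h3'
  rw [h5, ee_add_int]

end Pool.Agent.Lib.MP_bae66e_nt.P2

namespace Pool.Agent.Lib.MP_bae66e_nt.P2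

open Finset

private theorem F03a_std (R : ℕ) [NeZero R] (j : ℤ) :
    (ZMod.stdAddChar ((j : ℤ) : ZMod R) : ℂ) = ee ((j : ℝ) / (R : ℝ)) := by
  rw [ZMod.stdAddChar_coe]
  unfold ee
  congr 1
  push_cast
  ring

private theorem F03a_range (R : ℕ) [NeZero R] (f : ZMod R → ℂ) :
    ∑ s ∈ range R, f ((s : ℕ) : ZMod R) = ∑ z : ZMod R, f z := by
  refine Finset.sum_nbij' (fun s : ℕ => (s : ZMod R)) ZMod.val ?_ ?_ ?_ ?_ ?_
  · intro s _
    exact mem_univ _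
  · intro z _
    exact mem_range.mpr (ZMod.val_lt z)
  · intro s hs
    exact ZMod.val_natCast_of_lt (mem_range.mp hs)
  · intro z _
    exact ZMod.natCast_zmod_val z
  · intro s _
    rfl

private theorem F03a_orth (R : ℕ) [NeZero R] (m : ℕ) (y : ZMod R) :
    (1 / (R : ℂ)) * ∑ s ∈ range R, ee (-((s : ℝ) * m) / R) *
      ZMod.stdAddChar (((s : ℤ) : ZMod R) * y) = if y = (m : ZMod R) then 1 else 0 := by
  have h1 : ∀ s : ℕ, ee (-((s : ℝ) * m) / R) * ZMod.stdAddChar (((s : ℤ) : ZMod R) * y) =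
      ZMod.stdAddChar ((s : ZMod R) * (y - (m : ZMod R))) := by
    intro s
    have h2 : ee (-((s : ℝ) * m) / R) = ZMod.stdAddChar ((((-(s * m) : ℤ)) : ZMod R)) := by
      rw [F03a_std]
      congr 1
      push_cast
      ring
    rw [h2, ← AddChar.map_add_eq_mul]
    congr 1
    push_cast
    ring
  rw [Finset.sum_congr rfl fun s _ => h1 s,
    F03a_range R (fun z => ZMod.stdAddChar (z * (y - (m : ZMod R)))),
    AddChar.sum_mulShift _ (ZMod.isPrimitive_stdAddChar R), ZMod.card]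
  have hR : (R : ℂ) ≠ 0 := by exact_mod_cast NeZero.ne R
  by_cases h : y = (m : ZMod R)
  · rw [if_pos h, if_pos (sub_eq_zero.mpr h), one_div, inv_mul_cancel₀ hR]
  · rw [if_neg h, if_neg (fun h2 => h (sub_eq_zero.mp h2)), Nat.cast_zero, mul_zero]

private theorem F03a_unit (R : ℕ) [NeZero R] (t : ℤ) (m : ℕ) :
    ∑ x : (ZMod R)ˣ, ZMod.stdAddChar ((t : ZMod R) * ((x⁻¹ : (ZMod R)ˣ) : ZMod R)) *
      (if (x : ZMod R) = (m : ZMod R) then (1 : ℂ) else 0) =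
    if Nat.Coprime m R then kf R t m else 0 := by
  by_cases h : Nat.Coprime m R
  · rw [if_pos h, Finset.sum_eq_single (ZMod.unitOfCoprime m h)]
    · rw [if_pos (ZMod.coe_unitOfCoprime m h), mul_one]
      obtain ⟨w, hw⟩ := exists_inv R m h
      rw [kf_eq R (Nat.pos_of_ne_zero (NeZero.ne R)) t m h w hw, ← F03a_std]
      congr 1
      have h1 : ((m : ℤ) * w : ℤ) ≡ 1 [ZMOD R] := hw
      have h2 : (m : ZMod R) * (w : ZMod R) = 1 := by
        have h3 := (ZMod.intCast_eq_intCast_iff _ _ R).mpr h1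
        push_cast at h3
        exact h3
      have h4 : (((ZMod.unitOfCoprime m h)⁻¹ : (ZMod R)ˣ) : ZMod R) = (w : ZMod R) := by
        rw [Units.inv_eq_of_mul_eq_one_right]
        rw [ZMod.coe_unitOfCoprime]
        exact h2
      rw [h4, Int.cast_mul]
    · intro x _ hx
      rw [if_neg, mul_zero]
      intro h1
      apply hx
      ext
      rw [h1, ZMod.coe_unitOfCoprime]
    · intro h1
      exact absurd (mem_univ _) h1
  · rw [if_neg h]
    refine Finset.sum_eq_zero fun x _ => ?_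
    rw [if_neg, mul_zero]
    intro h1
    apply h
    rw [← ZMod.isUnit_iff_coprime, ← h1]
    exact x.isUnit

/-- Completion of an incomplete Kloosterman sum.
PROOF. For `D, m` integers, `(1 / R) ∑_{s < R} ee (s (D - m) / R)` is `1` if `D ≡ m` modulo `R` and `0`
otherwise. Write the left side as `∑_{x unit mod R} e(t x⁻¹ / R) #{D ∈ Ioc U V : D ≡ x}`: group the
`D` by their class `(D : ZMod R)`, which is a unit (`ZMod.unitOfCoprime`), and
`kf R t D = stdAddChar (t * x⁻¹)` by `kf_eq` and `ZMod.stdAddChar_coe`. Then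
`#{D ∈ Ioc U V : D ≡ x} = (1 / R) ∑_s e(s x / R) ∑_{m ∈ Ioc U V} e(- s m / R)`. -/
theorem completion (R : ℕ) [NeZero R] (t : ℤ) (U V : ℕ) :
    ∑ D ∈ (Ioc U V).filter (fun D => Nat.Coprime D R), kf R t D
      = (1 / (R : ℂ)) * ∑ s ∈ range R,
          (∑ m ∈ Ioc U V, ee (-((s : ℝ) * m) / R)) * kl R (t : ZMod R) ((s : ℤ) : ZMod R) := by
  rw [Finset.sum_filter, ← Finset.sum_congr rfl fun m _ => F03a_unit R t m]
  have h1 : ∀ m : ℕ, ∑ x : (ZMod R)ˣ,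
      ZMod.stdAddChar ((t : ZMod R) * ((x⁻¹ : (ZMod R)ˣ) : ZMod R)) *
      (if (x : ZMod R) = (m : ZMod R) then (1 : ℂ) else 0) =
      ∑ s ∈ range R, (1 / (R : ℂ)) * (ee (-((s : ℝ) * m) / R) *
        kl R (t : ZMod R) ((s : ℤ) : ZMod R)) := by
    intro m
    rw [Finset.sum_congr rfl fun x _ => by rw [← F03a_orth R m (x : ZMod R)]]
    unfold kl
    simp only [Finset.mul_sum]
    rw [Finset.sum_comm]
    refine Finset.sum_congr rfl fun s _ => Finset.sum_congr rfl fun x _ => ?_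
    rw [AddChar.map_add_eq_mul]
    ring
  rw [Finset.sum_congr rfl fun m _ => h1 m, Finset.sum_comm, Finset.mul_sum]
  refine Finset.sum_congr rfl fun s _ => ?_
  rw [← Finset.mul_sum, Finset.sum_mul]

end Pool.Agent.Lib.MP_bae66e_nt.P2

namespace Pool.Agent.Lib.MP_bae66e_nt.P2

open Finset

private theorem F03b_norm_sub_one (x : ℝ) : ‖ee x - 1‖ = 2 * |Real.sin (Real.pi * x)| := by
  have h1 : ee x = Complex.exp (Complex.I * ((2 * Real.pi * x : ℝ) : ℂ)) := by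
    unfold ee
    congr 1
    push_cast
    ring
  rw [h1, Complex.norm_exp_I_mul_ofReal_sub_one, norm_mul, Real.norm_eq_abs, Real.norm_eq_abs,
    abs_two]
  congr 3
  ring

private theorem F03b_sin (t : ℝ) (ht : 0 ≤ t) (ht1 : t ≤ 1) :
    2 * min t (1 - t) ≤ |Real.sin (Real.pi * t)| := by
  have hpi := Real.pi_pos
  have key : ∀ t : ℝ, 0 ≤ t → t ≤ 1 / 2 → 2 * t ≤ Real.sin (Real.pi * t) := by
    intro t ht h
    have h1 := Real.mul_le_sin (x := Real.pi * t) (by positivity) (by nlinarith)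
    have h2 : 2 / Real.pi * (Real.pi * t) = 2 * t := by field_simp
    rwa [h2] at h1
  rcases le_total t (1 / 2) with h | h
  · have h1 := key t ht h
    have h2 : min t (1 - t) = t := min_eq_left (by linarith)
    rw [h2]
    exact h1.trans (le_abs_self _)
  · have h1 := key (1 - t) (by linarith) (by linarith)
    have h2 : min t (1 - t) = 1 - t := min_eq_right (by linarith)
    have h3 : Real.sin (Real.pi * (1 - t)) = Real.sin (Real.pi * t) := by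
      rw [mul_sub, mul_one, Real.sin_pi_sub]
    rw [h2, ← h3]
    exact h1.trans (le_abs_self _)

/-- Geometric sums over an interval.
PROOF. `|sin (π s / R)| ≥ 2 min (s, R - s) / R` (Jordan), and the sum of `n` terms of a geometric
progression with ratio `e(-s/R) ≠ 1` is at most `2 / ‖1 - e(s/R)‖ = 1 / |sin (π s / R)|`. -/
theorem geom_interval (R : ℕ) (s : ℕ) (hs : 1 ≤ s) (hsR : s < R) (U V : ℕ) :
    ‖∑ m ∈ Ioc U V, ee (-((s : ℝ) * m) / R)‖ ≤ (R : ℝ) / (2 * min (s : ℝ) ((R : ℝ) - s)) := by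
  have hR : (0 : ℝ) < R := by
    have : 0 < R := by omega
    exact_mod_cast this
  have hs0 : (0 : ℝ) < s := by exact_mod_cast hs
  have hsR' : (s : ℝ) < R := by exact_mod_cast hsR
  have hmin : 0 < min (s : ℝ) ((R : ℝ) - s) := lt_min hs0 (by linarith)
  obtain ⟨w, hw⟩ : ∃ w : ℂ, w = ee (-((s : ℝ) / R)) := ⟨_, rfl⟩
  have hterm : ∀ m : ℕ, ee (-((s : ℝ) * m) / R) = w ^ m := by
    intro m
    rw [hw, ← ee_nat_mul]
    congr 1
    ring
  have hwn : ‖w‖ = 1 := by rw [hw, norm_ee]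
  have hlow : 4 * min (s : ℝ) ((R : ℝ) - s) / R ≤ ‖w - 1‖ := by
    rw [hw, F03b_norm_sub_one, mul_neg, Real.sin_neg, abs_neg]
    have h1 := F03b_sin ((s : ℝ) / R) (by positivity) ((div_le_one hR).mpr hsR'.le)
    have h2 : min ((s : ℝ) / R) (1 - (s : ℝ) / R) = min (s : ℝ) ((R : ℝ) - s) / R := by
      have h3 : 1 - (s : ℝ) / R = ((R : ℝ) - s) / R := by
        rw [sub_div, div_self hR.ne']
      rw [h3, min_div_div_right hR.le]
    rw [h2] at h1
    calc 4 * min (s : ℝ) ((R : ℝ) - s) / R = 2 * (2 * (min (s : ℝ) ((R : ℝ) - s) / R)) := by ring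
      _ ≤ 2 * |Real.sin (Real.pi * ((s : ℝ) / R))| := by linarith
  have hpos : 0 < ‖w - 1‖ := lt_of_lt_of_le (by positivity) hlow
  have hw1 : w ≠ 1 := by
    intro h
    rw [h, sub_self, norm_zero] at hpos
    exact lt_irrefl _ hpos
  rcases le_total U V with hUV | hUV
  · have hsum : ∑ m ∈ Ioc U V, ee (-((s : ℝ) * m) / R) = w ^ (U + 1) * ∑ i ∈ range (V - U), w ^ i := by
      simp only [hterm]
      rw [Finset.mul_sum]
      have h1 : Ioc U V = Ico (U + 1) (V + 1) := by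
        ext m
        simp only [Finset.mem_Ioc, Finset.mem_Ico]
        omega
      rw [h1, Finset.sum_Ico_eq_sum_range]
      have h2 : V + 1 - (U + 1) = V - U := by omega
      rw [h2]
      exact Finset.sum_congr rfl fun i _ => pow_add w (U + 1) i
    rw [hsum, geom_sum_eq hw1, norm_mul, norm_pow, hwn, one_pow, one_mul, norm_div]
    have h3 : ‖w ^ (V - U) - 1‖ ≤ 2 := by
      calc ‖w ^ (V - U) - 1‖ ≤ ‖w ^ (V - U)‖ + ‖(1 : ℂ)‖ := norm_sub_le _ _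
        _ = 2 := by rw [norm_pow, hwn, one_pow, norm_one]; norm_num
    rw [div_le_div_iff₀ hpos (by positivity)]
    have h4 : 4 * min (s : ℝ) ((R : ℝ) - s) ≤ ‖w - 1‖ * R := (div_le_iff₀ hR).mp hlow
    calc ‖w ^ (V - U) - 1‖ * (2 * min (s : ℝ) ((R : ℝ) - s))
        ≤ 2 * (2 * min (s : ℝ) ((R : ℝ) - s)) :=
          mul_le_mul_of_nonneg_right h3 (by positivity)
      _ ≤ R * ‖w - 1‖ := by linarith
  · rw [Finset.Ioc_eq_empty (by omega), Finset.sum_empty, norm_zero]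
    positivity

end Pool.Agent.Lib.MP_bae66e_nt.P2

namespace Pool.Agent.Lib.MP_bae66e_nt.P2

open Finset

private theorem F03c_harm (R f : ℕ) (hf : 1 ≤ f) :
    ∑ s ∈ (Ico 1 R).filter (fun s => f ∣ s), (1 : ℝ) / s ≤ (1 / f) * (1 + Real.log R) := by
  have hf0 : (f : ℝ) ≠ 0 := by
    have : f ≠ 0 := by omega
    exact_mod_cast this
  have hsub : (Ico 1 R).filter (fun s => f ∣ s) ⊆ (range R).image (fun k => f * (k + 1)) := by
    intro s hs
    rw [Finset.mem_filter, Finset.mem_Ico] at hs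
    obtain ⟨⟨h1, h2⟩, k, rfl⟩ := hs
    have hk : 1 ≤ k := by
      rcases Nat.eq_zero_or_pos k with h | h
      · subst h
        omega
      · exact h
    rw [Finset.mem_image]
    refine ⟨k - 1, ?_, ?_⟩
    · rw [Finset.mem_range]
      have : k ≤ f * k := Nat.le_mul_of_pos_left k hf
      omega
    · rw [Nat.sub_add_cancel hk]
  have hinj : Function.Injective (fun k : ℕ => f * (k + 1)) := by
    intro a b h
    have := Nat.eq_of_mul_eq_mul_left hf h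
    omega
  calc ∑ s ∈ (Ico 1 R).filter (fun s => f ∣ s), (1 : ℝ) / s
      ≤ ∑ s ∈ (range R).image (fun k => f * (k + 1)), (1 : ℝ) / s :=
        Finset.sum_le_sum_of_subset_of_nonneg hsub (fun s _ _ => by positivity)
    _ = ∑ k ∈ range R, (1 / f : ℝ) * ((k + 1 : ℕ) : ℝ)⁻¹ := by
        rw [Finset.sum_image (fun a _ b _ h => hinj h)]
        refine Finset.sum_congr rfl fun k _ => ?_
        rw [Nat.cast_mul, one_div, mul_inv, one_div]
    _ = (1 / f) * ((harmonic R : ℚ) : ℝ) := by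
        rw [← Finset.mul_sum, harmonic]
        push_cast
        rfl
    _ ≤ (1 / f) * (1 + Real.log R) :=
        mul_le_mul_of_nonneg_left (harmonic_le_one_add_log R) (by positivity)

private theorem F03c_main (R : ℕ) (hR : 1 ≤ R) :
    ∑ s ∈ Ico 1 R, Real.sqrt (Nat.gcd s R : ℕ) / s ≤ #R.divisors * (1 + Real.log R) := by
  have hlog : 0 ≤ Real.log R := Real.log_nonneg (by exact_mod_cast hR)
  have h1 : ∀ s ∈ Ico 1 R, Real.sqrt (Nat.gcd s R : ℕ) / s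
      ≤ ∑ f ∈ R.divisors, (if f ∣ s then Real.sqrt f * (1 / (s : ℝ)) else 0) := by
    intro s _
    have h2 : Nat.gcd s R ∈ R.divisors :=
      Nat.mem_divisors.mpr ⟨Nat.gcd_dvd_right s R, by omega⟩
    have h3 := Finset.single_le_sum
      (f := fun f : ℕ => if f ∣ s then Real.sqrt f * (1 / (s : ℝ)) else 0)
      (fun f _ => by
        change (0 : ℝ) ≤ if f ∣ s then Real.sqrt f * (1 / (s : ℝ)) else 0
        split_ifs
        · positivity
        · exact le_refl _) h2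
    rw [if_pos (Nat.gcd_dvd_left s R), mul_one_div] at h3
    exact h3
  calc ∑ s ∈ Ico 1 R, Real.sqrt (Nat.gcd s R : ℕ) / s
      ≤ ∑ s ∈ Ico 1 R, ∑ f ∈ R.divisors,
          (if f ∣ s then Real.sqrt f * (1 / (s : ℝ)) else 0) := Finset.sum_le_sum h1
    _ = ∑ f ∈ R.divisors, Real.sqrt f *
          ∑ s ∈ (Ico 1 R).filter (fun s => f ∣ s), (1 : ℝ) / s := by
        rw [Finset.sum_comm]
        refine Finset.sum_congr rfl fun f _ => ?_
        rw [← Finset.sum_filter, Finset.mul_sum]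
    _ ≤ ∑ f ∈ R.divisors, (1 + Real.log R) := by
        refine Finset.sum_le_sum fun f hf => ?_
        have hf1 : 1 ≤ f := Nat.pos_of_mem_divisors hf
        have hf1' : (1 : ℝ) ≤ f := by exact_mod_cast hf1
        have h4 := F03c_harm R f hf1
        have h5 : Real.sqrt f * (1 / f) ≤ 1 := by
          rw [mul_one_div, Real.sqrt_div_self', one_div]
          apply inv_le_one_of_one_le₀
          rw [Real.one_le_sqrt]
          exact hf1'
        calc Real.sqrt f * ∑ s ∈ (Ico 1 R).filter (fun s => f ∣ s), (1 : ℝ) / s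
            ≤ Real.sqrt f * ((1 / f) * (1 + Real.log R)) :=
              mul_le_mul_of_nonneg_left h4 (Real.sqrt_nonneg _)
          _ = (Real.sqrt f * (1 / f)) * (1 + Real.log R) := by ring
          _ ≤ 1 * (1 + Real.log R) := mul_le_mul_of_nonneg_right h5 (by linarith)
          _ = 1 + Real.log R := one_mul _
    _ = #R.divisors * (1 + Real.log R) := by
        rw [Finset.sum_const, nsmul_eq_mul]

/-- A sum with greatest common divisors.
PROOF. Fold `s ↦ R - s` (`gcd (R - s, R) = gcd (s, R)`): the sum is at most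
`2 ∑_{1 ≤ s < R} R / (2 s) √gcd(s, R)` (each `s` with `min = s` or `R - s`). Now
`√gcd(s,R) ≤ ∑_{f ∣ R, f ∣ s} √f` and `∑_{1 ≤ s < R, f ∣ s} 1 / s ≤ (1 / f) (1 + log R)`
(`harmonic_le_one_add_log`), so it is at most `R ∑_{f ∣ R} f^(-1/2) (1 + log R)
≤ R τ(R) (1 + log R)`. -/
theorem sum_gcd (R : ℕ) (hR : 1 ≤ R) :
    ∑ s ∈ Ico 1 R, (R : ℝ) / (2 * min (s : ℝ) ((R : ℝ) - s)) * Real.sqrt (Nat.gcd s R : ℕ)
      ≤ R * #R.divisors * (1 + Real.log R) := by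
  have h1 : ∀ s ∈ Ico 1 R,
      (R : ℝ) / (2 * min (s : ℝ) ((R : ℝ) - s)) * Real.sqrt (Nat.gcd s R : ℕ)
      ≤ (R : ℝ) / 2 * (Real.sqrt (Nat.gcd s R : ℕ) / s)
        + (R : ℝ) / 2 * (Real.sqrt (Nat.gcd (R - s) R : ℕ) / ((R - s : ℕ) : ℝ)) := by
    intro s hs
    rw [Finset.mem_Ico] at hs
    have hcast : ((R - s : ℕ) : ℝ) = (R : ℝ) - s := Nat.cast_sub hs.2.le
    have hgcd : Nat.gcd (R - s) R = Nat.gcd s R := by
      rw [Nat.gcd_self_sub_left hs.2.le]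
    have hs0 : (0 : ℝ) < s := by exact_mod_cast hs.1
    have hsR : (0 : ℝ) < (R : ℝ) - s := by
      have : (s : ℝ) < R := by exact_mod_cast hs.2
      linarith
    rw [hcast, hgcd]
    have hq : 0 ≤ Real.sqrt (Nat.gcd s R : ℕ) := Real.sqrt_nonneg _
    rcases min_cases (s : ℝ) ((R : ℝ) - s) with ⟨h, -⟩ | ⟨h, -⟩
    · rw [h]
      have h2 : (R : ℝ) / (2 * s) * Real.sqrt (Nat.gcd s R : ℕ)
          = (R : ℝ) / 2 * (Real.sqrt (Nat.gcd s R : ℕ) / s) := by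
        rw [← div_div]
        ring
      rw [h2]
      have h3 : 0 ≤ (R : ℝ) / 2 * (Real.sqrt (Nat.gcd s R : ℕ) / ((R : ℝ) - s)) := by positivity
      linarith
    · rw [h]
      have h2 : (R : ℝ) / (2 * ((R : ℝ) - s)) * Real.sqrt (Nat.gcd s R : ℕ)
          = (R : ℝ) / 2 * (Real.sqrt (Nat.gcd s R : ℕ) / ((R : ℝ) - s)) := by
        rw [← div_div]
        ring
      rw [h2]
      have h3 : 0 ≤ (R : ℝ) / 2 * (Real.sqrt (Nat.gcd s R : ℕ) / (s : ℝ)) := by positivity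
      linarith
  have h2 : ∑ s ∈ Ico 1 R, (R : ℝ) / 2 * (Real.sqrt (Nat.gcd (R - s) R : ℕ) / ((R - s : ℕ) : ℝ))
      = ∑ s ∈ Ico 1 R, (R : ℝ) / 2 * (Real.sqrt (Nat.gcd s R : ℕ) / (s : ℝ)) := by
    refine Finset.sum_nbij' (fun s => R - s) (fun s => R - s) ?_ ?_ ?_ ?_ ?_
    · intro s hs
      simp only [Finset.mem_Ico] at hs ⊢
      omega
    · intro s hs
      simp only [Finset.mem_Ico] at hs ⊢
      omega
    · intro s hs
      simp only [Finset.mem_Ico] at hs ⊢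
      omega
    · intro s hs
      simp only [Finset.mem_Ico] at hs ⊢
      omega
    · intro s _
      rfl
  calc ∑ s ∈ Ico 1 R, (R : ℝ) / (2 * min (s : ℝ) ((R : ℝ) - s)) * Real.sqrt (Nat.gcd s R : ℕ)
      ≤ ∑ s ∈ Ico 1 R, ((R : ℝ) / 2 * (Real.sqrt (Nat.gcd s R : ℕ) / s)
        + (R : ℝ) / 2 * (Real.sqrt (Nat.gcd (R - s) R : ℕ) / ((R - s : ℕ) : ℝ))) :=
        Finset.sum_le_sum h1
    _ = R * ∑ s ∈ Ico 1 R, Real.sqrt (Nat.gcd s R : ℕ) / s := by
        rw [Finset.sum_add_distrib, h2, ← Finset.mul_sum]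
        ring
    _ ≤ R * (#R.divisors * (1 + Real.log R)) :=
        mul_le_mul_of_nonneg_left (F03c_main R hR) (by positivity)
    _ = R * #R.divisors * (1 + Real.log R) := by ring

end Pool.Agent.Lib.MP_bae66e_nt.P2

namespace Pool.Agent.Lib.MP_bae66e_nt.P2

open Finset

private theorem F04a_two_pow (R : ℕ) (hR : 1 ≤ R) :
    (2 : ℝ) ^ #R.primeFactors ≤ (#R.divisors : ℝ) := by
  have h1 : 2 ^ #R.primeFactors ≤ #R.divisors := by
    rw [Nat.card_divisors (by omega : R ≠ 0), ← Finset.prod_const]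
    refine Finset.prod_le_prod' (fun q hq => ?_)
    have h2 := (Nat.mem_primeFactors.1 hq)
    have h3 : 1 ≤ R.factorization q :=
      (h2.1.dvd_iff_one_le_factorization h2.2.2).1 h2.2.1
    omega
  exact_mod_cast h1

private theorem F04a_term (R : ℕ) [NeZero R] (hR : 1 ≤ R) (hsq : Squarefree R) (t : ℤ) (U V : ℕ)
    (s : ℕ) (hs : 1 ≤ s) (hsR : s < R) :
    ‖(∑ m ∈ Ioc U V, ee (-((s : ℝ) * m) / R)) * kl R (t : ZMod R) ((s : ℤ) : ZMod R)‖
      ≤ (#R.divisors : ℝ) * Real.sqrt R *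
        ((R : ℝ) / (2 * min (s : ℝ) ((R : ℝ) - s)) * Real.sqrt (Nat.gcd s R : ℕ)) := by
  rw [norm_mul]
  have h1 := geom_interval R s hs hsR U V
  have h2 := kl_squarefree R hsq t (s : ℤ)
  have h3 : Real.sqrt (Nat.gcd (Int.gcd t (s : ℤ)) R : ℕ) ≤ Real.sqrt (Nat.gcd s R : ℕ) := by
    apply Real.sqrt_le_sqrt
    have h4 : Nat.gcd (Int.gcd t (s : ℤ)) R ∣ Nat.gcd s R := by
      apply Nat.dvd_gcd
      · refine (Nat.gcd_dvd_left _ _).trans ?_
        have h5 : Int.gcd t (s : ℤ) ∣ Int.natAbs (s : ℤ) := Int.gcd_dvd_natAbs_right t (s : ℤ)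
        rwa [Int.natAbs_natCast] at h5
      · exact Nat.gcd_dvd_right _ _
    have h6 : Nat.gcd (Int.gcd t (s : ℤ)) R ≤ Nat.gcd s R :=
      Nat.le_of_dvd (Nat.gcd_pos_of_pos_left _ (by omega)) h4
    exact_mod_cast h6
  have h4 := F04a_two_pow R hR
  have hmin : (0 : ℝ) < min (s : ℝ) ((R : ℝ) - s) := by
    have h7 : (1 : ℝ) ≤ s := by exact_mod_cast hs
    have h8 : (s : ℝ) + 1 ≤ R := by exact_mod_cast hsR
    exact lt_min (by linarith) (by linarith)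
  have hg : (0 : ℝ) ≤ (R : ℝ) / (2 * min (s : ℝ) ((R : ℝ) - s)) := by positivity
  calc ‖∑ m ∈ Ioc U V, ee (-((s : ℝ) * m) / R)‖ * ‖kl R (t : ZMod R) ((s : ℤ) : ZMod R)‖
      ≤ ((R : ℝ) / (2 * min (s : ℝ) ((R : ℝ) - s))) *
        (2 ^ #R.primeFactors * Real.sqrt R * Real.sqrt (Nat.gcd (Int.gcd t (s : ℤ)) R : ℕ)) :=
        mul_le_mul h1 h2 (norm_nonneg _) hg
    _ ≤ ((R : ℝ) / (2 * min (s : ℝ) ((R : ℝ) - s))) *
        ((#R.divisors : ℝ) * Real.sqrt R * Real.sqrt (Nat.gcd s R : ℕ)) := by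
        refine mul_le_mul_of_nonneg_left ?_ hg
        refine mul_le_mul ?_ h3 (Real.sqrt_nonneg _) (by positivity)
        exact mul_le_mul_of_nonneg_right h4 (Real.sqrt_nonneg _)
    _ = _ := by ring

/-- **Incomplete Kloosterman sums.**
PROOF. `completion`. The term `s = 0` is `(1 / R) (V - U) kl R t 0`, bounded by `kl_zero`. For
`1 ≤ s < R` use `geom_interval` and `kl_squarefree` with
`gcd (gcd (t, s), R) ≤ gcd (s, R)` (it divides it), `2 ^ ω(R) = τ(R)` for squarefree `R`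
(`Nat.card_divisors`/`ArithmeticFunction`; `≤` suffices), and `sum_gcd`: the total is at most
`(1 / R) τ(R) √R R τ(R) (1 + log R)`. -/
theorem incomplete (R : ℕ) (hR : 1 ≤ R) (hsq : Squarefree R) (t : ℤ) (U V : ℕ) (hUV : U ≤ V) :
    ‖∑ D ∈ (Ioc U V).filter (fun D => Nat.Coprime D R), kf R t D‖
      ≤ ((V : ℝ) - U) / R * (Int.gcd t R : ℕ)
        + (#R.divisors : ℝ) ^ 2 * Real.sqrt R * (1 + Real.log R) := by
  have : NeZero R := ⟨by omega⟩
  have hR0 : (0 : ℝ) < R := by exact_mod_cast hR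
  rw [completion R t U V, norm_mul, norm_div, norm_one, Complex.norm_natCast]
  rw [Finset.range_eq_Ico, Finset.sum_eq_sum_Ico_succ_bot (by omega : 0 < R)]
  have h0 : ‖(∑ m ∈ Ioc U V, ee (-(((0 : ℕ) : ℝ) * m) / R)) *
      kl R (t : ZMod R) (((0 : ℕ) : ℤ) : ZMod R)‖ ≤ ((V : ℝ) - U) * (Int.gcd t R : ℕ) := by
    rw [norm_mul]
    have h1 : (∑ m ∈ Ioc U V, ee (-(((0 : ℕ) : ℝ) * m) / R)) = (((V : ℝ) - U : ℝ) : ℂ) := by
      have h2 : ∀ m ∈ Ioc U V, ee (-(((0 : ℕ) : ℝ) * m) / R) = 1 := by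
        intro m _
        rw [Nat.cast_zero, zero_mul, neg_zero, zero_div, ee_zero]
      rw [Finset.sum_congr rfl h2, Finset.sum_const, Nat.card_Ioc, nsmul_eq_mul, mul_one,
        Nat.cast_sub hUV]
      push_cast
      ring
    have h3 : (0 : ℝ) ≤ (V : ℝ) - U := by
      have : (U : ℝ) ≤ V := by exact_mod_cast hUV
      linarith
    rw [h1, Complex.norm_of_nonneg h3]
    have h4 : (((0 : ℕ) : ℤ) : ZMod R) = 0 := by simp
    rw [h4]
    exact mul_le_mul_of_nonneg_left (kl_zero R hsq t) h3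
  have h1 : ‖∑ s ∈ Ico (0 + 1) R, (∑ m ∈ Ioc U V, ee (-((s : ℝ) * m) / R)) *
      kl R (t : ZMod R) ((s : ℤ) : ZMod R)‖
      ≤ (#R.divisors : ℝ) * Real.sqrt R * (R * #R.divisors * (1 + Real.log R)) := by
    calc ‖∑ s ∈ Ico (0 + 1) R, (∑ m ∈ Ioc U V, ee (-((s : ℝ) * m) / R)) *
        kl R (t : ZMod R) ((s : ℤ) : ZMod R)‖
        ≤ ∑ s ∈ Ico (0 + 1) R, ‖(∑ m ∈ Ioc U V, ee (-((s : ℝ) * m) / R)) *
            kl R (t : ZMod R) ((s : ℤ) : ZMod R)‖ := norm_sum_le _ _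
      _ ≤ ∑ s ∈ Ico (0 + 1) R, (#R.divisors : ℝ) * Real.sqrt R *
            ((R : ℝ) / (2 * min (s : ℝ) ((R : ℝ) - s)) * Real.sqrt (Nat.gcd s R : ℕ)) := by
          refine Finset.sum_le_sum (fun s hs => ?_)
          rw [Finset.mem_Ico] at hs
          exact F04a_term R hR hsq t U V s (by omega) hs.2
      _ = (#R.divisors : ℝ) * Real.sqrt R * ∑ s ∈ Ico 1 R,
            ((R : ℝ) / (2 * min (s : ℝ) ((R : ℝ) - s)) * Real.sqrt (Nat.gcd s R : ℕ)) := by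
          rw [Finset.mul_sum]
      _ ≤ (#R.divisors : ℝ) * Real.sqrt R * (R * #R.divisors * (1 + Real.log R)) :=
          mul_le_mul_of_nonneg_left (sum_gcd R hR) (by positivity)
  calc 1 / (R : ℝ) * ‖(∑ m ∈ Ioc U V, ee (-(((0 : ℕ) : ℝ) * m) / R)) *
        kl R (t : ZMod R) (((0 : ℕ) : ℤ) : ZMod R)
        + ∑ s ∈ Ico (0 + 1) R, (∑ m ∈ Ioc U V, ee (-((s : ℝ) * m) / R)) *
          kl R (t : ZMod R) ((s : ℤ) : ZMod R)‖
      ≤ 1 / (R : ℝ) * (((V : ℝ) - U) * (Int.gcd t R : ℕ)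
          + (#R.divisors : ℝ) * Real.sqrt R * (R * #R.divisors * (1 + Real.log R))) := by
        refine mul_le_mul_of_nonneg_left ?_ (by positivity)
        exact (norm_add_le _ _).trans (add_le_add h0 h1)
    _ = ((V : ℝ) - U) / R * (Int.gcd t R : ℕ)
        + (#R.divisors : ℝ) ^ 2 * Real.sqrt R * (1 + Real.log R) := by
        field_simp

end Pool.Agent.Lib.MP_bae66e_nt.P2

namespace Pool.Agent.Lib.MP_bae66e_nt.P2

open Finset

private theorem F04b_identity (f g : ℕ → ℂ) (U V : ℕ) (hUV : U + 1 ≤ V) :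
    ∑ D ∈ Ioc U V, f D * g D
      = f V * (∑ D ∈ Ioc U V, g D)
        - ∑ D ∈ Ico (U + 1) V, (f (D + 1) - f D) * (∑ E ∈ Ioc U D, g E) := by
  induction V, hUV using Nat.le_induction with
  | base => simp
  | succ V hV ih =>
    have h1 : U ≤ V := by omega
    rw [Finset.sum_Ioc_succ_top h1, Finset.sum_Ioc_succ_top h1,
      Finset.sum_Ico_succ_top hV, ih]
    ring

/-- **Partial summation.**
PROOF. Induction on `V`, or `Finset.sum_range_by_parts`: with `s V' = ∑ D ∈ Ioc U V', g D`,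
`∑ f g = f V s V - ∑_{D = U+1}^{V-1} (f (D + 1) - f D) s D`. -/
theorem abel (f g : ℕ → ℂ) (U V : ℕ) (hUV : U < V) (Bd : ℝ)
    (h : ∀ V' ∈ Ioc U V, ‖∑ D ∈ Ioc U V', g D‖ ≤ Bd) :
    ‖∑ D ∈ Ioc U V, f D * g D‖
      ≤ Bd * (‖f V‖ + ∑ D ∈ Ico (U + 1) V, ‖f (D + 1) - f D‖) := by
  have hUV' : U + 1 ≤ V := hUV
  rw [F04b_identity f g U V hUV', mul_add]
  refine (norm_sub_le _ _).trans (add_le_add ?_ ?_)
  · rw [norm_mul, mul_comm]
    exact mul_le_mul_of_nonneg_right (h V (Finset.mem_Ioc.2 ⟨hUV, le_rfl⟩)) (norm_nonneg _)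
  · rw [Finset.mul_sum]
    refine (norm_sum_le _ _).trans (Finset.sum_le_sum fun D hD => ?_)
    rw [norm_mul, mul_comm]
    rw [Finset.mem_Ico] at hD
    exact mul_le_mul_of_nonneg_right (h D (Finset.mem_Ioc.2 ⟨by omega, by omega⟩)) (norm_nonneg _)

end Pool.Agent.Lib.MP_bae66e_nt.P2

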