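import Pool.Agent.Lib.MP_bae66e_nt.P2.KF1

set_option autoImplicit false

namespace Pool.Agent.Lib.MP_bae66e_nt.P2

open Finset

/-- The trivial bound. -/
theorem GG_le (L : ℕ) (θ : ℝ) : ‖GG L θ‖ ≤ L := by
  unfold GG
  refine (norm_sum_le _ _).trans ?_
  simp [norm_ee]

/-- The bound `1 / (2 θ)`.
PROOF. Geometric sum: `‖GG L θ‖ ≤ 2 / ‖1 - ee θ‖ = 1 / |sin (π θ)|` and `sin (π θ) ≥ 2 θ` for
`0 < θ ≤ 1 / 2` (`Real.mul_le_sin`). -/
theorem GG_le' (L : ℕ) (θ : ℝ) (h0 : 0 < θ) (h1 : θ ≤ 1 / 2) : ‖GG L θ‖ ≤ 1 / (2 * θ) := by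
  have hpi := Real.pi_pos
  have hsin : 2 * θ ≤ Real.sin (Real.pi * θ) := by
    have h := Real.mul_le_sin (x := Real.pi * θ) (by positivity) (by nlinarith)
    have e : 2 / Real.pi * (Real.pi * θ) = 2 * θ := by field_simp
    linarith
  have hnorm : ‖ee θ - 1‖ = 2 * Real.sin (Real.pi * θ) := by
    have e : ee θ = Complex.exp (Complex.I * ((2 * Real.pi * θ : ℝ) : ℂ)) := by
      unfold ee
      congr 1
      push_cast
      ring
    rw [e, Complex.norm_exp_I_mul_ofReal_sub_one]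
    rw [show 2 * Real.pi * θ / 2 = Real.pi * θ by ring, Real.norm_eq_abs, abs_of_nonneg (by linarith)]
  have hpos : 0 < ‖ee θ - 1‖ := by rw [hnorm]; linarith
  have hGG : GG L θ * (ee θ - 1) = ee θ ^ L - 1 := by
    unfold GG
    have : ∀ i ∈ range L, ee (i * θ) = ee θ ^ i := fun i _ => ee_nat_mul i θ
    rw [sum_congr rfl this, geom_sum_mul]
  have hle : ‖GG L θ‖ * ‖ee θ - 1‖ ≤ 2 := by
    rw [← norm_mul, hGG]
    refine (norm_sub_le _ _).trans ?_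
    rw [norm_pow, norm_ee, one_pow, norm_one]
    norm_num
  rw [hnorm] at hle
  rw [le_div_iff₀ (by linarith)]
  have := norm_nonneg (GG L θ)
  nlinarith

end Pool.Agent.Lib.MP_bae66e_nt.P2

namespace Pool.Agent.Lib.MP_bae66e_nt.P2

open Finset

private theorem F05b_sum (L : ℕ) (θ : ℝ) :
    ∑ i ∈ range L, ((i : ℕ) : ℂ) * ee (i * θ)
      = (L : ℂ) * GG L θ - ∑ l ∈ range L, GG (l + 1) θ := by
  induction L with
  | zero => simp
  | succ n ih =>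
    rw [sum_range_succ, ih, sum_range_succ (fun l => GG (l + 1) θ)]
    have e : GG (n + 1) θ = GG n θ + ee (n * θ) := by
      unfold GG
      rw [sum_range_succ]
    rw [e]
    push_cast
    ring

private theorem F05b_deriv (i : ℕ) (x : ℝ) :
    HasDerivAt (fun t : ℝ => ee (i * t)) (2 * Real.pi * Complex.I * ((i : ℂ) * ee (i * x))) x := by
  have h1 : HasDerivAt (fun t : ℝ => (t : ℂ)) 1 x := Complex.ofRealCLM.hasDerivAt
  have h2 : HasDerivAt (fun t : ℝ => (2 * Real.pi * Complex.I * (i : ℂ)) * (t : ℂ))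
      ((2 * Real.pi * Complex.I * (i : ℂ)) * 1) x := h1.const_mul _
  have h3 := h2.cexp
  have e : (fun t : ℝ => ee (i * t))
      = fun t : ℝ => Complex.exp ((2 * Real.pi * Complex.I * (i : ℂ)) * (t : ℂ)) := by
    funext t
    unfold ee
    congr 1
    push_cast
    ring
  rw [e]
  refine h3.congr_deriv ?_
  have e2 : Complex.exp (2 * Real.pi * Complex.I * (i : ℂ) * (x : ℂ)) = ee (i * x) := by
    unfold ee
    congr 1
    push_cast
    ring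
  rw [e2]
  ring

/-- Differences of `GG`.
PROOF. The derivative of `GG L` at `x` is `2 π i ∑_{i < L} i e(i x)`, and by Abel summation
`∑_{i < L} i e(i x) = (L - 1) GG L x - ∑_{l = 1}^{L - 1} GG l x` has absolute value at most
`2 L g`, where `g` bounds all `‖GG l x‖`, `l ≤ L` (`GG_le`, `GG_le'`; `x ≥ θ₀`). So it is at most
`4 π L g` and the mean value inequality (`Convex.norm_image_sub_le_of_norm_hasDerivWithin_le`, on the
interval `[θ₀, 1/2]`) gives the claim. -/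
theorem GG_lip (L : ℕ) (θ₀ θ θ' : ℝ) (h0 : 0 < θ₀) (h1 : θ₀ ≤ θ) (h1' : θ₀ ≤ θ')
    (h2 : θ ≤ 1 / 2) (h2' : θ' ≤ 1 / 2) :
    ‖GG L θ - GG L θ'‖ ≤ 4 * Real.pi * L * min (L : ℝ) (1 / (2 * θ₀)) * |θ - θ'| := by
  set g : ℝ := min (L : ℝ) (1 / (2 * θ₀)) with hg
  have hder : ∀ x ∈ Set.Icc θ₀ (1 / 2 : ℝ), HasDerivWithinAt (fun t : ℝ => GG L t)
      (∑ i ∈ range L, 2 * Real.pi * Complex.I * ((i : ℂ) * ee (i * x))) (Set.Icc θ₀ (1 / 2)) x := by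
    intro x _
    have h : HasDerivAt (fun t : ℝ => ∑ i ∈ range L, ee (i * t))
        (∑ i ∈ range L, 2 * Real.pi * Complex.I * ((i : ℂ) * ee (i * x))) x :=
      HasDerivAt.fun_sum (fun i _ => F05b_deriv i x)
    exact h.hasDerivWithinAt
  have hbd : ∀ x ∈ Set.Icc θ₀ (1 / 2 : ℝ),
      ‖∑ i ∈ range L, 2 * Real.pi * Complex.I * ((i : ℂ) * ee (i * x))‖
        ≤ 4 * Real.pi * L * g := by
    intro x hx
    have hx0 : 0 < x := lt_of_lt_of_le h0 hx.1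
    have hgl : ∀ l, l ≤ L → ‖GG l x‖ ≤ g := by
      intro l hl
      refine le_min ((GG_le l x).trans (by exact_mod_cast hl)) ((GG_le' l x hx0 hx.2).trans ?_)
      exact one_div_le_one_div_of_le (by positivity) (by linarith [hx.1])
    rw [← mul_sum, F05b_sum, norm_mul]
    have e1 : ‖(2 * Real.pi * Complex.I : ℂ)‖ = 2 * Real.pi := by
      rw [norm_mul, norm_mul, Complex.norm_I, Complex.norm_real, Real.norm_eq_abs,
        abs_of_pos Real.pi_pos]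
      simp
    rw [e1]
    have e2 : ‖(L : ℂ) * GG L x - ∑ l ∈ range L, GG (l + 1) x‖ ≤ 2 * (L * g) := by
      refine (norm_sub_le _ _).trans ?_
      have a1 : ‖(L : ℂ) * GG L x‖ ≤ L * g := by
        rw [norm_mul, Complex.norm_natCast]
        exact mul_le_mul_of_nonneg_left (hgl L le_rfl) (Nat.cast_nonneg _)
      have a2 : ‖∑ l ∈ range L, GG (l + 1) x‖ ≤ L * g := by
        refine (norm_sum_le _ _).trans ?_
        refine (sum_le_sum (fun l hl => hgl (l + 1) (by rw [mem_range] at hl; omega))).trans ?_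
        simp
      linarith
    have hpi := Real.pi_pos
    calc 2 * Real.pi * ‖(L : ℂ) * GG L x - ∑ l ∈ range L, GG (l + 1) x‖
        ≤ 2 * Real.pi * (2 * (L * g)) := mul_le_mul_of_nonneg_left e2 (by positivity)
      _ = 4 * Real.pi * L * g := by ring
  have h := (convex_Icc θ₀ (1 / 2 : ℝ)).norm_image_sub_le_of_norm_hasDerivWithin_le hder hbd
    (⟨h1', h2'⟩ : θ' ∈ Set.Icc θ₀ (1 / 2)) (⟨h1, h2⟩ : θ ∈ Set.Icc θ₀ (1 / 2))
  rwa [Real.norm_eq_abs] at h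

end Pool.Agent.Lib.MP_bae66e_nt.P2

namespace Pool.Agent.Lib.MP_bae66e_nt.P2

open Finset

private theorem F05c_ee (x y : ℝ) : ‖ee x - ee y‖ ≤ 2 * Real.pi * |x - y| := by
  have e : ee x = ee (x - y) * ee y := by rw [← ee_add]; congr 1; ring
  have e1 : ee x - ee y = (ee (x - y) - 1) * ee y := by rw [e]; ring
  rw [e1, norm_mul, norm_ee, mul_one]
  have e2 : ee (x - y) = Complex.exp (Complex.I * ((2 * Real.pi * (x - y) : ℝ) : ℂ)) := by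
    unfold ee
    congr 1
    push_cast
    ring
  rw [e2]
  refine (Real.norm_exp_I_mul_ofReal_sub_one_le).trans ?_
  rw [Real.norm_eq_abs, abs_mul, abs_of_pos (by positivity : (0:ℝ) < 2 * Real.pi)]

/-- Differences of `e(A θ) |GG L θ|²`.
PROOF. With `g = min L (1 / (2 θ₀))`, `‖GG‖ ≤ g` at both points:
`‖ee (A θ) - ee (A θ')‖ ≤ 2 π A |θ - θ'|` (`Complex.norm_exp_I_mul_ofReal_sub_one_le` or similar) and
`|‖GG θ‖² - ‖GG θ'‖²| ≤ 2 g ‖GG θ - GG θ'‖ ≤ 8 π L g² |θ - θ'|`. Sum: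
`(2 π A + 8 π L) g² |θ - θ'|`. -/
theorem psi_lip (A : ℝ) (hA : 0 ≤ A) (L : ℕ) (θ₀ θ θ' : ℝ) (h0 : 0 < θ₀) (h1 : θ₀ ≤ θ)
    (h1' : θ₀ ≤ θ') (h2 : θ ≤ 1 / 2) (h2' : θ' ≤ 1 / 2) :
    ‖ee (A * θ) * ((‖GG L θ‖ ^ 2 : ℝ) : ℂ) - ee (A * θ') * ((‖GG L θ'‖ ^ 2 : ℝ) : ℂ)‖
      ≤ 8 * Real.pi * (A + L) * min (L : ℝ) (1 / (2 * θ₀)) ^ 2 * |θ - θ'| := by
  have hlip := GG_lip L θ₀ θ θ' h0 h1 h1' h2 h2'
  have hgl : ∀ x, θ₀ ≤ x → x ≤ 1 / 2 → ‖GG L x‖ ≤ min (L : ℝ) (1 / (2 * θ₀)) := by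
    intro x hx hx'
    refine le_min (GG_le L x) ((GG_le' L x (by linarith) hx').trans ?_)
    exact one_div_le_one_div_of_le (by positivity) (by linarith)
  have hg1 := hgl θ h1 h2
  have hg2 := hgl θ' h1' h2'
  set g : ℝ := min (L : ℝ) (1 / (2 * θ₀)) with hg
  have hg0 : 0 ≤ g := le_trans (norm_nonneg _) hg1
  have hpi := Real.pi_pos
  have hd := abs_nonneg (θ - θ')
  have hL : (0:ℝ) ≤ L := Nat.cast_nonneg _
  have e : ee (A * θ) * ((‖GG L θ‖ ^ 2 : ℝ) : ℂ) - ee (A * θ') * ((‖GG L θ'‖ ^ 2 : ℝ) : ℂ)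
      = (ee (A * θ) - ee (A * θ')) * ((‖GG L θ‖ ^ 2 : ℝ) : ℂ)
        + ee (A * θ') * ((‖GG L θ‖ ^ 2 - ‖GG L θ'‖ ^ 2 : ℝ) : ℂ) := by
    push_cast
    ring
  rw [e]
  refine (norm_add_le _ _).trans ?_
  rw [norm_mul, norm_mul, norm_ee, one_mul, Complex.norm_real, Complex.norm_real,
    Real.norm_eq_abs, Real.norm_eq_abs]
  have a1 : ‖ee (A * θ) - ee (A * θ')‖ ≤ 2 * Real.pi * (A * |θ - θ'|) := by
    refine (F05c_ee _ _).trans ?_
    rw [← mul_sub, abs_mul, abs_of_nonneg hA]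
  have a2 : |‖GG L θ‖ ^ 2| ≤ g ^ 2 := by
    rw [abs_of_nonneg (by positivity)]
    exact pow_le_pow_left₀ (norm_nonneg _) hg1 2
  have a3 : |‖GG L θ‖ ^ 2 - ‖GG L θ'‖ ^ 2| ≤ 2 * g * ‖GG L θ - GG L θ'‖ := by
    have hb := abs_norm_sub_norm_le (GG L θ) (GG L θ')
    rw [sq_sub_sq, abs_mul]
    have hs : |‖GG L θ‖ + ‖GG L θ'‖| ≤ 2 * g := by
      rw [abs_of_nonneg (by positivity)]
      linarith
    exact mul_le_mul hs hb (abs_nonneg _) (by positivity)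
  have b1 : ‖ee (A * θ) - ee (A * θ')‖ * |‖GG L θ‖ ^ 2|
      ≤ 2 * Real.pi * (A * |θ - θ'|) * g ^ 2 :=
    mul_le_mul a1 a2 (abs_nonneg _) (by positivity)
  have b2 : |‖GG L θ‖ ^ 2 - ‖GG L θ'‖ ^ 2|
      ≤ 2 * g * (4 * Real.pi * L * g * |θ - θ'|) :=
    a3.trans (mul_le_mul_of_nonneg_left hlip (by positivity))
  have c1 : 0 ≤ Real.pi * A * g ^ 2 * |θ - θ'| := by positivity
  calc _ ≤ 2 * Real.pi * (A * |θ - θ'|) * g ^ 2 + 2 * g * (4 * Real.pi * L * g * |θ - θ'|) :=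
        add_le_add b1 b2
    _ = 8 * Real.pi * (A + L) * g ^ 2 * |θ - θ'| - 6 * (Real.pi * A * g ^ 2 * |θ - θ'|) := by ring
    _ ≤ _ := by linarith

end Pool.Agent.Lib.MP_bae66e_nt.P2

namespace Pool.Agent.Lib.MP_bae66e_nt.P2

open Finset

/-- Size of `Phi`.
PROOF. `M = k D b > k Q Q'`, so `1 / M ≤ 1 / (k Q Q')`; and `θ = h / M` satisfies `θ ≤ 1 / 2`,
`θ ≥ H1 / (4 k Q Q')`, so `‖GG L θ‖² ≤ min (L², (2 k Q Q' / H1)²)` by `GG_le`, `GG_le'`. -/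
theorem Phi_le (A : ℝ) (L k b h D Q Q' H1 : ℕ) (hk : 1 ≤ k) (hQ : 1 ≤ Q) (hQ' : 1 ≤ Q')
    (hH1 : 1 ≤ H1) (hb1 : Q' < b) (hb2 : b ≤ 2 * Q') (hh1 : H1 ≤ h) (hh2 : h < 2 * H1)
    (hD1 : Q < D) (hD2 : D ≤ 2 * Q) (hN : 2 * h ≤ k * Q * b) :
    ‖Phi A L h ((k * D * b : ℕ) : ℝ)‖ ≤ phi L H1 (k * (Q * Q')) := by
  have hkR : (1:ℝ) ≤ k := by exact_mod_cast hk
  have hQR : (1:ℝ) ≤ Q := by exact_mod_cast hQ
  have hQR' : (1:ℝ) ≤ Q' := by exact_mod_cast hQ'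
  have hHR : (1:ℝ) ≤ H1 := by exact_mod_cast hH1
  have hhR : (H1:ℝ) ≤ h := by exact_mod_cast hh1
  have hP : (0:ℝ) < k * (Q * Q') := by positivity
  have hM1n : k * (Q * Q') ≤ k * D * b := by
    calc k * (Q * Q') ≤ k * (D * b) := Nat.mul_le_mul_left _ (Nat.mul_le_mul hD1.le hb1.le)
      _ = k * D * b := by ring
  have hM2n : k * D * b ≤ 4 * (k * (Q * Q')) := by
    calc k * D * b = k * (D * b) := by ring
      _ ≤ k * ((2 * Q) * (2 * Q')) := Nat.mul_le_mul_left _ (Nat.mul_le_mul hD2 hb2)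
      _ = 4 * (k * (Q * Q')) := by ring
  have hM3n : 2 * h ≤ k * D * b :=
    hN.trans (Nat.mul_le_mul_right _ (Nat.mul_le_mul_left _ hD1.le))
  set M : ℝ := ((k * D * b : ℕ) : ℝ) with hM
  have hM1 : (k:ℝ) * (Q * Q') ≤ M := by rw [hM]; exact_mod_cast hM1n
  have hM2 : M ≤ 4 * ((k:ℝ) * (Q * Q')) := by rw [hM]; exact_mod_cast hM2n
  have hM3 : 2 * (h:ℝ) ≤ M := by rw [hM]; exact_mod_cast hM3n
  set P : ℝ := (k:ℝ) * (Q * Q') with hPdef
  have hM0 : 0 < M := lt_of_lt_of_le hP hM1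
  have hh0 : (0:ℝ) < h := by linarith
  have hθ0 : 0 < (h:ℝ) / M := by positivity
  have hθ1 : (h:ℝ) / M ≤ 1 / 2 := by
    rw [div_le_iff₀ hM0]; linarith
  have hG1 := GG_le L ((h:ℝ) / M)
  have hG2 := GG_le' L ((h:ℝ) / M) hθ0 hθ1
  have hG3 : ‖GG L ((h:ℝ) / M)‖ ≤ 2 * P / H1 := by
    refine hG2.trans ?_
    rw [div_le_div_iff₀ (by positivity) (by linarith)]
    have e : 2 * P * (2 * ((h:ℝ) / M)) = 4 * P * h / M := by ring
    rw [e, le_div_iff₀ hM0]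
    nlinarith
  have hsq : ‖GG L ((h:ℝ) / M)‖ ^ 2 ≤ min ((L:ℝ) ^ 2) (4 * P ^ 2 / H1 ^ 2) := by
    refine le_min (pow_le_pow_left₀ (norm_nonneg _) hG1 2) ?_
    refine (pow_le_pow_left₀ (norm_nonneg _) hG3 2).trans (le_of_eq ?_)
    rw [div_pow]
    ring
  unfold Phi phi
  rw [norm_mul, norm_mul, norm_ee, mul_one, Complex.norm_real, Complex.norm_real,
    Real.norm_eq_abs, Real.norm_eq_abs, abs_of_pos (by positivity),
    abs_of_nonneg (by positivity), one_div, mul_comm]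
  have hfin : ‖GG L ((h:ℝ) / M)‖ ^ 2 * M⁻¹ ≤ min ((L:ℝ) ^ 2) (4 * P ^ 2 / H1 ^ 2) * P⁻¹ :=
    mul_le_mul hsq (inv_anti₀ hP hM1) (by positivity) (le_min (by positivity) (by positivity))
  exact hfin

end Pool.Agent.Lib.MP_bae66e_nt.P2

namespace Pool.Agent.Lib.MP_bae66e_nt.P2

open Finset

private theorem F06b_tele (f : ℕ → ℝ) (a b : ℕ) (hab : a ≤ b) :
    ∑ D ∈ Ico a b, (f D - f (D + 1)) = f a - f b := by
  induction b, hab using Nat.le_induction with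
  | base => simp
  | succ n hn ih => rw [Finset.sum_Ico_succ_top hn, ih]; ring

/-- Variation of `Phi`.
PROOF. For `M = k D b`, `M' = k (D + 1) b`, `θ = h / M ≥ θ' = h / M' ≥ θ₀ = H1 / (4 k Q Q')`,
`Ψ(θ) = ee (A θ) ‖GG θ‖²`, `γ = min (L², 4 (k Q Q')² / H1²) = min (L, 1/(2θ₀))²`:
`‖Phi' - Phi‖ ≤ (1/M - 1/M') ‖Ψ(θ)‖ + (1/M') ‖Ψ(θ) - Ψ(θ')‖
≤ γ (1/M - 1/M') + (1 / (k Q Q')) 8 π (A + L) γ (θ - θ')` (`psi_lip`). Both sums telescope over
`Q < D < 2 Q`: `∑ (1/M - 1/M') ≤ 1 / (k Q b) ≤ 1 / (k Q Q')` and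
`∑ (θ - θ') ≤ h / (k Q b) ≤ 2 H1 / (k Q Q')`. -/
theorem Phi_var (A : ℝ) (hA : 0 ≤ A) (L k b h Q Q' H1 : ℕ) (hk : 1 ≤ k) (hQ : 1 ≤ Q)
    (hQ' : 1 ≤ Q') (hH1 : 1 ≤ H1) (hb1 : Q' < b) (hb2 : b ≤ 2 * Q') (hh1 : H1 ≤ h)
    (hh2 : h < 2 * H1) (hN : 2 * h ≤ k * Q * b) :
    ∑ D ∈ Ico (Q + 1) (2 * Q),
        ‖Phi A L h ((k * (D + 1) * b : ℕ) : ℝ) - Phi A L h ((k * D * b : ℕ) : ℝ)‖
      ≤ phi L H1 (k * (Q * Q')) * (1 + 16 * Real.pi * (A + L) * H1 / (k * (Q * Q'))) := by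
  have hkR : (1:ℝ) ≤ k := by exact_mod_cast hk
  have hQR : (1:ℝ) ≤ Q := by exact_mod_cast hQ
  have hQR' : (1:ℝ) ≤ Q' := by exact_mod_cast hQ'
  have hHR : (1:ℝ) ≤ H1 := by exact_mod_cast hH1
  have hhR : (H1:ℝ) ≤ h := by exact_mod_cast hh1
  have hhR2 : (h:ℝ) ≤ 2 * H1 := by exact_mod_cast hh2.le
  have hP : (0:ℝ) < k * (Q * Q') := by positivity
  have hL : (0:ℝ) ≤ L := Nat.cast_nonneg _
  have hpi := Real.pi_pos
  have hMlow : ∀ D, Q < D → (k:ℝ) * (Q * Q') ≤ ((k * D * b : ℕ) : ℝ) := by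
    intro D hD
    have : k * (Q * Q') ≤ k * D * b := by
      calc k * (Q * Q') ≤ k * (D * b) := Nat.mul_le_mul_left _ (Nat.mul_le_mul hD.le hb1.le)
        _ = k * D * b := by ring
    exact_mod_cast this
  have hMup : ∀ D, D ≤ 2 * Q → ((k * D * b : ℕ) : ℝ) ≤ 4 * ((k:ℝ) * (Q * Q')) := by
    intro D hD
    have : k * D * b ≤ 4 * (k * (Q * Q')) := by
      calc k * D * b = k * (D * b) := by ring
        _ ≤ k * ((2 * Q) * (2 * Q')) := Nat.mul_le_mul_left _ (Nat.mul_le_mul hD hb2)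
        _ = 4 * (k * (Q * Q')) := by ring
    exact_mod_cast this
  have hMh : ∀ D, Q < D → 2 * (h:ℝ) ≤ ((k * D * b : ℕ) : ℝ) := by
    intro D hD
    have : 2 * h ≤ k * D * b :=
      hN.trans (Nat.mul_le_mul_right _ (Nat.mul_le_mul_left _ hD.le))
    exact_mod_cast this
  set P : ℝ := (k:ℝ) * (Q * Q') with hPdef
  have hgl : ∀ x, (H1:ℝ) / (4 * P) ≤ x → x ≤ 1 / 2 → ‖GG L x‖ ≤ min (L : ℝ) (1 / (2 * ((H1:ℝ) / (4 * P)))) := by
    intro x hx hx'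
    have hθ : 0 < (H1:ℝ) / (4 * P) := by positivity
    refine le_min (GG_le L x) ((GG_le' L x (by linarith) hx').trans ?_)
    exact one_div_le_one_div_of_le (by positivity) (by linarith)
  have hθ0 : 0 < (H1:ℝ) / (4 * P) := by positivity
  have hγ : (min (L : ℝ) (1 / (2 * ((H1:ℝ) / (4 * P))))) ^ 2 = min ((L:ℝ) ^ 2) (4 * P ^ 2 / H1 ^ 2) := by
    have e : 1 / (2 * ((H1:ℝ) / (4 * P))) = 2 * P / H1 := by
      field_simp
      ring
    rw [e]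
    rcases le_total (L:ℝ) (2 * P / H1) with hc | hc
    · rw [min_eq_left hc, min_eq_left]
      calc (L:ℝ) ^ 2 ≤ (2 * P / H1) ^ 2 := pow_le_pow_left₀ hL hc 2
        _ = _ := by rw [div_pow]; ring
    · rw [min_eq_right hc, min_eq_right]
      · rw [div_pow]; ring
      · calc 4 * P ^ 2 / H1 ^ 2 = (2 * P / H1) ^ 2 := by rw [div_pow]; ring
          _ ≤ (L:ℝ) ^ 2 := pow_le_pow_left₀ (by positivity) hc 2
  set γ : ℝ := min ((L:ℝ) ^ 2) (4 * P ^ 2 / H1 ^ 2) with hγdef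
  have hγ0 : 0 ≤ γ := le_min (by positivity) (by positivity)
  have hterm : ∀ D ∈ Ico (Q + 1) (2 * Q),
      ‖Phi A L h ((k * (D + 1) * b : ℕ) : ℝ) - Phi A L h ((k * D * b : ℕ) : ℝ)‖
        ≤ (γ + 8 * Real.pi * (A + L) * γ * h / P)
          * (1 / ((k * D * b : ℕ) : ℝ) - 1 / ((k * (D + 1) * b : ℕ) : ℝ)) := by
    intro D hD
    rw [mem_Ico] at hD
    have m1 := hMlow D (by omega)
    have m2 := hMup D (by omega)
    have m3 := hMh D (by omega)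
    have m1' := hMlow (D + 1) (by omega)
    have m2' := hMup (D + 1) (by omega)
    have m3' := hMh (D + 1) (by omega)
    have mm : ((k * D * b : ℕ) : ℝ) ≤ ((k * (D + 1) * b : ℕ) : ℝ) := by
      have : k * D * b ≤ k * (D + 1) * b :=
        Nat.mul_le_mul_right _ (Nat.mul_le_mul_left _ (Nat.le_succ D))
      exact_mod_cast this
    set M : ℝ := ((k * D * b : ℕ) : ℝ) with hM
    set M' : ℝ := ((k * (D + 1) * b : ℕ) : ℝ) with hM'
    have hM0 : 0 < M := lt_of_lt_of_le hP m1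
    have hM0' : 0 < M' := lt_of_lt_of_le hP m1'
    have hh0 : (0:ℝ) < h := by linarith
    have t1 : (H1:ℝ) / (4 * P) ≤ (h:ℝ) / M := by
      rw [div_le_div_iff₀ (by positivity) hM0]; nlinarith
    have t1' : (H1:ℝ) / (4 * P) ≤ (h:ℝ) / M' := by
      rw [div_le_div_iff₀ (by positivity) hM0']; nlinarith
    have t2 : (h:ℝ) / M ≤ 1 / 2 := by rw [div_le_iff₀ hM0]; linarith
    have t2' : (h:ℝ) / M' ≤ 1 / 2 := by rw [div_le_iff₀ hM0']; linarith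
    have hinv : 1 / M' ≤ 1 / M := one_div_le_one_div_of_le hM0 mm
    have hps := psi_lip A hA L _ ((h:ℝ) / M') ((h:ℝ) / M) hθ0 t1' t1 t2' t2
    rw [hγ] at hps
    have hG : ‖GG L ((h:ℝ) / M)‖ ^ 2 ≤ γ := by
      rw [← hγ]; exact pow_le_pow_left₀ (norm_nonneg _) (hgl _ t1 t2) 2
    have hdiff : |(h:ℝ) / M' - (h:ℝ) / M| = h * (1 / M - 1 / M') := by
      have : (h:ℝ) / M' - (h:ℝ) / M = - (h * (1 / M - 1 / M')) := by ring
      rw [this, abs_neg, abs_of_nonneg]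
      exact mul_nonneg hh0.le (by linarith)
    rw [hdiff] at hps
    have hinvP : 1 / M' ≤ 1 / P := one_div_le_one_div_of_le hP m1'
    have hS : 0 ≤ 1 / M - 1 / M' := by linarith
    have e1 : Phi A L h M' - Phi A L h M
        = ((1 / M' - 1 / M : ℝ) : ℂ) * (ee (A * ((h:ℝ) / M)) * ((‖GG L ((h:ℝ) / M)‖ ^ 2 : ℝ) : ℂ))
          + ((1 / M' : ℝ) : ℂ) * (ee (A * ((h:ℝ) / M')) * ((‖GG L ((h:ℝ) / M')‖ ^ 2 : ℝ) : ℂ)
            - ee (A * ((h:ℝ) / M)) * ((‖GG L ((h:ℝ) / M)‖ ^ 2 : ℝ) : ℂ)) := by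
      unfold Phi
      rw [show (h:ℝ) * A / M' = A * ((h:ℝ) / M') by ring, show (h:ℝ) * A / M = A * ((h:ℝ) / M) by ring]
      push_cast
      ring
    rw [e1]
    refine (norm_add_le _ _).trans ?_
    rw [norm_mul, norm_mul, norm_mul, norm_ee, one_mul, Complex.norm_real, Complex.norm_real,
      Complex.norm_real, Real.norm_eq_abs, Real.norm_eq_abs, Real.norm_eq_abs,
      abs_of_pos (by positivity : 0 < 1 / M'), abs_of_nonneg (sq_nonneg ‖GG L ((h:ℝ) / M)‖)]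
    have e2 : |1 / M' - 1 / M| = 1 / M - 1 / M' := by
      rw [abs_sub_comm, abs_of_nonneg hS]
    rw [e2]
    have b1 : (1 / M - 1 / M') * ‖GG L ((h:ℝ) / M)‖ ^ 2 ≤ (1 / M - 1 / M') * γ :=
      mul_le_mul_of_nonneg_left hG hS
    have b2 : 1 / M' * ‖ee (A * ((h:ℝ) / M')) * ((‖GG L ((h:ℝ) / M')‖ ^ 2 : ℝ) : ℂ)
            - ee (A * ((h:ℝ) / M)) * ((‖GG L ((h:ℝ) / M)‖ ^ 2 : ℝ) : ℂ)‖
        ≤ 1 / P * (8 * Real.pi * (A + L) * γ * (h * (1 / M - 1 / M'))) :=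
      mul_le_mul hinvP hps (norm_nonneg _) (by positivity)
    calc _ ≤ (1 / M - 1 / M') * γ + 1 / P * (8 * Real.pi * (A + L) * γ * (h * (1 / M - 1 / M'))) :=
          add_le_add b1 b2
      _ = _ := by ring
  have hQQ : Q + 1 ≤ 2 * Q := by omega
  have htel := F06b_tele (fun D => 1 / ((k * D * b : ℕ) : ℝ)) (Q + 1) (2 * Q) hQQ
  have hsum := sum_le_sum hterm
  rw [← mul_sum] at hsum
  have hS1 : ∑ D ∈ Ico (Q + 1) (2 * Q),
      (1 / ((k * D * b : ℕ) : ℝ) - 1 / ((k * (D + 1) * b : ℕ) : ℝ)) ≤ 1 / P := by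
    rw [htel]
    have a1 : 1 / ((k * (Q + 1) * b : ℕ) : ℝ) ≤ 1 / P :=
      one_div_le_one_div_of_le hP (hMlow (Q + 1) (by omega))
    have a2 : 0 ≤ 1 / ((k * (2 * Q) * b : ℕ) : ℝ) := by positivity
    linarith
  have hc0 : 0 ≤ γ + 8 * Real.pi * (A + L) * γ * h / P := by positivity
  refine (hsum.trans (mul_le_mul_of_nonneg_left hS1 hc0)).trans ?_
  unfold phi
  have hle : γ + 8 * Real.pi * (A + L) * γ * h / P ≤ γ + 8 * Real.pi * (A + L) * γ * (2 * H1) / P := by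
    have : 8 * Real.pi * (A + L) * γ * h / P ≤ 8 * Real.pi * (A + L) * γ * (2 * H1) / P :=
      div_le_div_of_nonneg_right (mul_le_mul_of_nonneg_left hhR2 (by positivity)) hP.le
    linarith
  calc (γ + 8 * Real.pi * (A + L) * γ * h / P) * (1 / P)
      ≤ (γ + 8 * Real.pi * (A + L) * γ * (2 * H1) / P) * (1 / P) :=
        mul_le_mul_of_nonneg_right hle (by positivity)
    _ = γ / P * (1 + 16 * Real.pi * (A + L) * H1 / P) := by ring

end Pool.Agent.Lib.MP_bae66e_nt.P2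

namespace Pool.Agent.Lib.MP_bae66e_nt.P2

open Finset

/-- Variation of a product. PROOF: `f' g' - f g = (f' - f) g' + f (g' - g)`. -/
theorem prod_var (f g : ℕ → ℂ) (U V : ℕ) (c Vf Vg : ℝ) (hc : 0 ≤ c)
    (hf : ∀ D ∈ Icc (U + 1) V, ‖f D‖ ≤ c) (hg : ∀ D ∈ Icc (U + 1) V, ‖g D‖ ≤ c)
    (hVf : ∑ D ∈ Ico (U + 1) V, ‖f (D + 1) - f D‖ ≤ Vf)
    (hVg : ∑ D ∈ Ico (U + 1) V, ‖g (D + 1) - g D‖ ≤ Vg) :
    ∑ D ∈ Ico (U + 1) V, ‖f (D + 1) * (starRingEnd ℂ) (g (D + 1)) - f D * (starRingEnd ℂ) (g D)‖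
      ≤ c * (Vf + Vg) := by
  have hterm : ∀ D ∈ Ico (U + 1) V,
      ‖f (D + 1) * (starRingEnd ℂ) (g (D + 1)) - f D * (starRingEnd ℂ) (g D)‖
        ≤ c * ‖f (D + 1) - f D‖ + c * ‖g (D + 1) - g D‖ := by
    intro D hD
    rw [mem_Ico] at hD
    have hf1 := hf D (mem_Icc.2 ⟨hD.1, hD.2.le⟩)
    have hg1 := hg (D + 1) (mem_Icc.2 ⟨by omega, by omega⟩)
    have e : f (D + 1) * (starRingEnd ℂ) (g (D + 1)) - f D * (starRingEnd ℂ) (g D)
        = (f (D + 1) - f D) * (starRingEnd ℂ) (g (D + 1))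
          + f D * (starRingEnd ℂ) (g (D + 1) - g D) := by
      rw [map_sub]; ring
    rw [e]
    refine (norm_add_le _ _).trans ?_
    rw [norm_mul, norm_mul, RCLike.norm_conj, RCLike.norm_conj]
    have h1 := norm_nonneg (f (D + 1) - f D)
    have h2 := norm_nonneg (g (D + 1) - g D)
    nlinarith [mul_le_mul_of_nonneg_left hg1 h1, mul_le_mul_of_nonneg_right hf1 h2]
  refine (sum_le_sum hterm).trans ?_
  rw [sum_add_distrib, ← mul_sum, ← mul_sum]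
  nlinarith [mul_le_mul_of_nonneg_left hVf hc, mul_le_mul_of_nonneg_left hVg hc]

end Pool.Agent.Lib.MP_bae66e_nt.P2

namespace Pool.Agent.Lib.MP_bae66e_nt.P2

open Finset

private theorem F07a_orth (N : ℕ) (hN : 1 ≤ N) (n : ℤ) :
    ∑ h ∈ range N, ee ((h : ℝ) * n / N) = if (N : ℤ) ∣ n then (N : ℂ) else 0 := by
  have hN0 : (N : ℝ) ≠ 0 := by
    have : (0 : ℝ) < N := by exact_mod_cast hN
    exact this.ne'
  split_ifs with h
  · obtain ⟨m, rfl⟩ := h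
    have h1 : ∀ h ∈ range N, ee ((h : ℝ) * (((N : ℤ) * m : ℤ) : ℝ) / N) = 1 := by
      intro h _
      have h2 : (h : ℝ) * (((N : ℤ) * m : ℤ) : ℝ) / N = (((h : ℤ) * m : ℤ) : ℝ) := by
        push_cast
        field_simp
      rw [h2, ee_int]
    rw [Finset.sum_congr rfl h1]
    simp
  · have h1 : ∀ h ∈ range N, ee ((h : ℝ) * n / N) = ee ((n : ℝ) / N) ^ h := by
      intro h _
      rw [← ee_nat_mul, mul_div_assoc]
    rw [Finset.sum_congr rfl h1]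
    have hz : ee ((n : ℝ) / N) ≠ 1 := by
      intro hz
      apply h
      unfold ee at hz
      rw [Complex.exp_eq_one_iff] at hz
      obtain ⟨m, hm⟩ := hz
      have h2 : (2 * Real.pi * Complex.I : ℂ) ≠ 0 := Complex.two_pi_I_ne_zero
      have h3 : (((n : ℝ) / N : ℝ) : ℂ) = (m : ℂ) := by
        apply mul_right_cancel₀ h2
        rw [← hm]
        ring
      have h4 : (n : ℝ) / N = (m : ℝ) := by
        exact_mod_cast h3
      rw [div_eq_iff hN0] at h4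
      refine ⟨m, ?_⟩
      have h5 : n = m * (N : ℤ) := by exact_mod_cast h4
      rw [h5, mul_comm]
    have hzN : ee ((n : ℝ) / N) ^ N = 1 := by
      rw [← ee_nat_mul, mul_div_cancel₀ _ hN0, ee_int]
    have h2 := mul_geom_sum (ee ((n : ℝ) / N)) N
    rw [hzN, sub_self] at h2
    rcases mul_eq_zero.1 h2 with h3 | h3
    · exact absurd (sub_eq_zero.1 h3) hz
    · exact h3

/-- The exact Fourier expansion.
PROOF. `1_{N ∣ n} = (1 / N) ∑_{h < N} ee (h n / N)`; sum over `n = A₀ + i - j - ρ`: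
`∑_{i, j} ee (h (A₀ + i - j - ρ) / N) = ee (h (A₀ - ρ) / N) GG(h/N) conj (GG(h/N))`. The term
`h = 0` is `L² / N`. -/
theorem Er_expand (A0 L N : ℕ) (hN : 1 ≤ N) (ρ : ℤ) :
    (Er A0 L N ρ : ℂ) = ∑ h ∈ Ico 1 N,
      ((1 / (N : ℝ) : ℝ) : ℂ) * ee (h * ((A0 : ℝ) - ρ) / N) * ((‖GG L (h / N)‖ ^ 2 : ℝ) : ℂ) := by
  have hN0 : (N : ℝ) ≠ 0 := by
    have : (0 : ℝ) < N := by exact_mod_cast hN
    exact this.ne'
  have hNc : (N : ℂ) ≠ 0 := by exact_mod_cast hN0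
  have hcard : (#((range L ×ˢ range L).filter (fun z => (N : ℤ) ∣ (A0 : ℤ) + z.1 - z.2 - ρ)) : ℂ)
      = ∑ h ∈ range N, ((1 / (N : ℝ) : ℝ) : ℂ) * ee (h * ((A0 : ℝ) - ρ) / N)
        * ((‖GG L (h / N)‖ ^ 2 : ℝ) : ℂ) := by
    rw [Finset.card_filter]
    push_cast
    have h1 : ∀ z ∈ range L ×ˢ range L,
        (if (N : ℤ) ∣ (A0 : ℤ) + z.1 - z.2 - ρ then (1 : ℂ) else 0)
          = ∑ h ∈ range N, (1 / (N : ℂ)) * ee ((h : ℝ) * (((A0 : ℤ) + z.1 - z.2 - ρ : ℤ) : ℝ) / N) := by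
      intro z _
      rw [← Finset.mul_sum, F07a_orth N hN]
      split_ifs
      · field_simp
      · simp
    rw [Finset.sum_congr rfl h1, Finset.sum_comm]
    refine Finset.sum_congr rfl ?_
    intro h _
    rw [← Finset.mul_sum]
    have h2 : ∀ z ∈ range L ×ˢ range L,
        ee ((h : ℝ) * (((A0 : ℤ) + z.1 - z.2 - ρ : ℤ) : ℝ) / N)
          = ee ((h : ℝ) * ((A0 : ℝ) - ρ) / N) *
            (ee ((z.1 : ℝ) * ((h : ℝ) / N)) * (starRingEnd ℂ) (ee ((z.2 : ℝ) * ((h : ℝ) / N)))) := by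
      intro z _
      rw [← ee_neg, ← ee_add, ← ee_add]
      congr 1
      push_cast
      ring
    rw [Finset.sum_congr rfl h2, ← Finset.mul_sum]
    have h3 : ∑ z ∈ range L ×ˢ range L,
        (ee ((z.1 : ℝ) * ((h : ℝ) / N)) * (starRingEnd ℂ) (ee ((z.2 : ℝ) * ((h : ℝ) / N))))
          = ((‖GG L (h / N)‖ ^ 2 : ℝ) : ℂ) := by
      rw [Finset.sum_product]
      simp only [← Finset.mul_sum]
      rw [← Finset.sum_mul, ← map_sum]
      have h4 : ∑ i ∈ range L, ee ((i : ℝ) * ((h : ℝ) / N)) = GG L (h / N) := rfl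
      rw [h4, Complex.mul_conj, Complex.normSq_eq_norm_sq]
    rw [h3]
    push_cast
    ring
  have hsplit : range N = insert 0 (Ico 1 N) := by
    ext x
    simp only [Finset.mem_range, Finset.mem_insert, Finset.mem_Ico]
    omega
  have h0 : (0 : ℕ) ∉ Ico 1 N := by simp
  unfold Er
  push_cast
  rw [hcard, hsplit, Finset.sum_insert h0]
  have h5 : GG L ((0 : ℕ) / (N : ℝ)) = L := by
    unfold GG
    simp [ee_zero]
  rw [h5]
  have h6 : ee (((0 : ℕ) : ℝ) * ((A0 : ℝ) - ρ) / N) = 1 := by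
    simp [ee_zero]
  rw [h6]
  simp only [Complex.norm_natCast]
  push_cast
  ring

end Pool.Agent.Lib.MP_bae66e_nt.P2

namespace Pool.Agent.Lib.MP_bae66e_nt.P2

open Finset

private theorem F07b_GG_refl (L : ℕ) (θ : ℝ) : ‖GG L (1 - θ)‖ = ‖GG L θ‖ := by
  have h1 : GG L (1 - θ) = (starRingEnd ℂ) (GG L θ) := by
    unfold GG
    rw [map_sum]
    refine Finset.sum_congr rfl ?_
    intro i _
    rw [← ee_neg]
    have h2 : (i : ℝ) * (1 - θ) = -((i : ℝ) * θ) + ((i : ℤ) : ℝ) := by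
      push_cast
      ring
    rw [h2, ee_add_int]
  rw [h1, RCLike.norm_conj]

private theorem F07b_conj (A0 L N h : ℕ) (hN : 1 ≤ N) (hh : h ≤ N) (ρ : ℤ) :
    ((1 / (N : ℝ) : ℝ) : ℂ) * ee (((N - h : ℕ) : ℝ) * ((A0 : ℝ) - ρ) / N)
        * ((‖GG L (((N - h : ℕ) : ℝ) / N)‖ ^ 2 : ℝ) : ℂ)
      = (starRingEnd ℂ) (((1 / (N : ℝ) : ℝ) : ℂ) * ee ((h : ℝ) * ((A0 : ℝ) - ρ) / N)
        * ((‖GG L ((h : ℝ) / N)‖ ^ 2 : ℝ) : ℂ)) := by
  have hN0 : (N : ℝ) ≠ 0 := by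
    have : (0 : ℝ) < N := by exact_mod_cast hN
    exact this.ne'
  have h1 : ((N - h : ℕ) : ℝ) = (N : ℝ) - h := by
    rw [Nat.cast_sub hh]
  rw [h1, map_mul, map_mul, Complex.conj_ofReal, Complex.conj_ofReal]
  have h2 : ((N : ℝ) - h) / N = 1 - (h : ℝ) / N := by
    field_simp
  have h3 : ((N : ℝ) - h) * ((A0 : ℝ) - ρ) / N
      = -((h : ℝ) * ((A0 : ℝ) - ρ) / N) + (((A0 : ℤ) - ρ : ℤ) : ℝ) := by
    push_cast
    field_simp
    ring
  rw [h2, h3, ee_add_int, ee_neg, F07b_GG_refl]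

private theorem F07b_term (A0 L N h : ℕ) (hN : 1 ≤ N) (h1 : 1 ≤ h) (h2 : h < N) (ρ : ℤ) :
    ‖((1 / (N : ℝ) : ℝ) : ℂ) * ee ((h : ℝ) * ((A0 : ℝ) - ρ) / N)
        * ((‖GG L ((h : ℝ) / N)‖ ^ 2 : ℝ) : ℂ)‖
      ≤ (N : ℝ) / 4 * (((h : ℝ) ^ 2)⁻¹ + ((((N - h : ℕ) : ℝ)) ^ 2)⁻¹) := by
  have hN0 : (0 : ℝ) < N := by exact_mod_cast hN
  have hh0 : (0 : ℝ) < h := by exact_mod_cast h1
  have hc : ((N - h : ℕ) : ℝ) = (N : ℝ) - h := by
    rw [Nat.cast_sub h2.le]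
  have hh1 : (0 : ℝ) < (N : ℝ) - h := by
    have : (h : ℝ) < N := by exact_mod_cast h2
    linarith
  rw [norm_mul, norm_mul, norm_ee, mul_one, Complex.norm_real, Complex.norm_real,
    Real.norm_of_nonneg (by positivity), Real.norm_of_nonneg (by positivity), hc]
  have key : ∀ x : ℝ, 0 < x → x ≤ N / 2 → ‖GG L (x / N)‖ ^ 2 ≤ (N : ℝ) ^ 2 / 4 * (x ^ 2)⁻¹ := by
    intro x hx hx2
    have h3 := GG_le' L (x / N) (by positivity) (by
      rw [div_le_iff₀ hN0]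
      linarith)
    have h4 : ‖GG L (x / N)‖ ^ 2 ≤ (1 / (2 * (x / N))) ^ 2 := by
      exact pow_le_pow_left₀ (norm_nonneg _) h3 2
    refine h4.trans (le_of_eq ?_)
    field_simp
    ring
  have hfin : ∀ x : ℝ, ‖GG L ((h : ℝ) / N)‖ ^ 2 ≤ (N : ℝ) ^ 2 / 4 * x →
      1 / (N : ℝ) * ‖GG L ((h : ℝ) / N)‖ ^ 2 ≤ (N : ℝ) / 4 * x := by
    intro x hx
    have h5 : 1 / (N : ℝ) * ‖GG L ((h : ℝ) / N)‖ ^ 2 ≤ 1 / (N : ℝ) * ((N : ℝ) ^ 2 / 4 * x) :=
      mul_le_mul_of_nonneg_left hx (by positivity)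
    refine h5.trans (le_of_eq ?_)
    field_simp
  apply hfin
  rcases le_total (h : ℝ) (N / 2) with h6 | h6
  · refine (key _ hh0 h6).trans ?_
    have : (0 : ℝ) ≤ (N : ℝ) ^ 2 / 4 * (((N : ℝ) - h) ^ 2)⁻¹ := by positivity
    rw [mul_add]
    linarith
  · have h7 := key ((N : ℝ) - h) hh1 (by linarith)
    have h8 : ((N : ℝ) - h) / N = 1 - (h : ℝ) / N := by
      field_simp
    rw [h8, F07b_GG_refl] at h7
    refine h7.trans ?_
    have : (0 : ℝ) ≤ (N : ℝ) ^ 2 / 4 * ((h : ℝ) ^ 2)⁻¹ := by positivity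
    rw [mul_add]
    linarith

/-- The truncated expansion.
PROOF. In `Er_expand` the terms for `h` and `N - h` are complex conjugates
(`ee ((N - h) (A₀ - ρ) / N) = ee (-h (A₀ - ρ) / N)` as `A₀ - ρ` is an integer, and
`GG L ((N - h) / N) = conj (GG L (h / N))`). So the terms `1 ≤ h < Y` and `N - Y < h < N` together are
twice the real part of the sum over `1 ≤ h < Y` (the ranges are disjoint as `2 Y < N`). The terms
`Y ≤ h ≤ N - Y` are at most `(1 / N) (N / (2 min (h, N - h)))²` (`GG_le'`; for `h > N / 2` by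
conjugation), so their sum is at most `2 (N / 4) ∑_{h ≥ Y} 1 / h² ≤ N / Y`
(`∑_{h ≥ Y} h^(-2) ≤ 2 / Y`). -/
theorem Er_trunc (A0 L N Y : ℕ) (hY : 1 ≤ Y) (hN : 2 * Y < N) (ρ : ℤ) :
    |Er A0 L N ρ - 2 * (∑ h ∈ Ico 1 Y, ((1 / (N : ℝ) : ℝ) : ℂ) * ee (h * ((A0 : ℝ) - ρ) / N)
        * ((‖GG L (h / N)‖ ^ 2 : ℝ) : ℂ)).re| ≤ (N : ℝ) / Y := by
  have hN1 : 1 ≤ N := by omega
  have hN0 : (0 : ℝ) < N := by exact_mod_cast hN1
  have hY0 : (0 : ℝ) < Y := by exact_mod_cast hY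
  set t : ℕ → ℂ := fun h => ((1 / (N : ℝ) : ℝ) : ℂ) * ee ((h : ℝ) * ((A0 : ℝ) - ρ) / N)
        * ((‖GG L ((h : ℝ) / N)‖ ^ 2 : ℝ) : ℂ) with ht
  have hexp : (Er A0 L N ρ : ℂ) = ∑ h ∈ Ico 1 N, t h := Er_expand A0 L N hN1 ρ
  have hs1 : ∑ h ∈ Ico 1 N, t h = ∑ h ∈ Ico 1 Y, t h + ∑ h ∈ Ico Y (N + 1 - Y), t h
      + ∑ h ∈ Ico (N + 1 - Y) N, t h := by
    rw [Finset.sum_Ico_consecutive _ hY (by omega), Finset.sum_Ico_consecutive _ (by omega) (by omega)]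
  have hs2 : ∑ h ∈ Ico (N + 1 - Y) N, t h = (starRingEnd ℂ) (∑ h ∈ Ico 1 Y, t h) := by
    have h1 := Finset.sum_Ico_reflect t 1 (m := Y) (n := N) (by omega)
    have h2 : N + 1 - 1 = N := by omega
    rw [h2] at h1
    rw [← h1, map_sum]
    refine Finset.sum_congr rfl ?_
    intro h hh
    rw [Finset.mem_Ico] at hh
    exact F07b_conj A0 L N h hN1 (by omega) ρ
  have hre : Er A0 L N ρ = 2 * (∑ h ∈ Ico 1 Y, t h).re + (∑ h ∈ Ico Y (N + 1 - Y), t h).re := by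
    have h1 := congrArg Complex.re hexp
    rw [hs1, hs2] at h1
    simp only [Complex.ofReal_re, Complex.add_re, Complex.conj_re] at h1
    rw [h1]
    ring
  have hsub : Er A0 L N ρ - 2 * (∑ h ∈ Ico 1 Y, t h).re = (∑ h ∈ Ico Y (N + 1 - Y), t h).re := by
    rw [hre]
    ring
  change |Er A0 L N ρ - 2 * (∑ h ∈ Ico 1 Y, t h).re| ≤ (N : ℝ) / Y
  rw [hsub]
  refine (Complex.abs_re_le_norm _).trans ?_
  refine (norm_sum_le _ _).trans ?_
  have hb : ∑ h ∈ Ico Y (N + 1 - Y), ‖t h‖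
      ≤ ∑ h ∈ Ico Y (N + 1 - Y), (N : ℝ) / 4 * (((h : ℝ) ^ 2)⁻¹ + ((((N - h : ℕ) : ℝ)) ^ 2)⁻¹) := by
    refine Finset.sum_le_sum ?_
    intro h hh
    rw [Finset.mem_Ico] at hh
    exact F07b_term A0 L N h hN1 (by omega) (by omega) ρ
  refine hb.trans ?_
  rw [← Finset.mul_sum, Finset.sum_add_distrib]
  have hr : ∑ h ∈ Ico Y (N + 1 - Y), ((((N - h : ℕ) : ℝ)) ^ 2)⁻¹
      = ∑ h ∈ Ico Y (N + 1 - Y), ((h : ℝ) ^ 2)⁻¹ := by
    have h1 := Finset.sum_Ico_reflect (fun h : ℕ => ((h : ℝ) ^ 2)⁻¹) Y (m := N + 1 - Y) (n := N)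
      (by omega)
    have h2 : N + 1 - (N + 1 - Y) = Y := by omega
    rw [h2] at h1
    exact h1
  rw [hr]
  have hsq : ∑ h ∈ Ico Y (N + 1 - Y), ((h : ℝ) ^ 2)⁻¹ ≤ 2 / Y := by
    have h1 := sum_Ioo_inv_sq_le (α := ℝ) (Y - 1) (N + 1 - Y)
    have h2 : Ioo (Y - 1) (N + 1 - Y) = Ico Y (N + 1 - Y) := by
      ext x
      simp only [Finset.mem_Ioo, Finset.mem_Ico]
      omega
    rw [h2] at h1
    have h3 : (((Y - 1 : ℕ) : ℝ) + 1) = Y := by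
      rw [Nat.cast_sub hY]
      push_cast
      ring
    rw [h3] at h1
    exact h1
  have : (N : ℝ) / 4 * (∑ h ∈ Ico Y (N + 1 - Y), ((h : ℝ) ^ 2)⁻¹
      + ∑ h ∈ Ico Y (N + 1 - Y), ((h : ℝ) ^ 2)⁻¹) ≤ (N : ℝ) / 4 * (2 / Y + 2 / Y) :=
    mul_le_mul_of_nonneg_left (by linarith) (by positivity)
  refine this.trans (le_of_eq ?_)
  field_simp
  ring

end Pool.Agent.Lib.MP_bae66e_nt.P2

namespace Pool.Agent.Lib.MP_bae66e_nt.P2

open Finset

private lemma F07c_count (L N : ℕ) (hN : 1 ≤ N) (c : ℤ) :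
    |(#((range L).filter (fun i : ℕ => (N : ℤ) ∣ (i : ℤ) + c)) : ℝ) - (L : ℝ) / N| ≤ 1 := by
  have hN0 : (N : ℤ) ≠ 0 := by omega
  have hNpos : (0 : ℤ) < N := by omega
  set v : ℕ := ((-c) % (N : ℤ)).toNat with hv
  have hvc : (v : ℤ) = (-c) % (N : ℤ) := by
    rw [hv, Int.toNat_of_nonneg (Int.emod_nonneg _ hN0)]
  have hfil : (range L).filter (fun i : ℕ => (N : ℤ) ∣ (i : ℤ) + c) =
      (range L).filter (fun i : ℕ => i ≡ v [MOD N]) := by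
    apply Finset.filter_congr
    intro i _
    rw [← Int.natCast_modEq_iff, hvc]
    constructor
    · intro h
      have h1 : (i : ℤ) ≡ -c [ZMOD N] := by
        rw [Int.modEq_iff_dvd]
        have : -c - (i : ℤ) = -((i : ℤ) + c) := by ring
        rw [this]
        exact (dvd_neg).2 h
      exact h1.trans (Int.mod_modEq _ _).symm
    · intro h
      have h1 : (i : ℤ) ≡ -c [ZMOD N] := h.trans (Int.mod_modEq _ _)
      rw [Int.modEq_iff_dvd] at h1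
      have : (i : ℤ) + c = -(-c - (i : ℤ)) := by ring
      rw [this]
      exact (dvd_neg).2 h1
  rw [hfil, ← Nat.count_eq_card_filter_range, Nat.count_modEq_card L (by omega : 0 < N) v]
  have hNR : (0 : ℝ) < N := by exact_mod_cast (show 0 < N by omega)
  have hdiv : (L : ℝ) / N = ((L / N : ℕ) : ℝ) + ((L % N : ℕ) : ℝ) / N := by
    rw [div_eq_iff hNR.ne', add_mul, div_mul_cancel₀ _ hNR.ne']
    have := Nat.div_add_mod L N
    have h2 : (N : ℝ) * ((L / N : ℕ) : ℝ) + ((L % N : ℕ) : ℝ) = L := by exact_mod_cast this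
    linarith
  have hr0 : (0 : ℝ) ≤ ((L % N : ℕ) : ℝ) / N := by positivity
  have hr1 : ((L % N : ℕ) : ℝ) / N ≤ 1 := by
    rw [div_le_one hNR]
    exact_mod_cast (Nat.mod_lt L (by omega)).le
  rw [hdiv, abs_le]
  split_ifs
  · push_cast
    constructor <;> linarith
  · push_cast
    constructor <;> linarith

/-- The trivial bound.
PROOF. For fixed `j` the number of `i < L` with `i ≡ c` modulo `N` is `L / N + O(1)` with constant `1`;
sum over `j < L`. -/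
theorem Er_trivial (A0 L N : ℕ) (hN : 1 ≤ N) (ρ : ℤ) : |Er A0 L N ρ| ≤ L := by
  have h1 : (#((range L ×ˢ range L).filter
      (fun z => (N : ℤ) ∣ (A0 : ℤ) + z.1 - z.2 - ρ)) : ℝ) =
      ∑ j ∈ range L, (#((range L).filter
        (fun i : ℕ => (N : ℤ) ∣ (i : ℤ) + ((A0 : ℤ) - j - ρ))) : ℝ) := by
    rw [← Nat.cast_sum]
    congr 1
    rw [Finset.card_filter, Finset.sum_product_right]
    apply Finset.sum_congr rfl
    intro j _
    rw [Finset.card_filter]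
    apply Finset.sum_congr rfl
    intro i _
    have : (A0 : ℤ) + i - j - ρ = (i : ℤ) + ((A0 : ℤ) - j - ρ) := by ring
    rw [this]
  have h2 : (L : ℝ) ^ 2 / N = ∑ _j ∈ range L, (L : ℝ) / N := by
    rw [Finset.sum_const, Finset.card_range, nsmul_eq_mul]
    ring
  rw [Er, h1, h2, ← Finset.sum_sub_distrib]
  refine (Finset.abs_sum_le_sum_abs _ _).trans ?_
  refine (Finset.sum_le_sum (fun j _ => F07c_count L N hN _)).trans ?_
  rw [Finset.sum_const, Finset.card_range, nsmul_eq_mul, mul_one]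

end Pool.Agent.Lib.MP_bae66e_nt.P2

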