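import Pool.Agent.Lib.MP_bae66e_nt.P2.KF1
import Pool.Agent.Lib.MP_bae66e_nt.P2.KF2

set_option autoImplicit false

namespace Pool.Agent.Lib.MP_bae66e_nt.P2

open Finset

private theorem F08a_one (k b l D : ℕ) (hk : 0 < k) (hb : 0 < b) (hl : 0 < l) (hbl : b ∣ l) (x : ℤ)
    (hD : Nat.Coprime D (k * l)) :
    kf (k * b) x D = kf (k * l) ((l / b : ℕ) * x) D := by
  obtain ⟨m, rfl⟩ := hbl
  have hm : 0 < m := Nat.pos_of_ne_zero (by rintro rfl; simp at hl)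
  have h1 : b * m / b = m := Nat.mul_div_cancel_left m hb
  rw [h1]
  have h2 : k * (b * m) = m * (k * b) := by ring
  rw [h2] at hD ⊢
  exact kf_lift (k * b) m (Nat.mul_pos hk hb) hm x D hD

/-- The two phases combine to one Kloosterman fraction modulo `R = k lcm (b₁, b₂)`.
PROOF. With `mᵢ = R / (k bᵢ)` (an integer as `bᵢ ∣ lcm`), `kf_lift` for both factors and
`kf_mul_conj`. -/
theorem phase_pair (k b₁ b₂ D : ℕ) (hk : 0 < k) (hb₁ : 0 < b₁) (hb₂ : 0 < b₂) (x₁ x₂ : ℤ)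
    (hD : Nat.Coprime D (k * Nat.lcm b₁ b₂)) :
    kf (k * b₁) x₁ D * (starRingEnd ℂ) (kf (k * b₂) x₂ D)
      = kf (k * Nat.lcm b₁ b₂)
          ((Nat.lcm b₁ b₂ / b₁ : ℕ) * x₁ - (Nat.lcm b₁ b₂ / b₂ : ℕ) * x₂) D := by
  have hl : 0 < Nat.lcm b₁ b₂ := Nat.lcm_pos hb₁ hb₂
  rw [F08a_one k b₁ _ D hk hb₁ hl (Nat.dvd_lcm_left b₁ b₂) x₁ hD,
    F08a_one k b₂ _ D hk hb₂ hl (Nat.dvd_lcm_right b₁ b₂) x₂ hD, kf_mul_conj]

end Pool.Agent.Lib.MP_bae66e_nt.P2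

namespace Pool.Agent.Lib.MP_bae66e_nt.P2

open Finset

/-- The greatest common divisor of the frequency and the modulus.
PROOF. Put `κ = b₁ / n₁ = b₂ / n₂`, `ℓ = lcm b₁ b₂`, `m₁ = ℓ / b₁`, `m₂ = ℓ / b₂`, `R = k ℓ`; `κ ∣ ℓ`.
`gcd (t, R) ≤ gcd (t, κ) * (R / κ)` (`gcd (t, x y) ∣ gcd (t, x) gcd (t, y)`). Modulo `κ`
(which divides `b₁` and `b₂`) `v b₁ ≡ v b₂ ≡ a`, so `t ≡ -a (m₁ h₁ - m₂ h₂)` and, `a` being prime to
`κ`, `gcd (t, κ) = gcd (m₁ h₁ - m₂ h₂, κ)`. From `m₁ b₁ = m₂ b₂ = ℓ` we get `m₁ n₁ = m₂ n₂`, and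
`m₁ h₁ = m₂ h₂` would give `h₁ n₂ = h₂ n₁` (multiply by `n₁ n₂`). So
`gcd (t, κ) ≤ |m₁ h₁ - m₂ h₂| ≤ max (m₁ h₁, m₂ h₂) ≤ 2 N0 * 2 H1`, because `m₁ ∣ n₂`
(`ℓ ∣ κ n₁ n₂ = b₁ n₂`) and `h₁ < 2 H1`. Finally `R / κ = R * (1/κ)` and
`κ = b₁ / n₁ > Q' / (2 N0)`, so `gcd (t, R) / R ≤ 4 N0 H1 / κ ≤ 8 N0² H1 / Q'`. -/
theorem gcd_le {k Q Q' N0 : ℕ} {a : ℤ} {ℬ : Finset ℕ} {nn : ℕ → ℕ} {v : ℕ → ℤ}
    (S : Blk k Q Q' N0 a ℬ nn v) (b₁ b₂ : ℕ) (hb₁ : b₁ ∈ ℬ) (hb₂ : b₂ ∈ ℬ)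
    (hκ : b₁ / nn b₁ = b₂ / nn b₂) (H1 h₁ h₂ : ℕ) (hh₁ : h₁ < 2 * H1) (hh₂ : h₂ < 2 * H1)
    (hne : h₁ * nn b₂ ≠ h₂ * nn b₁) :
    ((Int.gcd ((Nat.lcm b₁ b₂ / b₁ : ℕ) * (-(h₁ * v b₁)) - (Nat.lcm b₁ b₂ / b₂ : ℕ) * (-(h₂ * v b₂)))
        ((k * Nat.lcm b₁ b₂ : ℕ) : ℤ) : ℕ) : ℝ) / ((k * Nat.lcm b₁ b₂ : ℕ) : ℝ)
      ≤ 8 * (N0 : ℝ) ^ 2 * H1 / Q' := by
  have hn1 : nn b₁ ∣ b₁ := S.dvd b₁ hb₁
  have hn2 : nn b₂ ∣ b₂ := S.dvd b₂ hb₂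
  have e1 : b₁ / nn b₁ * nn b₁ = b₁ := Nat.div_mul_cancel hn1
  have e2 : b₁ / nn b₁ * nn b₂ = b₂ := by rw [hκ]; exact Nat.div_mul_cancel hn2
  have hl1 := S.lo b₁ hb₁
  have hl2 := S.lo b₂ hb₂
  have hi1 := S.nhi b₁ hb₁
  have hi2 := S.nhi b₂ hb₂
  have hv1 := S.va b₁ hb₁
  have hv2 := S.va b₂ hb₂
  have hac := S.acop b₁ hb₁
  have hQ' := S.hQ'
  have hN0 := S.hN0
  have hk := S.hk
  generalize nn b₁ = n₁ at *
  generalize nn b₂ = n₂ at *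
  generalize v b₁ = v₁ at *
  generalize v b₂ = v₂ at *
  generalize b₁ / n₁ = κ at *
  have hb1pos : 0 < b₁ := by omega
  have hb2pos : 0 < b₂ := by omega
  have hℓpos : 0 < Nat.lcm b₁ b₂ := Nat.lcm_pos hb1pos hb2pos
  have hκpos : 0 < κ := by
    rcases Nat.eq_zero_or_pos κ with h | h
    · subst h; omega
    · exact h
  obtain ⟨m₁, hm₁⟩ := Nat.dvd_lcm_left b₁ b₂
  obtain ⟨m₂, hm₂⟩ := Nat.dvd_lcm_right b₁ b₂
  have d1 : Nat.lcm b₁ b₂ / b₁ = m₁ := by rw [hm₁]; exact Nat.mul_div_cancel_left _ hb1pos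
  have d2 : Nat.lcm b₁ b₂ / b₂ = m₂ := by rw [hm₂]; exact Nat.mul_div_cancel_left _ hb2pos
  have hm12 : m₁ ∣ n₂ := by
    have h : Nat.lcm b₁ b₂ ∣ b₁ * n₂ := by
      apply Nat.lcm_dvd (Dvd.intro _ rfl)
      rw [← e1, ← e2]
      exact ⟨n₁, by ring⟩
    rw [hm₁] at h
    exact Nat.dvd_of_mul_dvd_mul_left hb1pos h
  have hm21 : m₂ ∣ n₁ := by
    have h : Nat.lcm b₁ b₂ ∣ b₂ * n₁ := by
      apply Nat.lcm_dvd _ (Dvd.intro _ rfl)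
      rw [← e1, ← e2]
      exact ⟨n₂, by ring⟩
    rw [hm₂] at h
    exact Nat.dvd_of_mul_dvd_mul_left hb2pos h
  have hn1pos : 0 < n₁ := by
    rcases Nat.eq_zero_or_pos n₁ with h | h
    · subst h; omega
    · exact h
  have hn2pos : 0 < n₂ := by
    rcases Nat.eq_zero_or_pos n₂ with h | h
    · subst h; omega
    · exact h
  have hmn : m₁ * n₁ = m₂ * n₂ := by
    have h : κ * (m₁ * n₁) = κ * (m₂ * n₂) := by
      have h1 : b₁ * m₁ = b₂ * m₂ := by rw [← hm₁, ← hm₂]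
      rw [← e1, ← e2] at h1
      linarith [h1, mul_comm m₁ n₁, show κ * (m₁ * n₁) = κ * n₁ * m₁ by ring,
        show κ * (m₂ * n₂) = κ * n₂ * m₂ by ring]
    exact Nat.eq_of_mul_eq_mul_left hκpos h
  have hm1pos : 0 < m₁ := by
    rcases Nat.eq_zero_or_pos m₁ with h | h
    · subst h; omega
    · exact h
  have hm2pos : 0 < m₂ := by
    rcases Nat.eq_zero_or_pos m₂ with h | h
    · subst h; omega
    · exact h
  have hmh : m₁ * h₁ ≠ m₂ * h₂ := by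
    intro h
    apply hne
    have h' : m₁ * (h₁ * n₂) = m₁ * (h₂ * n₁) := by
      calc m₁ * (h₁ * n₂) = (m₁ * h₁) * n₂ := by ring
        _ = (m₂ * h₂) * n₂ := by rw [h]
        _ = (m₂ * n₂) * h₂ := by ring
        _ = (m₁ * n₁) * h₂ := by rw [hmn]
        _ = m₁ * (h₂ * n₁) := by ring
    exact Nat.eq_of_mul_eq_mul_left hm1pos h'
  have hκℓ : κ ∣ k * Nat.lcm b₁ b₂ := by
    apply Dvd.dvd.mul_left
    exact (Dvd.intro _ e1).trans (Nat.dvd_lcm_left b₁ b₂)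
  have hκb1 : (κ : ℤ) ∣ (b₁ : ℤ) := by exact_mod_cast Dvd.intro _ e1
  have hκb2 : (κ : ℤ) ∣ (b₂ : ℤ) := by exact_mod_cast Dvd.intro _ e2
  rw [d1, d2]
  set t : ℤ := (m₁ : ℤ) * (-(h₁ * v₁)) - (m₂ : ℤ) * (-(h₂ * v₂)) with ht
  -- the divisibility
  obtain ⟨r, hr⟩ := hκℓ
  have hrpos : 0 < r := by
    rcases Nat.eq_zero_or_pos r with h | h
    · subst h
      have : 0 < k * Nat.lcm b₁ b₂ := Nat.mul_pos (by omega) hℓpos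
      omega
    · exact h
  set w : ℤ := (m₁ : ℤ) * h₁ - m₂ * h₂ with hw
  have hw0 : w ≠ 0 := by
    intro h
    apply hmh
    have h' : ((m₁ * h₁ : ℕ) : ℤ) = ((m₂ * h₂ : ℕ) : ℤ) := by push_cast; linarith [h, hw]
    exact_mod_cast h'
  have hg1 : Int.gcd t (κ : ℤ) ∣ w.natAbs := by
    have hd1 : ((Int.gcd t (κ : ℤ) : ℕ) : ℤ) ∣ t := Int.gcd_dvd_left ..
    have hd2 : ((Int.gcd t (κ : ℤ) : ℕ) : ℤ) ∣ (κ : ℤ) := Int.gcd_dvd_right ..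
    have h1 : ((Int.gcd t (κ : ℤ) : ℕ) : ℤ) ∣ a * w := by
      have hx1 : ((Int.gcd t (κ : ℤ) : ℕ) : ℤ) ∣ v₁ - a := (hd2.trans hκb1).trans hv1
      have hx2 : ((Int.gcd t (κ : ℤ) : ℕ) : ℤ) ∣ v₂ - a := (hd2.trans hκb2).trans hv2
      have : a * w = -t - m₁ * h₁ * (v₁ - a) + m₂ * h₂ * (v₂ - a) := by
        rw [ht, hw]; ring
      rw [this]
      exact dvd_add (dvd_sub ((dvd_neg).mpr hd1) (Dvd.dvd.mul_left hx1 _)) (Dvd.dvd.mul_left hx2 _)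
    have hcop : IsCoprime ((Int.gcd t (κ : ℤ) : ℕ) : ℤ) a :=
      (IsCoprime.of_isCoprime_of_dvd_right hac (hd2.trans hκb1)).symm
    have h2 : ((Int.gcd t (κ : ℤ) : ℕ) : ℤ) ∣ w := hcop.dvd_of_dvd_mul_left h1
    exact Int.natCast_dvd.mp h2
  have hg1le : Int.gcd t (κ : ℤ) ≤ w.natAbs := Nat.le_of_dvd (Int.natAbs_pos.mpr hw0) hg1
  have hwle : w.natAbs ≤ 4 * N0 * H1 := by
    have hm1le : m₁ ≤ 2 * N0 := (Nat.le_of_dvd hn2pos hm12).trans hi2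
    have hm2le : m₂ ≤ 2 * N0 := (Nat.le_of_dvd hn1pos hm21).trans hi1
    have ha1 : m₁ * h₁ ≤ 2 * N0 * (2 * H1) := Nat.mul_le_mul hm1le hh₁.le
    have ha2 : m₂ * h₂ ≤ 2 * N0 * (2 * H1) := Nat.mul_le_mul hm2le hh₂.le
    have hw' : w = ((m₁ * h₁ : ℕ) : ℤ) - ((m₂ * h₂ : ℕ) : ℤ) := by rw [hw]; push_cast; ring
    have h4 : 4 * N0 * H1 = 2 * N0 * (2 * H1) := by ring
    rw [h4, hw']
    omega
  have hgR : Int.gcd t ((k * Nat.lcm b₁ b₂ : ℕ) : ℤ) ≤ Int.gcd t (κ : ℤ) * r := by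
    have h1 : Int.gcd t ((k * Nat.lcm b₁ b₂ : ℕ) : ℤ) ∣ Int.gcd t (κ : ℤ) * r := by
      rw [hr, Int.gcd_def, Int.gcd_def, Int.natAbs_natCast, Int.natAbs_natCast]
      exact (Nat.gcd_mul_right_dvd_mul_gcd _ _ _).trans
        (Nat.mul_dvd_mul_left _ (Nat.gcd_dvd_right _ _))
    refine Nat.le_of_dvd (Nat.mul_pos ?_ hrpos) h1
    exact Int.gcd_pos_of_ne_zero_right _ (by exact_mod_cast hκpos.ne')
  -- the numerics
  have hκR : (0 : ℝ) < κ := by exact_mod_cast hκpos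
  have hrR : (0 : ℝ) < r := by exact_mod_cast hrpos
  have hQR : (0 : ℝ) < Q' := by exact_mod_cast hQ'
  have hfin : (Int.gcd t ((k * Nat.lcm b₁ b₂ : ℕ) : ℤ) : ℝ) ≤ 4 * N0 * H1 * r := by
    have : Int.gcd t ((k * Nat.lcm b₁ b₂ : ℕ) : ℤ) ≤ 4 * N0 * H1 * r :=
      hgR.trans (Nat.mul_le_mul_right _ (hg1le.trans hwle))
    exact_mod_cast this
  have hκQ : (Q' : ℝ) ≤ κ * (2 * N0) := by
    have h1 : Q' ≤ κ * (2 * N0) := by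
      calc Q' ≤ b₁ := hl1.le
        _ = κ * n₁ := e1.symm
        _ ≤ κ * (2 * N0) := Nat.mul_le_mul_left _ hi1
    exact_mod_cast h1
  have hRr : ((k * Nat.lcm b₁ b₂ : ℕ) : ℝ) = κ * r := by rw [hr]; push_cast; ring
  rw [hRr, div_le_div_iff₀ (mul_pos hκR hrR) hQR]
  calc (Int.gcd t ((k * Nat.lcm b₁ b₂ : ℕ) : ℤ) : ℝ) * Q'
      ≤ (4 * N0 * H1 * r) * (κ * (2 * N0)) := by
        apply mul_le_mul hfin hκQ hQR.le (by positivity)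
    _ = 8 * (N0 : ℝ) ^ 2 * H1 * (κ * r) := by ring

end Pool.Agent.Lib.MP_bae66e_nt.P2

namespace Pool.Agent.Lib.MP_bae66e_nt.P2

open Finset

private theorem F08c_lcm (m n : ℕ) (hm : Squarefree m) (hn : Squarefree n) :
    Squarefree (Nat.lcm m n) := by
  have hm0 : m ≠ 0 := hm.ne_zero
  have hn0 : n ≠ 0 := hn.ne_zero
  rw [Nat.squarefree_iff_factorization_le_one (Nat.lcm_ne_zero hm0 hn0)]
  intro p
  rw [Nat.factorization_lcm hm0 hn0]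
  have h1 := (Nat.squarefree_iff_factorization_le_one hm0).1 hm p
  have h2 := (Nat.squarefree_iff_factorization_le_one hn0).1 hn p
  rw [Finsupp.sup_apply]
  exact sup_le h1 h2

/-- The modulus is at most `4 k Q' N0`, squarefree.
PROOF. `lcm (κ n₁) (κ n₂) ∣ κ n₁ n₂ = b₁ n₂ ≤ 2 Q' * 2 N0`; `lcm` of squarefree numbers is
squarefree, and `k` is squarefree and prime to it. -/
theorem mod_le {k Q Q' N0 : ℕ} {a : ℤ} {ℬ : Finset ℕ} {nn : ℕ → ℕ} {v : ℕ → ℤ}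
    (S : Blk k Q Q' N0 a ℬ nn v) (b₁ b₂ : ℕ) (hb₁ : b₁ ∈ ℬ) (hb₂ : b₂ ∈ ℬ)
    (hκ : b₁ / nn b₁ = b₂ / nn b₂) :
    1 ≤ k * Nat.lcm b₁ b₂ ∧ k * Nat.lcm b₁ b₂ ≤ 4 * k * Q' * N0 ∧
      Squarefree (k * Nat.lcm b₁ b₂) := by
  have hk := S.hk
  have hb1 : 0 < b₁ := lt_of_le_of_lt (Nat.zero_le _) (S.lo b₁ hb₁)
  have hb2 : 0 < b₂ := lt_of_le_of_lt (Nat.zero_le _) (S.lo b₂ hb₂)
  have hl : 0 < Nat.lcm b₁ b₂ := Nat.lcm_pos hb1 hb2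
  have hdvd : Nat.lcm b₁ b₂ ∣ b₁ * nn b₂ := by
    apply Nat.lcm_dvd (Dvd.intro _ rfl)
    have h1 : b₂ = b₂ / nn b₂ * nn b₂ := (Nat.div_mul_cancel (S.dvd b₂ hb₂)).symm
    have h2 : b₂ / nn b₂ ∣ b₁ := by
      rw [← hκ]
      exact Nat.div_dvd_of_dvd (S.dvd b₁ hb₁)
    calc b₂ = b₂ / nn b₂ * nn b₂ := h1
      _ ∣ b₁ * nn b₂ := Nat.mul_dvd_mul_right h2 _
  have hn2 : 0 < nn b₂ := lt_of_le_of_lt (Nat.zero_le _) (S.nlo b₂ hb₂)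
  have hle : Nat.lcm b₁ b₂ ≤ b₁ * nn b₂ := Nat.le_of_dvd (Nat.mul_pos hb1 hn2) hdvd
  have h3 : b₁ * nn b₂ ≤ (2 * Q') * (2 * N0) := Nat.mul_le_mul (S.hi b₁ hb₁) (S.nhi b₂ hb₂)
  refine ⟨Nat.mul_pos hk hl, ?_, ?_⟩
  · calc k * Nat.lcm b₁ b₂ ≤ k * ((2 * Q') * (2 * N0)) := Nat.mul_le_mul_left _ (hle.trans h3)
      _ = 4 * k * Q' * N0 := by ring
  · have hc : Nat.Coprime k (Nat.lcm b₁ b₂) := by
      have h4 : Nat.Coprime k (b₁ * b₂) := Nat.Coprime.mul_right (S.cop b₁ hb₁) (S.cop b₂ hb₂)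
      exact Nat.Coprime.coprime_dvd_right (Nat.lcm_dvd (Dvd.intro _ rfl) (Dvd.intro_left _ rfl)) h4
    rw [Nat.squarefree_mul hc]
    exact ⟨S.hksq, F08c_lcm _ _ (S.sq b₁ hb₁) (S.sq b₂ hb₂)⟩

end Pool.Agent.Lib.MP_bae66e_nt.P2

namespace Pool.Agent.Lib.MP_bae66e_nt.P2

open Finset

private theorem F08d_cop (D k b₁ b₂ : ℕ) :
    Nat.Coprime D (k * b₁ * b₂) ↔ Nat.Coprime D (k * Nat.lcm b₁ b₂) := by
  constructor
  · intro h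
    have h1 : Nat.Coprime D k := Nat.Coprime.coprime_mul_right_right
      (Nat.Coprime.coprime_mul_right_right h)
    have h2 : Nat.Coprime D b₁ := Nat.Coprime.coprime_mul_left_right
      (Nat.Coprime.coprime_mul_right_right h)
    have h3 : Nat.Coprime D b₂ := Nat.Coprime.coprime_mul_left_right h
    refine Nat.Coprime.mul_right h1 ?_
    exact Nat.Coprime.coprime_dvd_right (Nat.lcm_dvd_mul b₁ b₂) (Nat.Coprime.mul_right h2 h3)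
  · intro h
    have h1 : Nat.Coprime D k := Nat.Coprime.coprime_mul_right_right h
    have h2 : Nat.Coprime D (Nat.lcm b₁ b₂) := Nat.Coprime.coprime_mul_left_right h
    refine Nat.Coprime.mul_right (Nat.Coprime.mul_right h1 ?_) ?_
    · exact Nat.Coprime.coprime_dvd_right (Nat.dvd_lcm_left b₁ b₂) h2
    · exact Nat.Coprime.coprime_dvd_right (Nat.dvd_lcm_right b₁ b₂) h2

/-- **Off-diagonal pairs.**
PROOF. Put `R = k lcm (b₁, b₂)`. The condition `D` prime to `k b₁ b₂` is `D` prime to `R`. The product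
`xx .. h₁ b₁ D * conj (xx .. h₂ b₂ D)` is `f D * kf R t D` with
`f D = Phi (k D b₁) conj (Phi (k D b₂))` (`phase_pair`) and `t` as in `gcd_le`. Apply `abel` with
`g D = if Coprime D R then kf R t D else 0` on `Ioc Q (2 Q)`: the sums are, by `incomplete`,
at most `Q gcd(t,R) / R + τ(R)² √R (1 + log R) ≤ 8 Q H1 N0² / Q' + τ² √(4kQ'N0) (1 + log (4kQ'N0))`
(`gcd_le`, `mod_le`, `hτ`), and `‖f (2 Q)‖ + ∑ ‖f (D+1) - f D‖ ≤ φ² + 2 φ² (1 + …) ≤ 3 φ² (1 + …)`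
by `Phi_le`, `Phi_var`, `prod_var` (here `2 h ≤ k Q b` for the two pairs). If `Q = 1` the interval
`Ioc Q (2 Q)` has one element, `abel` still applies. -/
theorem off_pair {k Q Q' N0 : ℕ} {a : ℤ} {ℬ : Finset ℕ} {nn : ℕ → ℕ} {v : ℕ → ℤ}
    (S : Blk k Q Q' N0 a ℬ nn v) (A : ℝ) (hA : 0 ≤ A) (L H1 : ℕ) (hH1 : 1 ≤ H1)
    (hHN : 4 * H1 ≤ k * Q * Q') (τ : ℝ)
    (hτ : ∀ R : ℕ, 1 ≤ R → R ≤ 4 * k * Q' * N0 → (#R.divisors : ℝ) ≤ τ)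
    (b₁ b₂ : ℕ) (hb₁ : b₁ ∈ ℬ) (hb₂ : b₂ ∈ ℬ) (hκ : b₁ / nn b₁ = b₂ / nn b₂)
    (h₁ h₂ : ℕ) (hl₁ : H1 ≤ h₁) (hl₂ : H1 ≤ h₂) (hh₁ : h₁ < 2 * H1) (hh₂ : h₂ < 2 * H1)
    (hne : h₁ * nn b₂ ≠ h₂ * nn b₁) :
    ‖∑ D ∈ (Ioc Q (2 * Q)).filter (fun D => Nat.Coprime D (k * b₁ * b₂)),
        xx A L k v h₁ b₁ D * (starRingEnd ℂ) (xx A L k v h₂ b₂ D)‖
      ≤ Boff A L k Q Q' N0 H1 τ := by
  obtain ⟨hR1, hR2, hRsq⟩ := mod_le S b₁ b₂ hb₁ hb₂ hκ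
  have hg := gcd_le S b₁ b₂ hb₁ hb₂ hκ H1 h₁ h₂ hh₁ hh₂ hne
  have hk := S.hk
  have hQ := S.hQ
  have hQ' := S.hQ'
  have hN0 := S.hN0
  have hb1lo := S.lo b₁ hb₁
  have hb1hi := S.hi b₁ hb₁
  have hb2lo := S.lo b₂ hb₂
  have hb2hi := S.hi b₂ hb₂
  have hN1 : 2 * h₁ ≤ k * Q * b₁ := by
    have : k * Q * Q' ≤ k * Q * b₁ := Nat.mul_le_mul_left _ hb1lo.le
    omega
  have hN2 : 2 * h₂ ≤ k * Q * b₂ := by
    have : k * Q * Q' ≤ k * Q * b₂ := Nat.mul_le_mul_left _ hb2lo.le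
    omega
  generalize ht : ((Nat.lcm b₁ b₂ / b₁ : ℕ) * (-(h₁ * v b₁))
    - (Nat.lcm b₁ b₂ / b₂ : ℕ) * (-(h₂ * v b₂)) : ℤ) = t at hg
  generalize hR : k * Nat.lcm b₁ b₂ = R at hR1 hR2 hRsq hg
  -- the sum
  have hsum : ∑ D ∈ (Ioc Q (2 * Q)).filter (fun D => Nat.Coprime D (k * b₁ * b₂)),
        xx A L k v h₁ b₁ D * (starRingEnd ℂ) (xx A L k v h₂ b₂ D)
      = ∑ D ∈ Ioc Q (2 * Q),
        (Phi A L h₁ ((k * D * b₁ : ℕ) : ℝ) * (starRingEnd ℂ) (Phi A L h₂ ((k * D * b₂ : ℕ) : ℝ)))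
          * (if Nat.Coprime D R then kf R t D else 0) := by
    rw [Finset.sum_filter]
    refine Finset.sum_congr rfl (fun D _ => ?_)
    by_cases hc : Nat.Coprime D R
    · rw [if_pos ((F08d_cop D k b₁ b₂).2 (hR ▸ hc)), if_pos hc]
      have hpp := phase_pair k b₁ b₂ D hk (by omega) (by omega) (-(h₁ * v b₁)) (-(h₂ * v b₂))
        (hR ▸ hc)
      rw [hR, ht] at hpp
      rw [← hpp]
      unfold xx
      rw [map_mul]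
      ring
    · rw [if_neg (fun h => hc (hR ▸ (F08d_cop D k b₁ b₂).1 h)), if_neg hc, mul_zero]
  rw [hsum]
  -- positivity
  have hkR : (1 : ℝ) ≤ k := by exact_mod_cast hk
  have hQR : (1 : ℝ) ≤ Q := by exact_mod_cast hQ
  have hQ'R : (1 : ℝ) ≤ Q' := by exact_mod_cast hQ'
  have hN0R : (1 : ℝ) ≤ N0 := by exact_mod_cast hN0
  have hRR : (1 : ℝ) ≤ R := by exact_mod_cast hR1
  have hR2R : (R : ℝ) ≤ 4 * k * Q' * N0 := by exact_mod_cast hR2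
  have hτR := hτ R hR1 hR2
  have hτ0 : 0 ≤ τ := le_trans (Nat.cast_nonneg _) hτR
  have hφ0 : 0 ≤ phi L H1 (k * (Q * Q')) := by
    unfold phi
    refine div_nonneg (le_min (by positivity) (by positivity)) (by positivity)
  have hW0 : 0 ≤ 16 * Real.pi * (A + L) * H1 / (k * (Q * Q')) := by
    have := Real.pi_pos
    positivity
  -- the sums
  have hpart : ∀ V' ∈ Ioc Q (2 * Q),
      ‖∑ D ∈ Ioc Q V', (if Nat.Coprime D R then kf R t D else 0)‖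
        ≤ 8 * Q * H1 * (N0 : ℝ) ^ 2 / Q'
          + τ ^ 2 * Real.sqrt (4 * k * Q' * N0) * (1 + Real.log (4 * k * Q' * N0)) := by
    intro V' hV'
    rw [Finset.mem_Ioc] at hV'
    have hi := incomplete R hR1 hRsq t Q V' hV'.1.le
    rw [Finset.sum_filter] at hi
    refine hi.trans (add_le_add ?_ ?_)
    · have h1 : ((V' : ℝ) - Q) ≤ Q := by
        have : (V' : ℝ) ≤ 2 * Q := by exact_mod_cast hV'.2
        linarith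
      have h0 : (0 : ℝ) ≤ (V' : ℝ) - Q := by
        have : (Q : ℝ) ≤ V' := by exact_mod_cast hV'.1.le
        linarith
      have h2 : ((V' : ℝ) - Q) / R * (Int.gcd t R : ℕ)
          = ((V' : ℝ) - Q) * (((Int.gcd t R : ℕ) : ℝ) / R) := by ring
      rw [h2]
      have h3 : (((Int.gcd t R : ℕ) : ℝ) / R) ≤ 8 * (N0 : ℝ) ^ 2 * H1 / Q' := hg
      have h4 : (0 : ℝ) ≤ (((Int.gcd t R : ℕ) : ℝ) / R) := by positivity
      calc ((V' : ℝ) - Q) * (((Int.gcd t R : ℕ) : ℝ) / R)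
          ≤ Q * (8 * (N0 : ℝ) ^ 2 * H1 / Q') := mul_le_mul h1 h3 h4 (by linarith)
        _ = 8 * Q * H1 * (N0 : ℝ) ^ 2 / Q' := by ring
    · have hl0 : 0 ≤ Real.log R := Real.log_nonneg hRR
      have hl1 : Real.log R ≤ Real.log (4 * k * Q' * N0) := Real.log_le_log (by linarith) hR2R
      have hs1 : Real.sqrt R ≤ Real.sqrt (4 * k * Q' * N0) := Real.sqrt_le_sqrt hR2R
      have hd : (#R.divisors : ℝ) ^ 2 ≤ τ ^ 2 := pow_le_pow_left₀ (Nat.cast_nonneg _) hτR 2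
      refine mul_le_mul (mul_le_mul hd hs1 (Real.sqrt_nonneg _) (by positivity)) (by linarith)
        (by linarith) (by positivity)
  have hab := abel (fun D => Phi A L h₁ ((k * D * b₁ : ℕ) : ℝ)
      * (starRingEnd ℂ) (Phi A L h₂ ((k * D * b₂ : ℕ) : ℝ)))
    (fun D => if Nat.Coprime D R then kf R t D else 0) Q (2 * Q) (by omega) _ hpart
  refine hab.trans ?_
  -- the size and variation
  have hsz1 : ∀ D ∈ Icc (Q + 1) (2 * Q), ‖Phi A L h₁ ((k * D * b₁ : ℕ) : ℝ)‖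
      ≤ phi L H1 (k * (Q * Q')) := by
    intro D hD
    rw [Finset.mem_Icc] at hD
    exact Phi_le A L k b₁ h₁ D Q Q' H1 hk hQ hQ' hH1 hb1lo hb1hi hl₁ hh₁ (by omega) hD.2 hN1
  have hsz2 : ∀ D ∈ Icc (Q + 1) (2 * Q), ‖Phi A L h₂ ((k * D * b₂ : ℕ) : ℝ)‖
      ≤ phi L H1 (k * (Q * Q')) := by
    intro D hD
    rw [Finset.mem_Icc] at hD
    exact Phi_le A L k b₂ h₂ D Q Q' H1 hk hQ hQ' hH1 hb2lo hb2hi hl₂ hh₂ (by omega) hD.2 hN2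
  have hv1 := Phi_var A hA L k b₁ h₁ Q Q' H1 hk hQ hQ' hH1 hb1lo hb1hi hl₁ hh₁ hN1
  have hv2 := Phi_var A hA L k b₂ h₂ Q Q' H1 hk hQ hQ' hH1 hb2lo hb2hi hl₂ hh₂ hN2
  have hpv := prod_var (fun D => Phi A L h₁ ((k * D * b₁ : ℕ) : ℝ))
    (fun D => Phi A L h₂ ((k * D * b₂ : ℕ) : ℝ)) Q (2 * Q) (phi L H1 (k * (Q * Q'))) _ _ hφ0
    hsz1 hsz2 hv1 hv2
  have hmem : 2 * Q ∈ Icc (Q + 1) (2 * Q) := by
    rw [Finset.mem_Icc]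
    omega
  have hf2 : ‖Phi A L h₁ ((k * (2 * Q) * b₁ : ℕ) : ℝ)
      * (starRingEnd ℂ) (Phi A L h₂ ((k * (2 * Q) * b₂ : ℕ) : ℝ))‖
      ≤ phi L H1 (k * (Q * Q')) ^ 2 := by
    rw [norm_mul, RCLike.norm_conj, sq]
    exact mul_le_mul (hsz1 _ hmem) (hsz2 _ hmem) (norm_nonneg _) hφ0
  have hB0 : 0 ≤ 8 * Q * H1 * (N0 : ℝ) ^ 2 / Q'
          + τ ^ 2 * Real.sqrt (4 * k * Q' * N0) * (1 + Real.log (4 * k * Q' * N0)) := by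
    have hl : 0 ≤ Real.log (4 * k * Q' * N0) := Real.log_nonneg (hRR.trans hR2R)
    positivity
  have hbr : ‖Phi A L h₁ ((k * (2 * Q) * b₁ : ℕ) : ℝ)
      * (starRingEnd ℂ) (Phi A L h₂ ((k * (2 * Q) * b₂ : ℕ) : ℝ))‖
      + ∑ D ∈ Ico (Q + 1) (2 * Q),
        ‖Phi A L h₁ ((k * (D + 1) * b₁ : ℕ) : ℝ)
            * (starRingEnd ℂ) (Phi A L h₂ ((k * (D + 1) * b₂ : ℕ) : ℝ))
          - Phi A L h₁ ((k * D * b₁ : ℕ) : ℝ)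
            * (starRingEnd ℂ) (Phi A L h₂ ((k * D * b₂ : ℕ) : ℝ))‖
      ≤ 3 * phi L H1 (k * (Q * Q')) ^ 2 * (1 + 16 * Real.pi * (A + L) * H1 / (k * (Q * Q'))) := by
    refine (add_le_add hf2 hpv).trans ?_
    have hsq : 0 ≤ phi L H1 (k * (Q * Q')) ^ 2 := by positivity
    nlinarith [mul_nonneg hsq hW0]
  have hfin := mul_le_mul_of_nonneg_left hbr hB0
  refine hfin.trans (le_of_eq ?_)
  unfold Boff
  ring

end Pool.Agent.Lib.MP_bae66e_nt.P2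

namespace Pool.Agent.Lib.MP_bae66e_nt.P2

open Finset

/-- **All pairs, trivially.** PROOF: `Phi_le`, `norm_kf`; `Ioc Q (2 Q)` has `Q` elements. -/
theorem any_pair {k Q Q' N0 : ℕ} {a : ℤ} {ℬ : Finset ℕ} {nn : ℕ → ℕ} {v : ℕ → ℤ}
    (S : Blk k Q Q' N0 a ℬ nn v) (A : ℝ) (L H1 : ℕ) (hH1 : 1 ≤ H1)
    (hHN : 4 * H1 ≤ k * Q * Q')
    (b₁ b₂ : ℕ) (hb₁ : b₁ ∈ ℬ) (hb₂ : b₂ ∈ ℬ)
    (h₁ h₂ : ℕ) (hl₁ : H1 ≤ h₁) (hl₂ : H1 ≤ h₂) (hh₁ : h₁ < 2 * H1) (hh₂ : h₂ < 2 * H1) :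
    ‖∑ D ∈ (Ioc Q (2 * Q)).filter (fun D => Nat.Coprime D (k * b₁ * b₂)),
        xx A L k v h₁ b₁ D * (starRingEnd ℂ) (xx A L k v h₂ b₂ D)‖
      ≤ Q * phi L H1 (k * (Q * Q')) ^ 2 := by
  have key : ∀ (b h D : ℕ), b ∈ ℬ → H1 ≤ h → h < 2 * H1 → D ∈ Ioc Q (2 * Q) →
      ‖xx A L k v h b D‖ ≤ phi L H1 (k * (Q * Q')) := by
    intro b h D hb hh1 hh2 hD
    rw [mem_Ioc] at hD
    have hblo := S.lo b hb
    have h2 : 2 * h ≤ k * Q * b := by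
      have h3 : k * Q * Q' ≤ k * Q * b := Nat.mul_le_mul_left _ hblo.le
      omega
    unfold xx
    rw [norm_mul, norm_kf, mul_one]
    exact Phi_le A L k b h D Q Q' H1 S.hk S.hQ S.hQ' hH1 hblo (S.hi b hb) hh1 hh2 hD.1 hD.2 h2
  have hφ : 0 ≤ phi L H1 (k * (Q * Q')) :=
    le_trans (norm_nonneg _) (key b₁ h₁ (2 * Q) hb₁ hl₁ hh₁ (by
      rw [mem_Ioc]
      have := S.hQ
      omega))
  refine le_trans (norm_sum_le _ _) ?_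
  have h1 : ∀ D ∈ (Ioc Q (2 * Q)).filter (fun D => Nat.Coprime D (k * b₁ * b₂)),
      ‖xx A L k v h₁ b₁ D * (starRingEnd ℂ) (xx A L k v h₂ b₂ D)‖ ≤
        phi L H1 (k * (Q * Q')) ^ 2 := by
    intro D hD
    have hD' := (mem_filter.mp hD).1
    rw [norm_mul, RCLike.norm_conj, sq]
    exact mul_le_mul (key b₁ h₁ D hb₁ hl₁ hh₁ hD') (key b₂ h₂ D hb₂ hl₂ hh₂ hD')
      (norm_nonneg _) hφ
  refine le_trans (sum_le_card_nsmul _ _ _ h1) ?_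
  rw [nsmul_eq_mul]
  refine mul_le_mul_of_nonneg_right ?_ (by positivity)
  have h2 : #((Ioc Q (2 * Q)).filter (fun D => Nat.Coprime D (k * b₁ * b₂))) ≤ Q := by
    refine le_trans (card_filter_le _ _) ?_
    rw [Nat.card_Ioc]
    omega
  exact_mod_cast h2

end Pool.Agent.Lib.MP_bae66e_nt.P2

namespace Pool.Agent.Lib.MP_bae66e_nt.P2

open Finset

/-- The number of moduli with cofactor `κ` is at most `N0`.
PROOF. `b = κ nn b` (`Nat.div_mul_cancel`), so `b ↦ nn b ∈ Ioc N0 (2 N0)` is injective. -/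
theorem card_Zset {k Q Q' N0 : ℕ} {a : ℤ} {ℬ : Finset ℕ} {nn : ℕ → ℕ} {v : ℕ → ℤ}
    (S : Blk k Q Q' N0 a ℬ nn v) (H1 κ : ℕ) : #(Zset ℬ nn H1 κ) ≤ N0 * H1 := by
  unfold Zset
  rw [card_product, Nat.card_Ico]
  have h1 : 2 * H1 - H1 = H1 := by omega
  rw [h1]
  refine Nat.mul_le_mul_right _ ?_
  have h2 : #(ℬ.filter (fun b => b / nn b = κ)) ≤ #(Ioc N0 (2 * N0)) := by
    refine card_le_card_of_injOn nn ?_ ?_
    · intro b hb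
      have hb' := (mem_filter.1 (mem_coe.1 hb)).1
      exact mem_coe.2 (mem_Ioc.2 ⟨S.nlo b hb', S.nhi b hb'⟩)
    · intro b hb b' hb' hbb
      have hm := mem_filter.1 (mem_coe.1 hb)
      have hm' := mem_filter.1 (mem_coe.1 hb')
      have e1 := Nat.div_mul_cancel (S.dvd b hm.1)
      have e2 := Nat.div_mul_cancel (S.dvd b' hm'.1)
      rw [hm.2] at e1
      rw [hm'.2] at e2
      rw [← e1, ← e2, hbb]
  rw [Nat.card_Ioc] at h2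
  omega

end Pool.Agent.Lib.MP_bae66e_nt.P2

namespace Pool.Agent.Lib.MP_bae66e_nt.P2

open Finset

/-- **The diagonal.**
PROOF. Map `((b₁, h₁), (b₂, h₂))` to `(h₁, nn b₂, h₂)`: as `b₁, b₂` are determined by `nn b₁, nn b₂`
(the cofactor is `κ`), and `nn b₁ = h₁ nn b₂ / h₂`, this is injective on the set in question, and `h₂`
is a divisor of `h₁ nn b₂ ≤ 4 H1 N0`. So the number is at most
`∑_{h₁, n₂} τ(h₁ n₂) ≤ H1 N0 τ`. -/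
theorem card_diag {k Q Q' N0 : ℕ} {a : ℤ} {ℬ : Finset ℕ} {nn : ℕ → ℕ} {v : ℕ → ℤ}
    (S : Blk k Q Q' N0 a ℬ nn v) (H1 κ : ℕ) (hH1 : 1 ≤ H1) (τ : ℝ)
    (hτ : ∀ R : ℕ, 1 ≤ R → R ≤ 4 * H1 * N0 → (#R.divisors : ℝ) ≤ τ) :
    (#((Zset ℬ nn H1 κ ×ˢ Zset ℬ nn H1 κ).filter
        (fun z => z.1.2 * nn z.2.1 = z.2.2 * nn z.1.1)) : ℝ) ≤ H1 * N0 * τ := by
  classical
  have hb : ∀ b ∈ ℬ, b / nn b = κ → b = nn b * κ := by
    intro b hb h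
    rw [← h, Nat.mul_div_cancel' (S.dvd b hb)]
  set A := (Zset ℬ nn H1 κ ×ˢ Zset ℬ nn H1 κ).filter
        (fun z => z.1.2 * nn z.2.1 = z.2.2 * nn z.1.1) with hA
  have hmem : ∀ z ∈ A, (z.1.1 ∈ ℬ ∧ z.1.1 / nn z.1.1 = κ ∧ H1 ≤ z.1.2 ∧ z.1.2 < 2 * H1) ∧
      (z.2.1 ∈ ℬ ∧ z.2.1 / nn z.2.1 = κ ∧ H1 ≤ z.2.2 ∧ z.2.2 < 2 * H1) ∧
      z.1.2 * nn z.2.1 = z.2.2 * nn z.1.1 := by
    intro z hz
    rw [hA, Finset.mem_filter, Finset.mem_product] at hz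
    unfold Zset at hz
    simp only [Finset.mem_product, Finset.mem_filter, Finset.mem_Ico] at hz
    tauto
  set f : ((ℕ × ℕ) × (ℕ × ℕ)) → (ℕ × ℕ) := fun z => (z.1.2, nn z.2.1) with hf
  have hmaps : ∀ z ∈ A, f z ∈ Ico H1 (2 * H1) ×ˢ Ioc N0 (2 * N0) := by
    intro z hz
    obtain ⟨⟨h1, h2, h3, h4⟩, ⟨h5, h6, h7, h8⟩, h9⟩ := hmem z hz
    simp only [hf, Finset.mem_product, Finset.mem_Ico, Finset.mem_Ioc]
    exact ⟨⟨h3, h4⟩, S.nlo _ h5, S.nhi _ h5⟩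
  have hcard := Finset.card_eq_sum_card_fiberwise hmaps
  rw [hcard]
  push_cast
  have hfib : ∀ q ∈ Ico H1 (2 * H1) ×ˢ Ioc N0 (2 * N0), ((#(A.filter (fun z => f z = q)) : ℕ) : ℝ) ≤ τ := by
    intro q hq
    simp only [Finset.mem_product, Finset.mem_Ico, Finset.mem_Ioc] at hq
    have hR1 : 1 ≤ q.1 * q.2 := Nat.mul_pos (by omega) (by omega)
    have hR2 : q.1 * q.2 ≤ 4 * H1 * N0 := by
      calc q.1 * q.2 ≤ (2 * H1) * (2 * N0) := Nat.mul_le_mul (by omega) (by omega)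
        _ = 4 * H1 * N0 := by ring
    refine le_trans ?_ (hτ (q.1 * q.2) hR1 hR2)
    have : #(A.filter (fun z => f z = q)) ≤ #(q.1 * q.2).divisors := by
      refine Finset.card_le_card_of_injOn (fun z => z.2.2) ?_ ?_
      · intro z hz
        rw [Finset.mem_coe, Finset.mem_filter] at hz
        obtain ⟨⟨h1, h2, h3, h4⟩, ⟨h5, h6, h7, h8⟩, h9⟩ := hmem z hz.1
        have h10 : z.1.2 = q.1 := congrArg Prod.fst hz.2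
        have h11 : nn z.2.1 = q.2 := congrArg Prod.snd hz.2
        rw [Finset.mem_coe, Nat.mem_divisors]
        rw [h10, h11] at h9
        exact ⟨⟨nn z.1.1, h9⟩, by omega⟩
      · intro z hz z' hz' heq
        rw [Finset.mem_coe, Finset.mem_filter] at hz hz'
        obtain ⟨⟨h1, h2, h3, h4⟩, ⟨h5, h6, h7, h8⟩, h9⟩ := hmem z hz.1
        obtain ⟨⟨h1', h2', h3', h4'⟩, ⟨h5', h6', h7', h8'⟩, h9'⟩ := hmem z' hz'.1
        have h10 : z.1.2 = z'.1.2 := congrArg Prod.fst (hz.2.trans hz'.2.symm)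
        have h11 : nn z.2.1 = nn z'.2.1 := congrArg Prod.snd (hz.2.trans hz'.2.symm)
        have heq' : z.2.2 = z'.2.2 := heq
        have h12 : z.2.1 = z'.2.1 := by
          rw [hb _ h5 h6, hb _ h5' h6', h11]
        have h13 : nn z.1.1 = nn z'.1.1 := by
          have h14 : z.2.2 * nn z.1.1 = z.2.2 * nn z'.1.1 := by
            rw [← h9, h10, h11, h9', heq']
          exact Nat.eq_of_mul_eq_mul_left (by omega) h14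
        have h15 : z.1.1 = z'.1.1 := by
          rw [hb _ h1 h2, hb _ h1' h2', h13]
        exact Prod.ext (Prod.ext h15 h10) (Prod.ext h12 heq')
    exact_mod_cast this
  refine (Finset.sum_le_sum hfib).trans ?_
  rw [Finset.sum_const, Finset.card_product, Nat.card_Ico, Nat.card_Ioc, nsmul_eq_mul]
  have e1 : 2 * H1 - H1 = H1 := by omega
  have e2 : 2 * N0 - N0 = N0 := by omega
  rw [e1, e2]
  push_cast
  exact le_rfl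

end Pool.Agent.Lib.MP_bae66e_nt.P2

namespace Pool.Agent.Lib.MP_bae66e_nt.P2

open Finset

/-- The sum over `κ` and `D` of the expanded squares. -/
private theorem F09c_expand (Z : Finset (ℕ × ℕ)) (β : ℕ → ℝ) (hβ : ∀ b, |β b| ≤ 1)
    (X : ℕ → ℕ → ℕ → ℂ) (k : ℕ) (T : Finset ℕ) :
    ∑ D ∈ T.filter (fun D => Nat.Coprime D k),
      ‖∑ z ∈ Z, if Nat.Coprime D z.1 then ((β z.1 : ℝ) : ℂ) * X z.2 z.1 D else 0‖ ^ 2 ≤
      ∑ z ∈ Z ×ˢ Z, ‖∑ D ∈ T.filter (fun D => Nat.Coprime D (k * z.1.1 * z.2.1)),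
        X z.1.2 z.1.1 D * (starRingEnd ℂ) (X z.2.2 z.2.1 D)‖ := by
  have h1 : ((∑ D ∈ T.filter (fun D => Nat.Coprime D k),
      ‖∑ z ∈ Z, if Nat.Coprime D z.1 then ((β z.1 : ℝ) : ℂ) * X z.2 z.1 D else 0‖ ^ 2 : ℝ) : ℂ) =
      ∑ z ∈ Z ×ˢ Z, ((β z.1.1 * β z.2.1 : ℝ) : ℂ) *
        ∑ D ∈ T.filter (fun D => Nat.Coprime D (k * z.1.1 * z.2.1)),
        X z.1.2 z.1.1 D * (starRingEnd ℂ) (X z.2.2 z.2.1 D) := by
    have h2 : ∀ D, ((‖∑ z ∈ Z, if Nat.Coprime D z.1 then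
        ((β z.1 : ℝ) : ℂ) * X z.2 z.1 D else 0‖ ^ 2 : ℝ) : ℂ) =
        ∑ z ∈ Z ×ˢ Z, (if Nat.Coprime D z.1.1 ∧ Nat.Coprime D z.2.1 then
          ((β z.1.1 * β z.2.1 : ℝ) : ℂ) *
            (X z.1.2 z.1.1 D * (starRingEnd ℂ) (X z.2.2 z.2.1 D)) else 0) := by
      intro D
      rw [← Complex.normSq_eq_norm_sq, ← Complex.mul_conj, map_sum, sum_mul_sum, sum_product]
      refine sum_congr rfl fun z1 _ => sum_congr rfl fun z2 _ => ?_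
      by_cases c1 : Nat.Coprime D z1.1
      · by_cases c2 : Nat.Coprime D z2.1
        · rw [if_pos c1, if_pos c2, if_pos ⟨c1, c2⟩, map_mul, Complex.conj_ofReal]
          push_cast
          ring
        · have c3 : ¬ (Nat.Coprime D z1.1 ∧ Nat.Coprime D z2.1) := fun h => c2 h.2
          rw [if_neg c2, if_neg c3, map_zero, mul_zero]
      · have c3 : ¬ (Nat.Coprime D z1.1 ∧ Nat.Coprime D z2.1) := fun h => c1 h.1
        rw [if_neg c1, if_neg c3, zero_mul]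
    rw [Complex.ofReal_sum, sum_congr rfl fun D _ => h2 D, sum_comm]
    refine sum_congr rfl fun z _ => ?_
    rw [← sum_filter, filter_filter, mul_sum]
    refine sum_congr ?_ fun _ _ => rfl
    ext D
    simp only [mem_filter, Nat.coprime_mul_iff_right, and_assoc]
  have h3 : (0 : ℝ) ≤ ∑ D ∈ T.filter (fun D => Nat.Coprime D k),
      ‖∑ z ∈ Z, if Nat.Coprime D z.1 then ((β z.1 : ℝ) : ℂ) * X z.2 z.1 D else 0‖ ^ 2 :=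
    sum_nonneg fun D _ => by positivity
  rw [← abs_of_nonneg h3, ← Real.norm_eq_abs, ← Complex.norm_real, h1]
  refine (norm_sum_le _ _).trans (sum_le_sum fun z _ => ?_)
  rw [norm_mul, Complex.norm_real, Real.norm_eq_abs, abs_mul]
  have h4 : |β z.1.1| * |β z.2.1| ≤ 1 :=
    mul_le_one₀ (hβ _) (abs_nonneg _) (hβ _)
  calc |β z.1.1| * |β z.2.1| * _ ≤ 1 * _ := mul_le_mul_of_nonneg_right h4 (norm_nonneg _)
    _ = _ := one_mul _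

/-- **Cauchy's inequality.**
PROOF. Every `b ∈ ℬ` has a cofactor `κ = b / nn b` with `1 ≤ κ ≤ K := 2 Q' / N0` (natural division:
`b ≤ 2 Q'`, `nn b > N0`). Write the sum as `∑_{D ∈ 𝒜} ∑_{κ ∈ Icc 1 K} α D I(D, κ)` with
`I(D, κ) = ∑_{(b,h) ∈ Zset κ, (D,b) = 1} β b xx h b D`. By Cauchy–Schwarz
(`#(𝒜 ×ˢ Icc 1 K) ≤ Q K`, `|α| ≤ 1`), `‖S‖² ≤ Q K ∑_κ ∑_{D ∈ 𝒜} ‖I(D, κ)‖²`, and the sum over `𝒜`
is at most the sum over all `D ∈ Ioc Q (2 Q)` prime to `k`. Expand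
`‖I‖² = ∑_{z₁,z₂} β β xx conj xx 1[(D, b₁) = (D, b₂) = 1]`, interchange the sums and take absolute
values (`|β| ≤ 1`); `D` prime to `k`, `b₁`, `b₂` iff prime to `k b₁ b₂`. -/
theorem cauchy {k Q Q' N0 : ℕ} {a : ℤ} {ℬ : Finset ℕ} {nn : ℕ → ℕ} {v : ℕ → ℤ}
    (S : Blk k Q Q' N0 a ℬ nn v) (A : ℝ) (L H1 : ℕ) (𝒜 : Finset ℕ) (α β : ℕ → ℝ)
    (h𝒜 : ∀ D ∈ 𝒜, Q < D ∧ D ≤ 2 * Q ∧ Nat.Coprime D k)
    (hα : ∀ D, |α D| ≤ 1) (hβ : ∀ b, |β b| ≤ 1) :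
    ‖Ssum' A L k v 𝒜 ℬ α β H1‖ ^ 2
      ≤ (Q : ℝ) * (2 * Q' / N0 : ℕ) * ∑ κ ∈ Icc 1 (2 * Q' / N0),
        ∑ z ∈ Zset ℬ nn H1 κ ×ˢ Zset ℬ nn H1 κ,
          ‖∑ D ∈ (Ioc Q (2 * Q)).filter (fun D => Nat.Coprime D (k * z.1.1 * z.2.1)),
            xx A L k v z.1.2 z.1.1 D * (starRingEnd ℂ) (xx A L k v z.2.2 z.2.1 D)‖ := by
  classical
  obtain ⟨K, hK⟩ : ∃ K : ℕ, K = 2 * Q' / N0 := ⟨_, rfl⟩
  rw [← hK]
  have hκ : ∀ b ∈ ℬ, b / nn b ∈ Icc 1 K := by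
    intro b hb
    have h1 : 0 < b := lt_of_le_of_lt (Nat.zero_le _) (S.lo b hb)
    have h2 : 0 < nn b := lt_of_le_of_lt (Nat.zero_le _) (S.nlo b hb)
    rw [mem_Icc, hK]
    refine ⟨Nat.div_pos (Nat.le_of_dvd h1 (S.dvd b hb)) h2, ?_⟩
    exact Nat.div_le_div (S.hi b hb) (S.nlo b hb).le (by have := S.hN0; omega)
  set I : ℕ → ℕ → ℂ := fun D κ => ∑ z ∈ Zset ℬ nn H1 κ,
    if Nat.Coprime D z.1 then ((β z.1 : ℝ) : ℂ) * xx A L k v z.2 z.1 D else 0 with hI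
  have hS : Ssum' A L k v 𝒜 ℬ α β H1 =
      ∑ D ∈ 𝒜, ∑ κ ∈ Icc 1 K, ((α D : ℝ) : ℂ) * I D κ := by
    unfold Ssum'
    refine sum_congr rfl fun D hD => ?_
    rw [sum_filter, ← sum_fiberwise_of_maps_to hκ]
    refine sum_congr rfl fun κ _ => ?_
    simp only [hI, Zset]
    rw [sum_product, mul_sum]
    refine sum_congr rfl fun b hb => ?_
    split_ifs with hc
    · rw [mul_sum, mul_sum]
      exact sum_congr rfl fun h _ => by push_cast; ring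
    · rw [sum_const_zero, mul_zero]
  have h1 : ‖Ssum' A L k v 𝒜 ℬ α β H1‖ ≤ ∑ z ∈ 𝒜 ×ˢ Icc 1 K, ‖I z.1 z.2‖ := by
    rw [hS, sum_product]
    refine (norm_sum_le _ _).trans (sum_le_sum fun D _ =>
      (norm_sum_le _ _).trans (sum_le_sum fun κ _ => ?_))
    rw [norm_mul, Complex.norm_real, Real.norm_eq_abs]
    calc |α D| * ‖I D κ‖ ≤ 1 * ‖I D κ‖ := mul_le_mul_of_nonneg_right (hα D) (norm_nonneg _)
      _ = _ := one_mul _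
  have h2 : ‖Ssum' A L k v 𝒜 ℬ α β H1‖ ^ 2 ≤
      (#(𝒜 ×ˢ Icc 1 K) : ℝ) * ∑ z ∈ 𝒜 ×ˢ Icc 1 K, ‖I z.1 z.2‖ ^ 2 :=
    (pow_le_pow_left₀ (norm_nonneg _) h1 2).trans sq_sum_le_card_mul_sum_sq
  have h𝒜s : 𝒜 ⊆ (Ioc Q (2 * Q)).filter (fun D => Nat.Coprime D k) := by
    intro D hD
    rw [mem_filter, mem_Ioc]
    exact ⟨⟨(h𝒜 D hD).1, (h𝒜 D hD).2.1⟩, (h𝒜 D hD).2.2⟩
  have hcard : #𝒜 ≤ Q := by
    have h3 := card_le_card (h𝒜s.trans (filter_subset _ _))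
    rw [Nat.card_Ioc] at h3
    omega
  have hcard2 : (#(𝒜 ×ˢ Icc 1 K) : ℝ) ≤ (Q : ℝ) * (K : ℕ) := by
    rw [card_product, Nat.card_Icc, Nat.add_sub_cancel]
    exact_mod_cast Nat.mul_le_mul_right K hcard
  refine h2.trans ?_
  refine mul_le_mul hcard2 ?_ (sum_nonneg fun _ _ => by positivity) (by positivity)
  rw [sum_product_right]
  refine sum_le_sum fun κ _ => ?_
  refine (sum_le_sum_of_subset_of_nonneg h𝒜s fun _ _ _ => by positivity).trans ?_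
  exact F09c_expand (Zset ℬ nn H1 κ) β hβ (fun h b D => xx A L k v h b D) k (Ioc Q (2 * Q))

end Pool.Agent.Lib.MP_bae66e_nt.P2

namespace Pool.Agent.Lib.MP_bae66e_nt.P2

open Finset

private theorem F09d_phi_nonneg (L : ℕ) (H1 kP : ℝ) (h : 0 ≤ kP) : 0 ≤ phi L H1 kP := by
  unfold phi
  have : (0 : ℝ) ≤ min ((L : ℝ) ^ 2) (4 * kP ^ 2 / H1 ^ 2) := le_min (by positivity) (by positivity)
  positivity

private theorem F09d_Boff_nonneg (A : ℝ) (hA : 0 ≤ A) (L k Q Q' N0 H1 : ℕ) (hR : 1 ≤ 4 * k * Q' * N0)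
    (τ : ℝ) : 0 ≤ Boff A L k Q Q' N0 H1 τ := by
  unfold Boff
  have h1 : (0 : ℝ) ≤ Real.log (4 * k * Q' * N0) := by
    apply Real.log_nonneg
    exact_mod_cast hR
  have hpi := Real.pi_pos.le
  have h2 : (0 : ℝ) ≤ 16 * Real.pi * (A + L) * H1 / (k * (Q * Q')) := by positivity
  have h3 : (0 : ℝ) ≤ 8 * Q * H1 * (N0 : ℝ) ^ 2 / Q' := by positivity
  have h4 : (0 : ℝ) ≤ τ ^ 2 * Real.sqrt (4 * k * Q' * N0) * (1 + Real.log (4 * k * Q' * N0)) := by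
    positivity
  positivity

/-- **The block bound.**
PROOF. `cauchy`; for every `κ` split the pairs `z` into those with
`z.1.2 * nn z.2.1 = z.2.2 * nn z.1.1` (`card_diag`, `any_pair`) and the others
(`card_Zset`, `off_pair`); `K = 2 Q' / N0 ≤ 2 Q' / N0` in the reals. -/
theorem block_sq {k Q Q' N0 : ℕ} {a : ℤ} {ℬ : Finset ℕ} {nn : ℕ → ℕ} {v : ℕ → ℤ}
    (S : Blk k Q Q' N0 a ℬ nn v) (A : ℝ) (hA : 0 ≤ A) (L H1 : ℕ) (hH1 : 1 ≤ H1)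
    (hHN : 4 * H1 ≤ k * Q * Q') (𝒜 : Finset ℕ) (α β : ℕ → ℝ)
    (h𝒜 : ∀ D ∈ 𝒜, Q < D ∧ D ≤ 2 * Q ∧ Nat.Coprime D k)
    (hα : ∀ D, |α D| ≤ 1) (hβ : ∀ b, |β b| ≤ 1) (τ : ℝ)
    (hτ : ∀ R : ℕ, 1 ≤ R → R ≤ 4 * k * Q' * N0 → (#R.divisors : ℝ) ≤ τ)
    (hτ' : ∀ R : ℕ, 1 ≤ R → R ≤ 4 * H1 * N0 → (#R.divisors : ℝ) ≤ τ) :
    ‖Ssum' A L k v 𝒜 ℬ α β H1‖ ^ 2
      ≤ (Q : ℝ) * (2 * Q' / N0 : ℝ) ^ 2 *
        (H1 * N0 * τ * (Q * phi L H1 (k * (Q * Q')) ^ 2)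
          + ((N0 : ℝ) * H1) ^ 2 * Boff A L k Q Q' N0 H1 τ) := by
  classical
  have hR1 : 1 ≤ 4 * k * Q' * N0 := by
    have h1 := S.hk
    have h2 := S.hQ'
    have h3 := S.hN0
    have h4 : 1 ≤ k * Q' := Nat.mul_pos h1 h2
    have h5 : 1 ≤ k * Q' * N0 := Nat.mul_pos h4 h3
    nlinarith
  have hB0 := F09d_Boff_nonneg A hA L k Q Q' N0 H1 hR1 τ
  have hphi : (0 : ℝ) ≤ phi L H1 (k * (Q * Q')) := F09d_phi_nonneg L H1 _ (by positivity)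
  have hτ0 : (0 : ℝ) ≤ τ := le_trans (Nat.cast_nonneg _) (hτ' 1 le_rfl (by
    have h3 := S.hN0
    have : 1 ≤ H1 * N0 := Nat.mul_pos hH1 h3
    nlinarith))
  set B := Boff A L k Q Q' N0 H1 τ with hB
  set Φ := phi L H1 (k * (Q * Q')) with hΦ
  set X : ℝ := H1 * N0 * τ * (Q * Φ ^ 2) + ((N0 : ℝ) * H1) ^ 2 * B with hX
  have hX0 : 0 ≤ X := by positivity
  have hκ : ∀ κ ∈ Icc 1 (2 * Q' / N0), ∑ z ∈ Zset ℬ nn H1 κ ×ˢ Zset ℬ nn H1 κ,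
          ‖∑ D ∈ (Ioc Q (2 * Q)).filter (fun D => Nat.Coprime D (k * z.1.1 * z.2.1)),
            xx A L k v z.1.2 z.1.1 D * (starRingEnd ℂ) (xx A L k v z.2.2 z.2.1 D)‖ ≤ X := by
    intro κ _
    have hmem : ∀ z ∈ Zset ℬ nn H1 κ ×ˢ Zset ℬ nn H1 κ,
        (z.1.1 ∈ ℬ ∧ z.1.1 / nn z.1.1 = κ ∧ H1 ≤ z.1.2 ∧ z.1.2 < 2 * H1) ∧
        (z.2.1 ∈ ℬ ∧ z.2.1 / nn z.2.1 = κ ∧ H1 ≤ z.2.2 ∧ z.2.2 < 2 * H1) := by
      intro z hz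
      unfold Zset at hz
      simp only [Finset.mem_product, Finset.mem_filter, Finset.mem_Ico] at hz
      tauto
    rw [← Finset.sum_filter_add_sum_filter_not _
      (fun z : (ℕ × ℕ) × (ℕ × ℕ) => z.1.2 * nn z.2.1 = z.2.2 * nn z.1.1)]
    refine add_le_add ?_ ?_
    · have h1 : ∀ z ∈ (Zset ℬ nn H1 κ ×ˢ Zset ℬ nn H1 κ).filter
          (fun z => z.1.2 * nn z.2.1 = z.2.2 * nn z.1.1),
          ‖∑ D ∈ (Ioc Q (2 * Q)).filter (fun D => Nat.Coprime D (k * z.1.1 * z.2.1)),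
            xx A L k v z.1.2 z.1.1 D * (starRingEnd ℂ) (xx A L k v z.2.2 z.2.1 D)‖
          ≤ Q * Φ ^ 2 := by
        intro z hz
        rw [Finset.mem_filter] at hz
        obtain ⟨⟨h1, h2, h3, h4⟩, ⟨h5, h6, h7, h8⟩⟩ := hmem z hz.1
        exact any_pair S A L H1 hH1 hHN z.1.1 z.2.1 h1 h5 z.1.2 z.2.2 h3 h7 h4 h8
      refine (Finset.sum_le_card_nsmul _ _ _ h1).trans ?_
      rw [nsmul_eq_mul]
      exact mul_le_mul_of_nonneg_right (card_diag S H1 κ hH1 τ hτ') (by positivity)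
    · have h1 : ∀ z ∈ (Zset ℬ nn H1 κ ×ˢ Zset ℬ nn H1 κ).filter
          (fun z => ¬ z.1.2 * nn z.2.1 = z.2.2 * nn z.1.1),
          ‖∑ D ∈ (Ioc Q (2 * Q)).filter (fun D => Nat.Coprime D (k * z.1.1 * z.2.1)),
            xx A L k v z.1.2 z.1.1 D * (starRingEnd ℂ) (xx A L k v z.2.2 z.2.1 D)‖
          ≤ B := by
        intro z hz
        rw [Finset.mem_filter] at hz
        obtain ⟨⟨h1, h2, h3, h4⟩, ⟨h5, h6, h7, h8⟩⟩ := hmem z hz.1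
        exact off_pair S A hA L H1 hH1 hHN τ hτ z.1.1 z.2.1 h1 h5 (h2.trans h6.symm)
          z.1.2 z.2.2 h3 h7 h4 h8 hz.2
      refine (Finset.sum_le_card_nsmul _ _ _ h1).trans ?_
      rw [nsmul_eq_mul]
      refine mul_le_mul_of_nonneg_right ?_ hB0
      have h2 := card_Zset S H1 κ
      have h3 : #((Zset ℬ nn H1 κ ×ˢ Zset ℬ nn H1 κ).filter
          (fun z => ¬ z.1.2 * nn z.2.1 = z.2.2 * nn z.1.1)) ≤ (N0 * H1) * (N0 * H1) := by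
        refine (Finset.card_filter_le _ _).trans ?_
        rw [Finset.card_product]
        exact Nat.mul_le_mul h2 h2
      have h4 : ((#((Zset ℬ nn H1 κ ×ˢ Zset ℬ nn H1 κ).filter
          (fun z => ¬ z.1.2 * nn z.2.1 = z.2.2 * nn z.1.1)) : ℕ) : ℝ)
          ≤ (((N0 * H1) * (N0 * H1) : ℕ) : ℝ) := by exact_mod_cast h3
      refine h4.trans (le_of_eq ?_)
      push_cast
      ring
  have hsum := Finset.sum_le_card_nsmul _ _ _ hκ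
  rw [Nat.card_Icc, nsmul_eq_mul] at hsum
  have hK : ((2 * Q' / N0 : ℕ) : ℝ) ≤ 2 * Q' / N0 := by
    refine (Nat.cast_div_le).trans ?_
    push_cast
    exact le_rfl
  have hK0 : (0 : ℝ) ≤ ((2 * Q' / N0 : ℕ) : ℝ) := Nat.cast_nonneg _
  have e1 : 2 * Q' / N0 + 1 - 1 = 2 * Q' / N0 := Nat.add_sub_cancel _ _
  rw [e1] at hsum
  refine (cauchy S A L H1 𝒜 α β h𝒜 hα hβ).trans ?_
  have hQ0 : (0 : ℝ) ≤ (Q : ℝ) := Nat.cast_nonneg _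
  calc (Q : ℝ) * (2 * Q' / N0 : ℕ) * ∑ κ ∈ Icc 1 (2 * Q' / N0),
        ∑ z ∈ Zset ℬ nn H1 κ ×ˢ Zset ℬ nn H1 κ,
          ‖∑ D ∈ (Ioc Q (2 * Q)).filter (fun D => Nat.Coprime D (k * z.1.1 * z.2.1)),
            xx A L k v z.1.2 z.1.1 D * (starRingEnd ℂ) (xx A L k v z.2.2 z.2.1 D)‖
      ≤ (Q : ℝ) * (2 * Q' / N0 : ℕ) * ((2 * Q' / N0 : ℕ) * X) :=
        mul_le_mul_of_nonneg_left hsum (by positivity)
    _ = (Q : ℝ) * ((2 * Q' / N0 : ℕ) : ℝ) ^ 2 * X := by ring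
    _ ≤ (Q : ℝ) * (2 * Q' / N0 : ℝ) ^ 2 * X := by
        refine mul_le_mul_of_nonneg_right ?_ hX0
        refine mul_le_mul_of_nonneg_left ?_ hQ0
        exact pow_le_pow_left₀ hK0 hK 2

end Pool.Agent.Lib.MP_bae66e_nt.P2

namespace Pool.Agent.Lib.MP_bae66e_nt.P2

open Finset

/-- The four inequalities for `φ`. -/
theorem F10a_phi (x h l φ : ℝ) (hx : 0 < x) (hh : 0 < h) (hl : 0 < l) (hφ : 0 ≤ φ)
    (a1 : φ * x ≤ l ^ 2) (a2 : φ * h ^ 2 ≤ 4 * x) :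
    h * φ ^ 2 * x ≤ 2 * l ^ 3 ∧ h ^ 2 * φ ^ 2 ≤ 4 * l ^ 2 ∧ h ^ 3 * φ ^ 2 ≤ 8 * l * x ∧
      h ^ 4 * φ ^ 2 ≤ 16 * x ^ 2 := by
  have b1 : 0 ≤ φ * x := by positivity
  have b2 : 0 ≤ φ * h ^ 2 := by positivity
  refine ⟨?_, ?_, ?_, ?_⟩
  · refine abs_le_of_sq_le_sq' ?_ (by positivity) |>.2
    have h1 : (φ * h ^ 2) * (φ * x) ^ 3 ≤ (4 * x) * (l ^ 2) ^ 3 :=
      mul_le_mul a2 (pow_le_pow_left₀ b1 a1 3) (by positivity) (by positivity)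
    have h2 : x * (h * φ ^ 2 * x) ^ 2 = (φ * h ^ 2) * (φ * x) ^ 3 := by ring
    have h3 : x * (2 * l ^ 3) ^ 2 = (4 * x) * (l ^ 2) ^ 3 := by ring
    have h4 : x * (h * φ ^ 2 * x) ^ 2 ≤ x * (2 * l ^ 3) ^ 2 := by rw [h2, h3]; exact h1
    exact le_of_mul_le_mul_left h4 hx
  · have h1 : (φ * x) * (φ * h ^ 2) ≤ l ^ 2 * (4 * x) :=
      mul_le_mul a1 a2 b2 (by positivity)
    have h4 : x * (h ^ 2 * φ ^ 2) ≤ x * (4 * l ^ 2) := by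
      calc x * (h ^ 2 * φ ^ 2) = (φ * x) * (φ * h ^ 2) := by ring
        _ ≤ l ^ 2 * (4 * x) := h1
        _ = x * (4 * l ^ 2) := by ring
    exact le_of_mul_le_mul_left h4 hx
  · refine abs_le_of_sq_le_sq' ?_ (by positivity) |>.2
    have h1 : (φ * x) * (φ * h ^ 2) ^ 3 ≤ l ^ 2 * (4 * x) ^ 3 :=
      mul_le_mul a1 (pow_le_pow_left₀ b2 a2 3) (by positivity) (by positivity)
    have h4 : x * (h ^ 3 * φ ^ 2) ^ 2 ≤ x * (8 * l * x) ^ 2 := by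
      calc x * (h ^ 3 * φ ^ 2) ^ 2 = (φ * x) * (φ * h ^ 2) ^ 3 := by ring
        _ ≤ l ^ 2 * (4 * x) ^ 3 := h1
        _ = x * (8 * l * x) ^ 2 := by ring
    exact le_of_mul_le_mul_left h4 hx
  · calc h ^ 4 * φ ^ 2 = (φ * h ^ 2) ^ 2 := by ring
      _ ≤ (4 * x) ^ 2 := pow_le_pow_left₀ b2 a2 2
      _ = 16 * x ^ 2 := by ring

/-- First term. -/
theorem F10a_one (k q q' n h l φ τ H G : ℝ) (hk : 1 ≤ k) (hq : 0 < q) (hq' : 0 < q')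
    (hn : 0 < n) (hh : 0 < h) (hl : 0 < l) (hτ : 0 ≤ τ) (hG : 0 < G)
    (c1 : h * φ ^ 2 * (k * (q * q')) ≤ 2 * l ^ 3) (hP : q * q' ≤ H * l) (h1 : H * G ≤ n) :
    q * (2 * q' / n) ^ 2 * (h * n * τ * (q * φ ^ 2)) ≤ 8 * τ * l ^ 4 / G := by
  have e : q * (2 * q' / n) ^ 2 * (h * n * τ * (q * φ ^ 2))
      = 4 * τ * (q * q') * (h * φ ^ 2 * (q * q')) / n := by
    field_simp
    ring
  have hhp : 0 ≤ h * φ ^ 2 * (q * q') := by positivity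
  have h2 : h * φ ^ 2 * (q * q') ≤ 2 * l ^ 3 := by
    calc h * φ ^ 2 * (q * q') = 1 * (h * φ ^ 2 * (q * q')) := by ring
      _ ≤ k * (h * φ ^ 2 * (q * q')) := mul_le_mul_of_nonneg_right hk hhp
      _ = h * φ ^ 2 * (k * (q * q')) := by ring
      _ ≤ 2 * l ^ 3 := c1
  rw [e, div_le_div_iff₀ hn hG]
  have hqq : 0 < q * q' := by positivity
  calc 4 * τ * (q * q') * (h * φ ^ 2 * (q * q')) * G
      ≤ 4 * τ * (H * l) * (2 * l ^ 3) * G := by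
        have : 0 ≤ H * l := hqq.le.trans hP
        gcongr
    _ = 8 * τ * l ^ 4 * (H * G) := by ring
    _ ≤ 8 * τ * l ^ 4 * n := mul_le_mul_of_nonneg_left h1 (by positivity)

/-- Second term, first part. -/
theorem F10a_two (k q q' n h l φ Λ H G : ℝ) (hk : 1 ≤ k) (hq : 0 < q) (hq' : 0 < q')
    (hn : 0 < n) (hh : 0 < h) (hl : 0 < l) (hlΛ : l ≤ Λ) (hG : 0 < G)
    (c3 : h ^ 3 * φ ^ 2 ≤ 8 * l * (k * (q * q')))
    (c4 : h ^ 4 * φ ^ 2 ≤ 16 * (k * (q * q')) ^ 2) (hP : q * q' ≤ H * l)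
    (h3 : H ^ 3 * n ^ 2 * G ≤ q') :
    q * (2 * q' / n) ^ 2 * ((n * h) ^ 2 * (3 * φ ^ 2 * (1 + 16 * Real.pi * Λ * h / (k * (q * q')))
      * (8 * q * h * n ^ 2 / q'))) ≤ 78048 * k * l ^ 3 * Λ / G := by
  have hqq : 0 < q * q' := by positivity
  have hx : 0 < k * (q * q') := by positivity
  have hΛ : 0 < Λ := by linarith
  have hpi : Real.pi ≤ 3.1416 := Real.pi_lt_d4.le
  have hpi0 := Real.pi_pos
  have e : q * (2 * q' / n) ^ 2 * ((n * h) ^ 2 * (3 * φ ^ 2 * (1 + 16 * Real.pi * Λ * h /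
      (k * (q * q'))) * (8 * q * h * n ^ 2 / q')))
      = 96 * (q * q') ^ 2 * n ^ 2 / q' * (h ^ 3 * φ ^ 2
        + 16 * Real.pi * Λ * (h ^ 4 * φ ^ 2) / (k * (q * q'))) := by
    field_simp
    ring
  have h4 : h ^ 3 * φ ^ 2 + 16 * Real.pi * Λ * (h ^ 4 * φ ^ 2) / (k * (q * q'))
      ≤ 813 * (k * (q * q')) * Λ := by
    have h5 : 16 * Real.pi * Λ * (h ^ 4 * φ ^ 2) / (k * (q * q'))
        ≤ 256 * Real.pi * Λ * (k * (q * q')) := by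
      rw [div_le_iff₀ hx]
      calc 16 * Real.pi * Λ * (h ^ 4 * φ ^ 2) ≤ 16 * Real.pi * Λ * (16 * (k * (q * q')) ^ 2) :=
            mul_le_mul_of_nonneg_left c4 (by positivity)
        _ = 256 * Real.pi * Λ * (k * (q * q')) * (k * (q * q')) := by ring
    have h6 : 256 * Real.pi * Λ * (k * (q * q')) ≤ 256 * 3.1416 * Λ * (k * (q * q')) := by
      gcongr
    have h7 : 8 * l * (k * (q * q')) ≤ 8 * Λ * (k * (q * q')) := by gcongr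
    have h8 : 0 < Λ * (k * (q * q')) := by positivity
    nlinarith
  rw [e, div_mul_eq_mul_div, div_le_div_iff₀ hq' hG]
  have hHl : 0 < H * l := lt_of_lt_of_le hqq hP
  calc 96 * (q * q') ^ 2 * n ^ 2 * (h ^ 3 * φ ^ 2
        + 16 * Real.pi * Λ * (h ^ 4 * φ ^ 2) / (k * (q * q'))) * G
      ≤ 96 * (q * q') ^ 2 * n ^ 2 * (813 * (k * (q * q')) * Λ) * G := by
        gcongr
    _ = 78048 * k * Λ * (q * q') ^ 3 * n ^ 2 * G := by ring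
    _ ≤ 78048 * k * Λ * (H * l) ^ 3 * n ^ 2 * G := by gcongr
    _ = 78048 * k * l ^ 3 * Λ * (H ^ 3 * n ^ 2 * G) := by ring
    _ ≤ 78048 * k * l ^ 3 * Λ * q' := mul_le_mul_of_nonneg_left h3 (by positivity)

/-- Second term, second part. -/
theorem F10a_three (k q q' n h l φ τ Λ H s ℓ lg : ℝ) (hk : 1 ≤ k) (hq : 0 < q) (hq' : 0 < q')
    (hn : 0 < n) (hh : 0 < h) (hl : 0 < l) (hlΛ : l ≤ Λ) (hs : 0 < s) (hH : 0 < H)
    (hlg : 0 ≤ lg) (hℓ : lg ≤ ℓ)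
    (c2 : h ^ 2 * φ ^ 2 ≤ 4 * l ^ 2)
    (c3 : h ^ 3 * φ ^ 2 ≤ 8 * l * (k * (q * q'))) (hP : q * q' ≤ H * l)
    (h2 : H ^ 4 * q' * n * s ^ 2 ≤ q ^ 2) :
    q * (2 * q' / n) ^ 2 * ((n * h) ^ 2 * (3 * φ ^ 2 * (1 + 16 * Real.pi * Λ * h / (k * (q * q')))
      * (τ ^ 2 * Real.sqrt (4 * k * q' * n) * lg))) ≤ 9768 * k * τ ^ 2 * ℓ * Λ * l ^ 3 / s := by
  have hqq : 0 < q * q' := by positivity
  have hx : 0 < k * (q * q') := by positivity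
  have hΛ : 0 < Λ := by linarith
  have hpi : Real.pi ≤ 3.1416 := Real.pi_lt_d4.le
  have hpi0 := Real.pi_pos
  have hHl : 0 < H * l := lt_of_lt_of_le hqq hP
  have hr : Real.sqrt (4 * k * q' * n) ≤ 2 * k * q / (H ^ 2 * s) := by
    refine Real.sqrt_le_iff.mpr ⟨by positivity, ?_⟩
    rw [div_pow, le_div_iff₀ (by positivity)]
    have hkk : k ≤ k ^ 2 := by nlinarith
    calc 4 * k * q' * n * (H ^ 2 * s) ^ 2 = 4 * k * (H ^ 4 * q' * n * s ^ 2) := by ring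
      _ ≤ 4 * k ^ 2 * q ^ 2 := by gcongr
      _ = (2 * k * q) ^ 2 := by ring
  have e : q * (2 * q' / n) ^ 2 * ((n * h) ^ 2 * (3 * φ ^ 2 * (1 + 16 * Real.pi * Λ * h /
      (k * (q * q'))) * (τ ^ 2 * Real.sqrt (4 * k * q' * n) * lg)))
      = 12 * q * q' ^ 2 * (τ ^ 2 * Real.sqrt (4 * k * q' * n) * lg) * (h ^ 2 * φ ^ 2
        + 16 * Real.pi * Λ * (h ^ 3 * φ ^ 2) / (k * (q * q'))) := by
    field_simp
    ring
  have h4 : h ^ 2 * φ ^ 2 + 16 * Real.pi * Λ * (h ^ 3 * φ ^ 2) / (k * (q * q'))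
      ≤ 407 * l * Λ := by
    have h5 : 16 * Real.pi * Λ * (h ^ 3 * φ ^ 2) / (k * (q * q'))
        ≤ 128 * Real.pi * Λ * l := by
      rw [div_le_iff₀ hx]
      calc 16 * Real.pi * Λ * (h ^ 3 * φ ^ 2) ≤ 16 * Real.pi * Λ * (8 * l * (k * (q * q'))) :=
            mul_le_mul_of_nonneg_left c3 (by positivity)
        _ = 128 * Real.pi * Λ * l * (k * (q * q')) := by ring
    have h6 : 128 * Real.pi * Λ * l ≤ 128 * 3.1416 * Λ * l := by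
      gcongr
    have h7 : 4 * l ^ 2 ≤ 4 * l * Λ := by nlinarith
    have h8 : 0 < Λ * l := by positivity
    nlinarith
  rw [e]
  calc 12 * q * q' ^ 2 * (τ ^ 2 * Real.sqrt (4 * k * q' * n) * lg) * (h ^ 2 * φ ^ 2
        + 16 * Real.pi * Λ * (h ^ 3 * φ ^ 2) / (k * (q * q')))
      ≤ 12 * q * q' ^ 2 * (τ ^ 2 * (2 * k * q / (H ^ 2 * s)) * ℓ) * (407 * l * Λ) := by
        have : 0 ≤ ℓ := hlg.trans hℓ
        gcongr
    _ = 9768 * k * τ ^ 2 * ℓ * Λ * l * ((q * q') ^ 2 / (H ^ 2 * s)) := by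
        field_simp
        ring
    _ ≤ 9768 * k * τ ^ 2 * ℓ * Λ * l * ((H * l) ^ 2 / (H ^ 2 * s)) := by
        have : 0 ≤ ℓ := hlg.trans hℓ
        gcongr
    _ = 9768 * k * τ ^ 2 * ℓ * Λ * l ^ 3 / s := by
        field_simp

/-- **The numerical inequality.** `x` stands for `k Q Q'`.
PROOF. Let `φ = phi L H1 x = min (L², 4x²/H1²)/x`, so `φ ≤ L²/x` and `φ ≤ 4 x / H1²`. Hence
(1) `H1 φ² ≤ 2 L³ / x` (as `φ² = φ^(3/2) φ^(1/2)`; or: `(H1 φ²)² = φ³ (φ H1²) ≤ (L²/x)³ 4x`),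
(2) `H1² φ² ≤ 4 L²` (`φ · φ H1²`), (3) `H1³ φ² ≤ 8 L x` (`(H1³ φ²)² = φ (φ H1²)³`),
(4) `H1⁴ φ² ≤ 16 x²`. Write `P = Q Q'`, `x = k P`, `P ≤ H L`, `Λ = A + L`.
First term: `4 Q Q'² / N0² · H1 N0 τ Q φ² = 4 P² H1 φ² τ / N0 ≤ 8 P L³ τ / (k N0) ≤ 8 τ H L⁴ / N0
≤ 8 τ L⁴ / G`. Second term, first part: `4 Q Q'²/N0² · (N0 H1)² · 3 φ² (1 + 16 π Λ H1 / x) · 8 Q H1
N0² / Q' = 96 (P²/Q') N0² (H1³ φ² + 16 π Λ H1⁴ φ² / x) ≤ 96 (P²/Q') N0² (8 L x + 256 π Λ x)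
≤ 96 · 813 k P³ N0² Λ / Q' ≤ 78048 k H³ L³ N0² Λ / Q' ≤ 78048 k L³ Λ / G`. Second part:
`12 P Q' τ² ℓ √(4 k Q' N0) (H1² φ² + 16 π Λ H1³ φ² / x) ≤ 12 P Q' τ² ℓ √(4 k Q' N0) (4 L² + 128 π Λ L)
≤ 9768 √k τ² ℓ Λ L P Q' √(Q' N0)`, and `P Q' √(Q' N0) = (P²/Q) √(Q' N0) ≤ P² / (H² √G) ≤ L² / √G`.
Sum up; `k, τ, ℓ, G ≥ 1`, `L ≤ Λ`, `1/G ≤ 1/√G`. -/
theorem numeric (A : ℝ) (hA : 0 ≤ A) (L k Q Q' N0 H1 : ℕ) (hL : 1 ≤ L) (hk : 1 ≤ k) (hQ : 1 ≤ Q)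
    (hQ' : 1 ≤ Q') (hN0 : 1 ≤ N0) (hH1 : 1 ≤ H1) (τ H G ℓ : ℝ) (hτ : 1 ≤ τ) (hH : 1 ≤ H)
    (hG : 1 ≤ G) (hℓ : 1 + Real.log (4 * k * Q' * N0) ≤ ℓ) (hP : (Q : ℝ) * Q' ≤ H * L)
    (h1 : H * G ≤ N0) (h2 : H ^ 4 * Q' * N0 * G ≤ (Q : ℝ) ^ 2)
    (h3 : H ^ 3 * (N0 : ℝ) ^ 2 * G ≤ Q') :
    (Q : ℝ) * (2 * Q' / N0 : ℝ) ^ 2 *
        (H1 * N0 * τ * (Q * phi L H1 (k * (Q * Q')) ^ 2)
          + ((N0 : ℝ) * H1) ^ 2 * Boff A L k Q Q' N0 H1 τ)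
      ≤ 90000 * k * τ ^ 2 * ℓ * (A + L) * (L : ℝ) ^ 3 / Real.sqrt G := by
  have kr : (1 : ℝ) ≤ k := by exact_mod_cast hk
  have qr : (1 : ℝ) ≤ Q := by exact_mod_cast hQ
  have qr' : (1 : ℝ) ≤ Q' := by exact_mod_cast hQ'
  have nr : (1 : ℝ) ≤ N0 := by exact_mod_cast hN0
  have hr : (1 : ℝ) ≤ H1 := by exact_mod_cast hH1
  have lr : (1 : ℝ) ≤ L := by exact_mod_cast hL
  unfold Boff
  obtain ⟨φ, hφ⟩ : ∃ φ : ℝ, φ = phi L H1 (k * (Q * Q')) := ⟨_, rfl⟩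
  rw [← hφ]
  have hx : (0 : ℝ) < k * (Q * Q') := by positivity
  have hφ0 : 0 ≤ φ := by rw [hφ]; unfold phi; positivity
  have a1 : φ * (k * (Q * Q')) ≤ (L : ℝ) ^ 2 := by
    rw [hφ]; unfold phi
    rw [div_mul_cancel₀ _ hx.ne']
    exact min_le_left _ _
  have a2 : φ * (H1 : ℝ) ^ 2 ≤ 4 * (k * (Q * Q')) := by
    rw [hφ]; unfold phi
    rw [div_mul_eq_mul_div, div_le_iff₀ hx]
    calc min ((L : ℝ) ^ 2) (4 * ((k : ℝ) * (Q * Q')) ^ 2 / (H1 : ℝ) ^ 2) * (H1 : ℝ) ^ 2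
        ≤ (4 * ((k : ℝ) * (Q * Q')) ^ 2 / (H1 : ℝ) ^ 2) * (H1 : ℝ) ^ 2 :=
          mul_le_mul_of_nonneg_right (min_le_right _ _) (by positivity)
      _ = 4 * (k * (Q * Q')) * (k * (Q * Q')) := by
          field_simp
  obtain ⟨c1, c2, c3, c4⟩ := F10a_phi (k * (Q * Q')) H1 L φ hx (by linarith) (by linarith) hφ0 a1 a2
  obtain ⟨s, hs⟩ : ∃ s : ℝ, s = Real.sqrt G := ⟨_, rfl⟩
  rw [← hs]
  have hs2 : s ^ 2 = G := by rw [hs]; exact Real.sq_sqrt (by linarith)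
  have hs1 : 1 ≤ s := by rw [hs]; exact Real.one_le_sqrt.mpr hG
  have hlog : 0 ≤ Real.log (4 * k * Q' * N0) := by
    refine Real.log_nonneg ?_
    have h5 : (1 : ℝ) ≤ k * Q' := one_le_mul_of_one_le_of_one_le kr qr'
    have h6 : (1 : ℝ) ≤ k * Q' * N0 := one_le_mul_of_one_le_of_one_le h5 nr
    linarith
  obtain ⟨Λ, hΛ⟩ : ∃ Λ : ℝ, Λ = A + L := ⟨_, rfl⟩
  rw [← hΛ]
  have hlΛ : (L : ℝ) ≤ Λ := by rw [hΛ]; linarith
  obtain ⟨lg, hlg⟩ : ∃ lg : ℝ, lg = 1 + Real.log (4 * k * Q' * N0) := ⟨_, rfl⟩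
  rw [← hlg]
  rw [← hlg] at hℓ
  have hlg1 : 1 ≤ lg := by rw [hlg]; linarith
  have t1 := F10a_one k Q Q' N0 H1 L φ τ H G kr (by linarith) (by linarith) (by linarith)
    (by linarith) (by linarith) (by linarith) (by linarith) c1 hP h1
  have t2 := F10a_two k Q Q' N0 H1 L φ Λ H G kr (by linarith) (by linarith) (by linarith)
    (by linarith) (by linarith) hlΛ (by linarith) c3 c4 hP h3
  have t3 := F10a_three k Q Q' N0 H1 L φ τ Λ H s ℓ lg kr (by linarith) (by linarith) (by linarith)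
    (by linarith) (by linarith) hlΛ (by linarith) (by linarith) (by linarith) hℓ c2 c3 hP
    (by rw [hs2]; exact h2)
  have hsplit : (Q : ℝ) * (2 * Q' / N0 : ℝ) ^ 2 * (H1 * N0 * τ * (Q * φ ^ 2)
          + ((N0 : ℝ) * H1) ^ 2 * (3 * φ ^ 2 * (1 + 16 * Real.pi * Λ * H1 / (k * (Q * Q')))
    * (8 * Q * H1 * (N0 : ℝ) ^ 2 / Q' + τ ^ 2 * Real.sqrt (4 * k * Q' * N0) * lg)))
      = (Q : ℝ) * (2 * Q' / N0 : ℝ) ^ 2 * (H1 * N0 * τ * (Q * φ ^ 2))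
        + (Q : ℝ) * (2 * Q' / N0 : ℝ) ^ 2 * (((N0 : ℝ) * H1) ^ 2 * (3 * φ ^ 2
          * (1 + 16 * Real.pi * Λ * H1 / (k * (Q * Q'))) * (8 * Q * H1 * (N0 : ℝ) ^ 2 / Q')))
        + (Q : ℝ) * (2 * Q' / N0 : ℝ) ^ 2 * (((N0 : ℝ) * H1) ^ 2 * (3 * φ ^ 2
          * (1 + 16 * Real.pi * Λ * H1 / (k * (Q * Q')))
            * (τ ^ 2 * Real.sqrt (4 * k * Q' * N0) * lg))) := by ring
  rw [hsplit]
  have hℓ1 : 1 ≤ ℓ := hlg1.trans hℓ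
  have hGs : ∀ z : ℝ, 0 ≤ z → z / G ≤ z / s := by
    intro z hz
    rw [← hs2]
    refine div_le_div_of_nonneg_left hz (by linarith) ?_
    calc s = s * 1 := by ring
      _ ≤ s * s := mul_le_mul_of_nonneg_left hs1 (by linarith)
      _ = s ^ 2 := by ring
  obtain ⟨W, hW⟩ : ∃ W : ℝ, W = k * τ ^ 2 * ℓ * Λ * (L : ℝ) ^ 3 / s := ⟨_, rfl⟩
  have hτ2 : 1 ≤ τ ^ 2 := one_le_pow₀ hτ
  have hΛ0 : 0 < Λ := by linarith
  have hτ0 : 0 < τ := by linarith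
  have hs0 : 0 < s := by linarith
  have hℓ0 : 0 < ℓ := by linarith
  have u1 : 8 * τ * (L : ℝ) ^ 4 / G ≤ 8 * W := by
    refine (hGs _ (by positivity)).trans ?_
    rw [hW]
    have : 8 * τ * (L : ℝ) ^ 4 ≤ 8 * (k * τ ^ 2 * ℓ * Λ * (L : ℝ) ^ 3) := by
      calc 8 * τ * (L : ℝ) ^ 4 = 8 * (1 * τ * 1 * L * (L : ℝ) ^ 3) := by ring
        _ ≤ 8 * (k * τ ^ 2 * ℓ * Λ * (L : ℝ) ^ 3) := by
            have : τ ≤ τ ^ 2 := by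
              calc τ = τ * 1 := by ring
                _ ≤ τ * τ := mul_le_mul_of_nonneg_left hτ (by linarith)
                _ = τ ^ 2 := by ring
            gcongr
    calc 8 * τ * (L : ℝ) ^ 4 / s ≤ 8 * (k * τ ^ 2 * ℓ * Λ * (L : ℝ) ^ 3) / s := by gcongr
      _ = 8 * (k * τ ^ 2 * ℓ * Λ * (L : ℝ) ^ 3 / s) := by ring
  have u2 : 78048 * k * (L : ℝ) ^ 3 * Λ / G ≤ 78048 * W := by
    refine (hGs _ (by positivity)).trans ?_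
    rw [hW]
    have : 78048 * k * (L : ℝ) ^ 3 * Λ ≤ 78048 * (k * τ ^ 2 * ℓ * Λ * (L : ℝ) ^ 3) := by
      calc 78048 * k * (L : ℝ) ^ 3 * Λ = 78048 * (k * 1 * 1 * Λ * (L : ℝ) ^ 3) := by ring
        _ ≤ 78048 * (k * τ ^ 2 * ℓ * Λ * (L : ℝ) ^ 3) := by
            gcongr
    calc 78048 * k * (L : ℝ) ^ 3 * Λ / s ≤ 78048 * (k * τ ^ 2 * ℓ * Λ * (L : ℝ) ^ 3) / s := by
          gcongr
      _ = 78048 * (k * τ ^ 2 * ℓ * Λ * (L : ℝ) ^ 3 / s) := by ring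
  have u3 : 9768 * k * τ ^ 2 * ℓ * Λ * (L : ℝ) ^ 3 / s = 9768 * W := by
    rw [hW]; ring
  have u4 : 90000 * k * τ ^ 2 * ℓ * Λ * (L : ℝ) ^ 3 / s = 90000 * W := by
    rw [hW]; ring
  have hW0 : 0 ≤ W := by rw [hW]; positivity
  rw [u4]
  rw [u3] at t3
  linarith

end Pool.Agent.Lib.MP_bae66e_nt.P2

namespace Pool.Agent.Lib.MP_bae66e_nt.P2

open Finset

/-- Dyadic decomposition of `Ico 1 (2 ^ J)`. -/
theorem F10b_dyadic (f : ℕ → ℂ) (J : ℕ) :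
    ∑ h ∈ Ico 1 (2 ^ J), f h = ∑ j ∈ range J, ∑ h ∈ Ico (2 ^ j) (2 * 2 ^ j), f h := by
  induction J with
  | zero => simp
  | succ J ih =>
    rw [Finset.sum_range_succ, ← ih, show 2 ^ (J + 1) = 2 * 2 ^ J by ring]
    rw [Finset.sum_Ico_consecutive _ (Nat.one_le_two_pow) (by omega)]

theorem F10b_card {k Q Q' N0 : ℕ} {a : ℤ} {ℬ : Finset ℕ} {nn : ℕ → ℕ} {v : ℕ → ℤ}
    (S : Blk k Q Q' N0 a ℬ nn v) : #ℬ ≤ Q' := by
  have : ℬ ⊆ Ioc Q' (2 * Q') := fun D hD => mem_Ioc.mpr ⟨S.lo D hD, S.hi D hD⟩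
  refine (Finset.card_le_card this).trans ?_
  rw [Nat.card_Ioc]; omega

/-- The truncated expansion with the Kloosterman fractions. -/
theorem F10b_trunc {k Q Q' N0 : ℕ} {a : ℤ} {ℬ : Finset ℕ} {nn : ℕ → ℕ} {v : ℕ → ℤ}
    (S : Blk k Q Q' N0 a ℬ nn v) (A0 L p J : ℕ)
    (hJ : 4 * 2 ^ J ≤ k * Q * Q') (D b : ℕ) (hb : b ∈ ℬ) (hD1 : Q < D) (hD2 : D ≤ 2 * Q)
    (hDk : Nat.Coprime D k) (hDb : Nat.Coprime D b) (ρ : ℤ)
    (h1 : (D : ℤ) ∣ ρ - p) (h2 : ρ - p ≡ v b [ZMOD ((k * b : ℕ) : ℤ)]) :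
    |Er A0 L (k * D * b) ρ - 2 * (∑ h ∈ Ico 1 (2 ^ J), xx ((A0 : ℝ) - p) L k v h b D).re|
      ≤ 4 * k * (Q * Q') / 2 ^ J := by
  have hk := S.hk
  have hb1 := S.lo b hb
  have hb2 := S.hi b hb
  have hN1 : k * Q * Q' ≤ k * D * b := Nat.mul_le_mul (Nat.mul_le_mul_left k hD1.le) hb1.le
  have hpow : 1 ≤ 2 ^ J := Nat.one_le_two_pow
  have ht := Er_trunc A0 L (k * D * b) (2 ^ J) hpow (by omega) ρ
  have hsum : ∑ h ∈ Ico (1 : ℕ) (2 ^ J), (((1 / ((k * D * b : ℕ) : ℝ) : ℝ)) : ℂ)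
        * ee ((h : ℝ) * ((A0 : ℝ) - ρ) / ((k * D * b : ℕ) : ℝ))
        * ((‖GG L ((h : ℝ) / ((k * D * b : ℕ) : ℝ))‖ ^ 2 : ℝ) : ℂ)
      = ∑ h ∈ Ico (1 : ℕ) (2 ^ J), xx ((A0 : ℝ) - p) L k v h b D := by
    refine Finset.sum_congr rfl fun h _ => ?_
    unfold xx Phi
    have hcop : Nat.Coprime D (k * b) := Nat.Coprime.mul_right hDk hDb
    have hr := reciprocity (A0 : ℝ) k D b h (by omega) (by omega) (by omega) hcop ρ p (v b) h1 h2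
    rw [hr]
    have hcast : ((p : ℤ) : ℝ) = (p : ℝ) := by push_cast; ring
    rw [hcast]
    ring
  rw [hsum] at ht
  refine ht.trans ?_
  have h3 : ((k * D * b : ℕ) : ℝ) ≤ 4 * k * (Q * Q') := by
    have h4 : k * D * b ≤ 4 * k * (Q * Q') := by
      calc k * D * b ≤ k * (2 * Q) * (2 * Q') := Nat.mul_le_mul (Nat.mul_le_mul_left k hD2) hb2
        _ = 4 * k * (Q * Q') := by ring
    exact_mod_cast h4
  have h5 : (((2 ^ J : ℕ) : ℕ) : ℝ) = 2 ^ J := by push_cast; ring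
  rw [h5]
  exact div_le_div_of_nonneg_right h3 (by positivity)

/-- **The bilinear estimate for a block.**
PROOF. For `D ∈ 𝒜`, `b ∈ ℬ` coprime, put `N = k D b`, `Y = 2 ^ J`. `Er_trunc` (`2 Y < N` because
`N > k Q Q' ≥ 4 · 2 ^ J`) and `reciprocity` (`A = A0 - p`; the hypotheses `hρ`) give
`|Er N (ρ D b) - 2 Re ∑_{h ∈ Ico 1 Y} xx A L k v h b D| ≤ N / Y ≤ 4 k Q Q' / Y`. Here
`ee (h (A0 - ρ) / N) = ee (h (A0 - p) / N) kf …` is `reciprocity` with `A := A0`.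
Multiply by `α D β b` and sum; `Ico 1 (2 ^ J)` is the disjoint union of the
`Ico (2 ^ j) (2 · 2 ^ j)`, `j < J`. So the total is at most
`2 ∑_{j < J} ‖Ssum' (2 ^ j)‖ + Q Q' · 4 k Q Q' / 2 ^ J`, and `‖Ssum'‖ ≤ √(90000 …)` by `block_sq` and
`numeric` (`H1 = 2 ^ j`, `4 H1 ≤ 4 · 2 ^ J ≤ k Q Q'`; `4 H1 N0 ≤ 4 · 2^J N0`). -/
theorem block_bound {k Q Q' N0 : ℕ} {a : ℤ} {ℬ : Finset ℕ} {nn : ℕ → ℕ} {v : ℕ → ℤ}
    (S : Blk k Q Q' N0 a ℬ nn v) (A0 L p J : ℕ) (hL : 1 ≤ L) (hp : p ≤ A0)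
    (hJ : 4 * 2 ^ J ≤ k * Q * Q') (𝒜 : Finset ℕ) (α β : ℕ → ℝ)
    (h𝒜 : ∀ D ∈ 𝒜, Q < D ∧ D ≤ 2 * Q ∧ Nat.Coprime D k)
    (hα : ∀ D, |α D| ≤ 1) (hβ : ∀ b, |β b| ≤ 1) (ρ : ℕ → ℕ → ℤ)
    (hρ : ∀ D ∈ 𝒜, ∀ b ∈ ℬ, Nat.Coprime D b →
      (D : ℤ) ∣ ρ D b - p ∧ ρ D b - p ≡ v b [ZMOD ((k * b : ℕ) : ℤ)])
    (τ H G ℓ : ℝ) (hτ1 : 1 ≤ τ) (hH : 1 ≤ H)
    (hG : 1 ≤ G) (hℓ : 1 + Real.log (4 * k * Q' * N0) ≤ ℓ) (hP : (Q : ℝ) * Q' ≤ H * L)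
    (h1 : H * G ≤ N0) (h2 : H ^ 4 * Q' * N0 * G ≤ (Q : ℝ) ^ 2)
    (h3 : H ^ 3 * (N0 : ℝ) ^ 2 * G ≤ Q')
    (hτ : ∀ R : ℕ, 1 ≤ R → R ≤ 4 * k * Q' * N0 → (#R.divisors : ℝ) ≤ τ)
    (hτ' : ∀ R : ℕ, 1 ≤ R → R ≤ 4 * 2 ^ J * N0 → (#R.divisors : ℝ) ≤ τ) :
    |∑ D ∈ 𝒜, ∑ b ∈ ℬ.filter (fun b => Nat.Coprime D b), α D * β b * Er A0 L (k * D * b) (ρ D b)|
      ≤ 2 * J * (300 * τ * Real.sqrt (k * ℓ * ((A0 : ℝ) + L) * (L : ℝ) ^ 3 / Real.sqrt G))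
        + 4 * k * ((Q : ℝ) * Q') ^ 2 / 2 ^ J := by
  obtain ⟨A, hAd⟩ : ∃ A : ℝ, A = (A0 : ℝ) - p := ⟨_, rfl⟩
  have hpr : (p : ℝ) ≤ A0 := by exact_mod_cast hp
  have hA0 : 0 ≤ A := by rw [hAd]; linarith
  have hA1 : A ≤ A0 := by rw [hAd]; linarith [(Nat.cast_nonneg p : (0 : ℝ) ≤ p)]
  obtain ⟨B, hB⟩ : ∃ B : ℝ, B = 300 * τ * Real.sqrt (k * ℓ * ((A0 : ℝ) + L) * (L : ℝ) ^ 3
    / Real.sqrt G) := ⟨_, rfl⟩
  have hB0 : 0 ≤ B := by rw [hB]; positivity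
  have hkr : (1 : ℝ) ≤ k := by exact_mod_cast S.hk
  -- the block sums
  have hSs : ∀ j ∈ range J, ‖Ssum' A L k v 𝒜 ℬ α β (2 ^ j)‖ ≤ B := by
    intro j hj
    have hjJ : 2 ^ j ≤ 2 ^ J := Nat.pow_le_pow_right (by norm_num) (mem_range.mp hj).le
    have hb := block_sq S A hA0 L (2 ^ j) Nat.one_le_two_pow (by omega) 𝒜 α β h𝒜 hα hβ τ hτ
      (fun R hR hR2 => hτ' R hR (hR2.trans (Nat.mul_le_mul_right _ (Nat.mul_le_mul_left _ hjJ))))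
    have hn := numeric A hA0 L k Q Q' N0 (2 ^ j) hL S.hk S.hQ S.hQ' S.hN0 Nat.one_le_two_pow
      τ H G ℓ hτ1 hH hG hℓ hP h1 h2 h3
    have hlogn : 0 ≤ Real.log (4 * k * Q' * N0) := by
      refine Real.log_nonneg ?_
      have e1 : (1 : ℝ) ≤ Q' := by exact_mod_cast S.hQ'
      have e2 : (1 : ℝ) ≤ N0 := by exact_mod_cast S.hN0
      have h5 : (1 : ℝ) ≤ k * Q' := one_le_mul_of_one_le_of_one_le hkr e1
      have h6 : (1 : ℝ) ≤ k * Q' * N0 := one_le_mul_of_one_le_of_one_le h5 e2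
      linarith
    have hℓ0 : 0 ≤ ℓ := by linarith
    have hsq : ‖Ssum' A L k v 𝒜 ℬ α β (2 ^ j)‖ ^ 2 ≤ B ^ 2 := by
      refine (hb.trans hn).trans ?_
      rw [hB, mul_pow, Real.sq_sqrt (by positivity)]
      have h7 : 90000 * k * τ ^ 2 * ℓ * (A + L) * (L : ℝ) ^ 3 / Real.sqrt G
          = 90000 * τ ^ 2 * (k * ℓ * (A + L) * (L : ℝ) ^ 3 / Real.sqrt G) := by ring
      rw [h7, show (300 * τ) ^ 2 = 90000 * τ ^ 2 by ring]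
      have h8 : k * ℓ * (A + L) * (L : ℝ) ^ 3 / Real.sqrt G
          ≤ k * ℓ * ((A0 : ℝ) + L) * (L : ℝ) ^ 3 / Real.sqrt G := by
        have h9 : A + L ≤ (A0 : ℝ) + L := by linarith
        gcongr
      exact mul_le_mul_of_nonneg_left h8 (by positivity)
    exact (abs_le_of_sq_le_sq' hsq hB0).2
  -- the main part
  have hmain : ∑ D ∈ 𝒜, ∑ b ∈ ℬ.filter (fun b => Nat.Coprime D b), α D * β b
        * (2 * (∑ h ∈ Ico 1 (2 ^ J), xx A L k v h b D).re)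
      = 2 * (∑ j ∈ range J, Ssum' A L k v 𝒜 ℬ α β (2 ^ j)).re := by
    have e1 : ∑ j ∈ range J, Ssum' A L k v 𝒜 ℬ α β (2 ^ j)
        = ∑ D ∈ 𝒜, ∑ b ∈ ℬ.filter (fun b => Nat.Coprime D b), ((α D * β b : ℝ) : ℂ)
          * ∑ h ∈ Ico 1 (2 ^ J), xx A L k v h b D := by
      unfold Ssum'
      rw [Finset.sum_comm]
      refine Finset.sum_congr rfl fun D _ => ?_
      rw [Finset.sum_comm]
      refine Finset.sum_congr rfl fun b _ => ?_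
      rw [← Finset.mul_sum, F10b_dyadic]
    rw [e1, Complex.re_sum, Finset.mul_sum]
    refine Finset.sum_congr rfl fun D _ => ?_
    rw [Complex.re_sum, Finset.mul_sum]
    refine Finset.sum_congr rfl fun b _ => ?_
    rw [Complex.re_ofReal_mul]
    ring
  have hbound : |2 * (∑ j ∈ range J, Ssum' A L k v 𝒜 ℬ α β (2 ^ j)).re| ≤ 2 * J * B := by
    rw [abs_mul, abs_two, mul_assoc]
    refine mul_le_mul_of_nonneg_left ?_ (by norm_num)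
    refine (Complex.abs_re_le_norm _).trans ?_
    refine (norm_sum_le _ _).trans ?_
    calc ∑ j ∈ range J, ‖Ssum' A L k v 𝒜 ℬ α β (2 ^ j)‖ ≤ ∑ _j ∈ range J, B :=
          Finset.sum_le_sum hSs
      _ = J * B := by simp
  -- the error part
  have hcA : #𝒜 ≤ Q := by
    have : 𝒜 ⊆ Ioc Q (2 * Q) := fun D hD => mem_Ioc.mpr ⟨(h𝒜 D hD).1, (h𝒜 D hD).2.1⟩
    refine (Finset.card_le_card this).trans ?_
    rw [Nat.card_Ioc]; omega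
  have hcB := F10b_card S
  have herr : |∑ D ∈ 𝒜, ∑ b ∈ ℬ.filter (fun b => Nat.Coprime D b), α D * β b
        * (Er A0 L (k * D * b) (ρ D b) - 2 * (∑ h ∈ Ico 1 (2 ^ J), xx A L k v h b D).re)|
      ≤ 4 * k * ((Q : ℝ) * Q') ^ 2 / 2 ^ J := by
    have hE0 : (0 : ℝ) ≤ 4 * k * (Q * Q') / 2 ^ J := by positivity
    calc _ ≤ ∑ D ∈ 𝒜, ∑ b ∈ ℬ.filter (fun b => Nat.Coprime D b),
            (4 * k * (Q * Q') / 2 ^ J : ℝ) := by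
          refine (Finset.abs_sum_le_sum_abs _ _).trans (Finset.sum_le_sum fun D hD => ?_)
          refine (Finset.abs_sum_le_sum_abs _ _).trans (Finset.sum_le_sum fun b hb => ?_)
          obtain ⟨hb1, hb2⟩ := Finset.mem_filter.mp hb
          obtain ⟨d1, d2, d3⟩ := h𝒜 D hD
          obtain ⟨r1, r2⟩ := hρ D hD b hb1 hb2
          have ht := F10b_trunc S A0 L p J hJ D b hb1 d1 d2 d3 hb2 (ρ D b) r1 r2
          rw [← hAd] at ht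
          rw [abs_mul, abs_mul]
          calc |α D| * |β b| * |Er A0 L (k * D * b) (ρ D b)
                - 2 * (∑ h ∈ Ico 1 (2 ^ J), xx A L k v h b D).re|
              ≤ 1 * 1 * (4 * k * (Q * Q') / 2 ^ J : ℝ) := by
                refine mul_le_mul (mul_le_mul (hα D) (hβ b) (abs_nonneg _) zero_le_one)
                  ht (abs_nonneg _) (by norm_num)
            _ = _ := by ring
      _ ≤ ∑ D ∈ 𝒜, ∑ b ∈ ℬ, (4 * k * (Q * Q') / 2 ^ J : ℝ) := by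
          refine Finset.sum_le_sum fun D hD => ?_
          exact Finset.sum_le_sum_of_subset_of_nonneg (Finset.filter_subset _ _)
            (fun _ _ _ => hE0)
      _ = (#𝒜 : ℝ) * #ℬ * (4 * k * (Q * Q') / 2 ^ J) := by
          simp only [Finset.sum_const, nsmul_eq_mul]; ring
      _ ≤ (Q : ℝ) * Q' * (4 * k * (Q * Q') / 2 ^ J) := by
          refine mul_le_mul_of_nonneg_right ?_ hE0
          have a1 : (#𝒜 : ℝ) ≤ Q := by exact_mod_cast hcA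
          have a2 : (#ℬ : ℝ) ≤ Q' := by exact_mod_cast hcB
          exact mul_le_mul a1 a2 (Nat.cast_nonneg _) (Nat.cast_nonneg _)
      _ = 4 * k * ((Q : ℝ) * Q') ^ 2 / 2 ^ J := by ring
  have hsplit : ∑ D ∈ 𝒜, ∑ b ∈ ℬ.filter (fun b => Nat.Coprime D b),
        α D * β b * Er A0 L (k * D * b) (ρ D b)
      = ∑ D ∈ 𝒜, ∑ b ∈ ℬ.filter (fun b => Nat.Coprime D b), α D * β b
        * (2 * (∑ h ∈ Ico 1 (2 ^ J), xx A L k v h b D).re)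
      + ∑ D ∈ 𝒜, ∑ b ∈ ℬ.filter (fun b => Nat.Coprime D b), α D * β b
        * (Er A0 L (k * D * b) (ρ D b) - 2 * (∑ h ∈ Ico 1 (2 ^ J), xx A L k v h b D).re) := by
    rw [← Finset.sum_add_distrib]
    refine Finset.sum_congr rfl fun D _ => ?_
    rw [← Finset.sum_add_distrib]
    refine Finset.sum_congr rfl fun b _ => ?_
    ring
  rw [hsplit, hmain, ← hB]
  exact (abs_add_le _ _).trans (add_le_add hbound herr)

end Pool.Agent.Lib.MP_bae66e_nt.P2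

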