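import Mathlib
import Pool.Agent.Lib.MP_bae66e_nt.P2.GDefs
import Pool.Agent.Lib.MP_bae66e_nt.P2.KF3
import Pool.Agent.Lib.MP_d807e3_co.Divisors

set_option autoImplicit false

namespace Pool.Agent.Lib.MP_bae66e_nt.P2

open Finset

/-- The divisor supplied by well factorability.
PROOF. `D = p l`, `l = m n` with `n ≤ N`, `m N ≤ Lam`. So `D = (p m) n` and
`n = D / (p m) ≥ Q N / (P Lam)`: `Q N ≤ D N = p m n N ≤ P Lam n`. -/
theorem exists_divisor {k T L : ℕ} {τ δ : ℝ} {c : Cls} (hc : Good k T L τ δ c) (D : ℕ)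
    (hD : D ∈ c.D) (N : ℝ) (hN1 : 1 ≤ N) (hN : N ≤ c.Lam) :
    ∃ n : ℕ, n ∣ D ∧ (n : ℝ) ≤ N ∧ c.Q * N / (c.P * c.Lam) ≤ n := by
  obtain ⟨p, l, hDpl, hp, hwf⟩ := hc.fac D hD
  obtain ⟨m, n, hl, hn, hm⟩ := hwf N hN1 hN
  have hP : (0 : ℝ) < c.P := lt_of_lt_of_le one_pos hc.hP
  have hLam : (0 : ℝ) < c.Lam := lt_of_lt_of_le one_pos hc.hLam
  refine ⟨n, ⟨p * m, by rw [hDpl, hl]; ring⟩, hn, ?_⟩
  rw [div_le_iff₀ (mul_pos hP hLam)]
  have h1 : (c.Q : ℝ) ≤ D := by exact_mod_cast (hc.lo D hD).le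
  have h2 : (D : ℝ) = p * (m * n) := by
    rw [hDpl, hl]
    push_cast
    ring
  have hN0 : (0 : ℝ) ≤ N := by linarith
  have hn0 : (0 : ℝ) ≤ n := Nat.cast_nonneg _
  have hmN : (0 : ℝ) ≤ m * N := by positivity
  calc (c.Q : ℝ) * N ≤ D * N := mul_le_mul_of_nonneg_right h1 hN0
    _ = n * (p * (m * N)) := by rw [h2]; ring
    _ ≤ n * (c.P * c.Lam) :=
        mul_le_mul_of_nonneg_left (mul_le_mul hp hm hmN hP.le) hn0

/-- The size of the moduli.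
PROOF. `WF` with `N = 1` gives `l = m n`, `n ≤ 1`, `m ≤ Lam`, so `l ≤ Lam` (`n = 0` would give
`D = 0`), and `Q < D = p l ≤ P Lam ≤ L ^ τ`. -/
theorem Q_lt {k T L : ℕ} {τ δ : ℝ} {c : Cls} (hc : Good k T L τ δ c) (D : ℕ)
    (hD : D ∈ c.D) : (c.Q : ℝ) < c.P * c.Lam := by
  obtain ⟨p, l, hDpl, hp, hwf⟩ := hc.fac D hD
  obtain ⟨m, n, hl, hn, hm⟩ := hwf 1 le_rfl hc.hLam
  rw [mul_one] at hm
  have hP : (0 : ℝ) < c.P := lt_of_lt_of_le one_pos hc.hP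
  have h1 : (c.Q : ℝ) < D := by exact_mod_cast hc.lo D hD
  have hm0 : (0 : ℝ) ≤ m := Nat.cast_nonneg _
  have hl2 : (l : ℝ) ≤ c.Lam := by
    rw [hl]
    push_cast
    calc (m : ℝ) * n ≤ m * 1 := mul_le_mul_of_nonneg_left hn hm0
      _ = m := mul_one _
      _ ≤ c.Lam := hm
  calc (c.Q : ℝ) < D := h1
    _ = p * l := by rw [hDpl]; push_cast; ring
    _ ≤ c.P * c.Lam := mul_le_mul hp hl2 (Nat.cast_nonneg _) hP.le

end Pool.Agent.Lib.MP_bae66e_nt.P2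

namespace Pool.Agent.Lib.MP_bae66e_nt.P2

open Finset

/-- **The bilinear estimate, divisors in a range.**
PROOF. Choose for every `b ∈ ℬ` a divisor `nn b` with `n1 ≤ nn b ≤ n2` (`hn`). For `l ≤ log₂ n2` let
`ℬ_l` be the set of the `b` with `2 ^ l < nn b ≤ 2 * 2 ^ l`; as `nn b ≥ n1 ≥ 2` (from
`2 H G ≤ n1`, `H, G ≥ 1`) these sets partition `ℬ` (`l` is `Nat.log 2 (nn b - 1)`), and there are
at most `Nat.log 2 ⌊n2⌋₊ + 1` of them. Apply `block_bound` to each nonempty `ℬ_l` with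
`N0 = 2 ^ l`: `H G ≤ n1 / 2 ≤ N0 ≤ n2`, so `h1`, `h2`, `h3` there follow. Add up
(`ℬ.filter = ⋃ ℬ_l.filter`). The empty `ℬ_l` contribute nothing. -/
theorem range_bound (k Q Q' : ℕ) (a : ℤ) (ℬ : Finset ℕ) (v : ℕ → ℤ)
    (hk : 1 ≤ k) (hksq : Squarefree k) (hQ : 1 ≤ Q) (hQ' : 1 ≤ Q')
    (lo : ∀ b ∈ ℬ, Q' < b) (hi : ∀ b ∈ ℬ, b ≤ 2 * Q') (sq : ∀ b ∈ ℬ, Squarefree b)
    (cop : ∀ b ∈ ℬ, Nat.Coprime k b) (va : ∀ b ∈ ℬ, (b : ℤ) ∣ v b - a)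
    (acop : ∀ b ∈ ℬ, IsCoprime a (b : ℤ)) (n1 n2 : ℝ)
    (hn : ∀ b ∈ ℬ, ∃ n : ℕ, n ∣ b ∧ n1 ≤ n ∧ (n : ℝ) ≤ n2) (hn2 : 1 ≤ n2)
    (A0 L p J : ℕ) (hL : 1 ≤ L) (hp : p ≤ A0)
    (hJ : 4 * 2 ^ J ≤ k * Q * Q') (𝒜 : Finset ℕ) (α β : ℕ → ℝ)
    (h𝒜 : ∀ D ∈ 𝒜, Q < D ∧ D ≤ 2 * Q ∧ Nat.Coprime D k)
    (hα : ∀ D, |α D| ≤ 1) (hβ : ∀ b, |β b| ≤ 1) (ρ : ℕ → ℕ → ℤ)
    (hρ : ∀ D ∈ 𝒜, ∀ b ∈ ℬ, Nat.Coprime D b →
      (D : ℤ) ∣ ρ D b - p ∧ ρ D b - p ≡ v b [ZMOD ((k * b : ℕ) : ℤ)])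
    (τ H G ℓ : ℝ) (hτ1 : 1 ≤ τ) (hH : 1 ≤ H)
    (hG : 1 ≤ G) (hℓ : 1 + Real.log (4 * k * Q' * n2) ≤ ℓ) (hP : (Q : ℝ) * Q' ≤ H * L)
    (h1 : 2 * H * G ≤ n1) (h2 : H ^ 4 * Q' * n2 * G ≤ (Q : ℝ) ^ 2)
    (h3 : H ^ 3 * n2 ^ 2 * G ≤ Q')
    (hτ : ∀ R : ℕ, 1 ≤ R → (R : ℝ) ≤ 4 * k * Q' * n2 → (#R.divisors : ℝ) ≤ τ)
    (hτ' : ∀ R : ℕ, 1 ≤ R → (R : ℝ) ≤ 4 * 2 ^ J * n2 → (#R.divisors : ℝ) ≤ τ) :
    |∑ D ∈ 𝒜, ∑ b ∈ ℬ.filter (fun b => Nat.Coprime D b), α D * β b * Er A0 L (k * D * b) (ρ D b)|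
      ≤ (Nat.log 2 ⌊n2⌋₊ + 1) *
        (2 * J * (300 * τ * Real.sqrt (k * ℓ * ((A0 : ℝ) + L) * (L : ℝ) ^ 3 / Real.sqrt G))
        + 4 * k * ((Q : ℝ) * Q') ^ 2 / 2 ^ J) := by
  classical
  choose! nn hnd hnlo hnhi using hn
  obtain ⟨X, hX⟩ : ∃ X : ℝ, X =
    2 * J * (300 * τ * Real.sqrt (k * ℓ * ((A0 : ℝ) + L) * (L : ℝ) ^ 3 / Real.sqrt G))
        + 4 * k * ((Q : ℝ) * Q') ^ 2 / 2 ^ J := ⟨_, rfl⟩
  rw [← hX]
  have hX0 : 0 ≤ X := by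
    rw [hX]
    have hτ0 : 0 ≤ τ := zero_le_one.trans hτ1
    positivity
  have hHG : 1 ≤ H * G := one_le_mul_of_one_le_of_one_le hH hG
  have hn1 : (2 : ℝ) ≤ n1 := by nlinarith
  have hnn2 : ∀ b ∈ ℬ, 2 ≤ nn b := by
    intro b hb
    have h4 : (2 : ℝ) ≤ nn b := hn1.trans (hnlo b hb)
    exact_mod_cast h4
  have hn20 : 0 ≤ n2 := zero_le_one.trans hn2
  set lb : ℕ → ℕ := fun b => Nat.log 2 (nn b - 1) with hlb
  have hl1 : ∀ b ∈ ℬ, 2 ^ lb b < nn b := by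
    intro b hb
    have h4 := hnn2 b hb
    have h5 : 2 ^ Nat.log 2 (nn b - 1) ≤ nn b - 1 := Nat.pow_log_le_self 2 (by omega)
    simp only [hlb]
    omega
  have hl2 : ∀ b ∈ ℬ, nn b ≤ 2 * 2 ^ lb b := by
    intro b hb
    have h4 := hnn2 b hb
    have h5 : nn b - 1 < 2 ^ (Nat.log 2 (nn b - 1)).succ :=
      Nat.lt_pow_succ_log_self (by norm_num) _
    rw [Nat.succ_eq_add_one, pow_succ] at h5
    simp only [hlb]
    omega
  have hl3 : ∀ b ∈ ℬ, lb b ∈ range (Nat.log 2 ⌊n2⌋₊ + 1) := by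
    intro b hb
    have h4 : nn b ≤ ⌊n2⌋₊ := Nat.le_floor (hnhi b hb)
    have h5 : Nat.log 2 (nn b - 1) ≤ Nat.log 2 ⌊n2⌋₊ := Nat.log_mono_right (by omega)
    rw [mem_range]
    simp only [hlb]
    omega
  have hsplit : ∑ D ∈ 𝒜, ∑ b ∈ ℬ.filter (fun b => Nat.Coprime D b),
      α D * β b * Er A0 L (k * D * b) (ρ D b) =
      ∑ l ∈ range (Nat.log 2 ⌊n2⌋₊ + 1), ∑ D ∈ 𝒜,
        ∑ b ∈ (ℬ.filter (fun b => lb b = l)).filter (fun b => Nat.Coprime D b),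
          α D * β b * Er A0 L (k * D * b) (ρ D b) := by
    rw [sum_comm]
    refine sum_congr rfl fun D _ => ?_
    rw [sum_filter, ← sum_fiberwise_of_maps_to hl3]
    exact sum_congr rfl fun l _ => (sum_filter _ _).symm
  have hblock : ∀ l, |∑ D ∈ 𝒜,
        ∑ b ∈ (ℬ.filter (fun b => lb b = l)).filter (fun b => Nat.Coprime D b),
          α D * β b * Er A0 L (k * D * b) (ρ D b)| ≤ X := by
    intro l
    rcases (ℬ.filter (fun b => lb b = l)).eq_empty_or_nonempty with he | ⟨b0, hb0⟩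
    · rw [he]
      simpa using hX0
    · rw [mem_filter] at hb0
      obtain ⟨hb0, hb0l⟩ := hb0
      have e1 := hl1 b0 hb0
      have e2 := hl2 b0 hb0
      rw [hb0l] at e1 e2
      have e1' : ((2 ^ l : ℕ) : ℝ) ≤ n2 := by
        have h4 : ((2 ^ l : ℕ) : ℝ) ≤ nn b0 := by exact_mod_cast e1.le
        exact h4.trans (hnhi b0 hb0)
      have e2' : H * G ≤ ((2 ^ l : ℕ) : ℝ) := by
        have h4 : (nn b0 : ℝ) ≤ 2 * ((2 ^ l : ℕ) : ℝ) := by exact_mod_cast e2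
        have h5 := hnlo b0 hb0
        linarith
      obtain ⟨N0, hN0⟩ : ∃ N0 : ℕ, N0 = 2 ^ l := ⟨_, rfl⟩
      rw [← hN0] at e1 e2 e1' e2'
      have hN01 : 1 ≤ N0 := hN0 ▸ Nat.one_le_two_pow
      have hN0r : (0 : ℝ) < N0 := by exact_mod_cast hN01
      have hk' : (0 : ℝ) < k := by exact_mod_cast hk
      have hQ'r : (0 : ℝ) < Q' := by exact_mod_cast hQ'
      have hH0 : 0 ≤ H := zero_le_one.trans hH
      have hG0 : 0 ≤ G := zero_le_one.trans hG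
      have S : Blk k Q Q' N0 a (ℬ.filter (fun b => lb b = l)) nn v := by
        refine ⟨hk, hksq, hQ, hQ', hN01, ?_, ?_, ?_, ?_, ?_, ?_, ?_, ?_, ?_⟩
        · exact fun b hb => lo b (mem_filter.1 hb).1
        · exact fun b hb => hi b (mem_filter.1 hb).1
        · exact fun b hb => sq b (mem_filter.1 hb).1
        · exact fun b hb => cop b (mem_filter.1 hb).1
        · exact fun b hb => hnd b (mem_filter.1 hb).1
        · intro b hb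
          rw [mem_filter] at hb
          rw [hN0, ← hb.2]
          exact hl1 b hb.1
        · intro b hb
          rw [mem_filter] at hb
          rw [hN0, ← hb.2]
          exact hl2 b hb.1
        · exact fun b hb => va b (mem_filter.1 hb).1
        · exact fun b hb => acop b (mem_filter.1 hb).1
      rw [hX]
      refine block_bound S A0 L p J hL hp hJ 𝒜 α β h𝒜 hα hβ ρ
        (fun D hD b hb => hρ D hD b (mem_filter.1 hb).1) τ H G ℓ hτ1 hH hG ?_ hP e2' ?_ ?_ ?_ ?_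
      · refine le_trans ?_ hℓ
        have h4 : Real.log (4 * k * Q' * N0) ≤ Real.log (4 * k * Q' * n2) := by
          refine Real.log_le_log (by positivity) ?_
          exact mul_le_mul_of_nonneg_left e1' (by positivity)
        linarith
      · refine le_trans ?_ h2
        refine mul_le_mul_of_nonneg_right ?_ hG0
        exact mul_le_mul_of_nonneg_left e1' (by positivity)
      · refine le_trans ?_ h3
        refine mul_le_mul_of_nonneg_right ?_ hG0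
        refine mul_le_mul_of_nonneg_left ?_ (by positivity)
        exact pow_le_pow_left₀ hN0r.le e1' 2
      · intro R hR hR2
        refine hτ R hR ?_
        have h4 : (R : ℝ) ≤ 4 * k * Q' * N0 := by exact_mod_cast hR2
        refine h4.trans ?_
        exact mul_le_mul_of_nonneg_left e1' (by positivity)
      · intro R hR hR2
        refine hτ' R hR ?_
        have h4 : (R : ℝ) ≤ 4 * 2 ^ J * N0 := by exact_mod_cast hR2
        refine h4.trans ?_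
        exact mul_le_mul_of_nonneg_left e1' (by positivity)
  rw [hsplit]
  refine (abs_sum_le_sum_abs _ _).trans ?_
  refine (sum_le_sum fun l _ => hblock l).trans ?_
  rw [sum_const, card_range, nsmul_eq_mul]
  push_cast
  exact le_rfl

end Pool.Agent.Lib.MP_bae66e_nt.P2

namespace Pool.Agent.Lib.MP_bae66e_nt.P2



/-- **The exponents.** With `H = max 1 (Q Q' / L)` and `G = L ^ δ`, `N = 2 H G P' Λ' / Q'`.
PROOF. All quantities are positive. Write `X = L ^ τ`; `Q, Q' ≤ X`, `P' Λ' ≤ X`.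
CASE `Q Q' ≤ L` (`H = 1`). From `L^(1-δ) ≤ Q Q'` and `Q' ≤ X`: `Q ≥ L^(1-δ-τ)`, also
`Q' ≥ L^(1-δ-τ)`. (i) `P' ≤ L^(1-3δ) / Q ≤ L^(1-3δ) Q' / L^(1-δ) = Q' L^(-2δ)`, and `2 G ≤ L^(2δ)`
because `2 ≤ L^δ`. (ii) `2 G² P'Λ' ≤ 2 L^(2δ+τ) ≤ L^(2-2δ-2τ) ≤ Q²` as `3 τ + 5 δ ≤ 2`.
(iii) `4 G³ (P'Λ')² ≤ 4 L^(3δ+2τ) ≤ L^(3-3δ-3τ) ≤ Q'³` as `5 τ + 8 δ ≤ 3`.
(iv) `8 L^δ ≤ L^(1-δ)`. CASE `Q Q' > L` (`H = Q Q'/L`). (i) `2 H G P' = 2 G P' Q Q' / L ≤ Q'`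
because `2 G P' Q ≤ 2 L^(1-2δ) ≤ L`. (ii) `2 H^5 G² P'Λ' ≤ Q²`: multiply by `L^5`:
`2 Q^5 Q'^5 L^(2δ+τ) ≤ Q² L^5` follows from `2 Q³ Q'^5 L^(2δ+τ) ≤ 2 L^(9τ+2δ) ≤ L^5`.
(iii) `4 H^5 G³ (P'Λ')² ≤ Q'³`: `4 Q^5 Q'^2 L^(3δ+2τ) ≤ 4 L^(9τ+3δ) ≤ L^(9τ+5δ) ≤ L^5`, as
`4 ≤ L^(2δ)`. (iv) `8 H² G ≤ Q Q'`: `8 Q Q' L^δ ≤ L²` as `2 τ + 4 δ ≤ 2`, `8 ≤ L^(3δ)`. -/
theorem exponents (L τ δ Q Q' P' Λ' : ℝ) (hδ : 0 < δ) (hτ : 9 * τ + 5 * δ ≤ 5)
    (hτ0 : 1 / 2 ≤ τ) (hδ1 : δ ≤ 1 / 100) (hL : 1 ≤ L) (hLδ : 8 ≤ L ^ δ) (hQ : 1 ≤ Q) (hQ' : 1 ≤ Q')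
    (hQX : Q ≤ L ^ τ) (hQX' : Q' ≤ L ^ τ) (hP' : 1 ≤ P') (hΛ' : 1 ≤ Λ')
    (hPΛ : P' * Λ' ≤ L ^ τ) (hPQ : P' * Q ≤ L ^ (1 - 3 * δ)) (hQQ : L ^ (1 - δ) ≤ Q * Q') :
    2 * max 1 (Q * Q' / L) * L ^ δ * P' ≤ Q' ∧
    2 * max 1 (Q * Q' / L) ^ 5 * (L ^ δ) ^ 2 * (P' * Λ') ≤ Q ^ 2 ∧
    4 * max 1 (Q * Q' / L) ^ 5 * (L ^ δ) ^ 3 * (P' * Λ') ^ 2 ≤ Q' ^ 3 ∧
    8 * max 1 (Q * Q' / L) ^ 2 * L ^ δ ≤ Q * Q' := by
  have hL0 : 0 < L := by linarith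
  obtain ⟨l, rfl⟩ : ∃ l, L = Real.exp l := ⟨Real.log L, (Real.exp_log hL0).symm⟩
  obtain ⟨a, rfl⟩ : ∃ a, Q = Real.exp a := ⟨Real.log Q, (Real.exp_log (by linarith)).symm⟩
  obtain ⟨b, rfl⟩ : ∃ b, Q' = Real.exp b := ⟨Real.log Q', (Real.exp_log (by linarith)).symm⟩
  obtain ⟨p, rfl⟩ : ∃ p, P' = Real.exp p := ⟨Real.log P', (Real.exp_log (by linarith)).symm⟩
  obtain ⟨q, rfl⟩ : ∃ q, Λ' = Real.exp q := ⟨Real.log Λ', (Real.exp_log (by linarith)).symm⟩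
  obtain ⟨t, ht⟩ : ∃ t, Real.exp t = 2 := ⟨Real.log 2, Real.exp_log (by norm_num)⟩
  have h8 : (8 : ℝ) = Real.exp (3 * t) := by
    rw [show (3 : ℝ) * t = t + t + t by ring, Real.exp_add, Real.exp_add, ht]; norm_num
  have h4 : (4 : ℝ) = Real.exp (2 * t) := by
    rw [show (2 : ℝ) * t = t + t by ring, Real.exp_add, ht]; norm_num
  have ht0 : 0 < t := by
    have : Real.exp 0 < Real.exp t := by rw [ht, Real.exp_zero]; norm_num
    exact Real.exp_lt_exp.1 this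
  have hmax : max 1 (Real.exp a * Real.exp b / Real.exp l) = Real.exp (max 0 (a + b - l)) := by
    rw [← Real.exp_add, ← Real.exp_sub, ← Real.exp_zero]
    exact (Real.exp_monotone.map_max).symm
  have hpow : ∀ x : ℝ, Real.exp l ^ x = Real.exp (l * x) := fun x => (Real.exp_mul l x).symm
  rw [hpow, h8, Real.exp_le_exp] at hLδ
  rw [hpow, Real.exp_le_exp] at hQX hQX'
  rw [hpow, ← Real.exp_add, Real.exp_le_exp] at hPΛ hPQ
  rw [hpow, ← Real.exp_add, Real.exp_le_exp] at hQQ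
  rw [← Real.exp_zero, Real.exp_le_exp] at hL hQ hQ' hP' hΛ'
  have hT : 9 * (l * τ) + 5 * (l * δ) ≤ 5 * l := by nlinarith
  have hT0 : l / 2 ≤ l * τ := by nlinarith
  have hd1 : l * δ ≤ l / 100 := by nlinarith
  have e1 : l * (1 - 3 * δ) = l - 3 * (l * δ) := by ring
  have e2 : l * (1 - δ) = l - l * δ := by ring
  rw [e1] at hPQ
  rw [e2] at hQQ
  rw [hmax, hpow, h8, h4]
  have h2 : (2 : ℝ) = Real.exp t := ht.symm
  generalize l * τ = T at *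
  generalize l * δ = d at *
  have key : t + max 0 (a + b - l) + d + p ≤ b ∧
      t + 5 * max 0 (a + b - l) + 2 * d + (p + q) ≤ 2 * a ∧
      2 * t + 5 * max 0 (a + b - l) + 3 * d + 2 * (p + q) ≤ 3 * b ∧
      3 * t + 2 * max 0 (a + b - l) + d ≤ a + b := by
    rcases le_total (a + b - l) 0 with h | h
    · rw [max_eq_left h]
      refine ⟨?_, ?_, ?_, ?_⟩ <;> linarith
    · rw [max_eq_right h]
      refine ⟨?_, ?_, ?_, ?_⟩ <;> linarith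
  obtain ⟨k1, k2, k3, k4⟩ := key
  refine ⟨?_, ?_, ?_, ?_⟩
  · rw [h2, ← Real.exp_add, ← Real.exp_add, ← Real.exp_add, Real.exp_le_exp]
    exact k1
  · have : (2 : ℝ) * Real.exp (max 0 (a + b - l)) ^ 5 * Real.exp d ^ 2 * (Real.exp p * Real.exp q)
        = Real.exp (t + 5 * max 0 (a + b - l) + 2 * d + (p + q)) := by
      rw [Real.exp_add, Real.exp_add, Real.exp_add, Real.exp_add, ht, ← Real.exp_nat_mul,
        ← Real.exp_nat_mul]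
      norm_num
    rw [this, ← Real.exp_nat_mul, Real.exp_le_exp]
    push_cast; exact k2
  · have : Real.exp (2 * t) * Real.exp (max 0 (a + b - l)) ^ 5 * Real.exp d ^ 3 *
        (Real.exp p * Real.exp q) ^ 2
        = Real.exp (2 * t + 5 * max 0 (a + b - l) + 3 * d + 2 * (p + q)) := by
      rw [Real.exp_add, Real.exp_add, Real.exp_add, ← Real.exp_nat_mul,
        ← Real.exp_nat_mul, ← Real.exp_add p q, ← Real.exp_nat_mul]
      norm_num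
    rw [this, ← Real.exp_nat_mul, Real.exp_le_exp]
    push_cast; exact k3
  · have : Real.exp (3 * t) * Real.exp (max 0 (a + b - l)) ^ 2 * Real.exp d
        = Real.exp (3 * t + 2 * max 0 (a + b - l) + d) := by
      rw [Real.exp_add, Real.exp_add, ← Real.exp_nat_mul]
      norm_num
    rw [this, ← Real.exp_add, Real.exp_le_exp]
    exact k4

end Pool.Agent.Lib.MP_bae66e_nt.P2

namespace Pool.Agent.Lib.MP_bae66e_nt.P2



/-- One of the two directions is admissible.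
PROOF. Suppose both fail: `P' Q > L^(1-3δ)` and `P Q' > L^(1-3δ)`. If `P ≤ L^(1-τ-4δ)` then
`P Q' ≤ L^(1-τ-4δ) L^τ = L^(1-4δ)`, contradiction; so `P² Λ ≤ L^(1-4δ)`, and in the same way
`P'² Λ' ≤ L^(1-4δ)`. With `Q ≤ P Λ`, `Q' ≤ P' Λ'`: `(P' Q) (P Q') ≤ P'² Λ' P² Λ ≤ L^(2-8δ)
≤ L^(2-6δ)`, contradiction. -/
theorem direction (L τ δ Q Q' P Λ P' Λ' : ℝ) (hδ : 0 < δ) (hL : 1 ≤ L) (hQ : 1 ≤ Q)
    (hQ' : 1 ≤ Q') (hP : 1 ≤ P) (hΛ : 1 ≤ Λ) (hP' : 1 ≤ P') (hΛ' : 1 ≤ Λ')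
    (hQP : Q ≤ P * Λ) (hQP' : Q' ≤ P' * Λ') (h1 : P * Λ ≤ L ^ τ) (h1' : P' * Λ' ≤ L ^ τ)
    (h2 : P ≤ L ^ (1 - τ - 4 * δ) ∨ P ^ 2 * Λ ≤ L ^ (1 - 4 * δ))
    (h2' : P' ≤ L ^ (1 - τ - 4 * δ) ∨ P' ^ 2 * Λ' ≤ L ^ (1 - 4 * δ)) :
    P' * Q ≤ L ^ (1 - 3 * δ) ∨ P * Q' ≤ L ^ (1 - 3 * δ) := by
  have hL0 : (0 : ℝ) < L := by linarith
  have hmono : L ^ (1 - 4 * δ) ≤ L ^ (1 - 3 * δ) :=
    Real.rpow_le_rpow_of_exponent_le hL (by linarith)
  have hadd : L ^ (1 - τ - 4 * δ) * L ^ τ = L ^ (1 - 4 * δ) := by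
    rw [← Real.rpow_add hL0]
    congr 1
    ring
  have hpos : ∀ x : ℝ, 0 < L ^ x := fun x => Real.rpow_pos_of_pos hL0 x
  rcases h2 with h | h
  · right
    calc P * Q' ≤ L ^ (1 - τ - 4 * δ) * L ^ τ :=
          mul_le_mul h (hQP'.trans h1') (by linarith) (hpos _).le
      _ = L ^ (1 - 4 * δ) := hadd
      _ ≤ L ^ (1 - 3 * δ) := hmono
  · rcases h2' with h' | h'
    · left
      calc P' * Q ≤ L ^ (1 - τ - 4 * δ) * L ^ τ :=
            mul_le_mul h' (hQP.trans h1) (by linarith) (hpos _).le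
        _ = L ^ (1 - 4 * δ) := hadd
        _ ≤ L ^ (1 - 3 * δ) := hmono
    · by_contra hcon
      rw [not_or, not_le, not_le] at hcon
      have e1 : L ^ (1 - 3 * δ) * L ^ (1 - 3 * δ) < (P' * Q) * (P * Q') :=
        mul_lt_mul'' hcon.1 hcon.2 (hpos _).le (hpos _).le
      have e2 : (P' * Q) * (P * Q') ≤ (P' * (P * Λ)) * (P * (P' * Λ')) := by
        have hP0 : (0 : ℝ) ≤ P := by linarith
        have hP'0 : (0 : ℝ) ≤ P' := by linarith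
        have hΛ0 : (0 : ℝ) ≤ Λ := by linarith
        refine mul_le_mul (mul_le_mul_of_nonneg_left hQP hP'0)
          (mul_le_mul_of_nonneg_left hQP' hP0) (mul_nonneg hP0 (by linarith)) ?_
        exact mul_nonneg hP'0 (mul_nonneg hP0 hΛ0)
      have e3 : (P' * (P * Λ)) * (P * (P' * Λ')) = (P ^ 2 * Λ) * (P' ^ 2 * Λ') := by ring
      have e4 : (P ^ 2 * Λ) * (P' ^ 2 * Λ') ≤ L ^ (1 - 4 * δ) * L ^ (1 - 4 * δ) :=
        mul_le_mul h h' (mul_nonneg (sq_nonneg _) (by linarith)) (hpos _).le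
      have e5 : L ^ (1 - 4 * δ) * L ^ (1 - 4 * δ) ≤ L ^ (1 - 3 * δ) * L ^ (1 - 3 * δ) :=
        mul_le_mul hmono hmono (hpos _).le (hpos _).le
      linarith [e3 ▸ e2]

end Pool.Agent.Lib.MP_bae66e_nt.P2

namespace Pool.Agent.Lib.MP_bae66e_nt.P2

open Finset

/-- growth of powers of logarithms -/
private theorem G04a_log (η : ℝ) (hη : 0 < η) : ∃ L₀ : ℕ, ∀ L : ℕ, L₀ ≤ L →
    1000000 * (Real.log L + 1) ^ 3 ≤ (L : ℝ) ^ η := by
  have h1 : (fun x : ℝ => Real.log x) =o[Filter.atTop] fun x => x ^ (η / 4) :=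
    isLittleO_log_rpow_atTop (by positivity)
  have h2 := h1.bound (c := 1 / 200) (by norm_num)
  have h3 : Filter.Tendsto (fun x : ℝ => x ^ (η / 4)) Filter.atTop Filter.atTop :=
    tendsto_rpow_atTop (by positivity)
  have h4 := h3.eventually_ge_atTop 1000000
  have h5 := (h2.and (h4.and (Filter.eventually_ge_atTop (1 : ℝ))))
  obtain ⟨x₀, hx₀⟩ := Filter.eventually_atTop.mp h5
  refine ⟨⌈x₀⌉₊, fun L hL => ?_⟩
  obtain ⟨ha, hb, hc⟩ := hx₀ (L : ℝ) (Nat.ceil_le.mp hL)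
  have hlog : 0 ≤ Real.log (L : ℝ) := Real.log_nonneg hc
  have hy : 0 ≤ (L : ℝ) ^ (η / 4) := Real.rpow_nonneg (by linarith) _
  rw [Real.norm_eq_abs, Real.norm_eq_abs, abs_of_nonneg hlog, abs_of_nonneg hy] at ha
  have hp : (L : ℝ) ^ η = ((L : ℝ) ^ (η / 4)) ^ 4 := by
    rw [← Real.rpow_natCast, ← Real.rpow_mul (by linarith)]
    congr 1
    push_cast
    ring
  rw [hp]
  generalize (L : ℝ) ^ (η / 4) = Y at *
  have h6 : Real.log (L : ℝ) + 1 ≤ Y / 100 := by linarith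
  have h7 : (Real.log (L : ℝ) + 1) ^ 3 ≤ (Y / 100) ^ 3 :=
    pow_le_pow_left₀ (by linarith) h6 3
  have h8 : 1000000 * (Y / 100) ^ 3 = Y ^ 3 := by ring
  have h9 : Y ^ 3 ≤ Y ^ 4 := pow_le_pow_right₀ (by linarith) (by norm_num)
  linarith

/-- The final numerical step.
PROOF. `Pool.Agent.MP_d807e3_co.divisor_bound` is used by the caller; here only growth:
with `G = L ^ δ`, `k ≤ L^(δ/100)`, `A0 ≤ L^(1+δ/100)`, `ℓ = 10 log L + 10`, `τ ≤ L^(δ/50)`, `J ≤ 4 log₂ L`,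
`n2 ≤ L²` the first summand is at most
`(2 log₂ L + 1) (8 log₂ L) 300 L^(δ/50) √(L^(δ/100) (10 log L + 10) · 2 L^(1+δ/100) L³) L^(-δ/4)
= (log L)^O(1) L^(2 - δ/4 + δ/50 + δ/100)`, and the second one `(2 log₂ L + 1) 4 L² / L^δ`; both are
at most `L^(2 - δ/6) / 2` for large `L`. -/
theorem final_growth (δ : ℝ) (hδ : 0 < δ) (hδ1 : δ ≤ 1 / 100) : ∃ L₀ : ℕ, ∀ L : ℕ, L₀ ≤ L →
    ∀ (k A0 J : ℕ) (n2 τ ℓ S : ℝ), 1 ≤ k → (k : ℝ) ≤ (L : ℝ) ^ (δ / 100) →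
      (A0 : ℝ) ≤ (L : ℝ) ^ (1 + δ / 100) →
      (J : ℝ) ≤ 10 * Real.log L → 1 ≤ n2 → n2 ≤ (L : ℝ) ^ 2 → 1 ≤ τ → τ ≤ (L : ℝ) ^ (δ / 50) →
      0 ≤ ℓ → ℓ ≤ 10 * Real.log L + 10 → S ≤ 4 * (L : ℝ) ^ 2 / (L : ℝ) ^ δ →
      (Nat.log 2 ⌊n2⌋₊ + 1) *
        (2 * J * (300 * τ * Real.sqrt (k * ℓ * ((A0 : ℝ) + L) * (L : ℝ) ^ 3
          / Real.sqrt ((L : ℝ) ^ δ))) + S) ≤ (L : ℝ) ^ (2 - δ / 6) := by
  obtain ⟨L₁, hL₁⟩ := G04a_log (δ / 20) (by positivity)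
  refine ⟨max L₁ 1, fun L hL k A0 J n2 τ ℓ S hk hk2 hA0 hJ hn1 hn2 hτ1 hτ2 hℓ0 hℓ hS => ?_⟩
  have hL1 : L₁ ≤ L := le_trans (le_max_left _ _) hL
  have hLn : 1 ≤ L := le_trans (le_max_right _ _) hL
  have hX1 : (1 : ℝ) ≤ (L : ℝ) := by exact_mod_cast hLn
  have hkey := hL₁ L hL1
  obtain ⟨X, hX⟩ : ∃ X : ℝ, X = (L : ℝ) := ⟨_, rfl⟩
  rw [← hX] at hX1 hkey hk2 hA0 hJ hn2 hτ2 hℓ hS ⊢
  have hX0 : 0 < X := by linarith
  have hlog : 0 ≤ Real.log X := Real.log_nonneg hX1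
  obtain ⟨P, hP⟩ : ∃ P : ℝ, P = Real.log X + 1 := ⟨_, rfl⟩
  rw [← hP] at hkey
  have hP1 : 1 ≤ P := by linarith
  -- the number of blocks
  have hN : ((Nat.log 2 ⌊n2⌋₊ : ℕ) : ℝ) + 1 ≤ 3 * P := by
    have h1 : (2 : ℝ) ^ (Nat.log 2 ⌊n2⌋₊) ≤ n2 := by
      have h2 : 2 ^ (Nat.log 2 ⌊n2⌋₊) ≤ ⌊n2⌋₊ :=
        Nat.pow_log_le_self 2 (Nat.pos_iff_ne_zero.mp (Nat.floor_pos.mpr hn1))
      have h3 : ((2 ^ (Nat.log 2 ⌊n2⌋₊) : ℕ) : ℝ) ≤ (⌊n2⌋₊ : ℝ) := by exact_mod_cast h2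
      have h4 : ((⌊n2⌋₊ : ℕ) : ℝ) ≤ n2 := Nat.floor_le (by linarith)
      push_cast at h3
      linarith
    have h5 : ((Nat.log 2 ⌊n2⌋₊ : ℕ) : ℝ) * Real.log 2 ≤ 2 * Real.log X := by
      rw [← Real.log_pow]
      have h6 : Real.log ((2 : ℝ) ^ (Nat.log 2 ⌊n2⌋₊)) ≤ Real.log (X ^ 2) :=
        Real.log_le_log (by positivity) (le_trans h1 hn2)
      rw [Real.log_pow X 2] at h6
      push_cast at h6
      exact h6
    have h7 := Real.log_two_gt_d9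
    have h8 : (0 : ℝ) ≤ ((Nat.log 2 ⌊n2⌋₊ : ℕ) : ℝ) := Nat.cast_nonneg _
    nlinarith
  -- the square root
  have hsq : Real.sqrt (k * ℓ * ((A0 : ℝ) + X) * X ^ 3 / Real.sqrt (X ^ δ)) ≤
      20 * P * X ^ (2 + δ / 100 - δ / 4) := by
    apply Real.sqrt_le_iff.mpr
    refine ⟨by positivity, ?_⟩
    have h1 : Real.sqrt (X ^ δ) = X ^ (δ / 2) := by
      rw [Real.sqrt_eq_rpow, ← Real.rpow_mul hX0.le]
      congr 1
      ring
    rw [h1, div_le_iff₀ (Real.rpow_pos_of_pos hX0 _)]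
    have h2 : (A0 : ℝ) + X ≤ 2 * X ^ (1 + δ / 100) := by
      have h3 : X ≤ X ^ (1 + δ / 100) := by
        conv_lhs => rw [← Real.rpow_one X]
        exact Real.rpow_le_rpow_of_exponent_le hX1 (by linarith)
      linarith
    have h4 : (k : ℝ) * ℓ ≤ X ^ (δ / 100) * (10 * P) := by
      apply mul_le_mul hk2 (by linarith) hℓ0 (Real.rpow_nonneg hX0.le _)
    have h5 : (k : ℝ) * ℓ * ((A0 : ℝ) + X) ≤ X ^ (δ / 100) * (10 * P) * (2 * X ^ (1 + δ / 100)) :=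
      mul_le_mul h4 h2 (by positivity) (by positivity)
    have h6 : (k : ℝ) * ℓ * ((A0 : ℝ) + X) * X ^ 3 ≤
        X ^ (δ / 100) * (10 * P) * (2 * X ^ (1 + δ / 100)) * X ^ 3 :=
      mul_le_mul_of_nonneg_right h5 (by positivity)
    refine le_trans h6 ?_
    have h7 : X ^ (δ / 100) * (10 * P) * (2 * X ^ (1 + δ / 100)) * X ^ 3 =
        20 * P * X ^ (4 + δ / 50) := by
      have h8 : X ^ (4 + δ / 50) = X ^ (δ / 100) * X ^ (1 + δ / 100) * X ^ 3 := by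
        rw [← Real.rpow_add hX0, ← Real.rpow_natCast X 3, ← Real.rpow_add hX0]
        congr 1
        push_cast
        ring
      rw [h8]
      ring
    have h9 : (20 * P * X ^ (2 + δ / 100 - δ / 4)) ^ 2 * X ^ (δ / 2) =
        (20 * P) ^ 2 * X ^ (4 + δ / 50) := by
      have h10 : X ^ (4 + δ / 50) = (X ^ (2 + δ / 100 - δ / 4)) ^ 2 * X ^ (δ / 2) := by
        rw [← Real.rpow_natCast, ← Real.rpow_mul hX0.le, ← Real.rpow_add hX0]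
        congr 1
        push_cast
        ring
      rw [h10]
      ring
    rw [h7, h9]
    apply mul_le_mul_of_nonneg_right _ (Real.rpow_nonneg hX0.le _)
    nlinarith
  -- the first summand
  have hJ' : (J : ℝ) ≤ 10 * P := by linarith
  have hfirst : 2 * (J : ℝ) * (300 * τ * Real.sqrt (k * ℓ * ((A0 : ℝ) + X) * X ^ 3
      / Real.sqrt (X ^ δ))) ≤ 120000 * P ^ 2 * X ^ (2 - 22 * δ / 100) := by
    have h1 : 300 * τ * Real.sqrt (k * ℓ * ((A0 : ℝ) + X) * X ^ 3 / Real.sqrt (X ^ δ)) ≤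
        300 * X ^ (δ / 50) * (20 * P * X ^ (2 + δ / 100 - δ / 4)) :=
      mul_le_mul (by linarith) hsq (Real.sqrt_nonneg _) (by positivity)
    have h2 : 2 * (J : ℝ) * (300 * τ * Real.sqrt (k * ℓ * ((A0 : ℝ) + X) * X ^ 3
        / Real.sqrt (X ^ δ))) ≤
        2 * (10 * P) * (300 * X ^ (δ / 50) * (20 * P * X ^ (2 + δ / 100 - δ / 4))) :=
      mul_le_mul (by linarith) h1 (by positivity) (by positivity)
    refine le_trans h2 (le_of_eq ?_)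
    have h3 : X ^ (2 - 22 * δ / 100) = X ^ (δ / 50) * X ^ (2 + δ / 100 - δ / 4) := by
      rw [← Real.rpow_add hX0]
      congr 1
      ring
    rw [h3]
    ring
  have hS' : S ≤ 4 * X ^ (2 - δ) := by
    refine le_trans hS (le_of_eq ?_)
    rw [Real.rpow_sub hX0, Real.rpow_two]
    ring
  have htot : (((Nat.log 2 ⌊n2⌋₊ : ℕ) : ℝ) + 1) *
      (2 * (J : ℝ) * (300 * τ * Real.sqrt (k * ℓ * ((A0 : ℝ) + X) * X ^ 3
        / Real.sqrt (X ^ δ))) + S) ≤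
      3 * P * (120000 * P ^ 2 * X ^ (2 - 22 * δ / 100) + 4 * X ^ (2 - δ)) := by
    have h0 : 0 ≤ ((Nat.log 2 ⌊n2⌋₊ : ℕ) : ℝ) + 1 := by positivity
    refine le_trans (mul_le_mul_of_nonneg_left (add_le_add hfirst hS') h0) ?_
    exact mul_le_mul_of_nonneg_right hN (by positivity)
  refine le_trans htot ?_
  -- compare powers
  have hA : P ^ 3 ≤ X ^ (δ / 20) / 1000000 := by
    rw [le_div_iff₀ (by norm_num)]
    linarith
  have hPA : P ≤ X ^ (δ / 20) / 1000000 := by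
    refine le_trans ?_ hA
    nlinarith [mul_nonneg (by linarith : (0 : ℝ) ≤ P - 1) (by linarith : (0 : ℝ) ≤ P)]
  have hB : X ^ (δ / 20) * X ^ (2 - 22 * δ / 100) ≤ X ^ (2 - δ / 6) := by
    rw [← Real.rpow_add hX0]
    exact Real.rpow_le_rpow_of_exponent_le hX1 (by linarith)
  have hC : X ^ (δ / 20) * X ^ (2 - δ) ≤ X ^ (2 - δ / 6) := by
    rw [← Real.rpow_add hX0]
    exact Real.rpow_le_rpow_of_exponent_le hX1 (by linarith)
  have h1 : P ^ 3 * X ^ (2 - 22 * δ / 100) ≤ X ^ (2 - δ / 6) / 1000000 := by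
    have := mul_le_mul_of_nonneg_right hA (Real.rpow_nonneg hX0.le (2 - 22 * δ / 100))
    have h2 : X ^ (δ / 20) / 1000000 * X ^ (2 - 22 * δ / 100) =
      X ^ (δ / 20) * X ^ (2 - 22 * δ / 100) / 1000000 := by ring
    linarith
  have h3 : P * X ^ (2 - δ) ≤ X ^ (2 - δ / 6) / 1000000 := by
    have := mul_le_mul_of_nonneg_right hPA (Real.rpow_nonneg hX0.le (2 - δ))
    have h2 : X ^ (δ / 20) / 1000000 * X ^ (2 - δ) =
      X ^ (δ / 20) * X ^ (2 - δ) / 1000000 := by ring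
    linarith
  have h4 : 3 * P * (120000 * P ^ 2 * X ^ (2 - 22 * δ / 100) + 4 * X ^ (2 - δ)) =
      360000 * (P ^ 3 * X ^ (2 - 22 * δ / 100)) + 12 * (P * X ^ (2 - δ)) := by ring
  rw [h4]
  have h5 : 0 ≤ X ^ (2 - δ / 6) := Real.rpow_nonneg hX0.le _
  linarith

end Pool.Agent.Lib.MP_bae66e_nt.P2

namespace Pool.Agent.Lib.MP_bae66e_nt.P2

open Finset

/-- The divisor function on `[1, L ^ 3]`. -/
theorem G04b_div (δ : ℝ) (hδ : 0 < δ) : ∃ L₀ : ℕ, ∀ L : ℕ, L₀ ≤ L →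
    ∀ R : ℕ, 1 ≤ R → (R : ℝ) ≤ (L : ℝ) ^ (3 : ℝ) → (#R.divisors : ℝ) ≤ (L : ℝ) ^ (δ / 50) := by
  obtain ⟨C, hC1, hC⟩ := Pool.Agent.MP_d807e3_co.divisor_bound (ε := δ / 200) (by positivity)
  have ht : Filter.Tendsto (fun L : ℕ => (L : ℝ) ^ (δ / 200)) Filter.atTop Filter.atTop :=
    (tendsto_rpow_atTop (by positivity)).comp tendsto_natCast_atTop_atTop
  obtain ⟨L₀, hL₀⟩ := (Filter.eventually_atTop.mp (ht.eventually_ge_atTop C))
  refine ⟨max L₀ 1, ?_⟩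
  intro L hL R hR hRL
  have hL1 : 1 ≤ L := le_trans (le_max_right _ _) hL
  have hLL : L₀ ≤ L := le_trans (le_max_left _ _) hL
  have hL0 : (0 : ℝ) < L := by exact_mod_cast hL1
  calc (#R.divisors : ℝ) ≤ C * (R : ℝ) ^ (δ / 200) := hC R hR
    _ ≤ (L : ℝ) ^ (δ / 200) * ((L : ℝ) ^ (3 : ℝ)) ^ (δ / 200) := by
        refine mul_le_mul (hL₀ L hLL) ?_ (by positivity) (by positivity)
        exact Real.rpow_le_rpow (by positivity) hRL (by positivity)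
    _ = (L : ℝ) ^ (δ / 50) := by
        rw [← Real.rpow_mul hL0.le, ← Real.rpow_add hL0]
        congr 1; ring

/-- **One ordered pair of classes, admissible direction.**
PROOF. Let `H = max 1 (Q Q' / L)`, `G = L ^ δ`, `N = 2 H G P' Lam' / Q'` (`Q = c.Q`, `Q' = c'.Q`,
`P' = c'.P`, …). If one of the two sets is empty the sum is `0`. Otherwise `Q_lt` gives
`Q < P Lam ≤ L^τ`, `Q' < P' Lam' ≤ L^τ`, so `N ≥ 1`, and `exponents` gives `N ≤ Lam'` (i),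
`H⁴ Q' N G = 2 H⁵ G² P' Lam' ≤ Q²` (ii), `H³ N² G = 4 H⁵ G³ (P' Lam')² / Q'² ≤ Q'` (iii),
`8 H² G ≤ Q Q'` (iv). By `exists_divisor` every `b ∈ c'.D` has a divisor `n` with
`2 H G ≤ n ≤ N`. Let `J` be the least integer with `k H² G ≤ 2 ^ J`; then `2 ^ J ≤ 2 k H² G`, so
`4 · 2 ^ J ≤ 8 k H² G ≤ k Q Q'`, and `4 k (Q Q')² / 2 ^ J ≤ 4 (Q Q')² / (H² G) ≤ 4 L² / G`.
Apply `range_bound` with `τ := C L^(δ/60)`-type bound for the divisor function at arguments up to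
`L ^ 3` (`divisor_bound (δ / 200)`, `L` large), `ℓ := 10 log L + 10`, and `final_growth`.
(`4 k Q' N ≤ L^3`, `4 · 2 ^ J N ≤ L ^ 3`, `J ≤ 10 log L`: crude, as `Q, Q', N ≤ L^τ`, `τ < 5/9`,
`H ≤ L^(2τ - 1)`.) -/
theorem pair_dir (τ δ : ℝ) (hδ : 0 < δ) (hδ1 : δ ≤ 1 / 100) (hτ : 9 * τ + 5 * δ ≤ 5)
    (hτ0 : 1 / 2 ≤ τ) : ∃ L₀ : ℕ, ∀ L : ℕ, L₀ ≤ L → ∀ (k T A0 p : ℕ) (a : ℤ) (c c' : Cls)
      (v : ℕ → ℤ) (ρ : ℕ → ℕ → ℤ), 1 ≤ k → Squarefree k → (k : ℝ) ≤ (L : ℝ) ^ (δ / 100) →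
      (A0 : ℝ) ≤ (L : ℝ) ^ (1 + δ / 100) → p ≤ A0 → Good k T L τ δ c → Good k T L τ δ c' →
      (∀ b ∈ c'.D, (b : ℤ) ∣ v b - a) → (∀ b ∈ c'.D, IsCoprime a (b : ℤ)) →
      (∀ D ∈ c.D, ∀ b ∈ c'.D, Nat.Coprime D b →
        (D : ℤ) ∣ ρ D b - p ∧ ρ D b - p ≡ v b [ZMOD ((k * b : ℕ) : ℤ)]) →
      (L : ℝ) ^ (1 - δ) ≤ (c.Q : ℝ) * c'.Q → c'.P * c.Q ≤ (L : ℝ) ^ (1 - 3 * δ) →
      |∑ D ∈ c.D, ∑ b ∈ c'.D.filter (fun b => Nat.Coprime D b),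
          c.w D * c'.w b * Er A0 L (k * D * b) (ρ D b)| ≤ (L : ℝ) ^ (2 - δ / 6) := by
  obtain ⟨L₁, hL₁⟩ := final_growth δ hδ hδ1
  obtain ⟨L₂, hL₂⟩ := G04b_div δ hδ
  have ht : Filter.Tendsto (fun L : ℕ => (L : ℝ) ^ δ) Filter.atTop Filter.atTop :=
    (tendsto_rpow_atTop hδ).comp tendsto_natCast_atTop_atTop
  obtain ⟨L₃, hL₃⟩ := (Filter.eventually_atTop.mp (ht.eventually_ge_atTop 8))
  refine ⟨max (max L₁ L₂) (max L₃ 10), ?_⟩
  intro L hL k T A0 p a c c' v ρ hk hksq hkL hA0 hpA hc hc' hva hacop hρ hQQ hdir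
  have hLL1 : L₁ ≤ L := le_trans (le_trans (le_max_left _ _) (le_max_left _ _)) hL
  have hLL2 : L₂ ≤ L := le_trans (le_trans (le_max_right _ _) (le_max_left _ _)) hL
  have hLL3 : L₃ ≤ L := le_trans (le_trans (le_max_left _ _) (le_max_right _ _)) hL
  have hL10 : 10 ≤ L := le_trans (le_trans (le_max_right _ _) (le_max_right _ _)) hL
  have hL10r : (10 : ℝ) ≤ L := by exact_mod_cast hL10
  have hL1r : (1 : ℝ) ≤ L := by linarith
  have hL0 : (0 : ℝ) < L := by linarith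
  have hLδ : 8 ≤ (L : ℝ) ^ δ := hL₃ L hLL3
  by_cases hne1 : c.D = ∅
  · rw [hne1]; simp only [Finset.sum_empty, abs_zero]; positivity
  by_cases hne2 : c'.D = ∅
  · rw [hne2]; simp only [Finset.filter_empty, Finset.sum_empty, Finset.sum_const_zero, abs_zero]
    positivity
  obtain ⟨D₁, hD₁⟩ := Finset.nonempty_iff_ne_empty.mpr hne1
  obtain ⟨D₂, hD₂⟩ := Finset.nonempty_iff_ne_empty.mpr hne2
  have hQ1 : (1 : ℝ) ≤ c.Q := by exact_mod_cast hc.hQ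
  have hQ2 : (1 : ℝ) ≤ c'.Q := by exact_mod_cast hc'.hQ
  have q1 := Q_lt hc D₁ hD₁
  have q2 := Q_lt hc' D₂ hD₂
  obtain ⟨e1, e2, e3, e4⟩ := exponents (L : ℝ) τ δ c.Q c'.Q c'.P c'.Lam hδ hτ hτ0 hδ1 hL1r hLδ
    hQ1 hQ2 (q1.le.trans hc.level) (q2.le.trans hc'.level) hc'.hP hc'.hLam hc'.level hdir hQQ
  obtain ⟨H, hH⟩ : ∃ H : ℝ, H = max 1 ((c.Q : ℝ) * c'.Q / L) := ⟨_, rfl⟩
  rw [← hH] at e1 e2 e3 e4
  obtain ⟨G, hG⟩ : ∃ G : ℝ, G = (L : ℝ) ^ δ := ⟨_, rfl⟩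
  rw [← hG] at e1 e2 e3 e4 hLδ
  have hH1 : 1 ≤ H := by rw [hH]; exact le_max_left _ _
  have hH2 : (c.Q : ℝ) * c'.Q ≤ H * L := by
    have : (c.Q : ℝ) * c'.Q / L ≤ H := by rw [hH]; exact le_max_right _ _
    rwa [div_le_iff₀ hL0] at this
  have hG1 : 1 ≤ G := by linarith
  have hP' := hc'.hP
  have hΛ' := hc'.hLam
  have hPΛ : 0 < c'.P * c'.Lam := by positivity
  have hQ'0 : (0 : ℝ) < c'.Q := by linarith
  have hQ0 : (0 : ℝ) < c.Q := by linarith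
  obtain ⟨N, hN⟩ : ∃ N : ℝ, N = 2 * H * G * (c'.P * c'.Lam) / c'.Q := ⟨_, rfl⟩
  have hNQ : N * c'.Q = 2 * H * G * (c'.P * c'.Lam) := by
    rw [hN]; field_simp
  have hHG : 1 ≤ H * G := one_le_mul_of_one_le_of_one_le hH1 hG1
  have hN1 : 1 ≤ N := by
    rw [hN, le_div_iff₀ hQ'0]
    calc 1 * (c'.Q : ℝ) ≤ 1 * (c'.P * c'.Lam) := by linarith
      _ ≤ 2 * H * G * (c'.P * c'.Lam) := by
          refine mul_le_mul_of_nonneg_right ?_ hPΛ.le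
          linarith
  have hNΛ : N ≤ c'.Lam := by
    rw [hN, div_le_iff₀ hQ'0]
    calc 2 * H * G * (c'.P * c'.Lam) = (2 * H * G * c'.P) * c'.Lam := by ring
      _ ≤ c'.Q * c'.Lam := mul_le_mul_of_nonneg_right e1 (by linarith)
      _ = c'.Lam * c'.Q := by ring
  have hdv : ∀ b ∈ c'.D, ∃ n : ℕ, n ∣ b ∧ 2 * H * G ≤ (n : ℝ) ∧ (n : ℝ) ≤ N := by
    intro b hb
    obtain ⟨n, h1, h2, h3⟩ := exists_divisor hc' b hb N hN1 hNΛ
    refine ⟨n, h1, ?_, h2⟩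
    refine le_trans (le_of_eq ?_) h3
    rw [eq_div_iff hPΛ.ne', mul_comm (c'.Q : ℝ) N, hNQ]
  -- the number J
  have hkr : (1 : ℝ) ≤ k := by exact_mod_cast hk
  have hx1 : 1 ≤ (k : ℝ) * (H ^ 2 * G) := by
    exact one_le_mul_of_one_le_of_one_le hkr
      (one_le_mul_of_one_le_of_one_le (one_le_pow₀ hH1) hG1)
  obtain ⟨j, hj1, hj2⟩ := exists_nat_pow_near hx1 (one_lt_two)
  obtain ⟨J, hJ⟩ : ∃ J : ℕ, J = j + 1 := ⟨_, rfl⟩
  have hJ1 : (2 : ℝ) ^ J ≤ 2 * (k * (H ^ 2 * G)) := by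
    rw [hJ, pow_succ]; linarith
  have hJ2 : (k : ℝ) * (H ^ 2 * G) ≤ 2 ^ J := by rw [hJ]; exact hj2.le
  have hJ3r : 4 * (2 : ℝ) ^ J ≤ k * c.Q * c'.Q := by
    calc 4 * (2 : ℝ) ^ J ≤ k * (8 * H ^ 2 * G) := by linarith
      _ ≤ k * (c.Q * c'.Q) := mul_le_mul_of_nonneg_left e4 (by linarith)
      _ = k * c.Q * c'.Q := by ring
  have hJ3 : 4 * 2 ^ J ≤ k * c.Q * c'.Q := by exact_mod_cast hJ3r
  have hN2 : N ≤ (L : ℝ) ^ τ := by
    refine hNΛ.trans (le_trans ?_ hc'.level)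
    exact le_mul_of_one_le_left (by linarith) hP'
  have hX1 : 1 ≤ (L : ℝ) ^ τ := Real.one_le_rpow hL1r (by linarith)
  have hQX : (c.Q : ℝ) ≤ (L : ℝ) ^ τ := q1.le.trans hc.level
  have hQX' : (c'.Q : ℝ) ≤ (L : ℝ) ^ τ := q2.le.trans hc'.level
  have hkL1 : (k : ℝ) ≤ (L : ℝ) ^ (1 / 3 : ℝ) :=
    hkL.trans (Real.rpow_le_rpow_of_exponent_le hL1r (by linarith))
  have hXL : (L : ℝ) ^ τ ≤ (L : ℝ) ^ (5 / 9 : ℝ) :=
    Real.rpow_le_rpow_of_exponent_le hL1r (by linarith)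
  obtain ⟨Y, hY⟩ : ∃ Y : ℝ, Y = (L : ℝ) ^ (1 / 9 : ℝ) := ⟨_, rfl⟩
  have hY1 : 1 ≤ Y := by rw [hY]; exact Real.one_le_rpow hL1r (by norm_num)
  have hY9 : Y ^ 9 = L := by
    rw [hY, ← Real.rpow_natCast, ← Real.rpow_mul hL0.le]; norm_num
  have hY5 : (L : ℝ) ^ (5 / 9 : ℝ) = Y ^ 5 := by
    rw [hY, ← Real.rpow_natCast, ← Real.rpow_mul hL0.le]; norm_num
  have hY3 : (L : ℝ) ^ (1 / 3 : ℝ) = Y ^ 3 := by
    rw [hY, ← Real.rpow_natCast, ← Real.rpow_mul hL0.le]; norm_num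
  have hY27 : (L : ℝ) ^ (3 : ℝ) = Y ^ 27 := by
    rw [show (27 : ℕ) = 9 * 3 by norm_num, pow_mul, hY9]; norm_cast
  rw [hY5] at hXL
  rw [hY3] at hkL1
  have hY5' : 1 ≤ Y ^ 5 := one_le_pow₀ hY1
  have hb1 : 4 * (k : ℝ) * c'.Q * N ≤ (L : ℝ) ^ (3 : ℝ) := by
    rw [hY27]
    calc 4 * (k : ℝ) * c'.Q * N ≤ Y ^ 9 * Y ^ 3 * Y ^ 5 * Y ^ 5 := by
          have h4 : (4 : ℝ) ≤ Y ^ 9 := by rw [hY9]; linarith
          have : (0:ℝ) ≤ k := by linarith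
          gcongr
          · exact hQX'.trans hXL
          · exact hN2.trans hXL
      _ = Y ^ 22 := by ring
      _ ≤ Y ^ 27 := pow_le_pow_right₀ hY1 (by norm_num)
  have hb2 : 4 * (2 : ℝ) ^ J * N ≤ (L : ℝ) ^ (3 : ℝ) := by
    rw [hY27]
    calc 4 * (2 : ℝ) ^ J * N ≤ (k * c.Q * c'.Q) * N :=
          mul_le_mul_of_nonneg_right hJ3r (by linarith)
      _ ≤ (Y ^ 3 * Y ^ 5 * Y ^ 5) * Y ^ 5 := by
          gcongr
          · exact hQX.trans hXL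
          · exact hQX'.trans hXL
          · exact hN2.trans hXL
      _ = Y ^ 18 := by ring
      _ ≤ Y ^ 27 := pow_le_pow_right₀ hY1 (by norm_num)
  have hlogL : 0 ≤ Real.log L := Real.log_nonneg hL1r
  have hlog3 : Real.log ((L : ℝ) ^ (3 : ℝ)) = 3 * Real.log L := Real.log_rpow hL0 3
  have hℓ : 1 + Real.log (4 * k * c'.Q * N) ≤ 10 * Real.log L + 10 := by
    have hpos : 0 < 4 * (k : ℝ) * c'.Q * N := by positivity
    have := Real.log_le_log hpos hb1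
    rw [hlog3] at this
    linarith
  have hJlog : (J : ℝ) ≤ 10 * Real.log L := by
    have h1 : Real.log ((2 : ℝ) ^ J) ≤ Real.log ((L : ℝ) ^ (3 : ℝ)) := by
      refine Real.log_le_log (by positivity) (le_trans ?_ hb2)
      have h0 : (0 : ℝ) < 2 ^ J := by positivity
      calc (2 : ℝ) ^ J = 1 * 2 ^ J * 1 := by ring
        _ ≤ 4 * 2 ^ J * N := by
            refine mul_le_mul ?_ hN1 zero_le_one (by positivity)
            linarith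
    rw [Real.log_pow, hlog3] at h1
    have h2 : (0.69 : ℝ) < Real.log 2 := by
      have := Real.log_two_gt_d9; linarith
    have h3 : (0 : ℝ) ≤ J := Nat.cast_nonneg _
    have h4 : (J : ℝ) * 0.69 ≤ J * Real.log 2 := mul_le_mul_of_nonneg_left h2.le h3
    linarith
  have hτd1 : 1 ≤ (L : ℝ) ^ (δ / 50) := Real.one_le_rpow hL1r (by positivity)
  have hmain := range_bound k c.Q c'.Q a c'.D v hk hksq hc.hQ hc'.hQ hc'.lo hc'.hi hc'.sq hc'.cop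
    hva hacop (2 * H * G) N hdv hN1 A0 L p J (by omega) hpA hJ3 c.D c.w c'.w
    (fun D hD => ⟨hc.lo D hD, hc.hi D hD, (hc.cop D hD).symm⟩) hc.w1 hc'.w1 ρ hρ
    ((L : ℝ) ^ (δ / 50)) H G (10 * Real.log L + 10) hτd1 hH1 hG1 hℓ hH2 le_rfl ?_ ?_ ?_ ?_
  · refine hmain.trans ?_
    have hS : 4 * (k : ℝ) * ((c.Q : ℝ) * c'.Q) ^ 2 / 2 ^ J ≤ 4 * (L : ℝ) ^ 2 / (L : ℝ) ^ δ := by
      rw [← hG, div_le_div_iff₀ (by positivity) (by linarith)]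
      calc 4 * (k : ℝ) * ((c.Q : ℝ) * c'.Q) ^ 2 * G
          ≤ 4 * (k : ℝ) * (H * L) ^ 2 * G := by gcongr
        _ = 4 * (L : ℝ) ^ 2 * (k * (H ^ 2 * G)) := by ring
        _ ≤ 4 * (L : ℝ) ^ 2 * 2 ^ J := by gcongr
    have hNL2 : N ≤ (L : ℝ) ^ 2 := by
      refine (hN2.trans hXL).trans ?_
      calc Y ^ 5 ≤ Y ^ 18 := pow_le_pow_right₀ hY1 (by norm_num)
        _ = (L : ℝ) ^ 2 := by rw [← hY9]; ring
    have := hL₁ L hLL1 k A0 J N ((L : ℝ) ^ (δ / 50)) (10 * Real.log L + 10)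
      (4 * (k : ℝ) * ((c.Q : ℝ) * c'.Q) ^ 2 / 2 ^ J) hk hkL hA0 hJlog hN1 hNL2 hτd1 le_rfl
      (by positivity) le_rfl hS
    rw [← hG] at this
    exact this
  · -- h2
    calc H ^ 4 * c'.Q * N * G = H ^ 4 * G * (N * c'.Q) := by ring
      _ = 2 * H ^ 5 * G ^ 2 * (c'.P * c'.Lam) := by rw [hNQ]; ring
      _ ≤ (c.Q : ℝ) ^ 2 := e2
  · -- h3
    have h5 : H ^ 3 * N ^ 2 * G * (c'.Q : ℝ) ^ 2 ≤ c'.Q * (c'.Q : ℝ) ^ 2 := by
      calc H ^ 3 * N ^ 2 * G * (c'.Q : ℝ) ^ 2 = H ^ 3 * G * (N * c'.Q) ^ 2 := by ring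
        _ = 4 * H ^ 5 * G ^ 3 * (c'.P * c'.Lam) ^ 2 := by rw [hNQ]; ring
        _ ≤ (c'.Q : ℝ) ^ 3 := e3
        _ = c'.Q * (c'.Q : ℝ) ^ 2 := by ring
    exact le_of_mul_le_mul_right h5 (by positivity)
  · intro R hR hR2
    exact hL₂ L hLL2 R hR (hR2.trans hb1)
  · intro R hR hR2
    exact hL₂ L hLL2 R hR (hR2.trans hb2)

end Pool.Agent.Lib.MP_bae66e_nt.P2

namespace Pool.Agent.Lib.MP_bae66e_nt.P2

open Finset

theorem G05a_crt (k b : ℕ) (x y : ℤ) (h : Nat.Coprime k b) :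
    ∃ r : ℤ, r ≡ x [ZMOD k] ∧ r ≡ y [ZMOD b] := by
  obtain ⟨u, v, huv⟩ := Nat.isCoprime_iff_coprime.mpr h
  refine ⟨x * (v * b) + y * (u * k), ?_, ?_⟩
  · refine Int.ModEq.symm ((Int.modEq_iff_dvd).mpr ⟨u * (y - x), ?_⟩)
    have : v * (b : ℤ) = 1 - u * k := by linarith
    rw [this]; ring
  · refine Int.ModEq.symm ((Int.modEq_iff_dvd).mpr ⟨v * (x - y), ?_⟩)
    have : u * (k : ℤ) = 1 - v * b := by linarith
    rw [this]; ring

/-- The sum for moduli with `Q Q' < L^(1-δ)`. -/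
theorem G05a_small (L A0 k : ℕ) (δ : ℝ) (hL : 1 ≤ L) (hk : 1 ≤ k) (c c' : Cls)
    (hw : ∀ D, |c.w D| ≤ 1) (hw' : ∀ D, |c'.w D| ≤ 1) (hlo : ∀ D ∈ c.D, c.Q < D)
    (hhi : ∀ D ∈ c.D, D ≤ 2 * c.Q) (hlo' : ∀ D ∈ c'.D, c'.Q < D)
    (hhi' : ∀ D ∈ c'.D, D ≤ 2 * c'.Q) (ρ : ℕ → ℕ → ℤ)
    (h : (c.Q : ℝ) * c'.Q < (L : ℝ) ^ (1 - δ)) :
    |∑ D ∈ c.D, ∑ b ∈ c'.D.filter (fun b => Nat.Coprime D b),
          c.w D * c'.w b * Er A0 L (k * D * b) (ρ D b)| ≤ (L : ℝ) ^ (2 - δ) := by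
  have hL0 : (0 : ℝ) < L := by exact_mod_cast hL
  have hc1 : #c.D ≤ c.Q := by
    have : c.D ⊆ Ioc c.Q (2 * c.Q) := fun D hD => mem_Ioc.mpr ⟨hlo D hD, hhi D hD⟩
    refine (Finset.card_le_card this).trans ?_
    rw [Nat.card_Ioc]; omega
  have hc2 : #c'.D ≤ c'.Q := by
    have : c'.D ⊆ Ioc c'.Q (2 * c'.Q) := fun D hD => mem_Ioc.mpr ⟨hlo' D hD, hhi' D hD⟩
    refine (Finset.card_le_card this).trans ?_
    rw [Nat.card_Ioc]; omega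
  calc |∑ D ∈ c.D, ∑ b ∈ c'.D.filter (fun b => Nat.Coprime D b),
          c.w D * c'.w b * Er A0 L (k * D * b) (ρ D b)|
      ≤ ∑ D ∈ c.D, ∑ b ∈ c'.D.filter (fun b => Nat.Coprime D b), (L : ℝ) := by
        refine (Finset.abs_sum_le_sum_abs _ _).trans (Finset.sum_le_sum fun D hD => ?_)
        refine (Finset.abs_sum_le_sum_abs _ _).trans (Finset.sum_le_sum fun b hb => ?_)
        have hb' := (Finset.mem_filter.mp hb).1
        have hpos : 1 ≤ k * D * b := by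
          have h1 : 1 ≤ D := by have := hlo D hD; omega
          have h2 : 1 ≤ b := by have := hlo' b hb'; omega
          exact Nat.mul_pos (Nat.mul_pos hk h1) h2
        rw [abs_mul, abs_mul]
        calc |c.w D| * |c'.w b| * |Er A0 L (k * D * b) (ρ D b)|
            ≤ 1 * 1 * (L : ℝ) := by
              refine mul_le_mul (mul_le_mul (hw D) (hw' b) (abs_nonneg _) zero_le_one)
                (Er_trivial A0 L _ hpos _) (abs_nonneg _) (by norm_num)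
          _ = L := by ring
    _ ≤ ∑ D ∈ c.D, ∑ b ∈ c'.D, (L : ℝ) := by
        refine Finset.sum_le_sum fun D hD => ?_
        exact Finset.sum_le_sum_of_subset_of_nonneg (Finset.filter_subset _ _)
          (fun _ _ _ => hL0.le)
    _ = (#c.D : ℝ) * #c'.D * L := by
        simp only [Finset.sum_const, nsmul_eq_mul]; ring
    _ ≤ (c.Q : ℝ) * c'.Q * L := by
        have h1 : (#c.D : ℝ) ≤ c.Q := by exact_mod_cast hc1
        have h2 : (#c'.D : ℝ) ≤ c'.Q := by exact_mod_cast hc2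
        have h3 : (0 : ℝ) ≤ #c'.D := Nat.cast_nonneg _
        have h4 : (0 : ℝ) ≤ c.Q := Nat.cast_nonneg _
        exact mul_le_mul_of_nonneg_right (mul_le_mul h1 h2 h3 h4) hL0.le
    _ ≤ (L : ℝ) ^ (1 - δ) * L := mul_le_mul_of_nonneg_right h.le hL0.le
    _ = (L : ℝ) ^ (2 - δ) := by
        rw [← Real.rpow_add_one hL0.ne']
        congr 1; ring

theorem G05a_acop (T p p' b : ℕ) (hp : p ≤ T) (hp' : p' ≤ T) (hne : p ≠ p')
    (hb : ∀ ℓ : ℕ, ℓ.Prime → ℓ ∣ b → T < ℓ) : IsCoprime ((p' : ℤ) - p) (b : ℤ) := by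
  rw [Int.isCoprime_iff_gcd_eq_one]
  by_contra h
  obtain ⟨ℓ, hℓ, h1⟩ := Nat.exists_prime_and_dvd h
  have h2 : ℓ ∣ ((p' : ℤ) - p).natAbs := h1.trans (Int.gcd_dvd_natAbs_left _ _)
  have h3 : ℓ ∣ b := by
    have := h1.trans (Int.gcd_dvd_natAbs_right ((p' : ℤ) - p) (b : ℤ))
    simpa using this
  have h4 := hb ℓ hℓ h3
  have h5 : 0 < ((p' : ℤ) - p).natAbs := by
    rw [Int.natAbs_pos]; omega
  have h6 := Nat.le_of_dvd h5 h2
  omega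

/-- **One pair of classes.** `ρ D D'` is any integer with `ρ ≡ c₀ (k)`, `ρ ≡ p (D)`, `ρ ≡ p' (D')`.
PROOF. If `Q Q' < L^(1-δ)` every `|Er| ≤ L` (`Er_trivial`; `k D D' ≥ 1`), there are at most `Q Q'`
pairs, the sum is at most `L^(2-δ)`. Otherwise, if both classes are nonempty, `direction` (with
`Q_lt`) gives one of two cases. CASE 1 `c'.P * c.Q ≤ L^(1-3δ)`: `pair_dir` with `a = p' - p` and
`v b` an integer with `v b ≡ c₀ - p (k)`, `v b ≡ p' - p (b)` (`k, b` coprime; Chinese remainder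
theorem, choose it for every `b`): then `ρ D b - p ≡ v b` modulo `k b`. `a ≠ 0` has absolute value
`≤ T`, so it is prime to `b` (prime factors `> T`). CASE 2 `c.P * c'.Q ≤ L^(1-3δ)`: the same with the
roles of `c, c'` and of `p, p'` exchanged; `Er A0 L (k D b) (ρ D b)` is symmetric
(`k * D * b = k * b * D`) and the double sum over coprime pairs can be interchanged. -/
theorem pair_bound (τ δ : ℝ) (hδ : 0 < δ) (hδ1 : δ ≤ 1 / 100) (hτ : 9 * τ + 5 * δ ≤ 5)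
    (hτ0 : 1 / 2 ≤ τ) : ∃ L₀ : ℕ, ∀ L : ℕ, L₀ ≤ L → ∀ (k T A0 p p' : ℕ) (c₀ : ℤ) (c c' : Cls)
      (ρ : ℕ → ℕ → ℤ), 1 ≤ k → Squarefree k → (k : ℝ) ≤ (L : ℝ) ^ (δ / 100) →
      (A0 : ℝ) ≤ (L : ℝ) ^ (1 + δ / 100) → p ≤ A0 → p' ≤ A0 → p ≤ T → p' ≤ T → p ≠ p' →
      Good k T L τ δ c → Good k T L τ δ c' →
      (∀ D ∈ c.D, ∀ b ∈ c'.D, Nat.Coprime D b →
        ρ D b ≡ c₀ [ZMOD k] ∧ ρ D b ≡ p [ZMOD D] ∧ ρ D b ≡ p' [ZMOD b]) →
      |∑ D ∈ c.D, ∑ b ∈ c'.D.filter (fun b => Nat.Coprime D b),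
          c.w D * c'.w b * Er A0 L (k * D * b) (ρ D b)| ≤ (L : ℝ) ^ (2 - δ / 6) := by
  obtain ⟨L₀, hL₀⟩ := pair_dir τ δ hδ hδ1 hτ hτ0
  refine ⟨max L₀ 1, ?_⟩
  intro L hL k T A0 p p' c₀ c c' ρ hk hksq hkL hA0 hpA hpA' hp hp' hne hc hc' hρ
  have hL1 : 1 ≤ L := le_trans (le_max_right _ _) hL
  have hLL : L₀ ≤ L := le_trans (le_max_left _ _) hL
  have hL1r : (1 : ℝ) ≤ L := by exact_mod_cast hL1
  have hL0 : (0 : ℝ) < L := by linarith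
  by_cases hsm : (c.Q : ℝ) * c'.Q < (L : ℝ) ^ (1 - δ)
  · refine (G05a_small L A0 k δ hL1 hk c c' hc.w1 hc'.w1 hc.lo hc.hi hc'.lo hc'.hi ρ hsm).trans ?_
    exact Real.rpow_le_rpow_of_exponent_le hL1r (by linarith)
  push Not at hsm
  by_cases hne1 : c.D = ∅
  · rw [hne1]; simp only [Finset.sum_empty, abs_zero]; positivity
  by_cases hne2 : c'.D = ∅
  · rw [hne2]; simp only [Finset.filter_empty, Finset.sum_empty, Finset.sum_const_zero, abs_zero]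
    positivity
  obtain ⟨D₁, hD₁⟩ := Finset.nonempty_iff_ne_empty.mpr hne1
  obtain ⟨D₂, hD₂⟩ := Finset.nonempty_iff_ne_empty.mpr hne2
  have hQ1 : (1 : ℝ) ≤ c.Q := by exact_mod_cast hc.hQ
  have hQ2 : (1 : ℝ) ≤ c'.Q := by exact_mod_cast hc'.hQ
  rcases direction (L : ℝ) τ δ c.Q c'.Q c.P c.Lam c'.P c'.Lam hδ hL1r hQ1 hQ2 hc.hP hc.hLam
    hc'.hP hc'.hLam (Q_lt hc D₁ hD₁).le (Q_lt hc' D₂ hD₂).le hc.level hc'.level hc.large hc'.large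
    with hdir | hdir
  · -- case 1
    have hv : ∀ b : ℕ, ∃ r : ℤ, Nat.Coprime k b → r ≡ c₀ - p [ZMOD k] ∧ r ≡ p' - p [ZMOD b] := by
      intro b
      by_cases h : Nat.Coprime k b
      · obtain ⟨r, h1, h2⟩ := G05a_crt k b (c₀ - p) (p' - p) h
        exact ⟨r, fun _ => ⟨h1, h2⟩⟩
      · exact ⟨0, fun h' => absurd h' h⟩
    choose v hv using hv
    refine hL₀ L hLL k T A0 p (p' - p) c c' v ρ hk hksq hkL hA0 hpA hc hc' ?_ ?_ ?_ hsm hdir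
    · intro b hb
      exact ((hv b (hc'.cop b hb)).2).symm.dvd
    · intro b hb
      exact G05a_acop T p p' b hp hp' hne (hc'.rough b hb)
    · intro D hD b hb hcop
      obtain ⟨r1, r2, r3⟩ := hρ D hD b hb hcop
      obtain ⟨v1, v2⟩ := hv b (hc'.cop b hb)
      refine ⟨r2.symm.dvd, ?_⟩
      have hcc : IsCoprime (k : ℤ) (b : ℤ) := Nat.isCoprime_iff_coprime.mpr (hc'.cop b hb)
      have e1 : ρ D b - p ≡ v b [ZMOD k] := (r1.sub_right _).trans v1.symm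
      have e2 : ρ D b - p ≡ v b [ZMOD b] := (r3.sub_right _).trans v2.symm
      rw [Int.modEq_iff_dvd] at e1 e2 ⊢
      push_cast
      exact hcc.mul_dvd e1 e2
  · -- case 2
    have hv : ∀ b : ℕ, ∃ r : ℤ, Nat.Coprime k b → r ≡ c₀ - p' [ZMOD k] ∧ r ≡ p - p' [ZMOD b] := by
      intro b
      by_cases h : Nat.Coprime k b
      · obtain ⟨r, h1, h2⟩ := G05a_crt k b (c₀ - p') (p - p') h
        exact ⟨r, fun _ => ⟨h1, h2⟩⟩
      · exact ⟨0, fun h' => absurd h' h⟩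
    choose v hv using hv
    have hsm' : (L : ℝ) ^ (1 - δ) ≤ (c'.Q : ℝ) * c.Q := by rw [mul_comm]; exact hsm
    have key := hL₀ L hLL k T A0 p' (p - p') c' c v (fun D b => ρ b D) hk hksq hkL hA0 hpA' hc' hc
      ?_ ?_ ?_ hsm' hdir
    · have hswap : ∑ D ∈ c.D, ∑ b ∈ c'.D.filter (fun b => Nat.Coprime D b),
          c.w D * c'.w b * Er A0 L (k * D * b) (ρ D b)
          = ∑ D ∈ c'.D, ∑ b ∈ c.D.filter (fun b => Nat.Coprime D b),
          c'.w D * c.w b * Er A0 L (k * D * b) (ρ b D) := by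
        simp only [Finset.sum_filter]
        rw [Finset.sum_comm]
        refine Finset.sum_congr rfl fun b hb => Finset.sum_congr rfl fun D hD => ?_
        by_cases h : Nat.Coprime D b
        · rw [if_pos h, if_pos h.symm, show k * D * b = k * b * D by ring]
          ring
        · rw [if_neg h, if_neg (fun h' => h (Nat.Coprime.symm h'))]
      rw [hswap]
      exact key
    · intro b hb
      exact ((hv b (hc.cop b hb)).2).symm.dvd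
    · intro b hb
      exact G05a_acop T p' p b hp' hp hne.symm (hc.rough b hb)
    · intro D hD b hb hcop
      obtain ⟨r1, r2, r3⟩ := hρ b hb D hD (Nat.Coprime.symm hcop)
      obtain ⟨v1, v2⟩ := hv b (hc.cop b hb)
      refine ⟨r3.symm.dvd, ?_⟩
      have hcc : IsCoprime (k : ℤ) (b : ℤ) := Nat.isCoprime_iff_coprime.mpr (hc.cop b hb)
      have e1 : ρ b D - p' ≡ v b [ZMOD k] := (r1.sub_right _).trans v1.symm
      have e2 : ρ b D - p' ≡ v b [ZMOD b] := (r2.sub_right _).trans v2.symm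
      rw [Int.modEq_iff_dvd] at e1 e2 ⊢
      push_cast
      exact hcc.mul_dvd e1 e2

end Pool.Agent.Lib.MP_bae66e_nt.P2

namespace Pool.Agent.Lib.MP_bae66e_nt.P2

open Finset

/-- The number of `(x, y)` with the three congruences. -/
noncomputable def Cn (A0 L k p p' c₀ D D' : ℕ) : ℝ :=
  ∑ x ∈ range L, ∑ y ∈ range L, (if A0 + x - y ≡ c₀ [MOD k] then
     (if D ∣ A0 + x - y - p then (1 : ℝ) else 0) * (if D' ∣ A0 + x - y - p' then 1 else 0) else 0)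

theorem G05b_crt (k D D' : ℕ) (c₀ p p' : ℕ) (h1 : Nat.Coprime k D) (h2 : Nat.Coprime k D')
    (h3 : Nat.Coprime D D') : ∃ r : ℕ, r ≡ c₀ [MOD k] ∧ r ≡ p [MOD D] ∧ r ≡ p' [MOD D'] := by
  obtain ⟨s, hs1, hs2⟩ := Nat.chineseRemainder h1 c₀ p
  obtain ⟨r, hr1, hr2⟩ := Nat.chineseRemainder (Nat.Coprime.mul_left h2 h3) s p'
  exact ⟨r, (hr1.of_mul_right D).trans hs1, (hr1.of_mul_left k).trans hs2, hr2⟩

theorem G05b_iff (A0 L k T p p' c₀ D D' : ℕ) (h1 : Nat.Coprime k D) (h2 : Nat.Coprime k D')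
    (h3 : Nat.Coprime D D') (hA : L + T ≤ A0) (hp : p ≤ T) (hp' : p' ≤ T) (ρ : ℤ)
    (r1 : ρ ≡ c₀ [ZMOD k]) (r2 : ρ ≡ p [ZMOD D]) (r3 : ρ ≡ p' [ZMOD D'])
    (x y : ℕ) (hy : y < L) :
    (A0 + x - y ≡ c₀ [MOD k] ∧ D ∣ A0 + x - y - p ∧ D' ∣ A0 + x - y - p') ↔
      ((k * D * D' : ℕ) : ℤ) ∣ (A0 : ℤ) + x - y - ρ := by
  obtain ⟨m, hm⟩ : ∃ m : ℕ, m = A0 + x - y := ⟨_, rfl⟩
  have hmz : (A0 : ℤ) + x - y = m := by
    rw [hm]; push_cast [show y ≤ A0 + x by omega]; ring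
  rw [← hm, hmz]
  have hpm : p ≤ m := by omega
  have hpm' : p' ≤ m := by omega
  have e1 : m ≡ c₀ [MOD k] ↔ (k : ℤ) ∣ m - ρ := by
    rw [← Int.natCast_modEq_iff]
    constructor
    · intro h
      exact (r1.trans h.symm).dvd
    · intro h
      exact ((Int.modEq_iff_dvd.mpr h).symm.trans r1)
  have e2 : D ∣ m - p ↔ (D : ℤ) ∣ m - ρ := by
    rw [← Int.natCast_dvd_natCast]
    push_cast [hpm]
    constructor
    · intro h
      have := r2.symm.dvd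
      have h4 : (m : ℤ) - ρ = (m - p) - (ρ - p) := by ring
      rw [h4]
      exact dvd_sub h this
    · intro h
      have := r2.symm.dvd
      have h4 : (m : ℤ) - p = (m - ρ) + (ρ - p) := by ring
      rw [h4]
      exact dvd_add h this
  have e3 : D' ∣ m - p' ↔ (D' : ℤ) ∣ m - ρ := by
    rw [← Int.natCast_dvd_natCast]
    push_cast [hpm']
    constructor
    · intro h
      have := r3.symm.dvd
      have h4 : (m : ℤ) - ρ = (m - p') - (ρ - p') := by ring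
      rw [h4]
      exact dvd_sub h this
    · intro h
      have := r3.symm.dvd
      have h4 : (m : ℤ) - p' = (m - ρ) + (ρ - p') := by ring
      rw [h4]
      exact dvd_add h this
  rw [e1, e2, e3]
  have c1 : IsCoprime (k : ℤ) (D : ℤ) := Nat.isCoprime_iff_coprime.mpr h1
  have c2 : IsCoprime ((k : ℤ) * D) (D' : ℤ) :=
    IsCoprime.mul_left (Nat.isCoprime_iff_coprime.mpr h2) (Nat.isCoprime_iff_coprime.mpr h3)
  push_cast
  constructor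
  · rintro ⟨a, b, c⟩
    exact c2.mul_dvd (c1.mul_dvd a b) c
  · intro h
    exact ⟨(dvd_mul_right _ _).trans ((dvd_mul_right _ _).trans h),
      (dvd_mul_left _ _).trans ((dvd_mul_right _ _).trans h), (dvd_mul_left _ _).trans h⟩

theorem G05b_count (A0 L k T p p' c₀ D D' : ℕ) (h1 : Nat.Coprime k D) (h2 : Nat.Coprime k D')
    (h3 : Nat.Coprime D D') (hA : L + T ≤ A0) (hp : p ≤ T) (hp' : p' ≤ T) (ρ : ℤ)
    (r1 : ρ ≡ c₀ [ZMOD k]) (r2 : ρ ≡ p [ZMOD D]) (r3 : ρ ≡ p' [ZMOD D']) :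
    Cn A0 L k p p' c₀ D D' = Er A0 L (k * D * D') ρ + (L : ℝ) ^ 2 / ((k * D * D' : ℕ) : ℝ) := by
  unfold Er Cn
  rw [sub_add_cancel, Finset.card_filter, Nat.cast_sum, Finset.sum_product]
  refine Finset.sum_congr rfl fun x _ => Finset.sum_congr rfl fun y hy => ?_
  have key := G05b_iff A0 L k T p p' c₀ D D' h1 h2 h3 hA hp hp' ρ r1 r2 r3 x y (mem_range.mp hy)
  push_cast at key ⊢
  by_cases hh : (k : ℤ) * D * D' ∣ (A0 : ℤ) + x - y - ρ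
  · obtain ⟨a, b, c⟩ := key.mpr hh
    rw [if_pos a, if_pos b, if_pos c, if_pos hh]
    norm_num
  · rw [if_neg hh]
    by_cases a : A0 + x - y ≡ c₀ [MOD k]
    · by_cases b : D ∣ A0 + x - y - p
      · have c : ¬ D' ∣ A0 + x - y - p' := fun c => hh (key.mp ⟨a, b, c⟩)
        simp [c]
      · simp [b]
    · simp [a]

theorem G05b_zero (A0 L k T p p' c₀ D D' : ℕ) (hA : L + T ≤ A0) (hp : p ≤ T) (hp' : p' ≤ T)
    (hne : p ≠ p') (hD : ∀ ℓ : ℕ, ℓ.Prime → ℓ ∣ D → T < ℓ) (h3 : ¬ Nat.Coprime D D') :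
    Cn A0 L k p p' c₀ D D' = 0 := by
  unfold Cn
  refine Finset.sum_eq_zero fun x _ => Finset.sum_eq_zero fun y hy => ?_
  have hy' := mem_range.mp hy
  by_cases b : D ∣ A0 + x - y - p
  · by_cases c : D' ∣ A0 + x - y - p'
    · exfalso
      obtain ⟨ℓ, hℓ, h4, h5⟩ := Nat.Prime.not_coprime_iff_dvd.mp h3
      have h6 := hD ℓ hℓ h4
      have h7 := h4.trans b
      have h8 := h5.trans c
      obtain ⟨m, hm⟩ : ∃ m : ℕ, m = A0 + x - y := ⟨_, rfl⟩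
      rw [← hm] at h7 h8
      have hpm : p ≤ m := by omega
      have hpm' : p' ≤ m := by omega
      rcases lt_or_gt_of_ne hne with h | h
      · have h9 : ℓ ∣ (m - p) - (m - p') := Nat.dvd_sub h7 h8
        have h10 : (m - p) - (m - p') = p' - p := by omega
        rw [h10] at h9
        have := Nat.le_of_dvd (by omega) h9
        omega
      · have h9 : ℓ ∣ (m - p') - (m - p) := Nat.dvd_sub h8 h7
        have h10 : (m - p') - (m - p) = p - p' := by omega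
        rw [h10] at h9
        have := Nat.le_of_dvd (by omega) h9
        omega
    · simp [c]
  · simp [b]

theorem G05b_expand {ι : Type} (I : Finset ι) (cl : ι → Cls) (A0 L k p p' c₀ : ℕ) :
    ∑ x ∈ range L, ∑ y ∈ range L, (if A0 + x - y ≡ c₀ [MOD k] then
          Fc I cl (A0 + x - y - p) * Fc I cl (A0 + x - y - p') else 0)
      = ∑ i ∈ I, ∑ i' ∈ I, ∑ D ∈ (cl i).D, ∑ D' ∈ (cl i').D,
          (cl i).w D * (cl i').w D' * Cn A0 L k p p' c₀ D D' := by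
  have h1 : ∀ x y : ℕ, (if A0 + x - y ≡ c₀ [MOD k] then
          Fc I cl (A0 + x - y - p) * Fc I cl (A0 + x - y - p') else 0)
      = ∑ i ∈ I, ∑ i' ∈ I, ∑ D ∈ (cl i).D, ∑ D' ∈ (cl i').D,
          (cl i).w D * (cl i').w D' * (if A0 + x - y ≡ c₀ [MOD k] then
     (if D ∣ A0 + x - y - p then (1 : ℝ) else 0) * (if D' ∣ A0 + x - y - p' then 1 else 0)
       else 0) := by
    intro x y
    by_cases h : A0 + x - y ≡ c₀ [MOD k]
    · simp only [h, if_true]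
      unfold Fc
      rw [Finset.sum_mul_sum]
      refine Finset.sum_congr rfl fun i _ => Finset.sum_congr rfl fun i' _ => ?_
      rw [Finset.sum_mul_sum]
      refine Finset.sum_congr rfl fun D _ => Finset.sum_congr rfl fun D' _ => ?_
      ring
    · simp [h]
  have h2 : ∀ (t : ℕ → ℕ → ℕ → ℕ → ℝ), ∑ x ∈ range L, ∑ y ∈ range L, ∑ i ∈ I, ∑ i' ∈ I,
        ∑ D ∈ (cl i).D, ∑ D' ∈ (cl i').D, (cl i).w D * (cl i').w D' * t x y D D'
      = ∑ i ∈ I, ∑ i' ∈ I, ∑ D ∈ (cl i).D, ∑ D' ∈ (cl i').D,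
        (cl i).w D * (cl i').w D' * ∑ x ∈ range L, ∑ y ∈ range L, t x y D D' := by
    intro t
    rw [← Finset.sum_product' (range L) (range L) (fun x y => ∑ i ∈ I, ∑ i' ∈ I,
        ∑ D ∈ (cl i).D, ∑ D' ∈ (cl i').D, (cl i).w D * (cl i').w D' * t x y D D')]
    rw [Finset.sum_comm]
    refine Finset.sum_congr rfl fun i _ => ?_
    rw [Finset.sum_comm]
    refine Finset.sum_congr rfl fun i' _ => ?_
    rw [Finset.sum_comm]
    refine Finset.sum_congr rfl fun D _ => ?_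
    rw [Finset.sum_comm]
    refine Finset.sum_congr rfl fun D' _ => ?_
    rw [← Finset.mul_sum, ← Finset.sum_product' (range L) (range L) (fun x y => t x y D D')]
  calc _ = ∑ x ∈ range L, ∑ y ∈ range L, ∑ i ∈ I, ∑ i' ∈ I, ∑ D ∈ (cl i).D, ∑ D' ∈ (cl i').D,
          (cl i).w D * (cl i').w D' * (if A0 + x - y ≡ c₀ [MOD k] then
     (if D ∣ A0 + x - y - p then (1 : ℝ) else 0) * (if D' ∣ A0 + x - y - p' then 1 else 0)
       else 0) := by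
        refine Finset.sum_congr rfl fun x _ => Finset.sum_congr rfl fun y _ => h1 x y
    _ = _ := h2 (fun x y D D' => (if A0 + x - y ≡ c₀ [MOD k] then
     (if D ∣ A0 + x - y - p then (1 : ℝ) else 0) * (if D' ∣ A0 + x - y - p' then 1 else 0)
       else 0))

open Classical in
/-- **Theorem K: the level of distribution 5/9 for products of two sieve weights.**
PROOF. Expand `Fc (m - p) Fc (m - p')` and interchange: the left sum is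
`∑_{i,i'} ∑_{D,D'} w w' #{(x, y) : m = A0 + x - y ≡ c₀ (k), D ∣ m - p, D' ∣ m - p'}`.
If `D, D'` are not coprime, a common prime factor divides `p' - p`, which is impossible since
`0 < |p' - p| ≤ T < ℓ`; so there is no such `(x, y)` (`m ≥ p, p'` as `A0 - L ≥ p`; `A0 + x - y`
is a true subtraction). If they are coprime, `k, D, D'` are pairwise coprime; by the Chinese remainder
Theorem there is `ρ = ρ D D'` with the three congruences, and the conditions on `m` are equivalent to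
`k D D' ∣ m - ρ`. So the number of `(x, y)` is `Er A0 L (k D D') ρ + L² / (k D D')`.
The main terms add up to `L² / k * Mc`, the errors are at most `L^(2-δ/6)` for each of the `#I ^ 2`
pairs of classes (`pair_bound`). -/
theorem thmK (τ δ : ℝ) (hδ : 0 < δ) (hδ1 : δ ≤ 1 / 100) (hτ : 9 * τ + 5 * δ ≤ 5)
    (hτ0 : 1 / 2 ≤ τ) : ∃ L₀ : ℕ, ∀ L : ℕ, L₀ ≤ L →
    ∀ (k T A0 p p' c₀ : ℕ) (ι : Type) (I : Finset ι) (cl : ι → Cls), 1 ≤ k → Squarefree k →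
      (k : ℝ) ≤ (L : ℝ) ^ (δ / 100) → (A0 : ℝ) ≤ (L : ℝ) ^ (1 + δ / 100) → L + T ≤ A0 →
      p ≤ T → p' ≤ T → p ≠ p' → (∀ i ∈ I, Good k T L τ δ (cl i)) →
      |∑ x ∈ range L, ∑ y ∈ range L, (if A0 + x - y ≡ c₀ [MOD k] then
          Fc I cl (A0 + x - y - p) * Fc I cl (A0 + x - y - p') else 0)
        - (L : ℝ) ^ 2 / k * Mc I cl| ≤ (#I : ℝ) ^ 2 * (L : ℝ) ^ (2 - δ / 6) := by
  obtain ⟨L₀, hL₀⟩ := pair_bound τ δ hδ hδ1 hτ hτ0
  refine ⟨L₀, ?_⟩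
  intro L hL k T A0 p p' c₀ ι I cl hk hksq hkL hA0 hLT hp hp' hne hG
  have hex : ∀ D D' : ℕ, ∃ r : ℤ, Nat.Coprime k D → Nat.Coprime k D' → Nat.Coprime D D' →
      r ≡ c₀ [ZMOD k] ∧ r ≡ p [ZMOD D] ∧ r ≡ p' [ZMOD D'] := by
    intro D D'
    by_cases h : Nat.Coprime k D ∧ Nat.Coprime k D' ∧ Nat.Coprime D D'
    · obtain ⟨r, h1, h2, h3⟩ := G05b_crt k D D' c₀ p p' h.1 h.2.1 h.2.2
      exact ⟨r, fun _ _ _ => ⟨Int.natCast_modEq_iff.mpr h1, Int.natCast_modEq_iff.mpr h2,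
        Int.natCast_modEq_iff.mpr h3⟩⟩
    · exact ⟨0, fun a b c => absurd ⟨a, b, c⟩ h⟩
  choose ρ hρ using hex
  rw [G05b_expand]
  have hmain : (∑ i ∈ I, ∑ i' ∈ I, ∑ D ∈ (cl i).D, ∑ D' ∈ (cl i').D,
          (cl i).w D * (cl i').w D' * Cn A0 L k p p' c₀ D D') - (L : ℝ) ^ 2 / k * Mc I cl
      = ∑ i ∈ I, ∑ i' ∈ I, ∑ D ∈ (cl i).D, ∑ D' ∈ (cl i').D.filter (fun b => Nat.Coprime D b),
          (cl i).w D * (cl i').w D' * Er A0 L (k * D * D') (ρ D D') := by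
    unfold Mc
    rw [Finset.mul_sum, ← Finset.sum_sub_distrib]
    refine Finset.sum_congr rfl fun i hi => ?_
    rw [Finset.mul_sum, ← Finset.sum_sub_distrib]
    refine Finset.sum_congr rfl fun i' hi' => ?_
    rw [Finset.mul_sum, ← Finset.sum_sub_distrib]
    refine Finset.sum_congr rfl fun D hD => ?_
    have h1 : ∑ D' ∈ (cl i').D, (cl i).w D * (cl i').w D' * Cn A0 L k p p' c₀ D D'
        = ∑ D' ∈ (cl i').D.filter (fun b => Nat.Coprime D b),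
          (cl i).w D * (cl i').w D' * Cn A0 L k p p' c₀ D D' := by
      rw [Finset.sum_filter]
      refine Finset.sum_congr rfl fun D' hD' => ?_
      by_cases h : Nat.Coprime D D'
      · rw [if_pos h]
      · rw [if_neg h, G05b_zero A0 L k T p p' c₀ D D' hLT hp hp' hne
          (fun ℓ h1 h2 => (hG i hi).rough D hD ℓ h1 h2) h, mul_zero]
    rw [h1, Finset.mul_sum, ← Finset.sum_sub_distrib]
    refine Finset.sum_congr rfl fun D' hD' => ?_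
    rw [Finset.mem_filter] at hD'
    have c1 := (hG i hi).cop D hD
    have c2 := (hG i' hi').cop D' hD'.1
    obtain ⟨r1, r2, r3⟩ := hρ D D' c1 c2 hD'.2
    rw [G05b_count A0 L k T p p' c₀ D D' c1 c2 hD'.2 hLT hp hp' (ρ D D') r1 r2 r3]
    push_cast
    ring
  rw [hmain]
  calc |∑ i ∈ I, ∑ i' ∈ I, ∑ D ∈ (cl i).D, ∑ D' ∈ (cl i').D.filter (fun b => Nat.Coprime D b),
          (cl i).w D * (cl i').w D' * Er A0 L (k * D * D') (ρ D D')|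
      ≤ ∑ i ∈ I, ∑ i' ∈ I, (L : ℝ) ^ (2 - δ / 6) := by
        refine (Finset.abs_sum_le_sum_abs _ _).trans (Finset.sum_le_sum fun i hi => ?_)
        refine (Finset.abs_sum_le_sum_abs _ _).trans (Finset.sum_le_sum fun i' hi' => ?_)
        refine hL₀ L hL k T A0 p p' c₀ (cl i) (cl i') ρ hk hksq hkL hA0 (by omega) (by omega)
          hp hp' hne (hG i hi) (hG i' hi') ?_
        intro D hD b hb hc
        exact hρ D b ((hG i hi).cop D hD) ((hG i' hi').cop b hb) hc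
    _ = (#I : ℝ) ^ 2 * (L : ℝ) ^ (2 - δ / 6) := by
        simp only [Finset.sum_const, nsmul_eq_mul]
        ring

end Pool.Agent.Lib.MP_bae66e_nt.P2

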