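import Pool.Agent.Lib.MP_bae66e_nt.P2.MertR

/-!
# The linear sieve: recursion, pointwise bounds, support
-/

set_option autoImplicit false

namespace Pool.Agent.Lib.MP_bae66e_nt.P2

open Finset

/-- primes `p` with `T < p < z` -/
def PR (T z : ℕ) : Finset ℕ := (Ioo T z).filter Nat.Prime

lemma mem_PR {T z p : ℕ} : p ∈ PR T z ↔ (T < p ∧ p < z) ∧ p.Prime := by
  simp [PR]

/-- the range of the first prime: for the upper sieve (`σ = true`) the primes with `p³ < e^y` -/
noncomputable def RG (T z : ℕ) (σ : Bool) (y : ℝ) : Finset ℕ :=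
  (PR T z).filter (fun p => σ = true → 3 * Real.log p < y)

lemma mem_RG {T z p : ℕ} {σ : Bool} {y : ℝ} :
    p ∈ RG T z σ y ↔ p ∈ PR T z ∧ (σ = true → 3 * Real.log p < y) := by
  simp [RG]

/-- the linear sieve functions: `σ = true` upper, `σ = false` lower (without the cut `2 log z ≤ y`) -/
noncomputable def LS (g : ℕ → ℝ) (T : ℕ) (z : ℕ) (σ : Bool) (y : ℝ) : ℝ :=
  1 - ∑ p : {p // p ∈ RG T z σ y}, g p.1 * LS g T p.1 (!σ) (y - Real.log p.1)
termination_by z
decreasing_by
  have := (mem_PR.mp (mem_RG.mp p.2).1).1.2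
  exact this

lemma LS_eq (g : ℕ → ℝ) (T z : ℕ) (σ : Bool) (y : ℝ) :
    LS g T z σ y = 1 - ∑ p ∈ RG T z σ y, g p * LS g T p (!σ) (y - Real.log p) := by
  rw [LS]
  congr 1
  exact Finset.sum_coe_sort (RG T z σ y) (fun p => g p * LS g T p (!σ) (y - Real.log p))

/-- indicator of divisibility -/
noncomputable def dvi (n p : ℕ) : ℝ := if p ∣ n then 1 else 0

/-- indicator of `(n, P(T, z)) = 1` -/
noncomputable def ind (T z n : ℕ) : ℝ := @ite ℝ (∀ p ∈ PR T z, ¬ p ∣ n) (Classical.propDecidable _) 1 0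

lemma ind_nonneg (T z n : ℕ) : 0 ≤ ind T z n := by
  unfold ind; split_ifs <;> norm_num

lemma ind_le_one (T z n : ℕ) : ind T z n ≤ 1 := by
  unfold ind; split_ifs <;> norm_num

lemma ind_of {T z n : ℕ} (h : ∀ p ∈ PR T z, ¬ p ∣ n) : ind T z n = 1 := by
  unfold ind; rw [if_pos h]

lemma ind_of_not {T z n : ℕ} (h : ¬ ∀ p ∈ PR T z, ¬ p ∣ n) : ind T z n = 0 := by
  unfold ind; rw [if_neg h]

/-- Buchstab's identity -/
lemma buchstab (T z n : ℕ) : ind T z n = 1 - ∑ p ∈ PR T z, dvi n p * ind T p n := by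
  classical
  by_cases h : ∀ p ∈ PR T z, ¬ p ∣ n
  · rw [ind_of h]
    have : ∑ p ∈ PR T z, dvi n p * ind T p n = 0 := by
      apply sum_eq_zero
      intro p hp
      unfold dvi
      rw [if_neg (h p hp), zero_mul]
    rw [this, sub_zero]
  · rw [ind_of_not h]
    push Not at h
    obtain ⟨q0, hq0, hq0n⟩ := h
    have hne : ((PR T z).filter (fun p => p ∣ n)).Nonempty := ⟨q0, mem_filter.mpr ⟨hq0, hq0n⟩⟩
    set q := ((PR T z).filter (fun p => p ∣ n)).min' hne with hq
    have hqm := ((PR T z).filter (fun p => p ∣ n)).min'_mem hne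
    rw [← hq, mem_filter] at hqm
    have hmin : ∀ p ∈ PR T z, p ∣ n → q ≤ p := fun p hp hpn =>
      ((PR T z).filter (fun p => p ∣ n)).min'_le p (mem_filter.mpr ⟨hp, hpn⟩)
    have hsum : ∑ p ∈ PR T z, dvi n p * ind T p n = dvi n q * ind T q n := by
      apply sum_eq_single q
      · intro p hp hpq
        by_cases hpn : p ∣ n
        · have hqp : q < p := lt_of_le_of_ne (hmin p hp hpn) (Ne.symm hpq)
          have h1 : ind T p n = 0 := by
            apply ind_of_not
            intro h2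
            exact h2 q (mem_PR.mpr ⟨⟨(mem_PR.mp hqm.1).1.1, hqp⟩, (mem_PR.mp hqm.1).2⟩) hqm.2
          rw [h1, mul_zero]
        · unfold dvi
          rw [if_neg hpn, zero_mul]
      · intro h2
        exact absurd hqm.1 h2
    have h1 : ind T q n = 1 := by
      apply ind_of
      intro p hp hpn
      have h2 := mem_PR.mp hp
      have h3 := hmin p (mem_PR.mpr ⟨⟨h2.1.1, h2.1.2.trans (mem_PR.mp hqm.1).1.2⟩, h2.2⟩) hpn
      omega
    rw [hsum, h1]
    unfold dvi
    rw [if_pos hqm.2]
    ring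

lemma dvi_nonneg (n p : ℕ) : 0 ≤ dvi n p := by
  unfold dvi; split_ifs <;> norm_num

/-- pointwise bounds -/
lemma LS_pointwise (T n : ℕ) : ∀ z : ℕ, ∀ y : ℝ,
    ind T z n ≤ LS (dvi n) T z true y ∧ LS (dvi n) T z false y ≤ ind T z n := by
  intro z
  induction z using Nat.strong_induction_on with
  | _ z ih =>
    intro y
    have hb := buchstab T z n
    constructor
    · rw [LS_eq, hb]
      apply sub_le_sub_left
      calc ∑ p ∈ RG T z true y, dvi n p * LS (dvi n) T p (!true) (y - Real.log p)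
          ≤ ∑ p ∈ RG T z true y, dvi n p * ind T p n := by
            apply sum_le_sum
            intro p hp
            have h1 := (mem_PR.mp (mem_RG.mp hp).1).1.2
            exact mul_le_mul_of_nonneg_left (ih p h1 _).2 (dvi_nonneg n p)
        _ ≤ ∑ p ∈ PR T z, dvi n p * ind T p n := by
            apply sum_le_sum_of_subset_of_nonneg
            · intro p hp; exact (mem_RG.mp hp).1
            · intro p _ _
              exact mul_nonneg (dvi_nonneg n p) (ind_nonneg _ _ _)
    · rw [LS_eq, hb]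
      apply sub_le_sub_left
      have h0 : RG T z false y = PR T z := by
        ext p
        rw [mem_RG]
        simp
      rw [h0]
      apply sum_le_sum
      intro p hp
      have h1 := (mem_PR.mp hp).1.2
      exact mul_le_mul_of_nonneg_left (ih p h1 _).1 (dvi_nonneg n p)

/-- the support -/
noncomputable def SP (T : ℕ) (z : ℕ) (σ : Bool) (y : ℝ) : Finset ℕ :=
  insert 1 ((Finset.univ : Finset {p // p ∈ RG T z σ y}).biUnion
    (fun p => (SP T p.1 (!σ) (y - Real.log p.1)).image (fun D => p.1 * D)))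
termination_by z
decreasing_by
  have := (mem_PR.mp (mem_RG.mp p.2).1).1.2
  exact this

lemma mem_SP {T z : ℕ} {σ : Bool} {y : ℝ} {D : ℕ} :
    D ∈ SP T z σ y ↔ D = 1 ∨ ∃ p ∈ RG T z σ y, ∃ D' ∈ SP T p (!σ) (y - Real.log p), D = p * D' := by
  rw [SP, mem_insert, mem_biUnion]
  constructor
  · rintro (h | ⟨p, _, hp⟩)
    · exact Or.inl h
    · obtain ⟨D', h1, h2⟩ := mem_image.mp hp
      exact Or.inr ⟨p.1, p.2, D', h1, h2.symm⟩
  · rintro (h | ⟨p, hp, D', h1, h2⟩)
    · exact Or.inl h
    · exact Or.inr ⟨⟨p, hp⟩, mem_univ _, mem_image.mpr ⟨D', h1, h2.symm⟩⟩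

/-- elements of the support are products of distinct primes of `(T, z)` -/
lemma SP_basic (T : ℕ) : ∀ z : ℕ, ∀ (σ : Bool) (y : ℝ), ∀ D ∈ SP T z σ y,
    Squarefree D ∧ ∀ p : ℕ, p.Prime → p ∣ D → T < p ∧ p < z := by
  intro z
  induction z using Nat.strong_induction_on with
  | _ z ih =>
    intro σ y D hD
    rcases mem_SP.mp hD with rfl | ⟨p, hp, D', hD', rfl⟩
    · refine ⟨squarefree_one, ?_⟩
      intro p hp h
      exact absurd (Nat.dvd_one.mp h) hp.one_lt.ne'
    · have hp' := mem_PR.mp (mem_RG.mp hp).1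
      obtain ⟨h1, h2⟩ := ih p hp'.1.2 _ _ D' hD'
      have hpD : ¬ p ∣ D' := fun h => lt_irrefl _ (h2 p hp'.2 h).2
      refine ⟨?_, ?_⟩
      · rw [Nat.squarefree_mul ((Nat.Prime.coprime_iff_not_dvd hp'.2).mpr hpD)]
        exact ⟨hp'.2.squarefree, h1⟩
      · intro q hq hqD
        rcases (Nat.Prime.dvd_mul hq).mp hqD with h | h
        · rw [(Nat.prime_dvd_prime_iff_eq hq hp'.2).mp h]
          exact hp'.1
        · have := h2 q hq h
          exact ⟨this.1, this.2.trans hp'.1.2⟩

/-- multiplicative extension -/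
noncomputable def mg (g : ℕ → ℝ) (D : ℕ) : ℝ := ∏ p ∈ D.primeFactors, (-g p)

lemma mg_one (g : ℕ → ℝ) : mg g 1 = 1 := by simp [mg]

lemma mg_mul (g : ℕ → ℝ) {p D : ℕ} (hp : p.Prime) (hD : ¬ p ∣ D) (hD0 : D ≠ 0) :
    mg g (p * D) = -g p * mg g D := by
  unfold mg
  rw [Nat.primeFactors_mul hp.ne_zero hD0, hp.primeFactors, prod_union, prod_singleton]
  rw [disjoint_singleton_left]
  intro h
  exact hD (Nat.dvd_of_mem_primeFactors h)

/-- the sieve function as a divisor sum -/
lemma LS_eq_sum (g : ℕ → ℝ) (T : ℕ) : ∀ z : ℕ, ∀ (σ : Bool) (y : ℝ),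
    LS g T z σ y = ∑ D ∈ SP T z σ y, mg g D := by
  classical
  intro z
  induction z using Nat.strong_induction_on with
  | _ z ih =>
    intro σ y
    rw [LS_eq]
    have e : SP T z σ y = insert 1 ((RG T z σ y).biUnion
        (fun p => (SP T p (!σ) (y - Real.log p)).image (fun D => p * D))) := by
      ext D
      rw [mem_SP, mem_insert, mem_biUnion]
      constructor
      · rintro (h | ⟨p, hp, D', h1, h2⟩)
        · exact Or.inl h
        · exact Or.inr ⟨p, hp, mem_image.mpr ⟨D', h1, h2.symm⟩⟩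
      · rintro (h | ⟨p, hp, h1⟩)
        · exact Or.inl h
        · obtain ⟨D', h2, h3⟩ := mem_image.mp h1
          exact Or.inr ⟨p, hp, D', h2, h3.symm⟩
    have hnot : (1 : ℕ) ∉ (RG T z σ y).biUnion
        (fun p => (SP T p (!σ) (y - Real.log p)).image (fun D => p * D)) := by
      intro h
      obtain ⟨p, hp, h1⟩ := mem_biUnion.mp h
      obtain ⟨D', h2, h3⟩ := mem_image.mp h1
      have := (mem_PR.mp (mem_RG.mp hp).1).2
      exact this.one_lt.ne' (Nat.dvd_one.mp ⟨D', h3.symm⟩)
    rw [e, sum_insert hnot, mg_one, sum_biUnion]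
    · rw [sub_eq_add_neg, ← sum_neg_distrib]
      congr 1
      apply sum_congr rfl
      intro p hp
      have hp' := mem_PR.mp (mem_RG.mp hp).1
      rw [sum_image (fun a _ b _ h => Nat.eq_of_mul_eq_mul_left hp'.2.pos h),
        ih p hp'.1.2, mul_sum, ← sum_neg_distrib]
      apply sum_congr rfl
      intro D hD
      obtain ⟨h1, h2⟩ := SP_basic T p _ _ D hD
      rw [mg_mul g hp'.2 (fun h => lt_irrefl _ (h2 p hp'.2 h).2) h1.ne_zero]
      ring
    · -- disjointness
      intro p hp q hq hpq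
      rw [Function.onFun, disjoint_left]
      intro D hD hD'
      obtain ⟨a, ha, rfl⟩ := mem_image.mp hD
      obtain ⟨b, hb, hab⟩ := mem_image.mp hD'
      have hp' := mem_PR.mp (mem_RG.mp (mem_coe.mp hp)).1
      have hq' := mem_PR.mp (mem_RG.mp (mem_coe.mp hq)).1
      have h1 := (SP_basic T p _ _ a ha).2
      have h2 := (SP_basic T q _ _ b hb).2
      have hqa : q ∣ p * a := ⟨b, hab.symm⟩
      have hpb : p ∣ q * b := ⟨a, hab⟩
      rcases (Nat.Prime.dvd_mul hq'.2).mp hqa with h | h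
      · exact hpq ((Nat.prime_dvd_prime_iff_eq hq'.2 hp'.2).mp h).symm
      · have h3 := (h1 q hq'.2 h).2
        rcases (Nat.Prime.dvd_mul hp'.2).mp hpb with h4 | h4
        · exact hpq ((Nat.prime_dvd_prime_iff_eq hp'.2 hq'.2).mp h4)
        · have h5 := (h2 p hp'.2 h4).2
          omega

/-- well factorable at every split of the level `e ^ y` -/
def WFy (D : ℕ) (y : ℝ) : Prop :=
  ∀ M N : ℝ, 1 ≤ M → 1 ≤ N → M * N = Real.exp y →
    ∃ m n : ℕ, D = m * n ∧ (m : ℝ) ≤ M ∧ (n : ℝ) ≤ N

lemma SP_wf (T : ℕ) : ∀ z : ℕ, ∀ (σ : Bool) (y : ℝ), 0 ≤ y → (σ = false → 2 * Real.log z ≤ y) →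
    ∀ D ∈ SP T z σ y, WFy D y := by
  intro z
  induction z using Nat.strong_induction_on with
  | _ z ih =>
    intro σ y hy hσ D hD M N hM hN hMN
    rcases mem_SP.mp hD with rfl | ⟨p, hp, D', hD', rfl⟩
    · exact ⟨1, 1, rfl, by simpa using hM, by simpa using hN⟩
    · have hp' := mem_PR.mp (mem_RG.mp hp).1
      have hp0 : (0 : ℝ) < p := by exact_mod_cast hp'.2.pos
      have hlp : 0 < Real.log p := Real.log_pos (by exact_mod_cast hp'.2.one_lt)
      have hpz : Real.log p ≤ Real.log z := Real.log_le_log hp0 (by exact_mod_cast hp'.1.2.le)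
      have h2p : 2 * Real.log p ≤ y := by
        cases σ with
        | true =>
          have := (mem_RG.mp hp).2 rfl
          linarith
        | false =>
          have := hσ rfl
          linarith
      have hy' : 0 ≤ y - Real.log p := by linarith
      have hσ' : (!σ) = false → 2 * Real.log p ≤ y - Real.log p := by
        intro h
        have hσt : σ = true := by cases σ <;> simp_all
        have := (mem_RG.mp hp).2 hσt
        linarith
      have ih' := ih p hp'.1.2 (!σ) (y - Real.log p) hy' hσ' D' hD'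
      have hpsq : (p : ℝ) * p ≤ M * N := by
        rw [hMN, ← Real.exp_log hp0, ← Real.exp_add]
        apply Real.exp_le_exp.mpr
        linarith
      have hexp : Real.exp (y - Real.log p) = M * N / p := by
        rw [Real.exp_sub, Real.exp_log hp0, hMN]
      by_cases hpM : (p : ℝ) ≤ M
      · obtain ⟨m, n, h1, h2, h3⟩ := ih' (M / p) N (by rw [le_div_iff₀ hp0]; linarith) hN
          (by rw [hexp]; ring)
        refine ⟨p * m, n, by rw [h1]; ring, ?_, h3⟩
        push_cast
        rw [le_div_iff₀ hp0] at h2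
        linarith
      · push Not at hpM
        have hpN : (p : ℝ) ≤ N := by
          by_contra hcon
          push Not at hcon
          have : M * N < p * p := by
            apply mul_lt_mul'' hpM hcon <;> linarith
          linarith
        obtain ⟨m, n, h1, h2, h3⟩ := ih' M (N / p) hM (by rw [le_div_iff₀ hp0]; linarith)
          (by rw [hexp]; ring)
        refine ⟨m, p * n, by rw [h1]; ring, h2, ?_⟩
        push_cast
        rw [le_div_iff₀ hp0] at h3
        linarith

lemma WFy.le {D : ℕ} {y : ℝ} (hy : 0 ≤ y) (h : WFy D y) : (D : ℝ) ≤ Real.exp y := by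
  obtain ⟨m, n, h1, h2, h3⟩ := h (Real.exp y) 1 (Real.one_le_exp hy) le_rfl (mul_one _)
  rw [h1]
  push_cast
  calc (m : ℝ) * n ≤ Real.exp y * 1 := by gcongr
    _ = Real.exp y := mul_one _

/-- the weight `1/p` -/
noncomputable def inv (p : ℕ) : ℝ := 1 / (p : ℝ)

end Pool.Agent.Lib.MP_bae66e_nt.P2
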