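import Pool.Agent.Lib.MP_bae66e_nt.P2.Lin

/-!
# The linear sieve: mean values, by induction from a discrete certificate
-/

set_option autoImplicit false

namespace Pool.Agent.Lib.MP_bae66e_nt.P2

open Finset AP3

/-- index of the step containing `s` (steps of length `1 / H` starting at `1`) -/
noncomputable def idx (H : ℕ) (s : ℝ) : ℕ := ⌊(s - 1) * H⌋₊

/-- left end point of a step -/
noncomputable def sj (H : ℕ) (j : ℕ) : ℝ := 1 + (j : ℝ) / H

/-- a certificate for the linear sieve -/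
structure Cert (H : ℕ) (c : ℝ) (e1 e2 S1 S2 : ℕ → ℝ) : Prop where
  hH : 0 < H
  e1n : ∀ j, 0 ≤ e1 j
  e2n : ∀ j, 0 ≤ e2 j
  S1n : ∀ j, 0 ≤ S1 j
  S2n : ∀ j, 0 ≤ S2 j
  hS1 : ∀ j, e1 j / H + S1 (j + 1) ≤ S1 j
  hS2 : ∀ j, H ≤ j → e2 j / H + S2 (j + 1) ≤ S2 j
  he1 : ∀ j, j < 2 * H → c / sj H j ≤ 1 + e1 j
  hA : ∀ j, 2 * H ≤ j → S2 (j - H) ≤ sj H j * e1 j
  hB : ∀ j, H ≤ j → S1 (j - H) ≤ sj H j * e2 j
  hc : 3 + S2 H ≤ c

lemma sj_pos {H : ℕ} (hH : 0 < H) (j : ℕ) : 0 < sj H j := by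
  unfold sj
  have : (0 : ℝ) < H := by exact_mod_cast hH
  positivity

lemma sj_idx_le {H : ℕ} (hH : 0 < H) {s : ℝ} (hs : 1 ≤ s) : sj H (idx H s) ≤ s := by
  have hH' : (0 : ℝ) < H := by exact_mod_cast hH
  unfold sj idx
  have h0 : 0 ≤ (s - 1) * H := mul_nonneg (by linarith) hH'.le
  have h1 := Nat.floor_le h0
  have h2 : (⌊(s - 1) * H⌋₊ : ℝ) / H ≤ s - 1 := by
    rw [div_le_iff₀ hH']; exact h1
  linarith

lemma idx_mono {H : ℕ} {s s' : ℝ} (h : s ≤ s') : idx H s ≤ idx H s' := by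
  unfold idx
  apply Nat.floor_le_floor
  apply mul_le_mul_of_nonneg_right _ (Nat.cast_nonneg _)
  linarith

lemma idx_sub_one {H : ℕ} (s : ℝ) : idx H (s - 1) = idx H s - H := by
  unfold idx
  have : (s - 1 - 1) * (H : ℝ) = (s - 1) * H - (H : ℕ) := by ring
  rw [this, Nat.floor_sub_natCast]

lemma le_idx {H : ℕ} {s : ℝ} {n : ℕ} (h : sj H n ≤ s) (hH : 0 < H) : n ≤ idx H s := by
  have hH' : (0 : ℝ) < H := by exact_mod_cast hH
  unfold idx
  apply Nat.le_floor
  unfold sj at h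
  have h1 : (n : ℝ) / H ≤ s - 1 := by linarith
  rwa [div_le_iff₀ hH'] at h1

/-- sums over primes of a step function -/
lemma step_sum {H : ℕ} (hH : 0 < H) {C : ℝ} (hC0 : 0 ≤ C)
    (hC : ∀ α β : ℝ, 0 < α → α ≤ β →
      |∑ p ∈ PL α β, 1 / ((p : ℝ) * Real.log p) - (1 / α - 1 / β)| ≤ C / α ^ 2)
    {e S : ℕ → ℝ} (he : ∀ j, 0 ≤ e j) (hS : ∀ j, 0 ≤ S j) {j0 : ℕ}
    (hSe : ∀ j, j0 ≤ j → e j / H + S (j + 1) ≤ S j)
    {t y : ℝ} (ht : 0 < t) (hy : 0 < y) (Q : Finset ℕ)
    (hQ : ∀ p ∈ Q, p.Prime ∧ t < Real.log p ∧ 2 * Real.log p ≤ y ∧ j0 ≤ idx H (y / Real.log p - 1)) :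
    ∑ p ∈ Q, 1 / ((p : ℝ) * Real.log p) * e (idx H (y / Real.log p - 1))
      ≤ S j0 / y + C * H * S j0 / t ^ 2 := by
  classical
  have hH' : (0 : ℝ) < H := by exact_mod_cast hH
  -- telescoping
  have htel : ∀ n, ∑ j ∈ Ico j0 (j0 + n), e j / H ≤ S j0 - S (j0 + n) := by
    intro n
    induction n with
    | zero => simp
    | succ n ih =>
      rw [← add_assoc, sum_Ico_succ_top (by omega)]
      have := hSe (j0 + n) (by omega)
      linarith
  -- the index set
  set J := Q.sup (fun p : ℕ => idx H (y / Real.log (p : ℝ) - 1)) with hJ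
  have hmaps : ∀ p ∈ Q, idx H (y / Real.log p - 1) ∈ Ico j0 (j0 + (J + 1)) := by
    intro p hp
    rw [mem_Ico]
    have h1 := (hQ p hp).2.2.2
    have h2 : idx H (y / Real.log p - 1) ≤ J := le_sup (f := fun p : ℕ => idx H (y / Real.log (p : ℝ) - 1)) hp
    omega
  rw [← sum_fiberwise_of_maps_to hmaps]
  have hin : ∀ j ∈ Ico j0 (j0 + (J + 1)),
      ∑ p ∈ Q.filter (fun p : ℕ => idx H (y / Real.log (p : ℝ) - 1) = j),
        1 / ((p : ℝ) * Real.log p) * e (idx H (y / Real.log p - 1))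
      ≤ e j / H * (1 / y + C * H / t ^ 2) := by
    intro j _
    have h1 : ∑ p ∈ Q.filter (fun p : ℕ => idx H (y / Real.log (p : ℝ) - 1) = j),
        1 / ((p : ℝ) * Real.log p) * e (idx H (y / Real.log p - 1))
        = e j * ∑ p ∈ Q.filter (fun p : ℕ => idx H (y / Real.log (p : ℝ) - 1) = j), 1 / ((p : ℝ) * Real.log p) := by
      rw [mul_sum]
      apply sum_congr rfl
      intro p hp
      rw [(mem_filter.mp hp).2]; ring
    rw [h1]
    have h2 : ∑ p ∈ Q.filter (fun p : ℕ => idx H (y / Real.log (p : ℝ) - 1) = j), 1 / ((p : ℝ) * Real.log p)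
        ≤ 1 / (H * y) + C / t ^ 2 := by
      set β := y / (2 + (j : ℝ) / H) with hβ
      set α0 := y / (2 + ((j : ℝ) + 1) / H) with hα0
      have hd1 : (0 : ℝ) < 2 + (j : ℝ) / H := by positivity
      have hd2 : (0 : ℝ) < 2 + ((j : ℝ) + 1) / H := by positivity
      have hα0pos : 0 < α0 := div_pos hy hd2
      have hβpos : 0 < β := div_pos hy hd1
      have hdiff : 1 / α0 - 1 / β = 1 / (H * y) := by
        rw [hα0, hβ]
        field_simp
        ring
      have hsub : (Q.filter (fun p : ℕ => idx H (y / Real.log (p : ℝ) - 1) = j)) ⊆ PL (max α0 t) β := by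
        intro p hp
        obtain ⟨hp1, hp2⟩ := mem_filter.mp hp
        obtain ⟨hpp, hpt, hpy, _⟩ := hQ p hp1
        have hlp : 0 < Real.log p := ht.trans hpt
        have hs0 : 0 ≤ (y / Real.log p - 1 - 1) * H := by
          apply mul_nonneg _ hH'.le
          have : 2 ≤ y / Real.log p := by rw [le_div_iff₀ hlp]; linarith
          linarith
        have hfl := Nat.floor_le hs0
        have hfl2 := Nat.lt_floor_add_one ((y / Real.log p - 1 - 1) * H)
        have hj' : ⌊(y / Real.log p - 1 - 1) * H⌋₊ = j := hp2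
        rw [hj'] at hfl hfl2
        rw [mem_PL]
        refine ⟨hpp, max_lt ?_ hpt, ?_⟩
        · rw [hα0, div_lt_iff₀ hd2]
          have h3 : (y / Real.log p - 1 - 1) < ((j : ℝ) + 1) / H := by
            rw [lt_div_iff₀ hH']; exact hfl2
          have h4 : y / Real.log p < 2 + ((j : ℝ) + 1) / H := by linarith
          rw [div_lt_iff₀ hlp] at h4
          linarith
        · rw [hβ, le_div_iff₀ hd1]
          have h3 : (j : ℝ) / H ≤ (y / Real.log p - 1 - 1) := by
            rw [div_le_iff₀ hH']; exact hfl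
          have h4 : 2 + (j : ℝ) / H ≤ y / Real.log p := by linarith
          rw [le_div_iff₀ hlp] at h4
          linarith
      have hnn : ∀ p ∈ PL (max α0 t) β, 0 ≤ 1 / ((p : ℝ) * Real.log p) := by
        intro p hp
        have := (mem_PL.mp hp).2.1
        have hlp : 0 < Real.log p := (ht.trans_le (le_max_right _ _)).trans this
        positivity
      have hle : ∑ p ∈ Q.filter (fun p : ℕ => idx H (y / Real.log (p : ℝ) - 1) = j), 1 / ((p : ℝ) * Real.log p)
          ≤ ∑ p ∈ PL (max α0 t) β, 1 / ((p : ℝ) * Real.log p) :=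
        sum_le_sum_of_subset_of_nonneg hsub fun p hp _ => hnn p hp
      refine hle.trans ?_
      have hmx : 0 < max α0 t := lt_max_of_lt_right ht
      rcases le_or_gt (max α0 t) β with hcase | hcase
      · have h5 := (abs_le.mp (hC (max α0 t) β hmx hcase)).2
        have h6 : 1 / max α0 t ≤ 1 / α0 := one_div_le_one_div_of_le hα0pos (le_max_left _ _)
        have h7 : C / (max α0 t) ^ 2 ≤ C / t ^ 2 := by
          apply div_le_div_of_nonneg_left hC0 (by positivity)
          exact pow_le_pow_left₀ ht.le (le_max_right _ _) 2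
        linarith
      · have hemp : PL (max α0 t) β = ∅ := by
          rw [eq_empty_iff_forall_notMem]
          intro p hp
          have := mem_PL.mp hp
          linarith [this.2.1, this.2.2]
        rw [hemp, sum_empty]
        positivity
    calc e j * ∑ p ∈ Q.filter (fun p : ℕ => idx H (y / Real.log (p : ℝ) - 1) = j), 1 / ((p : ℝ) * Real.log p)
        ≤ e j * (1 / (H * y) + C / t ^ 2) := mul_le_mul_of_nonneg_left h2 (he j)
      _ = e j / H * (1 / y + C * H / t ^ 2) := by field_simp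
  refine (sum_le_sum hin).trans ?_
  rw [← sum_mul]
  have h3 := htel (J + 1)
  have h4 := hS (j0 + (J + 1))
  have h5 : ∑ j ∈ Ico j0 (j0 + (J + 1)), e j / H ≤ S j0 := by linarith
  calc (∑ j ∈ Ico j0 (j0 + (J + 1)), e j / H) * (1 / y + C * H / t ^ 2)
      ≤ S j0 * (1 / y + C * H / t ^ 2) := by
        apply mul_le_mul_of_nonneg_right h5; positivity
    _ = S j0 / y + C * H * S j0 / t ^ 2 := by ring

end Pool.Agent.Lib.MP_bae66e_nt.P2
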