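import Pool.Agent.Lib.MP_bae66e_nt.P2.Mean

/-!
# The linear sieve: mean values, main induction
-/

set_option autoImplicit false

namespace Pool.Agent.Lib.MP_bae66e_nt.P2

open Finset AP3

lemma Cert.S1_le {H : ℕ} {c : ℝ} {e1 e2 S1 S2 : ℕ → ℝ} (h : Cert H c e1 e2 S1 S2) (j : ℕ) :
    S1 j ≤ S1 0 := by
  induction j with
  | zero => exact le_rfl
  | succ j ih =>
    have h1 := h.hS1 j
    have h2 : 0 ≤ e1 j / H := div_nonneg (h.e1n j) (Nat.cast_nonneg _)
    linarith

lemma Cert.S2_le {H : ℕ} {c : ℝ} {e1 e2 S1 S2 : ℕ → ℝ} (h : Cert H c e1 e2 S1 S2) (j : ℕ)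
    (hj : H ≤ j) : S2 j ≤ S2 H := by
  induction j, hj using Nat.le_induction with
  | base => exact le_rfl
  | succ j hj ih =>
    have h1 := h.hS2 j hj
    have h2 : 0 ≤ e2 j / H := div_nonneg (h.e2n j) (Nat.cast_nonneg _)
    linarith

/-- lower bound for the sum of `1 / (p log p)` -/
lemma sum_lower {C : ℝ}
    (hC : ∀ α β : ℝ, 0 < α → α ≤ β →
      |∑ p ∈ PL α β, 1 / ((p : ℝ) * Real.log p) - (1 / α - 1 / β)| ≤ C / α ^ 2)
    {t ζ : ℝ} (ht : 0 < t) (htζ : t ≤ ζ) (R : Finset ℕ)
    (hR : ∀ p ∈ R, p.Prime ∧ t < Real.log p)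
    (hR2 : ∀ p : ℕ, p.Prime → t < Real.log p → Real.log p < ζ → p ∈ R) :
    1 / t - 1 / ζ - (C + 1) / t ^ 2 ≤ ∑ p ∈ R, 1 / ((p : ℝ) * Real.log p) := by
  classical
  have h1 := (abs_le.mp (hC t ζ ht htζ)).1
  have hsplit := sum_filter_add_sum_filter_not (PL t ζ) (fun p : ℕ => Real.log (p : ℝ) < ζ)
    (fun p : ℕ => 1 / ((p : ℝ) * Real.log p))
  have hA : ∑ p ∈ (PL t ζ).filter (fun p : ℕ => Real.log (p : ℝ) < ζ), 1 / ((p : ℝ) * Real.log p)
      ≤ ∑ p ∈ R, 1 / ((p : ℝ) * Real.log p) := by
    apply sum_le_sum_of_subset_of_nonneg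
    · intro p hp
      obtain ⟨h2, h3⟩ := mem_filter.mp hp
      have h4 := mem_PL.mp h2
      exact hR2 p h4.1 h4.2.1 h3
    · intro p hp _
      have h2 := hR p hp
      have : 0 < Real.log p := ht.trans h2.2
      positivity
  have hB : ∑ p ∈ (PL t ζ).filter (fun p : ℕ => ¬ Real.log (p : ℝ) < ζ), 1 / ((p : ℝ) * Real.log p)
      ≤ 1 / t ^ 2 := by
    have hcard : #((PL t ζ).filter (fun p : ℕ => ¬ Real.log (p : ℝ) < ζ)) ≤ 1 := by
      rw [card_le_one]
      intro a ha b hb
      obtain ⟨ha1, ha2⟩ := mem_filter.mp ha
      obtain ⟨hb1, hb2⟩ := mem_filter.mp hb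
      have ha3 := mem_PL.mp ha1
      have hb3 := mem_PL.mp hb1
      push Not at ha2 hb2
      have e : Real.log (a : ℝ) = Real.log (b : ℝ) := by
        have := ha3.2.2; have := hb3.2.2; linarith
      have ha0 : (0 : ℝ) < a := by exact_mod_cast ha3.1.pos
      have hb0 : (0 : ℝ) < b := by exact_mod_cast hb3.1.pos
      exact_mod_cast Real.log_injOn_pos (Set.mem_Ioi.mpr ha0) (Set.mem_Ioi.mpr hb0) e
    calc ∑ p ∈ (PL t ζ).filter (fun p : ℕ => ¬ Real.log (p : ℝ) < ζ), 1 / ((p : ℝ) * Real.log p)
        ≤ ∑ p ∈ (PL t ζ).filter (fun p : ℕ => ¬ Real.log (p : ℝ) < ζ), 1 / t ^ 2 := by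
          apply sum_le_sum
          intro p hp
          have h2 := mem_PL.mp (mem_filter.mp hp).1
          have hp0 : (0 : ℝ) < p := by exact_mod_cast h2.1.pos
          have h3 := Real.log_le_sub_one_of_pos hp0
          apply one_div_le_one_div_of_le (by positivity)
          have h4 : t < p := by linarith [h2.2.1]
          rw [pow_two]
          exact mul_le_mul h4.le h2.2.1.le ht.le hp0.le
      _ = #((PL t ζ).filter (fun p : ℕ => ¬ Real.log (p : ℝ) < ζ)) * (1 / t ^ 2) := by
          rw [sum_const, nsmul_eq_mul]
      _ ≤ 1 * (1 / t ^ 2) := by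
          apply mul_le_mul_of_nonneg_right _ (by positivity)
          exact_mod_cast hcard
      _ = 1 / t ^ 2 := one_mul _
  have e1 : (C + 1) / t ^ 2 = C / t ^ 2 + 1 / t ^ 2 := by ring
  rw [e1]
  linarith

theorem mean_main {H : ℕ} {c : ℝ} {e1 e2 S1 S2 : ℕ → ℝ} (hc : Cert H c e1 e2 S1 S2) :
    ∃ K t0 : ℝ, 0 ≤ K ∧ 1 ≤ t0 ∧ ∀ T : ℕ, t0 ≤ Real.log T → ∀ z : ℕ, T < z → ∀ y : ℝ, 0 < y →
      (y ≤ 3 * Real.log z →
        LS inv T z true y ≤ c * Real.log T / y + K * Real.log z / Real.log T ^ 2) ∧
      (3 * Real.log z ≤ y → LS inv T z true y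
        ≤ Real.log T / Real.log z * (1 + e1 (idx H (y / Real.log z)))
          + K * Real.log z / Real.log T ^ 2) ∧
      (2 * Real.log z ≤ y → Real.log T / Real.log z * (1 - e2 (idx H (y / Real.log z)))
        - K * Real.log z / Real.log T ^ 2 ≤ LS inv T z false y) := by
  classical
  obtain ⟨C, hC0, hCG, hC1, _⟩ := exists_sum_G_PL
  have hH' : (0 : ℝ) < H := by exact_mod_cast hc.hH
  set Sm := S1 0 + S2 H with hSm
  have hSm0 : 0 ≤ Sm := add_nonneg (hc.S1n 0) (hc.S2n H)
  set K := 2 * (C + 1 + C * H * Sm) with hK
  have hCH : 0 ≤ C * H * Sm := by positivity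
  have hK0 : 0 ≤ K := by positivity
  refine ⟨K, max 1 (2 * C), hK0, le_max_left _ _, ?_⟩
  intro T hT
  set t := Real.log T with ht
  have ht1 : 1 ≤ t := (le_max_left _ _).trans hT
  have htC : 2 * C ≤ t := (le_max_right _ _).trans hT
  have ht0 : 0 < t := by linarith
  have hT0 : (0 : ℝ) < T := by
    by_contra hcon
    have : (T : ℝ) = 0 := le_antisymm (not_lt.mp hcon) (Nat.cast_nonneg _)
    rw [ht, this, Real.log_zero] at ht1
    linarith
  have hc3 : 3 ≤ c := by linarith [hc.hc, hc.S2n H]
  have htp : ∀ {p : ℕ}, T < p → t < Real.log p := fun h =>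
    Real.log_lt_log hT0 (by exact_mod_cast h)
  -- the final absorption
  have habs : ∀ X : ℝ, 0 ≤ X → X ≤ C * H * Sm → (C + 1 + X) / t + K * C / t ^ 2 ≤ K / t := by
    intro X _ hX
    rw [show K * C / t ^ 2 = K * C / t / t by field_simp, ← add_div]
    apply div_le_div_of_nonneg_right _ ht0.le
    have h1 : K * C / t ≤ K / 2 := by
      rw [div_le_div_iff₀ ht0 (by norm_num)]
      nlinarith
    have h2 : C + 1 + X ≤ K / 2 := by rw [hK]; linarith
    linarith
  intro z
  induction z using Nat.strong_induction_on with
  | _ z ih =>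
    intro hTz y hy
    set ζ := Real.log z with hζ
    have htζ : t < ζ := htp hTz
    have hζ0 : 0 < ζ := ht0.trans htζ
    have hz0 : (0 : ℝ) < z := hT0.trans (by exact_mod_cast hTz)
    -- general facts on primes of the range
    have hPR : ∀ p ∈ PR T z, p.Prime ∧ T < p ∧ p < z ∧ t < Real.log p ∧ Real.log p < ζ := by
      intro p hp
      have h := mem_PR.mp hp
      have hp0 : (0 : ℝ) < p := by exact_mod_cast h.2.pos
      exact ⟨h.2, h.1.1, h.1.2, htp h.1.1, Real.log_lt_log hp0 (by exact_mod_cast h.1.2)⟩
    -- the upper bound in terms of `ζ'`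
    have hupper : ∀ (ζ' : ℝ) (j0 : ℕ), t ≤ ζ' → ζ' ≤ ζ → H ≤ j0 →
        (∀ p ∈ RG T z true y, Real.log p ≤ ζ' ∧ j0 ≤ idx H (y / Real.log p - 1)) →
        (∀ p : ℕ, p.Prime → t < Real.log p → Real.log p < ζ' → p ∈ RG T z true y) →
        LS inv T z true y ≤ t / ζ' + t / y * S2 j0 + K * ζ / t ^ 2 := by
      intro ζ' j0 htζ' hζζ' hj0 hR1 hR2
      have hζ'0 : 0 < ζ' := lt_of_lt_of_le ht0 htζ'
      have hmem : ∀ p ∈ RG T z true y, p.Prime ∧ T < p ∧ p < z ∧ t < Real.log p ∧
          3 * Real.log p < y := by
        intro p hp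
        have h1 := mem_RG.mp hp
        have h2 := hPR p h1.1
        exact ⟨h2.1, h2.2.1, h2.2.2.1, h2.2.2.2.1, h1.2 rfl⟩
      rw [LS_eq]
      have hterm : ∀ p ∈ RG T z true y,
          t * (1 / ((p : ℝ) * Real.log p))
            - t * (1 / ((p : ℝ) * Real.log p) * e2 (idx H (y / Real.log p - 1)))
            - K / t ^ 2 * (Real.log p / p) ≤ inv p * LS inv T p (!true) (y - Real.log p) := by
        intro p hp
        obtain ⟨hpp, hTp, hpz, htlp, h3p⟩ := hmem p hp
        have hp0 : (0 : ℝ) < p := by exact_mod_cast hpp.pos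
        have hlp : 0 < Real.log p := ht0.trans htlp
        have h1 := (ih p hpz hTp (y - Real.log p) (by linarith)).2.2 (by linarith)
        have h2 : (y - Real.log p) / Real.log p = y / Real.log p - 1 := by field_simp
        rw [h2] at h1
        have h3 := mul_le_mul_of_nonneg_left h1 (show 0 ≤ inv p by unfold inv; positivity)
        refine le_trans (le_of_eq ?_) h3
        unfold inv
        field_simp
      have hsum := sum_le_sum hterm
      rw [sum_sub_distrib, sum_sub_distrib, ← mul_sum, ← mul_sum, ← mul_sum] at hsum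
      have hA := sum_lower hC1 ht0 htζ' (RG T z true y)
        (fun p hp => ⟨(hmem p hp).1, (hmem p hp).2.2.2.1⟩) hR2
      have hB := step_sum hc.hH hC0 hC1 hc.e2n hc.S2n (j0 := j0)
        (fun j hj => hc.hS2 j (hj0.trans hj)) ht0 hy (RG T z true y)
        (fun p hp => ⟨(hmem p hp).1, (hmem p hp).2.2.2.1, by
          have := hmem p hp
          linarith [this.2.2.2.2, this.2.2.2.1], (hR1 p hp).2⟩)
      have hG : ∑ p ∈ RG T z true y, Real.log p / p ≤ ζ' - t + C := by
        have h1 : ∑ p ∈ RG T z true y, Real.log p / p ≤ ∑ p ∈ PL t ζ', Real.log p / p := by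
          apply sum_le_sum_of_subset_of_nonneg
          · intro p hp
            rw [mem_PL]
            exact ⟨(hmem p hp).1, (hmem p hp).2.2.2.1, (hR1 p hp).1⟩
          · intro p hp _
            have := (mem_PL.mp hp).2.1
            have : 0 < Real.log p := ht0.trans this
            positivity
        have h2 := (abs_le.mp (hCG t ζ' ht0.le htζ')).2
        linarith
      have hS2j : S2 j0 ≤ Sm := by
        have := hc.S2_le j0 hj0
        have := hc.S1n 0
        linarith
      have hX := habs (C * H * S2 j0) (by have := hc.S2n j0; positivity)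
        (mul_le_mul_of_nonneg_left hS2j (by positivity))
      have hKG : K / t ^ 2 * ∑ p ∈ RG T z true y, Real.log p / p
          ≤ K * ζ / t ^ 2 - K / t + K * C / t ^ 2 := by
        calc K / t ^ 2 * ∑ p ∈ RG T z true y, Real.log p / p
            ≤ K / t ^ 2 * (ζ - t + C) := by
              apply mul_le_mul_of_nonneg_left _ (by positivity)
              linarith
          _ = _ := by field_simp
      have htA : 1 - t * ∑ p ∈ RG T z true y, 1 / ((p : ℝ) * Real.log p)
          ≤ t / ζ' + (C + 1) / t := by
        have h1 := mul_le_mul_of_nonneg_left hA ht0.le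
        have h2 : t * (1 / t - 1 / ζ' - (C + 1) / t ^ 2) = 1 - t / ζ' - (C + 1) / t := by
          field_simp
        linarith
      have htB : t * ∑ p ∈ RG T z true y,
          1 / ((p : ℝ) * Real.log p) * e2 (idx H (y / Real.log p - 1))
          ≤ t / y * S2 j0 + C * H * S2 j0 / t := by
        have h1 := mul_le_mul_of_nonneg_left hB ht0.le
        refine h1.trans (le_of_eq ?_)
        field_simp
      have e5 : (C + 1 + C * H * S2 j0) / t = (C + 1) / t + C * H * S2 j0 / t := by ring
      rw [e5] at hX
      linarith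
    refine ⟨?_, ?_, ?_⟩
    · -- `y ≤ 3 ζ`
      intro hy3
      have hKnn : 0 ≤ K * ζ / t ^ 2 := by positivity
      rcases le_or_gt (y / 3) t with hcase | hcase
      · have hemp : RG T z true y = ∅ := by
          rw [eq_empty_iff_forall_notMem]
          intro p hp
          have h1 := mem_RG.mp hp
          have h2 := hPR p h1.1
          have := h1.2 rfl
          linarith [h2.2.2.2.1]
        rw [LS_eq, hemp, sum_empty, sub_zero]
        have : 1 ≤ c * t / y := by
          rw [le_div_iff₀ hy]
          nlinarith
        linarith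
      · have h1 := hupper (y / 3) H hcase.le (by linarith) le_rfl
          (fun p hp => by
            have h2 := mem_RG.mp hp
            have h3 := h2.2 rfl
            have h4 := (hPR p h2.1).2.2.2.1
            have hlp : 0 < Real.log p := ht0.trans h4
            refine ⟨by linarith, le_idx ?_ hc.hH⟩
            unfold sj
            rw [div_self hH'.ne']
            have : 3 ≤ y / Real.log p := by rw [le_div_iff₀ hlp]; linarith
            linarith)
          (fun p hp htlp hlt => by
            rw [mem_RG, mem_PR]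
            have hp0 : (0 : ℝ) < p := by exact_mod_cast hp.pos
            refine ⟨⟨⟨?_, ?_⟩, hp⟩, fun _ => by linarith⟩
            · have := (Real.log_lt_log_iff hT0 hp0).mp htlp
              exact_mod_cast this
            · have h5 : Real.log p < Real.log z := by rw [← hζ]; linarith
              have := (Real.log_lt_log_iff hp0 hz0).mp h5
              exact_mod_cast this)
        have h2 : t / (y / 3) + t / y * S2 H ≤ c * t / y := by
          have : t / (y / 3) + t / y * S2 H = (3 + S2 H) * t / y := by field_simp
          rw [this]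
          apply div_le_div_of_nonneg_right _ hy.le
          exact mul_le_mul_of_nonneg_right hc.hc ht0.le
        linarith
    · -- `3 ζ ≤ y`
      intro hy3
      set s := y / ζ with hs
      have hs3 : 3 ≤ s := by rw [hs, le_div_iff₀ hζ0]; exact hy3
      have hj2 : 2 * H ≤ idx H s := le_idx (by
        unfold sj
        push_cast
        rw [mul_div_assoc, div_self hH'.ne']
        linarith) hc.hH
      have h1 := hupper ζ (idx H s - H) htζ.le le_rfl (by omega)
        (fun p hp => by
          have h2 := mem_RG.mp hp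
          have h3 := hPR p h2.1
          refine ⟨h3.2.2.2.2.le, ?_⟩
          rw [← idx_sub_one]
          apply idx_mono
          have hlp : 0 < Real.log p := ht0.trans h3.2.2.2.1
          have : y / ζ ≤ y / Real.log p := by
            apply div_le_div_of_nonneg_left hy.le hlp h3.2.2.2.2.le
          rw [hs]
          linarith)
        (fun p hp htlp hlt => by
          rw [mem_RG, mem_PR]
          have hp0 : (0 : ℝ) < p := by exact_mod_cast hp.pos
          refine ⟨⟨⟨?_, ?_⟩, hp⟩, fun _ => by linarith⟩
          · have := (Real.log_lt_log_iff hT0 hp0).mp htlp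
            exact_mod_cast this
          · have := (Real.log_lt_log_iff hp0 hz0).mp (by rw [← hζ]; exact hlt)
            exact_mod_cast this)
      have h2 := hc.hA (idx H s) hj2
      have h3 : sj H (idx H s) ≤ s := sj_idx_le hc.hH (by linarith)
      have h4 : S2 (idx H s - H) ≤ s * e1 (idx H s) :=
        h2.trans (mul_le_mul_of_nonneg_right h3 (hc.e1n _))
      have h5 : t / y * S2 (idx H s - H) ≤ t / ζ * e1 (idx H s) := by
        calc t / y * S2 (idx H s - H) ≤ t / y * (s * e1 (idx H s)) :=
              mul_le_mul_of_nonneg_left h4 (by positivity)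
          _ = t / ζ * e1 (idx H s) := by
              rw [hs]
              field_simp
      have h6 : t / ζ * (1 + e1 (idx H s)) = t / ζ + t / ζ * e1 (idx H s) := by ring
      rw [h6]
      linarith
    · -- lower bound
      intro hy2
      set s := y / ζ with hs
      have hs2 : 2 ≤ s := by rw [hs, le_div_iff₀ hζ0]; exact hy2
      have hj1 : H ≤ idx H s := le_idx (by
        unfold sj
        rw [div_self hH'.ne']
        linarith) hc.hH
      have hRGf : RG T z false y = PR T z := by
        ext p; rw [mem_RG]; simp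
      rw [LS_eq, hRGf]
      have hterm : ∀ p ∈ PR T z, inv p * LS inv T p (!false) (y - Real.log p)
          ≤ t * (1 / ((p : ℝ) * Real.log p))
            + t * (1 / ((p : ℝ) * Real.log p) * e1 (idx H (y / Real.log p - 1)))
            + K / t ^ 2 * (Real.log p / p) := by
        intro p hp
        obtain ⟨hpp, hTp, hpz, htlp, hpζ⟩ := hPR p hp
        have hp0 : (0 : ℝ) < p := by exact_mod_cast hpp.pos
        have hlp : 0 < Real.log p := ht0.trans htlp
        have hy' : 0 < y - Real.log p := by linarith
        have h2 : (y - Real.log p) / Real.log p = y / Real.log p - 1 := by field_simp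
        have hbd : LS inv T p (!false) (y - Real.log p)
            ≤ t / Real.log p * (1 + e1 (idx H (y / Real.log p - 1))) + K * Real.log p / t ^ 2 := by
          obtain ⟨h3, h4, _⟩ := ih p hpz hTp (y - Real.log p) hy'
          rcases lt_or_ge (y - Real.log p) (3 * Real.log p) with hcase | hcase
          · refine (h3 hcase.le).trans ?_
            apply add_le_add_left
            -- `c t / (y - log p) ≤ t / log p * (1 + e1)`
            set s' := y / Real.log p - 1 with hs'
            have hs'1 : 1 ≤ s' := by
              have : 2 ≤ y / Real.log p := by rw [le_div_iff₀ hlp]; linarith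
              linarith
            have hs'3 : s' < 3 := by
              have : y / Real.log p < 4 := by rw [div_lt_iff₀ hlp]; linarith
              linarith
            have hj : idx H s' < 2 * H := by
              unfold idx
              rw [Nat.floor_lt (mul_nonneg (by linarith) hH'.le)]
              push_cast
              nlinarith
            have h5 := hc.he1 _ hj
            have h6 : sj H (idx H s') ≤ s' := sj_idx_le hc.hH hs'1
            have h7 : c / s' ≤ 1 + e1 (idx H s') := by
              refine le_trans ?_ h5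
              exact div_le_div_of_nonneg_left (by linarith) (sj_pos hc.hH _) h6
            have h8 : c * t / (y - Real.log p) = t / Real.log p * (c / s') := by
              rw [← h2]
              field_simp
            rw [h8]
            exact mul_le_mul_of_nonneg_left h7 (by positivity)
          · have h5 := h4 hcase
            rw [h2] at h5
            exact h5
        have h3 := mul_le_mul_of_nonneg_left hbd (show 0 ≤ inv p by unfold inv; positivity)
        refine h3.trans (le_of_eq ?_)
        unfold inv
        field_simp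
      have hsum := sum_le_sum hterm
      rw [sum_add_distrib, sum_add_distrib, ← mul_sum, ← mul_sum, ← mul_sum] at hsum
      have hsubPL : PR T z ⊆ PL t ζ := by
        intro p hp
        have := hPR p hp
        rw [mem_PL]
        exact ⟨this.1, this.2.2.2.1, this.2.2.2.2.le⟩
      have hA : ∑ p ∈ PR T z, 1 / ((p : ℝ) * Real.log p) ≤ 1 / t - 1 / ζ + C / t ^ 2 := by
        have h1 : ∑ p ∈ PR T z, 1 / ((p : ℝ) * Real.log p)
            ≤ ∑ p ∈ PL t ζ, 1 / ((p : ℝ) * Real.log p) := by
          apply sum_le_sum_of_subset_of_nonneg hsubPL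
          intro p hp _
          have := (mem_PL.mp hp).2.1
          have : 0 < Real.log p := ht0.trans this
          positivity
        have h2 := (abs_le.mp (hC1 t ζ ht0 htζ.le)).2
        linarith
      have hB := step_sum hc.hH hC0 hC1 hc.e1n hc.S1n (j0 := idx H s - H)
        (fun j _ => hc.hS1 j) ht0 hy (PR T z)
        (fun p hp => by
          have h3 := hPR p hp
          have hlp : 0 < Real.log p := ht0.trans h3.2.2.2.1
          refine ⟨h3.1, h3.2.2.2.1, by linarith [h3.2.2.2.2], ?_⟩
          rw [← idx_sub_one]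
          apply idx_mono
          have : y / ζ ≤ y / Real.log p := by
            apply div_le_div_of_nonneg_left hy.le hlp h3.2.2.2.2.le
          rw [hs]
          linarith)
      have hG : ∑ p ∈ PR T z, Real.log p / p ≤ ζ - t + C := by
        have h1 : ∑ p ∈ PR T z, Real.log p / p ≤ ∑ p ∈ PL t ζ, Real.log p / p := by
          apply sum_le_sum_of_subset_of_nonneg hsubPL
          intro p hp _
          have := (mem_PL.mp hp).2.1
          have : 0 < Real.log p := ht0.trans this
          positivity
        have h2 := (abs_le.mp (hCG t ζ ht0.le htζ.le)).2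
        linarith
      have hS1j : S1 (idx H s - H) ≤ Sm := by
        have := hc.S1_le (idx H s - H)
        have := hc.S2n H
        linarith
      have hX := habs (C * H * S1 (idx H s - H)) (by have := hc.S1n (idx H s - H); positivity)
        (mul_le_mul_of_nonneg_left hS1j (by positivity))
      have hKG : K / t ^ 2 * ∑ p ∈ PR T z, Real.log p / p
          ≤ K * ζ / t ^ 2 - K / t + K * C / t ^ 2 := by
        calc K / t ^ 2 * ∑ p ∈ PR T z, Real.log p / p
            ≤ K / t ^ 2 * (ζ - t + C) := by
              apply mul_le_mul_of_nonneg_left _ (by positivity)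
              linarith
          _ = _ := by field_simp
      have htA : t * ∑ p ∈ PR T z, 1 / ((p : ℝ) * Real.log p)
          ≤ 1 - t / ζ + C / t := by
        have h1 := mul_le_mul_of_nonneg_left hA ht0.le
        refine h1.trans (le_of_eq ?_)
        field_simp
      have htB : t * ∑ p ∈ PR T z,
          1 / ((p : ℝ) * Real.log p) * e1 (idx H (y / Real.log p - 1))
          ≤ t / y * S1 (idx H s - H) + C * H * S1 (idx H s - H) / t := by
        have h1 := mul_le_mul_of_nonneg_left hB ht0.le
        refine h1.trans (le_of_eq ?_)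
        field_simp
      have e5 : (C + 1 + C * H * S1 (idx H s - H)) / t
          = C / t + 1 / t + C * H * S1 (idx H s - H) / t := by ring
      rw [e5] at hX
      have h1t : 0 ≤ 1 / t := by positivity
      have h2 := hc.hB (idx H s) hj1
      have h3 : sj H (idx H s) ≤ s := sj_idx_le hc.hH (by linarith)
      have h4 : S1 (idx H s - H) ≤ s * e2 (idx H s) :=
        h2.trans (mul_le_mul_of_nonneg_right h3 (hc.e2n _))
      have h5 : t / y * S1 (idx H s - H) ≤ t / ζ * e2 (idx H s) := by
        calc t / y * S1 (idx H s - H) ≤ t / y * (s * e2 (idx H s)) :=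
              mul_le_mul_of_nonneg_left h4 (by positivity)
          _ = t / ζ * e2 (idx H s) := by
              rw [hs]
              field_simp
      have h6 : t / ζ * (1 - e2 (idx H s)) = t / ζ - t / ζ * e2 (idx H s) := by ring
      rw [h6]
      linarith

end Pool.Agent.Lib.MP_bae66e_nt.P2
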