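import Pool.Agent.Lib.MP_bae66e_nt.AP3.Mert

/-!
# Sums over primes with real (logarithmic) end points
-/

set_option autoImplicit false

namespace Pool.Agent.Lib.MP_bae66e_nt.P2

open Finset AP3 intervalIntegral

/-- primes `p` with `α < log p ≤ β` -/
noncomputable def PL (α β : ℝ) : Finset ℕ := prI ⌊Real.exp α⌋₊ ⌊Real.exp β⌋₊

lemma mem_PL {α β : ℝ} {p : ℕ} : p ∈ PL α β ↔ p.Prime ∧ α < Real.log p ∧ Real.log p ≤ β := by
  unfold PL
  rw [mem_prI]
  constructor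
  · rintro ⟨⟨h1, h2⟩, h3⟩
    have hp : (0 : ℝ) < p := by exact_mod_cast h3.pos
    refine ⟨h3, ?_, ?_⟩
    · rw [Real.lt_log_iff_exp_lt hp]
      exact (Nat.floor_lt (Real.exp_pos _).le).mp h1
    · rw [Real.log_le_iff_le_exp hp]
      exact (Nat.le_floor_iff (Real.exp_pos _).le).mp h2
  · rintro ⟨h3, h1, h2⟩
    have hp : (0 : ℝ) < p := by exact_mod_cast h3.pos
    refine ⟨⟨?_, ?_⟩, h3⟩
    · exact (Nat.floor_lt (Real.exp_pos _).le).mpr ((Real.lt_log_iff_exp_lt hp).mp h1)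
    · exact (Nat.le_floor_iff (Real.exp_pos _).le).mpr ((Real.log_le_iff_le_exp hp).mp h2)

lemma abs_log_floor_exp (α : ℝ) (hα : 0 ≤ α) :
    |Real.log (⌊Real.exp α⌋₊ : ℕ) - α| ≤ 1 ∧ 1 ≤ ⌊Real.exp α⌋₊ := by
  have h0 : (1 : ℝ) ≤ Real.exp α := Real.one_le_exp hα
  have hn1 : 1 ≤ ⌊Real.exp α⌋₊ := Nat.le_floor (by simpa using h0)
  refine ⟨?_, hn1⟩
  have hn0 : (0 : ℝ) < (⌊Real.exp α⌋₊ : ℕ) := by exact_mod_cast hn1
  have h2 : Real.log (⌊Real.exp α⌋₊ : ℕ) ≤ α := by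
    rw [Real.log_le_iff_le_exp hn0]; exact Nat.floor_le (Real.exp_pos α).le
  have h4 : Real.exp α ≤ (⌊Real.exp α⌋₊ : ℕ) + 1 := (Nat.lt_floor_add_one _).le
  have h5 : Real.exp α ≤ 2 * (⌊Real.exp α⌋₊ : ℕ) := by
    have : (1 : ℝ) ≤ (⌊Real.exp α⌋₊ : ℕ) := by exact_mod_cast hn1
    linarith
  have h6 : α ≤ Real.log (2 * (⌊Real.exp α⌋₊ : ℕ)) := (Real.le_log_iff_exp_le (by positivity)).mpr h5
  rw [Real.log_mul (by norm_num) hn0.ne'] at h6
  have h7 := Real.log_two_lt_d9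
  rw [abs_le]
  constructor <;> linarith

lemma exists_sum_log_PL : ∃ C : ℝ, 0 ≤ C ∧ ∀ α β : ℝ, 0 ≤ α → α ≤ β →
    |∑ p ∈ PL α β, Real.log p / p - (β - α)| ≤ C := by
  obtain ⟨C, hC0, hC⟩ := exists_mertens
  refine ⟨C + 2, by linarith, ?_⟩
  intro α β hα hαβ
  obtain ⟨h1, h1'⟩ := abs_log_floor_exp α hα
  obtain ⟨h2, h2'⟩ := abs_log_floor_exp β (hα.trans hαβ)
  have h3 := hC _ _ h1' (Nat.floor_le_floor (Real.exp_le_exp.mpr hαβ))
  unfold PL
  rw [abs_le] at h1 h2 h3 ⊢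
  constructor <;> linarith [h1.1, h1.2, h2.1, h2.2, h3.1, h3.2]

lemma cum_PL (α β t : ℝ) (ht : t ≤ β) :
    cum (PL α β) (fun p => Real.log p) (fun p => Real.log p / p) t
      = ∑ p ∈ PL α t, Real.log p / p := by
  unfold cum
  apply sum_congr _ fun _ _ => rfl
  ext p
  simp only [mem_filter, mem_PL]
  constructor
  · rintro ⟨⟨h1, h2, _⟩, h3⟩; exact ⟨h1, h2, h3⟩
  · rintro ⟨h1, h2, h3⟩; exact ⟨⟨h1, h2, h3.trans ht⟩, h3⟩

lemma exists_sum_G_PL : ∃ C : ℝ, 0 ≤ C ∧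
    (∀ α β : ℝ, 0 ≤ α → α ≤ β → |∑ p ∈ PL α β, Real.log p / p - (β - α)| ≤ C) ∧
    (∀ α β : ℝ, 0 < α → α ≤ β →
      |∑ p ∈ PL α β, 1 / ((p : ℝ) * Real.log p) - (1 / α - 1 / β)| ≤ C / α ^ 2) ∧
    (∀ α β : ℝ, 0 < α → α ≤ β →
      |∑ p ∈ PL α β, 1 / (p : ℝ) - Real.log (β / α)| ≤ C / α) := by
  obtain ⟨C, hC0, hC⟩ := exists_sum_log_PL
  refine ⟨C, hC0, hC, ?_, ?_⟩
  · intro α β hα hαβ
    have hβ : 0 < β := lt_of_lt_of_le hα hαβ
    have hder : ∀ t ∈ Set.Icc α β, HasDerivAt (fun t : ℝ => (t ^ 2)⁻¹) (-(2 * t) / (t ^ 2) ^ 2) t := by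
      intro t ht
      have h0 : t ≠ 0 := (lt_of_lt_of_le hα ht.1).ne'
      have h1 := (hasDerivAt_pow 2 t).inv (pow_ne_zero 2 h0)
      refine h1.congr_deriv ?_
      push_cast
      ring
    have h := abel_anti (PL α β) (fun p => Real.log p) (fun p => Real.log p / p)
      α β 1 C hαβ
      (fun p hp => by
        have := mem_PL.mp hp
        exact ⟨this.2.1.le, this.2.2⟩)
      (fun t => (t ^ 2)⁻¹) (fun t => -(2 * t) / (t ^ 2) ^ 2) hder
      (by
        apply ContinuousOn.div (by fun_prop) (by fun_prop)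
        intro t ht
        have h0 : 0 < t := lt_of_lt_of_le hα ht.1
        positivity)
      (fun t ht => by
        have h0 : 0 < t := lt_of_lt_of_le hα ht.1
        apply div_nonpos_of_nonpos_of_nonneg
        · linarith
        · positivity)
      (by positivity)
      (fun t ht => by
        rw [cum_PL α β t ht.2, one_mul]
        exact hC α t hα.le ht.1)
    have e1 : ∑ i ∈ PL α β, Real.log i / i * (Real.log i ^ 2)⁻¹
        = ∑ p ∈ PL α β, 1 / ((p : ℝ) * Real.log p) := by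
      apply sum_congr rfl
      intro p hp
      have := mem_PL.mp hp
      have h1 : Real.log p ≠ 0 := (lt_trans hα this.2.1).ne'
      have h2 : (p : ℝ) ≠ 0 := by exact_mod_cast this.1.pos.ne'
      field_simp
    have e2 : ∫ t in α..β, (t ^ 2)⁻¹ = 1 / α - 1 / β := by
      have hd : ∀ t ∈ Set.uIcc α β, HasDerivAt (fun t : ℝ => -t⁻¹) ((t ^ 2)⁻¹) t := by
        intro t ht
        rw [Set.uIcc_of_le hαβ] at ht
        have h0 : t ≠ 0 := (lt_of_lt_of_le hα ht.1).ne'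
        exact (hasDerivAt_inv h0).neg.congr_deriv (by ring)
      rw [integral_eq_sub_of_hasDerivAt hd]
      · field_simp
        ring
      · apply ContinuousOn.intervalIntegrable
        rw [Set.uIcc_of_le hαβ]
        apply ContinuousOn.inv₀ (by fun_prop)
        intro t ht
        have h0 : 0 < t := lt_of_lt_of_le hα ht.1
        positivity
    rw [e1, e2, one_mul] at h
    rw [div_eq_mul_inv]
    exact h
  · intro α β hα hαβ
    have hβ : 0 < β := lt_of_lt_of_le hα hαβ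
    have h := abel_anti (PL α β) (fun p => Real.log p) (fun p => Real.log p / p)
      α β 1 C hαβ
      (fun p hp => by
        have := mem_PL.mp hp
        exact ⟨this.2.1.le, this.2.2⟩)
      (fun t => t⁻¹) (fun t => -(t ^ 2)⁻¹)
      (fun t ht => hasDerivAt_inv (by have := ht.1; linarith))
      (by
        apply ContinuousOn.neg
        apply ContinuousOn.inv₀ (by fun_prop)
        intro t ht
        have h0 : 0 < t := lt_of_lt_of_le hα ht.1
        exact (pow_pos h0 2).ne')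
      (fun t _ => by
        have : 0 ≤ (t ^ 2)⁻¹ := by positivity
        linarith)
      (by positivity)
      (fun t ht => by
        rw [cum_PL α β t ht.2, one_mul]
        exact hC α t hα.le ht.1)
    have e1 : ∑ i ∈ PL α β, Real.log i / i * (Real.log i)⁻¹ = ∑ p ∈ PL α β, 1 / (p : ℝ) := by
      apply sum_congr rfl
      intro p hp
      have := mem_PL.mp hp
      have h1 : Real.log p ≠ 0 := (lt_trans hα this.2.1).ne'
      field_simp
    have e2 : ∫ t in α..β, t⁻¹ = Real.log (β / α) :=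
      integral_inv_of_pos hα hβ
    rw [e1, e2, one_mul] at h
    rw [div_eq_mul_inv]
    exact h

end Pool.Agent.Lib.MP_bae66e_nt.P2
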