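import Pool.Agent.Lib.MP_bae66e_nt.P2.FLM
import Pool.Agent.Lib.MP_bae66e_nt.Mg.G079

/-!
# Moments with a weight function
-/

set_option autoImplicit false

namespace Pool.Agent.Lib.MP_bae66e_nt.P2

open Finset AP3

lemma squarefree_prod_primes (S : Finset ℕ) (hS : ∀ ℓ ∈ S, ℓ.Prime) :
    Squarefree (∏ ℓ ∈ S, ℓ) := by
  induction S using Finset.induction_on with
  | empty => simp
  | insert p S hpS ih =>
    rw [prod_insert hpS]
    have hp := hS p (mem_insert_self _ _)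
    have hcop : Nat.Coprime p (∏ ℓ ∈ S, ℓ) := by
      apply Nat.Coprime.prod_right
      intro ℓ hℓ
      exact (Nat.coprime_primes hp (hS ℓ (mem_insert_of_mem hℓ))).mpr
        (by rintro rfl; exact hpS hℓ)
    exact (Nat.squarefree_mul hcop).mpr ⟨hp.squarefree,
      ih fun ℓ hℓ => hS ℓ (mem_insert_of_mem hℓ)⟩

lemma squarefree_prm (u : ℕ) : Squarefree (prm u) :=
  squarefree_prod_primes _ fun _ h => (mem_prI.mp h).2

lemma prime_dvd_prm {u ℓ : ℕ} (hℓ : ℓ.Prime) (h : ℓ ∣ prm u) : ℓ ≤ u := by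
  unfold prm at h
  obtain ⟨q, hq, hd⟩ := (Prime.dvd_finset_prod_iff hℓ.prime _).mp h
  have hq' := mem_prI.mp hq
  rw [(Nat.prime_dvd_prime_iff_eq hℓ hq'.2).mp hd]
  exact hq'.1.2

open Classical in
/-- the mass of the doubly rough integers of the class -/
noncomputable def rmass (T W β p p' : ℕ) (Mm : Finset ℕ) (ν : ℕ → ℝ) : ℝ :=
  ∑ m ∈ Mm.filter (fun m => m ≡ β [MOD W] ∧ Rough T (m - p) ∧ Rough T (m - p')), ν m

lemma rmass_est {T u W β p p' : ℕ} {Mm : Finset ℕ} {ν : ℕ → ℝ} {Y η R Q : ℝ}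
    (hu3 : 3 ≤ u) (hu : u ≤ T) (hW : W = prm u) (hWQ : (W : ℝ) ≤ Q)
    (hpM : ∀ m ∈ Mm, p ≤ m) (hpM' : ∀ m ∈ Mm, p' ≤ m)
    (hgood : ∀ ℓ ∈ prI 0 u, ¬ β ≡ p [MOD ℓ]) (hgood' : ∀ ℓ ∈ prI 0 u, ¬ β ≡ p' [MOD ℓ])
    (hfl : ∀ Om : ℕ → Finset ℕ, (∀ ℓ, xb Om ℓ ≤ 1 / 2) → (∀ ℓ, #(Om ℓ) ≤ 2) →
      ∀ R' : Finset ℕ, (∀ ℓ ∈ R', ℓ.Prime ∧ ℓ ≤ T) → (∀ ℓ ∈ R', ∀ c ∈ Om ℓ, c < ℓ) →
      FLW ν Mm Om T Y R' η R Q) :
    |rmass T W β p p' Mm ν - Y / W * V2 u T p p'| ≤ η * (Y / W * V2 u T p p') + R := by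
  classical
  have h := hfl (Om2 u p p') (xb_Om2_le u p p' hu3) (card_Om2_le u p p') (prI u T)
    (fun ℓ hℓ => ⟨(mem_prI.mp hℓ).2, (mem_prI.mp hℓ).1.2⟩)
    (fun ℓ hℓ c hc => by
      have hp := mem_prI.mp hℓ
      unfold Om2 at hc
      rw [if_pos ⟨hp.2, hp.1.1⟩, mem_insert, mem_singleton] at hc
      rcases hc with rfl | rfl
      · exact Nat.mod_lt _ hp.2.pos
      · exact Nat.mod_lt _ hp.2.pos)
    W β (hW ▸ squarefree_prm u) hWQ
    (fun ℓ hℓ hd => (prime_dvd_prm hℓ (hW ▸ hd)).trans hu)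
    (fun ℓ hℓ => by
      have hp := mem_prI.mp hℓ
      rw [hW]
      apply Nat.Coprime.symm
      apply coprime_prm
      intro ℓ' hℓ' hd
      have hp' := mem_prI.mp hℓ'
      rw [Nat.prime_dvd_prime_iff_eq hp'.2 hp.2] at hd
      omega)
  have e1 : mset Mm (Om2 u p p') W β ∅ (prI u T)
      = Mm.filter (fun m => m ≡ β [MOD W] ∧ Rough T (m - p) ∧ Rough T (m - p')) := by
    ext m
    unfold mset
    rw [mem_filter, mem_filter]
    apply and_congr_right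
    intro hm
    have hpm : p ≤ m := hpM m hm
    have hpm' : p' ≤ m := hpM' m hm
    simp only [notMem_empty, IsEmpty.forall_iff, implies_true, true_and]
    constructor
    · rintro ⟨h1, h3⟩
      refine ⟨h1, (rough_sub_iff hW h1 hpm hgood).mpr ?_, (rough_sub_iff hW h1 hpm' hgood').mpr ?_⟩
      · intro ℓ hℓ heq
        have hp := mem_prI.mp hℓ
        apply h3 ℓ hℓ
        unfold Om2
        rw [if_pos ⟨hp.2, hp.1.1⟩, heq]
        exact mem_insert_self _ _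
      · intro ℓ hℓ heq
        have hp := mem_prI.mp hℓ
        apply h3 ℓ hℓ
        unfold Om2
        rw [if_pos ⟨hp.2, hp.1.1⟩, heq]
        exact mem_insert_of_mem (mem_singleton_self _)
    · rintro ⟨h1, h3, h4⟩
      refine ⟨h1, ?_⟩
      intro ℓ hℓ hmem
      have hp := mem_prI.mp hℓ
      unfold Om2 at hmem
      rw [if_pos ⟨hp.2, hp.1.1⟩, mem_insert, mem_singleton] at hmem
      rcases hmem with h5 | h5
      · exact (rough_sub_iff hW h1 hpm hgood).mp h3 ℓ hℓ h5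
      · exact (rough_sub_iff hW h1 hpm' hgood').mp h4 ℓ hℓ h5
  have e2 : msum ν Mm (Om2 u p p') W β ∅ (prI u T) = rmass T W β p p' Mm ν := by
    unfold msum rmass
    rw [e1]
  rw [e2] at h
  exact h

open Classical in
/-- the weight at `m - p` -/
noncomputable def fG (T : ℕ) (G : ℕ → ℝ) (p m : ℕ) : ℝ := if Rough T (m - p) then G (m - p) else 0

/-- the weighted count of representations -/
noncomputable def SG (T : ℕ) (G : ℕ → ℝ) (P : Finset ℕ) (m : ℕ) : ℝ := ∑ p ∈ P, fG T G p m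

lemma sum_fG (T W β p : ℕ) (Mm : Finset ℕ) (wt G : ℕ → ℝ) (CF : ℝ) :
    ∑ m ∈ Mm.filter (fun m => m ≡ β [MOD W]), wt m * fG T G p m
      = rmass T W β p p Mm (fun m => wt m * (G (m - p) + CF)) - CF * rmass T W β p p Mm wt := by
  classical
  unfold rmass
  rw [mul_sum, ← sum_sub_distrib]
  have e : Mm.filter (fun m => m ≡ β [MOD W] ∧ Rough T (m - p) ∧ Rough T (m - p))
      = (Mm.filter (fun m => m ≡ β [MOD W])).filter (fun m => Rough T (m - p)) := by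
    rw [filter_filter]
    apply filter_congr
    intro m _
    tauto
  rw [e]
  generalize Mm.filter (fun m => m ≡ β [MOD W]) = Mc
  rw [sum_filter]
  apply sum_congr rfl
  intro m _
  unfold fG
  split_ifs <;> ring

lemma sum_fG_mul (T W β p p' : ℕ) (Mm : Finset ℕ) (wt G : ℕ → ℝ) (CF : ℝ) :
    ∑ m ∈ Mm.filter (fun m => m ≡ β [MOD W]), wt m * (fG T G p m * fG T G p' m)
      = rmass T W β p p' Mm (fun m => wt m * (G (m - p) * G (m - p') + CF ^ 2))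
        - CF ^ 2 * rmass T W β p p' Mm wt := by
  classical
  unfold rmass
  rw [mul_sum, ← sum_sub_distrib]
  have e : Mm.filter (fun m => m ≡ β [MOD W] ∧ Rough T (m - p) ∧ Rough T (m - p'))
      = (Mm.filter (fun m => m ≡ β [MOD W])).filter
        (fun m => Rough T (m - p) ∧ Rough T (m - p')) := by
    rw [filter_filter]
  rw [e]
  generalize Mm.filter (fun m => m ≡ β [MOD W]) = Mc
  rw [sum_filter]
  apply sum_congr rfl
  intro m _
  unfold fG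
  by_cases h1 : Rough T (m - p)
  · by_cases h2 : Rough T (m - p')
    · rw [if_pos h1, if_pos h2, if_pos ⟨h1, h2⟩]; ring
    · simp [h2]
  · simp [h1]

lemma sum_fG_sq_le (T W β p : ℕ) (Mm : Finset ℕ) (wt G : ℕ → ℝ) (CF : ℝ)
    (hwt : ∀ m, 0 ≤ wt m) (hG : ∀ m ∈ Mm, |G (m - p)| ≤ CF) :
    ∑ m ∈ Mm.filter (fun m => m ≡ β [MOD W]), wt m * (fG T G p m * fG T G p m)
      ≤ CF ^ 2 * rmass T W β p p Mm wt := by
  classical
  unfold rmass
  rw [mul_sum]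
  have e : Mm.filter (fun m => m ≡ β [MOD W] ∧ Rough T (m - p) ∧ Rough T (m - p))
      = (Mm.filter (fun m => m ≡ β [MOD W])).filter (fun m => Rough T (m - p)) := by
    rw [filter_filter]
    apply filter_congr
    intro m _
    tauto
  rw [e]
  have hsub : ∀ m ∈ Mm.filter (fun m => m ≡ β [MOD W]), m ∈ Mm := fun m hm => (mem_filter.mp hm).1
  generalize Mm.filter (fun m => m ≡ β [MOD W]) = Mc at hsub ⊢
  rw [sum_filter]
  apply sum_le_sum
  intro m hm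
  unfold fG
  have hm' := hsub m hm
  split_ifs with h1
  · have h2 := hG m hm'
    have h3 : G (m - p) * G (m - p) ≤ CF ^ 2 := by
      rw [← pow_two, ← sq_abs]
      exact pow_le_pow_left₀ (abs_nonneg _) h2 2
    calc wt m * (G (m - p) * G (m - p)) ≤ wt m * CF ^ 2 :=
          mul_le_mul_of_nonneg_left h3 (hwt m)
      _ = CF ^ 2 * wt m := mul_comm _ _
  · simp

/-- real-variable form of the final step -/
lemma real_final2 (bad n V M X R B0 B1 Bg Q CF η ρ ε s1 s2 c : ℝ)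
    (hn : 0 < n) (hV : 0 < V) (hM : 0 < M) (hX : 0 < X) (hR : 0 ≤ R)
    (hB0 : 0 ≤ B0) (hη : 0 ≤ η) (hρ : 0 ≤ ρ) (hρ1 : ρ ≤ 1) (hε : 0 < ε)
    (hQ : Q = M ^ 2 + Bg + η * B1 ^ 2) (hMB : M ≤ B1)
    (hcheb : bad * (n * V * M) ^ 2 ≤ s2 - 2 * (n * V * M) * s1 + (n * V * M) ^ 2 * c)
    (hc : c ≤ X + R)
    (hs1 : n * (X * V * M - (η * (X * V) * B1 + R * B0)) ≤ s1)
    (hs2 : s2 ≤ n * (CF ^ 2 * (2 * (X * V) + R)) + X * (V ^ 2 * n ^ 2 * (1 + ρ)) * Q
      + n ^ 2 * (R * B0 ^ 2))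
    (h1 : ρ ≤ ε / 8) (h2 : Bg ≤ ε / 32 * M ^ 2) (h3 : η * B1 ^ 2 ≤ ε / 32 * M ^ 2)
    (h4 : 2 * CF ^ 2 ≤ ε / 16 * (n * V * M ^ 2))
    (h5 : R * (CF ^ 2 / n + B0 ^ 2 + 2 * B0 * (V * M) + (V * M) ^ 2) ≤ ε / 8 * X * (V * M) ^ 2) :
    bad ≤ ε * X := by
  have hμ : 0 < n * V * M := by positivity
  have hB1 : 0 < B1 := hM.trans_le hMB
  have h6 : η * B1 * M ≤ ε / 32 * M ^ 2 := by
    calc η * B1 * M ≤ η * B1 * B1 := by gcongr
      _ = η * B1 ^ 2 := by ring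
      _ ≤ _ := h3
  -- everything divided by n ^ 2 * V ^ 2
  have hQle : (1 + ρ) * Q ≤ M ^ 2 * (1 + ε / 4) := by
    have e1 : (1 + ρ) * Q = M ^ 2 + ρ * M ^ 2 + (1 + ρ) * (Bg + η * B1 ^ 2) := by
      rw [hQ]; ring
    have e2 : (1 + ρ) * (Bg + η * B1 ^ 2) ≤ 2 * (ε / 32 * M ^ 2 + ε / 32 * M ^ 2) := by
      have h7 : 0 ≤ ε / 32 * M ^ 2 + ε / 32 * M ^ 2 := by positivity
      calc (1 + ρ) * (Bg + η * B1 ^ 2)
          ≤ (1 + ρ) * (ε / 32 * M ^ 2 + ε / 32 * M ^ 2) := by gcongr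
        _ ≤ 2 * (ε / 32 * M ^ 2 + ε / 32 * M ^ 2) := by gcongr; linarith
    have e3 : ρ * M ^ 2 ≤ ε / 8 * M ^ 2 := by gcongr
    nlinarith
  have key : bad * (n * V * M) ^ 2 ≤ ε / 2 * X * (n * V * M) ^ 2 := by
    have a1 : X * (V ^ 2 * n ^ 2 * (1 + ρ)) * Q ≤ X * (n * V) ^ 2 * (M ^ 2 * (1 + ε / 4)) := by
      calc X * (V ^ 2 * n ^ 2 * (1 + ρ)) * Q = X * (n * V) ^ 2 * ((1 + ρ) * Q) := by ring
        _ ≤ _ := by gcongr
    have a2 : 2 * (n * V * M) * (n * (X * V * M - (η * (X * V) * B1 + R * B0)))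
        ≤ 2 * (n * V * M) * s1 := by gcongr
    have a3 : (n * V * M) ^ 2 * c ≤ (n * V * M) ^ 2 * (X + R) := by gcongr
    have a4 : 2 * (n * V * M) * (n * (X * V * M - (η * (X * V) * B1 + R * B0)))
        = 2 * X * (n * V * M) ^ 2 - 2 * X * (n * V) ^ 2 * (η * B1 * M)
          - n ^ 2 * (R * (2 * B0 * (V * M))) := by ring
    have a5 : 2 * X * (n * V) ^ 2 * (η * B1 * M) ≤ 2 * X * (n * V) ^ 2 * (ε / 32 * M ^ 2) := by
      gcongr
    have a6 : n * (CF ^ 2 * (2 * (X * V) + R))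
        = X * V * n * (2 * CF ^ 2) + n ^ 2 * (R * (CF ^ 2 / n)) := by
      field_simp
    have a7 : X * V * n * (2 * CF ^ 2) ≤ X * V * n * (ε / 16 * (n * V * M ^ 2)) := by gcongr
    have a8 : n ^ 2 * (R * (CF ^ 2 / n + B0 ^ 2 + 2 * B0 * (V * M) + (V * M) ^ 2))
        ≤ n ^ 2 * (ε / 8 * X * (V * M) ^ 2) := by gcongr
    have a9 : X * (n * V) ^ 2 * (M ^ 2 * (1 + ε / 4)) = X * (n * V * M) ^ 2
        + ε / 4 * (X * (n * V * M) ^ 2) := by ring
    have a10 : 2 * X * (n * V) ^ 2 * (ε / 32 * M ^ 2) = ε / 16 * (X * (n * V * M) ^ 2) := by ring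
    have a11 : X * V * n * (ε / 16 * (n * V * M ^ 2)) = ε / 16 * (X * (n * V * M) ^ 2) := by ring
    have a12 : n ^ 2 * (ε / 8 * X * (V * M) ^ 2) = ε / 8 * (X * (n * V * M) ^ 2) := by ring
    have a13 : n ^ 2 * (R * (CF ^ 2 / n + B0 ^ 2 + 2 * B0 * (V * M) + (V * M) ^ 2))
        = n ^ 2 * (R * (CF ^ 2 / n)) + n ^ 2 * (R * B0 ^ 2) + n ^ 2 * (R * (2 * B0 * (V * M)))
          + (n * V * M) ^ 2 * R := by ring
    have a14 : (n * V * M) ^ 2 * (X + R) = X * (n * V * M) ^ 2 + (n * V * M) ^ 2 * R := by ring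
    have a15 : ε / 2 * X * (n * V * M) ^ 2 = ε / 4 * (X * (n * V * M) ^ 2)
        + ε / 16 * (X * (n * V * M) ^ 2) + ε / 16 * (X * (n * V * M) ^ 2)
        + ε / 8 * (X * (n * V * M) ^ 2) := by ring
    linarith
  have h7 := le_of_mul_le_mul_right key (by positivity)
  have : 0 < ε * X := by positivity
  linarith

/-- the hypotheses of the second moment bound -/
structure SetW (T u W β : ℕ) (P Mm : Finset ℕ) (wt G : ℕ → ℝ) (Y CF MG M2 η R : ℝ) : Prop where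
  hY : 0 < Y
  hW0 : 0 < W
  hη0 : 0 ≤ η
  hη1 : η ≤ 1
  hR : 0 ≤ R
  hCF : 1 ≤ CF
  hwt : ∀ m, 0 ≤ wt m
  hG : ∀ p ∈ P, ∀ m ∈ Mm, |G (m - p)| ≤ CF
  hM : 0 < MG
  hM2 : M2 ≤ CF ^ 2
  hc : ∑ m ∈ Mm.filter (fun m => m ≡ β [MOD W]), wt m ≤ Y / W + R
  h0 : ∀ p ∈ P, ∀ p' ∈ P, |rmass T W β p p' Mm wt - Y / W * V2 u T p p'|
    ≤ η * (Y / W * V2 u T p p') + R
  h1 : ∀ p ∈ P, |rmass T W β p p Mm (fun m => wt m * (G (m - p) + CF))
      - Y * (MG + CF) / W * V2 u T p p| ≤ η * (Y * (MG + CF) / W * V2 u T p p) + R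
  h2 : ∀ p ∈ P, ∀ p' ∈ P, p ≠ p' →
    |rmass T W β p p' Mm (fun m => wt m * (G (m - p) * G (m - p') + CF ^ 2))
      - Y * (M2 + CF ^ 2) / W * V2 u T p p'| ≤ η * (Y * (M2 + CF ^ 2) / W * V2 u T p p') + R

/-- the mass of the exceptions in a class -/
theorem mass_bad_le {T u W β : ℕ} {P Mm : Finset ℕ} {wt G : ℕ → ℝ} {Y CF MG M2 η R : ℝ}
    (S : SetW T u W β P Mm wt G Y CF MG M2 η R) (hu3 : 3 ≤ u)
    (Bg ρ ε : ℝ) (hM2 : M2 ≤ MG ^ 2 + Bg)
    (hP : 0 < #P) (hV : 0 < VV u T) (hρ : 0 ≤ ρ) (hρ1 : ρ ≤ 1) (hε : 0 < ε)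
    (hpair : ∑ p ∈ P, ∑ p' ∈ P.erase p, V2 u T p p' ≤ VV u T ^ 2 * (#P : ℝ) ^ 2 * (1 + ρ))
    (h1 : ρ ≤ ε / 8) (h2 : Bg ≤ ε / 32 * MG ^ 2) (hBg0 : 0 ≤ Bg)
    (h3 : η * (MG + 2 * CF) ^ 2 ≤ ε / 32 * MG ^ 2)
    (h4 : 2 * CF ^ 2 ≤ ε / 16 * (#P * VV u T * MG ^ 2))
    (h5 : R * (CF ^ 2 / #P + (1 + CF) ^ 2 + 2 * (1 + CF) * (VV u T * MG) + (VV u T * MG) ^ 2)
      ≤ ε / 8 * (Y / W) * (VV u T * MG) ^ 2) :
    ∑ m ∈ (Mm.filter (fun m => m ≡ β [MOD W])).filter (fun m => SG T G P m ≤ 0), wt m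
      ≤ ε * (Y / W) := by
  have hW0 : (0 : ℝ) < W := by exact_mod_cast S.hW0
  have hX : 0 < Y / W := div_pos S.hY hW0
  set X : ℝ := Y / W with hXdef
  set V := VV u T with hVdef
  set n : ℝ := (#P : ℝ) with hn
  have hn0 : 0 < n := by rw [hn]; exact_mod_cast hP
  have hη := S.hη0
  have hη1 := S.hη1
  have hR := S.hR
  have hCF := S.hCF
  have hMG := S.hM
  have hCF0 : 0 < CF := by linarith
  set Mc := Mm.filter (fun m => m ≡ β [MOD W]) with hMc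
  set μ := n * V * MG with hμdef
  have hμ : 0 < μ := by positivity
  have hV2 : ∀ p p' : ℕ, 0 ≤ V2 u T p p' := fun p p' => V2_nonneg u T p p' hu3
  have hXMG : Y * (MG + CF) / W = X * (MG + CF) := by rw [hXdef]; ring
  have hXM2 : Y * (M2 + CF ^ 2) / W = X * (M2 + CF ^ 2) := by rw [hXdef]; ring
  apply real_final2 (∑ m ∈ Mc.filter (fun m => SG T G P m ≤ 0), wt m) n V MG X R (1 + CF)
    (MG + 2 * CF) Bg (MG ^ 2 + Bg + η * (MG + 2 * CF) ^ 2) CF η ρ ε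
    (∑ m ∈ Mc, wt m * SG T G P m) (∑ m ∈ Mc, wt m * SG T G P m ^ 2)
    (∑ m ∈ Mc, wt m) hn0 hV hMG hX hR (by positivity) hη hρ hρ1 hε rfl (by linarith) _ S.hc _ _
    h1 h2 h3 h4 h5
  · -- Chebyshev
    have h6 : ∑ m ∈ Mc, wt m * (SG T G P m - μ) ^ 2
        = ∑ m ∈ Mc, wt m * SG T G P m ^ 2 - 2 * μ * ∑ m ∈ Mc, wt m * SG T G P m
          + μ ^ 2 * ∑ m ∈ Mc, wt m := by
      rw [mul_sum, mul_sum, ← sum_sub_distrib, ← sum_add_distrib]
      apply sum_congr rfl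
      intro m _
      ring
    rw [← h6, sum_mul]
    calc ∑ m ∈ Mc.filter (fun m => SG T G P m ≤ 0), wt m * μ ^ 2
        ≤ ∑ m ∈ Mc.filter (fun m => SG T G P m ≤ 0), wt m * (SG T G P m - μ) ^ 2 := by
          apply sum_le_sum
          intro m hm
          have := (mem_filter.mp hm).2
          apply mul_le_mul_of_nonneg_left _ (S.hwt m)
          nlinarith
      _ ≤ _ := by
          apply sum_le_sum_of_subset_of_nonneg (filter_subset _ _)
          intro m _ _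
          exact mul_nonneg (S.hwt m) (sq_nonneg _)
  · -- first moment
    have h6 : ∑ m ∈ Mc, wt m * SG T G P m = ∑ p ∈ P, ∑ m ∈ Mc, wt m * fG T G p m := by
      unfold SG
      simp_rw [mul_sum]
      exact sum_comm
    rw [h6]
    have h7 : ∀ p ∈ P, X * V * MG - (η * (X * V) * (MG + 2 * CF) + R * (1 + CF))
        ≤ ∑ m ∈ Mc, wt m * fG T G p m := by
      intro p hp
      rw [hMc, sum_fG T W β p Mm wt G CF]
      have a1 := (abs_le.mp (S.h1 p hp)).1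
      have a0 := (abs_le.mp (S.h0 p hp p hp)).2
      rw [V2_self, hXMG] at a1
      rw [V2_self] at a0
      have a3 : CF * rmass T W β p p Mm wt ≤ CF * (X * V + η * (X * V) + R) := by
        apply mul_le_mul_of_nonneg_left _ hCF0.le
        linarith
      linarith
    calc n * (X * V * MG - (η * (X * V) * (MG + 2 * CF) + R * (1 + CF)))
        = ∑ p ∈ P, (X * V * MG - (η * (X * V) * (MG + 2 * CF) + R * (1 + CF))) := by
          rw [sum_const, nsmul_eq_mul]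
      _ ≤ _ := sum_le_sum h7
  · -- second moment
    have h6 : ∑ m ∈ Mc, wt m * SG T G P m ^ 2
        = ∑ p ∈ P, ∑ p' ∈ P, ∑ m ∈ Mc, wt m * (fG T G p m * fG T G p' m) := by
      unfold SG
      simp_rw [pow_two, sum_mul_sum, mul_sum]
      rw [sum_comm]
      apply sum_congr rfl
      intro p _
      rw [sum_comm]
    rw [h6]
    have h7 : ∀ p ∈ P, ∑ p' ∈ P, ∑ m ∈ Mc, wt m * (fG T G p m * fG T G p' m)
        ≤ CF ^ 2 * (2 * (X * V) + R) + (X * (∑ p' ∈ P.erase p, V2 u T p p')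
          * (MG ^ 2 + Bg + η * (MG + 2 * CF) ^ 2) + n * (R * (1 + CF) ^ 2)) := by
      intro p hp
      rw [← add_sum_erase P _ hp]
      apply add_le_add
      · refine (sum_fG_sq_le T W β p Mm wt G CF S.hwt (S.hG p hp)).trans ?_
        apply mul_le_mul_of_nonneg_left _ (sq_nonneg _)
        have a0 := (abs_le.mp (S.h0 p hp p hp)).2
        rw [V2_self] at a0
        have a4 : η * (X * V) ≤ 1 * (X * V) := by gcongr
        linarith
      · have h8 : ∀ p' ∈ P.erase p, ∑ m ∈ Mc, wt m * (fG T G p m * fG T G p' m)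
            ≤ X * V2 u T p p' * (MG ^ 2 + Bg + η * (MG + 2 * CF) ^ 2) + R * (1 + CF) ^ 2 := by
          intro p' hp'
          have h9 := mem_erase.mp hp'
          rw [hMc, sum_fG_mul T W β p p' Mm wt G CF]
          have a2 := (abs_le.mp (S.h2 p hp p' h9.2 h9.1.symm)).2
          have a0 := (abs_le.mp (S.h0 p hp p' h9.2)).1
          rw [hXM2] at a2
          have hv := hV2 p p'
          set v := V2 u T p p'
          have a3 : CF ^ 2 * (X * v - (η * (X * v) + R)) ≤ CF ^ 2 * rmass T W β p p' Mm wt := by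
            apply mul_le_mul_of_nonneg_left _ (sq_nonneg _)
            linarith
          have hXv : 0 ≤ X * v := by positivity
          have a4 : M2 + 2 * CF ^ 2 ≤ (MG + 2 * CF) ^ 2 := by
            have := S.hM2
            nlinarith
          have a5 : η * (X * v) * (M2 + 2 * CF ^ 2) ≤ η * (X * v) * (MG + 2 * CF) ^ 2 := by
            apply mul_le_mul_of_nonneg_left a4 (by positivity)
          have a6 : X * v * M2 ≤ X * v * (MG ^ 2 + Bg) := mul_le_mul_of_nonneg_left hM2 hXv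
          have a7 : R * (1 + CF ^ 2) ≤ R * (1 + CF) ^ 2 := by
            apply mul_le_mul_of_nonneg_left _ hR
            nlinarith
          have a8 : X * v * (MG ^ 2 + Bg + η * (MG + 2 * CF) ^ 2)
              = X * v * (MG ^ 2 + Bg) + η * (X * v) * (MG + 2 * CF) ^ 2 := by ring
          rw [a8]
          nlinarith
        refine (sum_le_sum h8).trans ?_
        rw [sum_add_distrib, sum_const, nsmul_eq_mul, ← sum_mul, ← mul_sum]
        have h10 : (#(P.erase p) : ℝ) ≤ n := by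
          rw [hn]; exact_mod_cast card_le_card (erase_subset p P)
        have h11 : (#(P.erase p) : ℝ) * (R * (1 + CF) ^ 2) ≤ n * (R * (1 + CF) ^ 2) := by gcongr
        linarith
    refine (sum_le_sum h7).trans ?_
    rw [sum_add_distrib, sum_add_distrib, sum_const, sum_const, nsmul_eq_mul, nsmul_eq_mul,
      ← sum_mul, ← mul_sum]
    have hQ0 : 0 ≤ MG ^ 2 + Bg + η * (MG + 2 * CF) ^ 2 := by positivity
    have h8 : X * (∑ p ∈ P, ∑ p' ∈ P.erase p, V2 u T p p') * (MG ^ 2 + Bg + η * (MG + 2 * CF) ^ 2)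
        ≤ X * (V ^ 2 * n ^ 2 * (1 + ρ)) * (MG ^ 2 + Bg + η * (MG + 2 * CF) ^ 2) := by
      gcongr
    have e1 : (#P : ℝ) * (n * (R * (1 + CF) ^ 2)) = n ^ 2 * (R * (1 + CF) ^ 2) := by
      rw [← hn]; ring
    rw [e1]
    linarith

end Pool.Agent.Lib.MP_bae66e_nt.P2
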