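import Pool.Agent.Lib.MP_bae66e_nt.P2.Wt3
import Pool.Agent.Lib.MP_bae66e_nt.P2.Mom
import Pool.Agent.Lib.MP_bae66e_nt.P2.KG

/-!
# Regular distribution of the weights
-/

set_option autoImplicit false

namespace Pool.Agent.Lib.MP_bae66e_nt.P2

open Finset AP3

/-- the Fejer weight -/
noncomputable def fw (A0 L m : ℕ) : ℝ :=
  (#((range L ×ˢ range L).filter (fun x : ℕ × ℕ => A0 + x.1 - x.2 = m)) : ℝ)

/-- the support of the Fejer weight -/
def Mw (A0 L : ℕ) : Finset ℕ := (range L ×ˢ range L).image (fun x : ℕ × ℕ => A0 + x.1 - x.2)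

lemma fw_nonneg (A0 L m : ℕ) : 0 ≤ fw A0 L m := Nat.cast_nonneg _

lemma mem_Mw {A0 L m : ℕ} (hL : L ≤ A0) (hm : m ∈ Mw A0 L) : A0 - L < m ∧ m < A0 + L := by
  unfold Mw at hm
  obtain ⟨x, hx, rfl⟩ := mem_image.mp hm
  rw [mem_product, mem_range, mem_range] at hx
  omega

lemma sum_fw (A0 L : ℕ) (f : ℕ → ℝ) (P : ℕ → Prop) [DecidablePred P] :
    ∑ m ∈ (Mw A0 L).filter P, fw A0 L m * f m
      = ∑ x ∈ range L, ∑ y ∈ range L, (if P (A0 + x - y) then f (A0 + x - y) else 0) := by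
  have h1 : ∑ x ∈ range L, ∑ y ∈ range L, (if P (A0 + x - y) then f (A0 + x - y) else 0)
      = ∑ x ∈ range L ×ˢ range L, (if P (A0 + x.1 - x.2) then f (A0 + x.1 - x.2) else 0) := by
    rw [sum_product]
  have h2 : ∀ x ∈ range L ×ˢ range L, A0 + x.1 - x.2 ∈ Mw A0 L :=
    fun x hx => mem_image_of_mem _ hx
  rw [h1, ← sum_fiberwise_of_maps_to h2, sum_filter]
  apply sum_congr rfl
  intro m _
  have h3 : ∑ x ∈ (range L ×ˢ range L).filter (fun x : ℕ × ℕ => A0 + x.1 - x.2 = m),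
      (if P (A0 + x.1 - x.2) then f (A0 + x.1 - x.2) else 0)
      = ∑ x ∈ (range L ×ˢ range L).filter (fun x : ℕ × ℕ => A0 + x.1 - x.2 = m),
      (if P m then f m else 0) := by
    apply sum_congr rfl
    intro x hx
    rw [(mem_filter.mp hx).2]
  rw [h3, sum_const, nsmul_eq_mul]
  unfold fw
  split_ifs <;> ring

/-- the middle of the Fejer weight -/
lemma fw_ge {A0 L m : ℕ} (hm1 : A0 ≤ m + L / 2) (hm2 : m ≤ A0 + L / 2) (hL : L ≤ A0) :
    (L : ℝ) / 2 ≤ fw A0 L m := by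
  unfold fw
  -- the pairs `(y + m - A0, y)` or `(x, x + A0 - m)`
  have key : L - L / 2 ≤ #((range L ×ˢ range L).filter (fun x : ℕ × ℕ => A0 + x.1 - x.2 = m)) := by
    rcases le_or_gt A0 m with h | h
    · calc L - L / 2 ≤ L - (m - A0) := by omega
        _ = #(range (L - (m - A0))) := (card_range _).symm
        _ ≤ _ := by
          apply card_le_card_of_injOn (fun y => (y + (m - A0), y))
          · intro y hy
            rw [mem_coe, mem_range] at hy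
            rw [mem_coe, mem_filter, mem_product, mem_range, mem_range]
            simp only
            omega
          · intro y _ y' _ h
            exact (Prod.mk.inj h).2
    · calc L - L / 2 ≤ L - (A0 - m) := by omega
        _ = #(range (L - (A0 - m))) := (card_range _).symm
        _ ≤ _ := by
          apply card_le_card_of_injOn (fun x => (x, x + (A0 - m)))
          · intro y hy
            rw [mem_coe, mem_range] at hy
            rw [mem_coe, mem_filter, mem_product, mem_range, mem_range]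
            simp only
            omega
          · intro y _ y' _ h
            exact (Prod.mk.inj h).1
  have h2 : L ≤ 2 * (L - L / 2) := by omega
  have h3 : (L : ℝ) ≤ 2 * ((L - L / 2 : ℕ) : ℝ) := by exact_mod_cast h2
  have h4 : ((L - L / 2 : ℕ) : ℝ)
      ≤ (#((range L ×ˢ range L).filter (fun x : ℕ × ℕ => A0 + x.1 - x.2 = m)) : ℝ) := by
    exact_mod_cast key
  linarith

lemma count_x (A0 L y q a : ℕ) (hy : y < A0) (hq : 0 < q) :
    |(#((range L).filter (fun x => A0 + x - y ≡ a [MOD q])) : ℝ) - (L : ℝ) / q| ≤ 1 := by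
  have h := abs_card_ap_sub (A0 - y - 1) (A0 - y - 1 + L) q a (by omega) hq
  have e1 : ((A0 - y - 1 + L : ℕ) : ℝ) - ((A0 - y - 1 : ℕ) : ℝ) = L := by push_cast; ring
  rw [e1] at h
  have e2 : #{m ∈ Ioc (A0 - y - 1) (A0 - y - 1 + L) | m ≡ a [MOD q]}
      = #((range L).filter (fun x => A0 + x - y ≡ a [MOD q])) := by
    symm
    apply card_bij (fun x _ => A0 + x - y)
    · intro x hx
      obtain ⟨h1, h2⟩ := mem_filter.mp hx
      rw [mem_range] at h1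
      rw [mem_filter, mem_Ioc]
      exact ⟨by omega, h2⟩
    · intro x hx x' hx' h3
      rw [mem_filter, mem_range] at hx hx'
      omega
    · intro m hm
      obtain ⟨h1, h2⟩ := mem_filter.mp hm
      rw [mem_Ioc] at h1
      refine ⟨m + y - A0, ?_, by omega⟩
      rw [mem_filter, mem_range]
      have h3 : A0 + (m + y - A0) - y = m := by omega
      rw [h3]
      exact ⟨by omega, h2⟩
  rw [e2] at h
  exact h

/-- the mass of a class -/
lemma mass_class (A0 L q a : ℕ) (hL : L ≤ A0) (hq : 0 < q) :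
    |∑ m ∈ (Mw A0 L).filter (fun m => m ≡ a [MOD q]), fw A0 L m - (L : ℝ) ^ 2 / q| ≤ L := by
  have h1 := sum_fw A0 L (fun _ => 1) (fun m => m ≡ a [MOD q])
  simp only [mul_one] at h1
  rw [h1, sum_comm]
  have h2 : ∀ y ∈ range L, ∑ x ∈ range L, (if A0 + x - y ≡ a [MOD q] then (1 : ℝ) else 0)
      = (#((range L).filter (fun x => A0 + x - y ≡ a [MOD q])) : ℝ) := by
    intro y _
    rw [sum_boole]
  rw [sum_congr rfl h2]
  have h3 : (L : ℝ) ^ 2 / q = ∑ y ∈ range L, (L : ℝ) / q := by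
    rw [sum_const, card_range, nsmul_eq_mul]; ring
  rw [h3, ← sum_sub_distrib]
  calc |∑ y ∈ range L, ((#((range L).filter (fun x => A0 + x - y ≡ a [MOD q])) : ℝ)
        - (L : ℝ) / q)|
      ≤ ∑ y ∈ range L, |(#((range L).filter (fun x => A0 + x - y ≡ a [MOD q])) : ℝ)
        - (L : ℝ) / q| := abs_sum_le_sum_abs _ _
    _ ≤ ∑ y ∈ range L, (1 : ℝ) := by
        apply sum_le_sum
        intro y hy
        rw [mem_range] at hy
        exact count_x A0 L y q a (by omega) hq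
    _ = L := by simp

/-- the first moment in a class -/
lemma first_class {A0 L T q a p : ℕ} (hL : L ≤ A0) (hq : 0 < q) (hpA : p + L ≤ A0)
    (hqT : ∀ ℓ : ℕ, ℓ.Prime → ℓ ∣ q → ℓ ≤ T) (𝒟 : Finset ℕ) (w : ℕ → ℝ)
    (h𝒟 : ∀ D ∈ 𝒟, 0 < D ∧ Rough T D) :
    |∑ m ∈ (Mw A0 L).filter (fun m => m ≡ a [MOD q]), fw A0 L m
        * (∑ D ∈ 𝒟, w D * (if D ∣ m - p then 1 else 0))
      - (L : ℝ) ^ 2 / q * ∑ D ∈ 𝒟, w D * (1 / (D : ℝ))| ≤ L * ∑ D ∈ 𝒟, |w D| := by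
  have h1 : ∑ m ∈ (Mw A0 L).filter (fun m => m ≡ a [MOD q]), fw A0 L m
        * (∑ D ∈ 𝒟, w D * (if D ∣ m - p then 1 else 0))
      = ∑ D ∈ 𝒟, w D * ∑ m ∈ (Mw A0 L).filter (fun m => m ≡ a [MOD q]),
        (if D ∣ m - p then fw A0 L m else 0) := by
    simp_rw [mul_sum]
    rw [sum_comm]
    apply sum_congr rfl
    intro D _
    apply sum_congr rfl
    intro m _
    split_ifs <;> ring
  rw [h1, mul_sum, ← sum_sub_distrib, mul_sum]
  refine (abs_sum_le_sum_abs _ _).trans (sum_le_sum fun D hD => ?_)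
  obtain ⟨hD0, hDr⟩ := h𝒟 D hD
  have hcop : Nat.Coprime q D := by
    by_contra hcon
    obtain ⟨ℓ, hℓ, hℓ1, hℓ2⟩ := Nat.Prime.not_coprime_iff_dvd.mp hcon
    have := hqT ℓ hℓ hℓ1
    have := hDr ℓ hℓ hℓ2
    omega
  obtain ⟨c, hc1, hc2⟩ := Nat.chineseRemainder hcop a p
  have h2 : ∑ m ∈ (Mw A0 L).filter (fun m => m ≡ a [MOD q]), (if D ∣ m - p then fw A0 L m else 0)
      = ∑ m ∈ (Mw A0 L).filter (fun m => m ≡ c [MOD (q * D)]), fw A0 L m := by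
    rw [← sum_filter, filter_filter]
    apply sum_congr _ fun _ _ => rfl
    apply filter_congr
    intro m hm
    have hm' := mem_Mw hL hm
    have hpm : p ≤ m := by omega
    rw [← Nat.modEq_and_modEq_iff_modEq_mul hcop, ← Nat.modEq_iff_dvd' hpm]
    constructor
    · rintro ⟨h3, h4⟩
      exact ⟨h3.trans hc1.symm, h4.symm.trans hc2.symm⟩
    · rintro ⟨h3, h4⟩
      exact ⟨h3.trans hc1, (h4.trans hc2).symm⟩
  rw [h2]
  have h3 := mass_class A0 L (q * D) c hL (Nat.mul_pos hq hD0)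
  have hD0' : (0 : ℝ) < D := by exact_mod_cast hD0
  have hq0' : (0 : ℝ) < q := by exact_mod_cast hq
  have e : w D * ∑ m ∈ (Mw A0 L).filter (fun m => m ≡ c [MOD (q * D)]), fw A0 L m
      - (L : ℝ) ^ 2 / q * (w D * (1 / (D : ℝ)))
      = w D * (∑ m ∈ (Mw A0 L).filter (fun m => m ≡ c [MOD (q * D)]), fw A0 L m
        - (L : ℝ) ^ 2 / ((q * D : ℕ) : ℝ)) := by
    push_cast
    field_simp
  rw [e, abs_mul, mul_comm]
  exact mul_le_mul_of_nonneg_right h3 (abs_nonneg _)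

/-- the weight function -/
noncomputable def Gw (T k n : ℕ) : ℝ := 1 / 2 * FG (dvi n) T k

/-- the mean -/
noncomputable def MGw (T k : ℕ) : ℝ := 1 / 2 * MF T k

/-- the mean of pairs -/
noncomputable def M2w (T k : ℕ) : ℝ :=
  1 / 4 + ∑ D ∈ DD' T k, WW T k D * (1 / (D : ℝ)) + Mc (IW T k) (clW T k)

section
variable {T k : ℕ}

lemma DD'_prop {D : ℕ} (hD : D ∈ DD' T k) : 0 < D ∧ Rough T D := by
  have := mem_dset.mp hD
  exact ⟨this.1.1.1, this.1.2⟩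

lemma abs_Gw_le (hT : 2 ≤ T) (hk : 1 ≤ k) {n : ℕ} (hn0 : 0 < n) (hn : n ≤ T ^ (2000 * k)) :
    |Gw T k n| ≤ 1 + 338 * 2 ^ (2000 * k) := by
  unfold Gw
  rw [FG_dvi_eq hT hk]
  have h1 := abs_sum_WW_le hT hk hn0 hn
  calc |1 / 2 + ∑ D ∈ DD' T k, WW T k D * (if D ∣ n then 1 else 0)|
      ≤ |(1 : ℝ) / 2| + |∑ D ∈ DD' T k, WW T k D * (if D ∣ n then 1 else 0)| := abs_add_le _ _
    _ ≤ 1 + 338 * 2 ^ (2000 * k) := by
        rw [abs_of_pos (by norm_num : (0 : ℝ) < 1 / 2)]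
        linarith

/-- regularity of the Fejer weight -/
lemma reg0 {A0 L : ℕ} (hL : L ≤ A0) (T : ℕ) (E Q : ℝ) (hE : (L : ℝ) ≤ E) :
    Reg (fw A0 L) (Mw A0 L) T ((L : ℝ) ^ 2) E Q := by
  intro q a hq _ _
  exact (mass_class A0 L q a hL hq.ne_zero.bot_lt).trans hE

/-- regularity of the first weight -/
lemma reg1 (hT : 2 ≤ T) (hk : 1 ≤ k) {A0 L p : ℕ} (hL : L ≤ A0) (hpA : p + L ≤ A0)
    (CF E Q : ℝ) (hCF : 0 ≤ CF)
    (hE : L * ∑ D ∈ DD' T k, |WW T k D| + (1 / 2 + CF) * L ≤ E) :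
    Reg (fun m => fw A0 L m * (Gw T k (m - p) + CF)) (Mw A0 L) T
      ((L : ℝ) ^ 2 * (MGw T k + CF)) E Q := by
  intro q a hq _ hqT
  have hq0 : 0 < q := hq.ne_zero.bot_lt
  have h1 := first_class (a := a) hL hq0 hpA hqT (DD' T k) (WW T k) (fun D hD => DD'_prop hD)
  have h0 := mass_class A0 L q a hL hq0
  have e1 : ∑ m ∈ (Mw A0 L).filter (fun m => m ≡ a [MOD q]),
      fw A0 L m * (Gw T k (m - p) + CF)
      = ∑ m ∈ (Mw A0 L).filter (fun m => m ≡ a [MOD q]), fw A0 L m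
        * (∑ D ∈ DD' T k, WW T k D * (if D ∣ m - p then 1 else 0))
        + (1 / 2 + CF) * ∑ m ∈ (Mw A0 L).filter (fun m => m ≡ a [MOD q]), fw A0 L m := by
    rw [mul_sum, ← sum_add_distrib]
    apply sum_congr rfl
    intro m _
    unfold Gw
    rw [FG_dvi_eq hT hk]
    ring
  have e2 : (L : ℝ) ^ 2 * (MGw T k + CF) / q
      = (L : ℝ) ^ 2 / q * ∑ D ∈ DD' T k, WW T k D * (1 / (D : ℝ))
        + (1 / 2 + CF) * ((L : ℝ) ^ 2 / q) := by
    unfold MGw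
    rw [MF_eq hT hk]
    ring
  rw [e1, e2]
  set X1 := ∑ m ∈ (Mw A0 L).filter (fun m => m ≡ a [MOD q]), fw A0 L m
        * (∑ D ∈ DD' T k, WW T k D * (if D ∣ m - p then 1 else 0))
  set X0 := ∑ m ∈ (Mw A0 L).filter (fun m => m ≡ a [MOD q]), fw A0 L m
  set Y1 := (L : ℝ) ^ 2 / q * ∑ D ∈ DD' T k, WW T k D * (1 / (D : ℝ))
  set Y0 := (L : ℝ) ^ 2 / q
  have e3 : X1 + (1 / 2 + CF) * X0 - (Y1 + (1 / 2 + CF) * Y0)
      = (X1 - Y1) + (1 / 2 + CF) * (X0 - Y0) := by ring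
  rw [e3]
  calc |(X1 - Y1) + (1 / 2 + CF) * (X0 - Y0)|
      ≤ |X1 - Y1| + |(1 / 2 + CF) * (X0 - Y0)| := abs_add_le _ _
    _ = |X1 - Y1| + (1 / 2 + CF) * |X0 - Y0| := by
        rw [abs_mul, abs_of_nonneg (by linarith : 0 ≤ 1 / 2 + CF)]
    _ ≤ L * ∑ D ∈ DD' T k, |WW T k D| + (1 / 2 + CF) * L := by
        apply add_le_add h1
        exact mul_le_mul_of_nonneg_left h0 (by linarith)
    _ ≤ E := hE

end

/-- the property provided by theorem K at the level `τ = 0.5555`, `δ = 0.0001` -/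
def KProp (L : ℕ) : Prop := ∀ (k T A0 p p' c₀ : ℕ) (I : Finset (ℕ × ℕ)) (cl : ℕ × ℕ → Cls),
  1 ≤ k → Squarefree k →
      (k : ℝ) ≤ (L : ℝ) ^ ((0.0001 : ℝ) / 100) → (A0 : ℝ) ≤ (L : ℝ) ^ (1 + (0.0001 : ℝ) / 100) →
      L + T ≤ A0 →
      p ≤ T → p' ≤ T → p ≠ p' → (∀ i ∈ I, Good k T L 0.5555 0.0001 (cl i)) →
      |∑ x ∈ range L, ∑ y ∈ range L, (if A0 + x - y ≡ c₀ [MOD k] then
          Fc I cl (A0 + x - y - p) * Fc I cl (A0 + x - y - p') else 0)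
        - (L : ℝ) ^ 2 / k * Mc I cl| ≤ (#I : ℝ) ^ 2 * (L : ℝ) ^ (2 - (0.0001 : ℝ) / 6)

lemma exists_KProp : ∃ L₀ : ℕ, ∀ L : ℕ, L₀ ≤ L → KProp L := by
  obtain ⟨L₀, h⟩ := thmK 0.5555 0.0001 (by norm_num) (by norm_num) (by norm_num) (by norm_num)
  refine ⟨L₀, fun L hL => ?_⟩
  intro k T A0 p p' c₀ I cl h1 h2 h3 h4 h5 h6 h7 h8 h9
  exact h L hL k T A0 p p' c₀ (ℕ × ℕ) I cl h1 h2 h3 h4 h5 h6 h7 h8 h9

section
variable {T k : ℕ}

set_option maxRecDepth 8000 in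
/-- regularity of the second weight -/
lemma reg2 (hk : 1 ≤ k) (hTlog : 11 ≤ Real.log T) {A0 L p p' : ℕ} (hL1 : 1 ≤ L)
    (hLT : (T : ℝ) ^ (2000 * k) ≤ 8 * L) (hLA : L + T ≤ A0)
    (hA0 : (A0 : ℝ) ≤ (L : ℝ) ^ (1 + (0.0001 : ℝ) / 100)) (hK : KProp L)
    (hp : p ≤ T) (hp' : p' ≤ T) (hne : p ≠ p')
    (CF E Q : ℝ) (hQ : Q ≤ (L : ℝ) ^ ((0.0001 : ℝ) / 100))
    (hE : (1 / 4 + CF ^ 2) * L + L * ∑ D ∈ DD' T k, |WW T k D|
      + (#(IW T k) : ℝ) ^ 2 * (L : ℝ) ^ (2 - (0.0001 : ℝ) / 6) ≤ E) :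
    Reg (fun m => fw A0 L m * (Gw T k (m - p) * Gw T k (m - p') + CF ^ 2)) (Mw A0 L) T
      ((L : ℝ) ^ 2 * (M2w T k + CF ^ 2)) E Q := by
  classical
  have hT := two_le_of_log hTlog
  intro q a hq hqQ hqT
  have hq0 : 0 < q := hq.ne_zero.bot_lt
  have hL : L ≤ A0 := by omega
  have h1 := first_class (a := a) hL hq0 (p := p) (by omega) hqT (DD' T k) (WW T k)
    (fun D hD => DD'_prop hD)
  have h1' := first_class (a := a) hL hq0 (p := p') (by omega) hqT (DD' T k) (WW T k)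
    (fun D hD => DD'_prop hD)
  have h0 := mass_class A0 L q a hL hq0
  have h2 := hK q T A0 p p' a (IW T k) (clW T k) hq0 hq (hqQ.trans hQ) hA0 hLA hp hp' hne
    (fun i hi => good_clW hk hTlog hL1 hLT hqT hi)
  have e0 : ∑ x ∈ range L, ∑ y ∈ range L, (if A0 + x - y ≡ a [MOD q] then
          Fc (IW T k) (clW T k) (A0 + x - y - p) * Fc (IW T k) (clW T k) (A0 + x - y - p') else 0)
      = ∑ m ∈ (Mw A0 L).filter (fun m => m ≡ a [MOD q]), fw A0 L m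
        * ((∑ D ∈ DD' T k, WW T k D * (if D ∣ m - p then 1 else 0))
          * (∑ D ∈ DD' T k, WW T k D * (if D ∣ m - p' then 1 else 0))) := by
    rw [sum_fw A0 L (fun m => (∑ D ∈ DD' T k, WW T k D * (if D ∣ m - p then 1 else 0))
          * (∑ D ∈ DD' T k, WW T k D * (if D ∣ m - p' then 1 else 0))) (fun m => m ≡ a [MOD q])]
    apply sum_congr rfl
    intro x _
    apply sum_congr rfl
    intro y _
    rw [Fc_clW hT hk, Fc_clW hT hk]
  rw [e0] at h2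
  have e1 : ∑ m ∈ (Mw A0 L).filter (fun m => m ≡ a [MOD q]),
      fw A0 L m * (Gw T k (m - p) * Gw T k (m - p') + CF ^ 2)
      = (1 / 4 + CF ^ 2) * ∑ m ∈ (Mw A0 L).filter (fun m => m ≡ a [MOD q]), fw A0 L m
        + 1 / 2 * ∑ m ∈ (Mw A0 L).filter (fun m => m ≡ a [MOD q]), fw A0 L m
          * (∑ D ∈ DD' T k, WW T k D * (if D ∣ m - p then 1 else 0))
        + 1 / 2 * ∑ m ∈ (Mw A0 L).filter (fun m => m ≡ a [MOD q]), fw A0 L m
          * (∑ D ∈ DD' T k, WW T k D * (if D ∣ m - p' then 1 else 0))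
        + ∑ m ∈ (Mw A0 L).filter (fun m => m ≡ a [MOD q]), fw A0 L m
        * ((∑ D ∈ DD' T k, WW T k D * (if D ∣ m - p then 1 else 0))
          * (∑ D ∈ DD' T k, WW T k D * (if D ∣ m - p' then 1 else 0))) := by
    rw [mul_sum, mul_sum, mul_sum, ← sum_add_distrib, ← sum_add_distrib, ← sum_add_distrib]
    apply sum_congr rfl
    intro m _
    unfold Gw
    rw [FG_dvi_eq hT hk, FG_dvi_eq hT hk]
    ring
  have e2 : (L : ℝ) ^ 2 * (M2w T k + CF ^ 2) / q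
      = (1 / 4 + CF ^ 2) * ((L : ℝ) ^ 2 / q)
        + 1 / 2 * ((L : ℝ) ^ 2 / q * ∑ D ∈ DD' T k, WW T k D * (1 / (D : ℝ)))
        + 1 / 2 * ((L : ℝ) ^ 2 / q * ∑ D ∈ DD' T k, WW T k D * (1 / (D : ℝ)))
        + (L : ℝ) ^ 2 / q * Mc (IW T k) (clW T k) := by
    unfold M2w
    ring
  rw [e1, e2]
  set X0 := ∑ m ∈ (Mw A0 L).filter (fun m => m ≡ a [MOD q]), fw A0 L m
  set X1 := ∑ m ∈ (Mw A0 L).filter (fun m => m ≡ a [MOD q]), fw A0 L m
        * (∑ D ∈ DD' T k, WW T k D * (if D ∣ m - p then 1 else 0))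
  set X1' := ∑ m ∈ (Mw A0 L).filter (fun m => m ≡ a [MOD q]), fw A0 L m
        * (∑ D ∈ DD' T k, WW T k D * (if D ∣ m - p' then 1 else 0))
  set X2 := ∑ m ∈ (Mw A0 L).filter (fun m => m ≡ a [MOD q]), fw A0 L m
        * ((∑ D ∈ DD' T k, WW T k D * (if D ∣ m - p then 1 else 0))
          * (∑ D ∈ DD' T k, WW T k D * (if D ∣ m - p' then 1 else 0)))
  set Y0 := (L : ℝ) ^ 2 / q
  set M1 := ∑ D ∈ DD' T k, WW T k D * (1 / (D : ℝ))
  set M2 := Mc (IW T k) (clW T k)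
  have e3 : (1 / 4 + CF ^ 2) * X0 + 1 / 2 * X1 + 1 / 2 * X1' + X2
      - ((1 / 4 + CF ^ 2) * Y0 + 1 / 2 * (Y0 * M1) + 1 / 2 * (Y0 * M1) + Y0 * M2)
      = (1 / 4 + CF ^ 2) * (X0 - Y0) + 1 / 2 * (X1 - Y0 * M1) + 1 / 2 * (X1' - Y0 * M1)
        + (X2 - Y0 * M2) := by ring
  rw [e3]
  have hc : 0 ≤ 1 / 4 + CF ^ 2 := by positivity
  have a0 : |(1 / 4 + CF ^ 2) * (X0 - Y0)| ≤ (1 / 4 + CF ^ 2) * L := by
    rw [abs_mul, abs_of_nonneg hc]
    exact mul_le_mul_of_nonneg_left h0 hc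
  have a1 : |1 / 2 * (X1 - Y0 * M1)| ≤ 1 / 2 * (L * ∑ D ∈ DD' T k, |WW T k D|) := by
    rw [abs_mul, abs_of_pos (by norm_num : (0 : ℝ) < 1 / 2)]
    exact mul_le_mul_of_nonneg_left h1 (by norm_num)
  have a1' : |1 / 2 * (X1' - Y0 * M1)| ≤ 1 / 2 * (L * ∑ D ∈ DD' T k, |WW T k D|) := by
    rw [abs_mul, abs_of_pos (by norm_num : (0 : ℝ) < 1 / 2)]
    exact mul_le_mul_of_nonneg_left h1' (by norm_num)
  have b1 := abs_add_le ((1 / 4 + CF ^ 2) * (X0 - Y0) + 1 / 2 * (X1 - Y0 * M1)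
    + 1 / 2 * (X1' - Y0 * M1)) (X2 - Y0 * M2)
  have b2 := abs_add_le ((1 / 4 + CF ^ 2) * (X0 - Y0) + 1 / 2 * (X1 - Y0 * M1))
    (1 / 2 * (X1' - Y0 * M1))
  have b3 := abs_add_le ((1 / 4 + CF ^ 2) * (X0 - Y0)) (1 / 2 * (X1 - Y0 * M1))
  linarith

end

end Pool.Agent.Lib.MP_bae66e_nt.P2
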