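import Pool.Agent.Lib.MP_bae66e_nt.P2.NumD
import Pool.Agent.Lib.MP_bae66e_nt.Mg.G077

/-!
# The weighted sieve: positivity implies at most two prime factors
-/

set_option autoImplicit false

namespace Pool.Agent.Lib.MP_bae66e_nt.P2

open Finset AP3 ArithmeticFunction

/-- the weighted sieve for a general function `g` on the primes -/
noncomputable def FG (g : ℕ → ℝ) (T k : ℕ) : ℝ :=
  LS g T (T ^ (286 * k)) false (1110 * k * Real.log T)
    - 12 / 11 * ∑ i ∈ range 337, ∑ q ∈ cell T k i,
      g q * (1 - Real.log q / (960 * k * Real.log T))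
        * LS g T (T ^ (286 * k)) true ((ce i : ℝ) * k * Real.log T)

lemma FG_inv (T k : ℕ) : FG inv T k = MF T k := rfl

lemma sum_prI_split (f : ℕ → ℝ) {a b c : ℕ} (hab : a ≤ b) (hbc : b ≤ c) :
    ∑ q ∈ prI a c, f q = ∑ q ∈ prI a b, f q + ∑ q ∈ prI b c, f q := by
  rw [← sum_union]
  · apply sum_congr _ fun _ _ => rfl
    ext q
    rw [mem_union, mem_prI, mem_prI, mem_prI]
    constructor
    · rintro ⟨⟨h1, h2⟩, h3⟩
      rcases le_or_gt q b with h4 | h4
      · exact Or.inl ⟨⟨h1, h4⟩, h3⟩
      · exact Or.inr ⟨⟨h4, h2⟩, h3⟩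
    · rintro (⟨⟨h1, h2⟩, h3⟩ | ⟨⟨h1, h2⟩, h3⟩)
      · exact ⟨⟨h1, h2.trans hbc⟩, h3⟩
      · exact ⟨⟨by omega, h2⟩, h3⟩
  · rw [disjoint_left]
    intro q hq hq'
    have := mem_prI.mp hq
    have := mem_prI.mp hq'
    omega

lemma sum_cells (f : ℕ → ℝ) (T k : ℕ) (hT : 1 ≤ T) (n : ℕ) :
    ∑ i ∈ range n, ∑ q ∈ cell T k i, f q = ∑ q ∈ prI (T ^ (286 * k)) (T ^ (ca n * k)), f q := by
  induction n with
  | zero =>
    rw [range_zero, sum_empty]
    have : prI (T ^ (286 * k)) (T ^ (ca 0 * k)) = ∅ := by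
      rw [eq_empty_iff_forall_notMem]
      intro q hq
      have h := mem_prI.mp hq
      have e : ca 0 * k = 286 * k := by unfold ca; ring
      rw [e] at h
      omega
    rw [this, sum_empty]
  | succ n ih =>
    rw [sum_range_succ, ih]
    unfold cell
    rw [← sum_prI_split f]
    · apply Nat.pow_le_pow_right hT
      apply Nat.mul_le_mul_right
      unfold ca; omega
    · apply Nat.pow_le_pow_right hT
      apply Nat.mul_le_mul_right
      unfold ca; omega

/-- upper bound for the weighted sieve -/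
lemma FG_dvi_le {T k n : ℕ} (hT : 2 ≤ T) (hk : 1 ≤ k) :
    FG (dvi n) T k ≤ ind T (T ^ (286 * k)) n * (1 - 12 / 11 *
      ∑ q ∈ prI (T ^ (286 * k)) (T ^ (960 * k)),
        dvi n q * (1 - Real.log q / (960 * k * Real.log T))) := by
  have hk0 : (0 : ℝ) < k := by exact_mod_cast hk
  have ht0 : 0 < Real.log T := Real.log_pos (by exact_mod_cast hT)
  have h1 := (LS_pointwise T n (T ^ (286 * k)) (1110 * k * Real.log T)).2
  have h960 : (960 : ℕ) = ca 337 := by unfold ca; norm_num
  have h2 : ∑ i ∈ range 337, ∑ q ∈ cell T k i, dvi n q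
        * (1 - Real.log q / (960 * k * Real.log T)) * ind T (T ^ (286 * k)) n
      ≤ ∑ i ∈ range 337, ∑ q ∈ cell T k i, dvi n q * (1 - Real.log q / (960 * k * Real.log T))
        * LS (dvi n) T (T ^ (286 * k)) true ((ce i : ℝ) * k * Real.log T) := by
    apply sum_le_sum
    intro i hi
    apply sum_le_sum
    intro q hq
    obtain ⟨hqp, hq1, hq2⟩ := (mem_cell hT).mp hq
    have h3 : 0 ≤ 1 - Real.log q / (960 * k * Real.log T) := by
      rw [sub_nonneg, div_le_one (by positivity)]
      refine hq2.trans ?_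
      have h4 := ca_le (mem_range.mp hi)
      have h5 : (ca (i + 1) : ℝ) ≤ 960 := by exact_mod_cast (by omega : ca (i + 1) ≤ 960)
      gcongr
    exact mul_le_mul_of_nonneg_left (LS_pointwise T n (T ^ (286 * k)) _).1
      (mul_nonneg (dvi_nonneg n q) h3)
  have h3 : ∑ i ∈ range 337, ∑ q ∈ cell T k i, dvi n q
        * (1 - Real.log q / (960 * k * Real.log T)) * ind T (T ^ (286 * k)) n
      = ind T (T ^ (286 * k)) n * ∑ q ∈ prI (T ^ (286 * k)) (T ^ (960 * k)),
        dvi n q * (1 - Real.log q / (960 * k * Real.log T)) := by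
    rw [h960, ← sum_cells _ T k (by omega) 337, mul_sum]
    apply sum_congr rfl
    intro i _
    rw [mul_sum]
    apply sum_congr rfl
    intro q _
    push_cast
    ring
  rw [h3] at h2
  unfold FG
  have h4 := mul_le_mul_of_nonneg_left h2 (show (0 : ℝ) ≤ 12 / 11 by norm_num)
  linarith

/-- the basic property of the weight -/
theorem FG_pos_imp {T k n : ℕ} (hT : 2 ≤ T) (hk : 1 ≤ k) (hn0 : 0 < n)
    (hn : n ≤ T ^ (2000 * k)) (hr : Rough T n) (hpos : 0 < FG (dvi n) T k) :
    (∀ r : ℕ, r.Prime → r ∣ n → T ^ (286 * k) ≤ r) ∧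
      (cardFactors n ≤ 2 ∨ ∃ q : ℕ, q.Prime ∧ T ^ (286 * k) < q ∧ q * q ∣ n) := by
  classical
  have hk0 : (0 : ℝ) < k := by exact_mod_cast hk
  have hT0 : (0 : ℝ) < T := by positivity
  have ht0 : 0 < Real.log T := Real.log_pos (by exact_mod_cast hT)
  have hle := FG_dvi_le (n := n) hT hk
  have hind : ∀ p ∈ PR T (T ^ (286 * k)), ¬ p ∣ n := by
    by_contra hcon
    rw [ind_of_not hcon, zero_mul] at hle
    linarith
  rw [ind_of hind, one_mul] at hle
  have hz : ∀ r : ℕ, r.Prime → r ∣ n → T ^ (286 * k) < r := by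
    intro r hrp hrn
    have h1 : T < r := hr r hrp hrn
    rcases lt_trichotomy r (T ^ (286 * k)) with h2 | h2 | h2
    · exact absurd hrn (hind r (mem_PR.mpr ⟨⟨h1, h2⟩, hrp⟩))
    · exfalso
      rw [h2] at hrp
      exact Nat.Prime.not_prime_pow (by omega) hrp
    · exact h2
  refine ⟨fun r h1 h2 => (hz r h1 h2).le, ?_⟩
  by_cases hsq : Squarefree n
  · left
    by_contra h3
    push Not at h3
    have hcard : cardFactors n = #n.primeFactors := by
      rw [← (cardDistinctFactors_eq_cardFactors_iff_squarefree hn0.ne').mpr hsq]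
      rfl
    rw [hcard] at h3
    set B : ℝ := 960 * k * Real.log T with hB
    have hB0 : 0 < B := by positivity
    -- the sum over all prime factors
    have hall : ∑ q ∈ n.primeFactors, (1 - Real.log q / B)
        ≤ ∑ q ∈ prI (T ^ (286 * k)) (T ^ (960 * k)), dvi n q * (1 - Real.log q / B) := by
      have e1 : ∑ q ∈ prI (T ^ (286 * k)) (T ^ (960 * k)), dvi n q * (1 - Real.log q / B)
          = ∑ q ∈ (n.primeFactors).filter (fun q => q ≤ T ^ (960 * k)), (1 - Real.log q / B) := by
        unfold dvi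
        simp_rw [ite_mul, one_mul, zero_mul]
        rw [← sum_filter]
        apply sum_congr _ fun _ _ => rfl
        ext q
        rw [mem_filter, mem_filter, mem_prI, Nat.mem_primeFactors]
        constructor
        · rintro ⟨⟨⟨h1, h2⟩, h4⟩, h5⟩
          exact ⟨⟨h4, h5, hn0.ne'⟩, h2⟩
        · rintro ⟨⟨h4, h5, _⟩, h2⟩
          exact ⟨⟨⟨hz q h4 h5, h2⟩, h4⟩, h5⟩
      rw [e1, ← sum_filter_add_sum_filter_not n.primeFactors (fun q => q ≤ T ^ (960 * k))]
      have h6 : ∑ q ∈ (n.primeFactors).filter (fun q => ¬ q ≤ T ^ (960 * k)),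
          (1 - Real.log q / B) ≤ 0 := by
        apply sum_nonpos
        intro q hq
        have h7 := (mem_filter.mp hq).2
        push Not at h7
        rw [sub_nonpos, le_div_iff₀ hB0, one_mul, hB]
        have h8 : Real.log ((T ^ (960 * k) : ℕ) : ℝ) ≤ Real.log q :=
          Real.log_le_log (by positivity) (by exact_mod_cast h7.le)
        push_cast at h8
        rw [Real.log_pow] at h8
        push_cast at h8
        exact h8
      linarith
    have hlog : ∑ q ∈ n.primeFactors, Real.log q = Real.log n := by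
      rw [← Real.log_prod]
      · congr 1
        rw [← Nat.cast_prod, Nat.prod_primeFactors_of_squarefree hsq]
      · intro q hq
        have := (Nat.prime_of_mem_primeFactors hq).pos
        positivity
    have hsum : ∑ q ∈ n.primeFactors, (1 - Real.log q / B)
        = #n.primeFactors - Real.log n / B := by
      rw [sum_sub_distrib, sum_const, nsmul_eq_mul, mul_one, ← sum_div, hlog]
    have hln : Real.log n ≤ 2000 * k * Real.log T := by
      have h8 : Real.log n ≤ Real.log ((T ^ (2000 * k) : ℕ) : ℝ) :=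
        Real.log_le_log (by exact_mod_cast hn0) (by exact_mod_cast hn)
      push_cast at h8
      rw [Real.log_pow] at h8
      push_cast at h8
      exact h8
    have hdiv : Real.log n / B ≤ 25 / 12 := by
      rw [div_le_iff₀ hB0, hB]
      linarith
    have h3' : (3 : ℝ) ≤ #n.primeFactors := by exact_mod_cast h3
    rw [hsum] at hall
    linarith
  · right
    rw [Nat.squarefree_iff_prime_squarefree] at hsq
    push Not at hsq
    obtain ⟨q, hq, hqq⟩ := hsq
    exact ⟨q, hq, hz q hq ((Dvd.intro q rfl).trans hqq), hqq⟩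

end Pool.Agent.Lib.MP_bae66e_nt.P2
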