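import Pool.Agent.Lib.MP_bae66e_nt.P2.Wt1

/-!
# The weighted sieve as a divisor sum
-/

set_option autoImplicit false

namespace Pool.Agent.Lib.MP_bae66e_nt.P2

open Finset AP3

/-- sign -/
noncomputable def sg (D : ℕ) : ℝ := (-1) ^ #D.primeFactors

/-- multiplicative extension -/
noncomputable def pg (g : ℕ → ℝ) (D : ℕ) : ℝ := ∏ p ∈ D.primeFactors, g p

lemma mg_eq (g : ℕ → ℝ) (D : ℕ) : mg g D = sg D * pg g D := by
  unfold mg sg pg
  rw [prod_neg]

lemma abs_sg (D : ℕ) : |sg D| = 1 := by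
  unfold sg
  rw [abs_pow, abs_neg, abs_one, one_pow]

lemma pg_mul (g : ℕ → ℝ) {p D : ℕ} (hp : p.Prime) (hD : ¬ p ∣ D) (hD0 : D ≠ 0) :
    pg g (p * D) = g p * pg g D := by
  unfold pg
  rw [Nat.primeFactors_mul hp.ne_zero hD0, hp.primeFactors, prod_union, prod_singleton]
  rw [disjoint_singleton_left]
  intro h
  exact hD (Nat.dvd_of_mem_primeFactors h)

lemma pg_dvi {D : ℕ} (hD : Squarefree D) (n : ℕ) : pg (dvi n) D = if D ∣ n then 1 else 0 := by
  unfold pg dvi
  split_ifs with h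
  · apply prod_eq_one
    intro p hp
    rw [if_pos ((Nat.dvd_of_mem_primeFactors hp).trans h)]
  · have : ∃ p ∈ D.primeFactors, ¬ p ∣ n := by
      by_contra hcon
      push Not at hcon
      apply h
      rw [← Nat.prod_primeFactors_of_squarefree hD]
      exact Finset.prod_primes_dvd n (fun p hp => (Nat.prime_of_mem_primeFactors hp).prime) hcon
    obtain ⟨p, hp, hpn⟩ := this
    exact prod_eq_zero hp (if_neg hpn)

lemma pg_inv {D : ℕ} (hD : Squarefree D) : pg inv D = 1 / (D : ℝ) := by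
  unfold pg inv
  rw [prod_div_distrib, prod_const_one, ← Nat.cast_prod, Nat.prod_primeFactors_of_squarefree hD]

/-- largest prime factor -/
def qf (D : ℕ) : ℕ := D.primeFactors.sup id

lemma qf_mul {q l : ℕ} (hq : q.Prime) (hl0 : l ≠ 0) (hl : ∀ p : ℕ, p.Prime → p ∣ l → p < q) :
    qf (q * l) = q := by
  unfold qf
  apply le_antisymm
  · apply Finset.sup_le
    intro p hp
    obtain ⟨h1, h2, _⟩ := Nat.mem_primeFactors.mp hp
    rcases (Nat.Prime.dvd_mul h1).mp h2 with h3 | h3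
    · exact (Nat.prime_dvd_prime_iff_eq h1 hq).mp h3 |>.le
    · exact (hl p h1 h3).le
  · have : q ∈ (q * l).primeFactors :=
      Nat.mem_primeFactors.mpr ⟨hq, Dvd.intro _ rfl, Nat.mul_ne_zero hq.ne_zero hl0⟩
    exact Finset.le_sup (f := id) this

/-- supports -/
noncomputable def DS (T k : ℕ) : ℕ → Finset ℕ
  | 0 => (SP T (T ^ (286 * k)) false (1110 * k * Real.log T)).erase 1
  | i + 1 => (cell T k i ×ˢ SP T (T ^ (286 * k)) true ((ce i : ℝ) * k * Real.log T)).image
      (fun x => x.1 * x.2)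

/-- weights -/
noncomputable def wS (T k : ℕ) : ℕ → ℕ → ℝ
  | 0, D => 1 / 2 * sg D
  | _ + 1, D => -(6 / 11) * (1 - Real.log (qf D) / (960 * k * Real.log T)) * sg (D / qf D)

section
variable {T k : ℕ}

lemma cell_basic (hT : 2 ≤ T) {i q : ℕ} (hq : q ∈ cell T k i) :
    q.Prime ∧ T ^ (286 * k) < q ∧ q ≤ T ^ (ca (i + 1) * k) := by
  unfold cell at hq
  have h := mem_prI.mp hq
  refine ⟨h.2, lt_of_le_of_lt ?_ h.1.1, h.1.2⟩
  apply Nat.pow_le_pow_right (by omega)
  apply Nat.mul_le_mul_right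
  unfold ca; omega

/-- the factor of the largest prime -/
lemma fac_bounds (hT : 2 ≤ T) (hk : 1 ≤ k) {i q : ℕ} (hi : i < 337) (hq : q ∈ cell T k i) :
    0 ≤ 1 - Real.log q / (960 * k * Real.log T) ∧
      1 - Real.log q / (960 * k * Real.log T) ≤ 1 := by
  have hk0 : (0 : ℝ) < k := by exact_mod_cast hk
  have ht0 : 0 < Real.log T := Real.log_pos (by exact_mod_cast hT)
  obtain ⟨hqp, hq1, hq2⟩ := (mem_cell hT).mp hq
  constructor
  · rw [sub_nonneg, div_le_one (by positivity)]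
    refine hq2.trans ?_
    have h4 := ca_le hi
    have h5 : (ca (i + 1) : ℝ) ≤ 960 := by exact_mod_cast (by omega : ca (i + 1) ≤ 960)
    gcongr
  · have h1 : 0 ≤ Real.log q / (960 * k * Real.log T) := by
      apply div_nonneg (Real.log_natCast_nonneg q) (by positivity)
    linarith

lemma DS_inj (hT : 2 ≤ T) (i : ℕ) {y : ℝ} :
    Set.InjOn (fun x : ℕ × ℕ => x.1 * x.2)
      (cell T k i ×ˢ SP T (T ^ (286 * k)) true y : Finset (ℕ × ℕ)) := by
  rintro ⟨q, l⟩ hx ⟨q', l'⟩ hx' heq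
  rw [mem_coe, mem_product] at hx hx'
  simp only at heq hx hx'
  have h1 := cell_basic hT hx.1
  have h1' := cell_basic hT hx'.1
  have h2 := SP_basic T _ _ _ l hx.2
  have h2' := SP_basic T _ _ _ l' hx'.2
  have e1 := qf_mul h1.1 h2.1.ne_zero (fun p hp hpl => ((h2.2 p hp hpl).2).trans h1.2.1)
  have e2 := qf_mul h1'.1 h2'.1.ne_zero (fun p hp hpl => ((h2'.2 p hp hpl).2).trans h1'.2.1)
  rw [heq, e2] at e1
  subst e1
  have := Nat.eq_of_mul_eq_mul_left h1.1.pos heq
  rw [this]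

theorem FG_eq (hT : 2 ≤ T) (g : ℕ → ℝ) :
    FG g T k = 1 + 2 * ∑ i ∈ range 338, ∑ D ∈ DS T k i, wS T k i D * pg g D := by
  have h1 : LS g T (T ^ (286 * k)) false (1110 * k * Real.log T)
      = 1 + 2 * ∑ D ∈ DS T k 0, wS T k 0 D * pg g D := by
    rw [LS_eq_sum]
    unfold DS
    have hmem : (1 : ℕ) ∈ SP T (T ^ (286 * k)) false (1110 * k * Real.log T) :=
      mem_SP.mpr (Or.inl rfl)
    rw [← add_sum_erase _ _ hmem, mg_one, mul_sum]
    congr 1
    apply sum_congr rfl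
    intro D _
    rw [mg_eq]
    unfold wS
    ring
  have h2 : ∀ i ∈ range 337, ∑ D ∈ DS T k (i + 1), wS T k (i + 1) D * pg g D
      = -(6 / 11) * ∑ q ∈ cell T k i, g q * (1 - Real.log q / (960 * k * Real.log T))
        * LS g T (T ^ (286 * k)) true ((ce i : ℝ) * k * Real.log T) := by
    intro i _
    unfold DS
    rw [sum_image (DS_inj hT i), sum_product, mul_sum]
    apply sum_congr rfl
    intro q hq
    rw [LS_eq_sum, mul_sum, mul_sum]
    apply sum_congr rfl
    intro l hl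
    have h3 := cell_basic hT hq
    have h4 := SP_basic T _ _ _ l hl
    have e1 := qf_mul h3.1 h4.1.ne_zero (fun p hp hpl => ((h4.2 p hp hpl).2).trans h3.2.1)
    have hnd : ¬ q ∣ l := fun h => by
      have := (h4.2 q h3.1 h).2
      omega
    simp only [wS]
    rw [e1, Nat.mul_div_cancel_left _ h3.1.pos, pg_mul g h3.1 hnd h4.1.ne_zero, mg_eq]
    ring
  have h3 : ∑ i ∈ range 338, ∑ D ∈ DS T k i, wS T k i D * pg g D
      = ∑ i ∈ range 337, ∑ D ∈ DS T k (i + 1), wS T k (i + 1) D * pg g D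
        + ∑ D ∈ DS T k 0, wS T k 0 D * pg g D :=
    sum_range_succ' (fun i => ∑ D ∈ DS T k i, wS T k i D * pg g D) 337
  unfold FG
  rw [h1, h3, sum_congr rfl h2, ← mul_sum]
  ring

lemma exp_mul_log (hT : 2 ≤ T) (a : ℕ) :
    Real.exp ((a : ℝ) * k * Real.log T) = (T : ℝ) ^ (a * k) := by
  have hT0 : (0 : ℝ) < T := by positivity
  rw [show (a : ℝ) * k * Real.log T = ((a * k : ℕ) : ℝ) * Real.log T by push_cast; ring,
    Real.exp_nat_mul, Real.exp_log hT0]

lemma SP_rough {z D : ℕ} {σ : Bool} {y : ℝ} (hD : D ∈ SP T z σ y) : Rough T D :=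
  fun p hp hpD => ((SP_basic T z σ y D hD).2 p hp hpD).1

lemma wf_main (hT : 2 ≤ T) (hk : 1 ≤ k) {D : ℕ}
    (hD : D ∈ SP T (T ^ (286 * k)) false (1110 * k * Real.log T)) :
    WFy D (1110 * k * Real.log T) := by
  have hk0 : (0 : ℝ) < k := by exact_mod_cast hk
  have ht0 : 0 < Real.log T := Real.log_pos (by exact_mod_cast hT)
  apply SP_wf T _ _ _ (by positivity) _ D hD
  intro _
  push_cast
  rw [Real.log_pow]
  push_cast
  nlinarith [mul_pos hk0 ht0]

lemma wf_cell (hT : 2 ≤ T) (hk : 1 ≤ k) {i l : ℕ}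
    (hl : l ∈ SP T (T ^ (286 * k)) true ((ce i : ℝ) * k * Real.log T)) :
    WFy l ((ce i : ℝ) * k * Real.log T) := by
  have ht0 : 0 < Real.log T := Real.log_pos (by exact_mod_cast hT)
  apply SP_wf T _ _ _ (by positivity) _ l hl
  intro h
  exact absurd h (by decide)

/-- the elements of the supports -/
lemma DS_prop (hT : 2 ≤ T) (hk : 1 ≤ k) {i D : ℕ} (hi : i < 338) (hD : D ∈ DS T k i) :
    Squarefree D ∧ Rough T D ∧ 2 ≤ D ∧ D ≤ T ^ (1110 * k) := by
  have hk0 : (0 : ℝ) < k := by exact_mod_cast hk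
  have ht0 : 0 < Real.log T := Real.log_pos (by exact_mod_cast hT)
  rcases i with _ | i
  · unfold DS at hD
    obtain ⟨hne, hD⟩ := mem_erase.mp hD
    have h2 := SP_basic T _ _ _ D hD
    refine ⟨h2.1, SP_rough hD, ?_, ?_⟩
    · have := h2.1.ne_zero
      omega
    · have h3 := (wf_main hT hk hD).le (by positivity)
      have h4 := exp_mul_log (k := k) hT 1110
      push_cast at h4
      rw [h4] at h3
      exact_mod_cast h3
  · unfold DS at hD
    obtain ⟨⟨q, l⟩, hx, rfl⟩ := mem_image.mp hD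
    rw [mem_product] at hx
    simp only at hx
    have h3 := cell_basic hT hx.1
    have h4 := SP_basic T _ _ _ l hx.2
    have hnd : ¬ q ∣ l := fun h => by
      have := (h4.2 q h3.1 h).2
      omega
    have hTz : T ≤ T ^ (286 * k) := by
      calc T = T ^ 1 := (pow_one T).symm
        _ ≤ T ^ (286 * k) := Nat.pow_le_pow_right (by omega) (by omega)
    have hTq : T < q := by omega
    have hl1 : 1 ≤ l := Nat.pos_of_ne_zero h4.1.ne_zero
    refine ⟨?_, ?_, ?_, ?_⟩
    · exact (Nat.squarefree_mul ((Nat.Prime.coprime_iff_not_dvd h3.1).mpr hnd)).mpr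
        ⟨h3.1.squarefree, h4.1⟩
    · apply Rough.mul _ (SP_rough hx.2)
      intro p hp hpq
      rwa [(Nat.prime_dvd_prime_iff_eq hp h3.1).mp hpq]
    · calc 2 ≤ q := h3.1.two_le
        _ = q * 1 := (mul_one q).symm
        _ ≤ q * l := Nat.mul_le_mul_left q hl1
    · have h5 := (wf_cell hT hk hx.2).le (by positivity)
      rw [exp_mul_log hT] at h5
      have h6 : l ≤ T ^ (ce i * k) := by exact_mod_cast h5
      have hce : ca (i + 1) + ce i ≤ 1110 := by
        have := ca_le (i := i) (by omega)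
        unfold ce
        omega
      calc q * l ≤ T ^ (ca (i + 1) * k) * T ^ (ce i * k) := Nat.mul_le_mul h3.2.2 h6
        _ = T ^ ((ca (i + 1) + ce i) * k) := by rw [← pow_add]; ring_nf
        _ ≤ T ^ (1110 * k) := Nat.pow_le_pow_right (by omega) (Nat.mul_le_mul_right _ hce)

lemma abs_wS_le (hT : 2 ≤ T) (hk : 1 ≤ k) {i D : ℕ} (hi : i < 338) (hD : D ∈ DS T k i) :
    |wS T k i D| ≤ 1 := by
  rcases i with _ | i
  · simp only [wS]
    rw [abs_mul, abs_sg]
    norm_num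
  · unfold DS at hD
    obtain ⟨⟨q, l⟩, hx, rfl⟩ := mem_image.mp hD
    rw [mem_product] at hx
    simp only at hx
    have h3 := cell_basic hT hx.1
    have h4 := SP_basic T _ _ _ l hx.2
    have e1 := qf_mul h3.1 h4.1.ne_zero (fun p hp hpl => ((h4.2 p hp hpl).2).trans h3.2.1)
    simp only [wS]
    rw [e1, abs_mul, abs_sg, mul_one, abs_mul]
    obtain ⟨h5, h6⟩ := fac_bounds hT hk (i := i) (by omega) hx.1
    rw [abs_of_nonneg h5, abs_neg, abs_of_pos (by norm_num : (0 : ℝ) < 6 / 11)]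
    nlinarith

end

end Pool.Agent.Lib.MP_bae66e_nt.P2
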