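import Pool.Agent.Lib.MP_bae66e_nt.P2.Wt2
import Pool.Agent.Lib.MP_bae66e_nt.P2.GDefs
import Pool.Agent.Lib.MP_bae66e_nt.AP3.Bounds

/-!
# Classes of moduli, combined weights, bounds
-/

set_option autoImplicit false

namespace Pool.Agent.Lib.MP_bae66e_nt.P2

open Finset AP3

open Classical in
/-- combined weights -/
noncomputable def WW (T k D : ℕ) : ℝ :=
  ∑ i ∈ range 338, if D ∈ DS T k i then wS T k i D else 0

/-- the moduli -/
noncomputable def DD' (T k : ℕ) : Finset ℕ := dset T (T ^ (1110 * k))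

open Classical in
/-- the classes -/
noncomputable def clW (T k : ℕ) (x : ℕ × ℕ) : Cls where
  D := (DS T k x.1).filter (fun D => Nat.log 2 (D - 1) = x.2)
  w := fun D => if D ∈ DS T k x.1 then wS T k x.1 D else 0
  Q := 2 ^ x.2
  P := if x.1 = 0 then 1 else (T : ℝ) ^ (ca x.1 * k)
  Lam := if x.1 = 0 then (T : ℝ) ^ (1110 * k) else (T : ℝ) ^ (ce (x.1 - 1) * k)

/-- number of dyadic blocks -/
def JJ (T k : ℕ) : ℕ := Nat.log 2 (T ^ (2000 * k)) + 1

/-- the index set -/
def IW (T k : ℕ) : Finset (ℕ × ℕ) := range 338 ×ˢ range (JJ T k)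

section
variable {T k : ℕ}

lemma DS_subset (hT : 2 ≤ T) (hk : 1 ≤ k) {i : ℕ} (hi : i < 338) : DS T k i ⊆ DD' T k := by
  intro D hD
  obtain ⟨h1, h2, h3, h4⟩ := DS_prop hT hk hi hD
  exact mem_dset.mpr ⟨⟨⟨by omega, h4⟩, h2⟩, h1⟩

lemma sum_WW (hT : 2 ≤ T) (hk : 1 ≤ k) (f : ℕ → ℝ) :
    ∑ D ∈ DD' T k, WW T k D * f D = ∑ i ∈ range 338, ∑ D ∈ DS T k i, wS T k i D * f D := by
  classical
  unfold WW
  simp_rw [sum_mul]
  rw [sum_comm]
  apply sum_congr rfl
  intro i hi
  simp_rw [ite_mul, zero_mul]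
  rw [← sum_filter]
  apply sum_congr _ fun _ _ => rfl
  ext D
  rw [mem_filter]
  constructor
  · rintro ⟨_, h⟩; exact h
  · intro h; exact ⟨DS_subset hT hk (mem_range.mp hi) h, h⟩

lemma abs_WW_le (hT : 2 ≤ T) (hk : 1 ≤ k) (D : ℕ) : |WW T k D| ≤ 338 := by
  classical
  unfold WW
  calc |∑ i ∈ range 338, if D ∈ DS T k i then wS T k i D else 0|
      ≤ ∑ i ∈ range 338, |if D ∈ DS T k i then wS T k i D else 0| := abs_sum_le_sum_abs _ _
    _ ≤ ∑ i ∈ range 338, (1 : ℝ) := by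
        apply sum_le_sum
        intro i hi
        split_ifs with h
        · exact abs_wS_le hT hk (mem_range.mp hi) h
        · simp
    _ = 338 := by simp

lemma FG_dvi_eq (hT : 2 ≤ T) (hk : 1 ≤ k) (n : ℕ) :
    1 / 2 * FG (dvi n) T k = 1 / 2 + ∑ D ∈ DD' T k, WW T k D * (if D ∣ n then 1 else 0) := by
  rw [FG_eq hT, sum_WW hT hk]
  have : ∀ i ∈ range 338, ∑ D ∈ DS T k i, wS T k i D * pg (dvi n) D
      = ∑ D ∈ DS T k i, wS T k i D * (if D ∣ n then 1 else 0) := by
    intro i hi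
    apply sum_congr rfl
    intro D hD
    rw [pg_dvi (DS_prop hT hk (mem_range.mp hi) hD).1]
  rw [sum_congr rfl this]
  ring

lemma MF_eq (hT : 2 ≤ T) (hk : 1 ≤ k) :
    1 / 2 * MF T k = 1 / 2 + ∑ D ∈ DD' T k, WW T k D * (1 / (D : ℝ)) := by
  rw [← FG_inv, FG_eq hT, sum_WW hT hk]
  have : ∀ i ∈ range 338, ∑ D ∈ DS T k i, wS T k i D * pg inv D
      = ∑ D ∈ DS T k i, wS T k i D * (1 / (D : ℝ)) := by
    intro i hi
    apply sum_congr rfl
    intro D hD
    rw [pg_inv (DS_prop hT hk (mem_range.mp hi) hD).1]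
  rw [sum_congr rfl this]
  ring

lemma log_lt_JJ (hT : 2 ≤ T) (hk : 1 ≤ k) {i D : ℕ} (hi : i < 338) (hD : D ∈ DS T k i) :
    Nat.log 2 (D - 1) ∈ range (JJ T k) := by
  obtain ⟨_, _, _, h4⟩ := DS_prop hT hk hi hD
  rw [mem_range]
  unfold JJ
  apply Nat.lt_succ_of_le
  apply Nat.log_mono_right
  calc D - 1 ≤ D := Nat.sub_le _ _
    _ ≤ T ^ (1110 * k) := h4
    _ ≤ T ^ (2000 * k) := Nat.pow_le_pow_right (by omega) (Nat.mul_le_mul_right _ (by norm_num))

/-- sums over the classes -/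
lemma sum_cl (hT : 2 ≤ T) (hk : 1 ≤ k) (f : ℕ → ℝ) :
    ∑ x ∈ IW T k, ∑ D ∈ (clW T k x).D, (clW T k x).w D * f D
      = ∑ D ∈ DD' T k, WW T k D * f D := by
  classical
  rw [sum_WW hT hk]
  unfold IW
  rw [sum_product]
  apply sum_congr rfl
  intro i hi
  have h1 : ∀ D ∈ DS T k i, Nat.log 2 (D - 1) ∈ range (JJ T k) :=
    fun D hD => log_lt_JJ hT hk (mem_range.mp hi) hD
  rw [← sum_fiberwise_of_maps_to h1]
  apply sum_congr rfl
  intro j _
  unfold clW
  simp only
  apply sum_congr rfl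
  intro D hD
  rw [if_pos (mem_filter.mp hD).1]

lemma Fc_clW (hT : 2 ≤ T) (hk : 1 ≤ k) (n : ℕ) :
    Fc (IW T k) (clW T k) n = ∑ D ∈ DD' T k, WW T k D * (if D ∣ n then 1 else 0) := by
  unfold Fc
  exact sum_cl hT hk (fun D => if D ∣ n then 1 else 0)

lemma Mc_clW (hT : 2 ≤ T) (hk : 1 ≤ k) :
    Mc (IW T k) (clW T k) = ∑ D ∈ DD' T k, WW T k D * (1 / (D : ℝ))
      * ∑ D' ∈ DD' T k, WW T k D' * (if Nat.Coprime D D' then 1 / (D' : ℝ) else 0) := by
  classical
  have h1 := sum_cl hT hk (fun D => (1 / (D : ℝ))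
      * ∑ D' ∈ DD' T k, WW T k D' * (if Nat.Coprime D D' then 1 / (D' : ℝ) else 0))
  have e1 : ∑ D ∈ DD' T k, WW T k D * (1 / (D : ℝ))
      * ∑ D' ∈ DD' T k, WW T k D' * (if Nat.Coprime D D' then 1 / (D' : ℝ) else 0)
      = ∑ D ∈ DD' T k, WW T k D * ((1 / (D : ℝ))
      * ∑ D' ∈ DD' T k, WW T k D' * (if Nat.Coprime D D' then 1 / (D' : ℝ) else 0)) := by
    apply sum_congr rfl
    intro D _
    ring
  rw [e1, ← h1]
  unfold Mc
  apply sum_congr rfl
  intro x _
  rw [sum_comm]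
  apply sum_congr rfl
  intro D _
  rw [← sum_cl hT hk (fun D' => if Nat.Coprime D D' then 1 / (D' : ℝ) else 0), mul_sum, mul_sum]
  apply sum_congr rfl
  intro x' _
  rw [sum_filter, mul_sum, mul_sum]
  apply sum_congr rfl
  intro D' _
  split_ifs
  · by_cases hD : (D : ℝ) = 0
    · simp [hD]
    · by_cases hD' : (D' : ℝ) = 0
      · simp [hD']
      · field_simp
  · simp

/-- number of rough squarefree divisors -/
lemma card_rough_divisors_le {M t n : ℕ} (hT : 1 ≤ T) (hn0 : 0 < n) (hn : n ≤ T ^ M) :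
    #((dset T t).filter (fun D => D ∣ n)) ≤ 2 ^ M := by
  classical
  set S := n.primeFactors.filter (fun p => T < p) with hS
  have h1 : #S ≤ M := by
    by_contra hlt
    push Not at hlt
    have h4 : (T + 1) ^ #S ≤ ∏ p ∈ S, p := by
      rw [← prod_const]
      apply prod_le_prod'
      intro p hp
      exact (mem_filter.mp hp).2
    have h5 : ∏ p ∈ S, p ≤ n := by
      calc ∏ p ∈ S, p ≤ ∏ p ∈ n.primeFactors, p := by
            apply prod_le_prod_of_subset_of_one_le' (filter_subset _ _)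
            intro p hp _
            exact (Nat.prime_of_mem_primeFactors hp).one_lt.le
        _ ≤ n := Nat.le_of_dvd hn0 (Nat.prod_primeFactors_dvd n)
    have h7 : (T + 1) ^ (M + 1) ≤ (T + 1) ^ #S := Nat.pow_le_pow_right (by omega) hlt
    have h8 : T ^ M < (T + 1) ^ (M + 1) := by
      calc T ^ M ≤ (T + 1) ^ M := Nat.pow_le_pow_left (by omega) _
        _ < (T + 1) ^ (M + 1) := Nat.pow_lt_pow_right (by omega) (by omega)
    omega
  calc #((dset T t).filter (fun D => D ∣ n)) ≤ #S.powerset := by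
        apply card_le_card_of_injOn (fun d => d.primeFactors)
        · intro d hd
          obtain ⟨h2, h3⟩ := mem_filter.mp (mem_coe.mp hd)
          have h2' := mem_dset.mp h2
          rw [mem_coe, mem_powerset]
          intro p hp
          have hp' := Nat.mem_primeFactors.mp hp
          rw [hS, mem_filter, Nat.mem_primeFactors]
          exact ⟨⟨hp'.1, hp'.2.1.trans h3, hn0.ne'⟩, h2'.1.2 p hp'.1 hp'.2.1⟩
        · intro a ha b hb hab
          have h1 := mem_dset.mp (mem_filter.mp (mem_coe.mp ha)).1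
          have h2 := mem_dset.mp (mem_filter.mp (mem_coe.mp hb)).1
          simp only at hab
          rw [← Nat.prod_primeFactors_of_squarefree h1.2,
            ← Nat.prod_primeFactors_of_squarefree h2.2, hab]
    _ = 2 ^ #S := card_powerset _
    _ ≤ 2 ^ M := Nat.pow_le_pow_right (by norm_num) h1

lemma abs_sum_WW_le (hT : 2 ≤ T) (hk : 1 ≤ k) {n : ℕ} (hn0 : 0 < n) (hn : n ≤ T ^ (2000 * k)) :
    |∑ D ∈ DD' T k, WW T k D * (if D ∣ n then 1 else 0)| ≤ 338 * 2 ^ (2000 * k) := by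
  calc |∑ D ∈ DD' T k, WW T k D * (if D ∣ n then 1 else 0)|
      ≤ ∑ D ∈ DD' T k, |WW T k D * (if D ∣ n then 1 else 0)| := abs_sum_le_sum_abs _ _
    _ ≤ ∑ D ∈ DD' T k, (if D ∣ n then 338 else 0) := by
        apply sum_le_sum
        intro D _
        split_ifs
        · rw [mul_one]; exact abs_WW_le hT hk D
        · simp
    _ = #((DD' T k).filter (fun D => D ∣ n)) * 338 := by
        rw [← sum_filter, sum_const, nsmul_eq_mul]
    _ ≤ (2 : ℝ) ^ (2000 * k) * 338 := by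
        apply mul_le_mul_of_nonneg_right _ (by norm_num)
        have := card_rough_divisors_le (T := T) (t := T ^ (1110 * k)) (by omega) hn0 hn
        exact_mod_cast this
    _ = _ := mul_comm _ _

lemma wf_of_wfy {l : ℕ} {y Lam : ℝ} (h : WFy l y) (hLam : Real.exp y = Lam) : WF Lam l := by
  intro N hN hNL
  have hN0 : 0 < N := by linarith
  obtain ⟨m, n, h1, h2, h3⟩ := h (Lam / N) N (by rw [le_div_iff₀ hN0]; linarith) hN
    (by rw [hLam]; field_simp)
  refine ⟨m, n, h1, h3, ?_⟩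
  rwa [le_div_iff₀ hN0] at h2

/-- power comparison -/
lemma pow_le_rpow {L : ℕ} (a : ℕ) (s : ℝ) (hT : 2 ≤ T) (hL : 1 ≤ L)
    (h : (a : ℝ) * Real.log T ≤ s * Real.log L) : (T : ℝ) ^ a ≤ (L : ℝ) ^ s := by
  have hT0 : (0 : ℝ) < T := by positivity
  have hL0 : (0 : ℝ) < L := by exact_mod_cast hL
  have e1 : (T : ℝ) ^ a = Real.exp ((a : ℝ) * Real.log T) := by
    rw [Real.exp_nat_mul, Real.exp_log hT0]
  rw [e1, Real.rpow_def_of_pos hL0]
  apply Real.exp_le_exp.mpr
  linarith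

lemma two_le_of_log (hTlog : 11 ≤ Real.log T) : 2 ≤ T := by
  by_contra hcon
  have : T = 0 ∨ T = 1 := by omega
  rcases this with h | h
  · rw [h] at hTlog; norm_num at hTlog
  · rw [h] at hTlog; norm_num at hTlog

lemma levels (hk : 1 ≤ k) (hTlog : 11 ≤ Real.log T) {L : ℕ} (hL : 1 ≤ L)
    (hLT : (T : ℝ) ^ (2000 * k) ≤ 8 * L) :
    (T : ℝ) ^ (1110 * k) ≤ (L : ℝ) ^ (0.5555 : ℝ) ∧
      (T : ℝ) ^ (1999 * k) ≤ (L : ℝ) ^ (1 - 4 * 0.0001 : ℝ) := by
  have hT := two_le_of_log hTlog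
  have hT0 : (0 : ℝ) < T := by positivity
  have hL0 : (0 : ℝ) < L := by exact_mod_cast hL
  have hk1 : (1 : ℝ) ≤ k := by exact_mod_cast hk
  -- the size of `L`
  have hlogL : 2000 * k * Real.log T - 2.08 ≤ Real.log L := by
    have h1 := Real.log_le_log (by positivity) hLT
    rw [Real.log_pow, Real.log_mul (by norm_num) hL0.ne'] at h1
    push_cast at h1
    have h2 : Real.log 8 ≤ 2.08 := by
      have h3 : Real.log 8 = 3 * Real.log 2 := by
        rw [show (8 : ℝ) = 2 ^ 3 by norm_num, Real.log_pow]; norm_num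
      rw [h3]
      have := Real.log_two_lt_d9
      linarith
    linarith
  have hkt : 11 ≤ (k : ℝ) * Real.log T := by nlinarith
  constructor
  · apply pow_le_rpow _ _ hT hL
    push_cast
    nlinarith
  · apply pow_le_rpow _ _ hT hL
    push_cast
    nlinarith

lemma clW_dyadic (hT : 2 ≤ T) (hk : 1 ≤ k) {i j : ℕ} (hi : i < 338) :
    ∀ D ∈ (clW T k (i, j)).D, 2 ^ j < D ∧ D ≤ 2 * 2 ^ j := by
  intro D hD
  have hD' : D ∈ DS T k i ∧ Nat.log 2 (D - 1) = j := mem_filter.mp hD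
  obtain ⟨h1, h2⟩ := hD'
  obtain ⟨_, _, h3, _⟩ := DS_prop hT hk hi h1
  have h4 : 2 ^ j ≤ D - 1 := by
    rw [← h2]; exact Nat.pow_log_le_self 2 (by omega)
  have h5 : D - 1 < 2 ^ (j + 1) := by
    rw [← h2]; exact Nat.lt_pow_succ_log_self (by norm_num) _
  rw [pow_succ] at h5
  omega

lemma clW_fac (hT : 2 ≤ T) (hk : 1 ≤ k) {i j : ℕ} :
    ∀ D ∈ (clW T k (i, j)).D, ∃ p l : ℕ, D = p * l ∧ (p : ℝ) ≤ (clW T k (i, j)).P ∧
      WF (clW T k (i, j)).Lam l := by
  intro D hD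
  have h1 : D ∈ DS T k i := (mem_filter.mp hD).1
  rcases i with _ | i
  · refine ⟨1, D, (one_mul D).symm, ?_, ?_⟩
    · simp only [clW]
      rw [if_pos trivial]
      norm_num
    · simp only [clW]
      rw [if_pos trivial]
      unfold DS at h1
      have h2 := wf_main hT hk (mem_erase.mp h1).2
      apply wf_of_wfy h2
      have h4 := exp_mul_log (k := k) hT 1110
      push_cast at h4
      exact h4
  · unfold DS at h1
    obtain ⟨⟨q, l⟩, hx, rfl⟩ := mem_image.mp h1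
    rw [mem_product] at hx
    simp only at hx
    have h3 := cell_basic hT hx.1
    refine ⟨q, l, rfl, ?_, ?_⟩
    · simp only [clW]
      rw [if_neg (by omega)]
      exact_mod_cast h3.2.2
    · simp only [clW]
      rw [if_neg (by omega), Nat.add_sub_cancel]
      exact wf_of_wfy (wf_cell hT hk hx.2) (exp_mul_log hT _)

set_option maxRecDepth 4000 in
/-- the classes are admissible -/
theorem good_clW (hk : 1 ≤ k) (hTlog : 11 ≤ Real.log T) {L k' : ℕ} (hL : 1 ≤ L)
    (hLT : (T : ℝ) ^ (2000 * k) ≤ 8 * L)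
    (hk' : ∀ ℓ : ℕ, ℓ.Prime → ℓ ∣ k' → ℓ ≤ T) {x : ℕ × ℕ} (hx : x ∈ IW T k) :
    Good k' T L 0.5555 0.0001 (clW T k x) := by
  classical
  have hT := two_le_of_log hTlog
  have hT1 : (1 : ℝ) ≤ T := by exact_mod_cast (by omega : 1 ≤ T)
  obtain ⟨i, j⟩ := x
  unfold IW at hx
  rw [mem_product, mem_range, mem_range] at hx
  simp only at hx
  obtain ⟨hi, _⟩ := hx
  obtain ⟨hlev1, hlev2⟩ := levels hk hTlog hL hLT
  have hmemD : ∀ D ∈ (clW T k (i, j)).D, D ∈ DS T k i := by
    intro D hD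
    exact (mem_filter.mp hD).1
  have hdy := clW_dyadic hT hk (j := j) hi
  refine ⟨Nat.one_le_two_pow, fun D hD => (hdy D hD).1, fun D hD => (hdy D hD).2, ?_, ?_, ?_, ?_,
    ?_, ?_, ?_, ?_, clW_fac hT hk⟩
  · intro D hD
    exact (DS_prop hT hk hi (hmemD D hD)).1
  · intro D hD
    have h1 := (DS_prop hT hk hi (hmemD D hD)).2.1
    by_contra hcop
    obtain ⟨q, hq, hq1, hq2⟩ := Nat.Prime.not_coprime_iff_dvd.mp hcop
    have h2 := hk' q hq hq1
    have h3 := h1 q hq hq2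
    omega
  · intro D hD
    exact (DS_prop hT hk hi (hmemD D hD)).2.1
  · intro D
    simp only [clW]
    split_ifs with h
    · exact abs_wS_le hT hk hi h
    · simp
  · simp only [clW]
    split_ifs
    · exact le_rfl
    · exact one_le_pow₀ hT1
  · simp only [clW]
    split_ifs
    · exact one_le_pow₀ hT1
    · exact one_le_pow₀ hT1
  · simp only [clW]
    split_ifs with h
    · rw [one_mul]; exact hlev1
    · refine le_trans ?_ hlev1
      rw [← pow_add]
      apply pow_le_pow_right₀ hT1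
      rw [← add_mul]
      apply Nat.mul_le_mul_right
      have h2 := ca_le (i := i - 1) (by omega)
      have h3 : i - 1 + 1 = i := by omega
      rw [h3] at h2
      unfold ce
      rw [h3]
      omega
  · simp only [clW]
    split_ifs with h
    · left
      apply Real.one_le_rpow (by exact_mod_cast hL)
      norm_num
    · right
      refine le_trans ?_ hlev2
      rw [← pow_mul, ← pow_add]
      apply pow_le_pow_right₀ hT1
      have h2 := ca_le (i := i - 1) (by omega)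
      have h3 : i - 1 + 1 = i := by omega
      rw [h3] at h2
      have h4 : ca i * 2 + ce (i - 1) ≤ 1999 := by
        unfold ce
        rw [h3]
        omega
      calc ca i * k * 2 + ce (i - 1) * k = (ca i * 2 + ce (i - 1)) * k := by ring
        _ ≤ 1999 * k := Nat.mul_le_mul_right _ h4

end

end Pool.Agent.Lib.MP_bae66e_nt.P2
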